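import Mathlib

/-!
AX (smooth approximation, exact on a set).  `exists_contMDiffMap_forall_mem_convex_of_local` (Mathlib/Geometry/Manifold/PartitionOfUnity) on the
manifold `ℂ` (model `𝓘(ℝ, ℂ)`, `n = 2`) with the convex sets `t x = univ` for `‖x‖ > r`, `t x = {W x}` for `‖x‖ ≤ r`, `x ∈ A`, and
`t x = closedBall (W x) (‖W x‖ / 2)` for `‖x‖ ≤ r`, `x ∉ A`.  Local sections: at `x` with `‖x‖ > r` the function `0` on the open set `{r < ‖·‖}`;
at `x ∈ A`, `‖x‖ ≤ r`: the function `W` itself on a neighbourhood where it is `C²` (`ContDiffAt.contDiffOn`; `W y` is in both kinds of sets); at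
`x ∉ A`, `‖x‖ ≤ r`: the constant `W x` on a neighbourhood disjoint from `A` where `‖W y - W x‖ ≤ ‖W y‖ / 2` (`W` is continuous and `W x ≠ 0`).
-/

namespace TN
open Metric Set Filter Topology
open scoped Manifold ContDiff

open Classical in
/-- the convex sets -/
noncomputable def AX_t (r : ℝ) (W : ℂ → ℂ) (A : Set ℂ) (x : ℂ) : Set ℂ :=
  if r < ‖x‖ then univ else if x ∈ A then {W x} else closedBall (W x) (‖W x‖ / 2)

theorem approx {r : ℝ} (hr : r < 1) {W : ℂ → ℂ} {A : Set ℂ} (hW : ContinuousOn W (ball 0 1))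
    (hAcl : ∀ x ∈ ball (0:ℂ) 1, x ∉ A → ∃ ε > 0, ∀ y, dist y x < ε → y ∉ A)
    (hAs : ∀ x ∈ ball (0:ℂ) 1, x ∈ A → ContDiffAt ℝ 2 W x)
    (hne : ∀ x ∈ ball (0:ℂ) 1, x ∉ A → W x ≠ 0) :
    ∃ V : ℂ → ℂ, ContDiff ℝ 2 V ∧ (∀ x, ‖x‖ ≤ r → x ∈ A → V x = W x) ∧
      ∀ x, ‖x‖ ≤ r → x ∉ A → ‖V x - W x‖ ≤ ‖W x‖ / 2 := by
  have hconv : ∀ x, Convex ℝ (AX_t r W A x) := by
    intro x
    unfold AX_t
    split_ifs
    · exact convex_univ
    · exact convex_singleton _
    · exact convex_closedBall _ _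
  have hself : ∀ y, W y ∈ AX_t r W A y := by
    intro y
    unfold AX_t
    split_ifs
    · exact mem_univ _
    · exact mem_singleton _
    · exact mem_closedBall_self (by positivity)
  have hloc : ∀ x : ℂ, ∃ U ∈ 𝓝 x, ∃ g : ℂ → ℂ,
      ContMDiffOn 𝓘(ℝ, ℂ) 𝓘(ℝ, ℂ) ((2:ℕ∞) : WithTop ℕ∞) g U ∧ ∀ y ∈ U, g y ∈ AX_t r W A y := by
    intro x
    by_cases hx : r < ‖x‖
    · refine ⟨{y | r < ‖y‖}, (isOpen_lt continuous_const continuous_norm).mem_nhds hx, fun _ => 0,
        contMDiffOn_const, ?_⟩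
      intro y hy
      have hy' : r < ‖y‖ := hy
      unfold AX_t
      rw [if_pos hy']
      exact mem_univ _
    · push Not at hx
      have hxb : x ∈ ball (0:ℂ) 1 := by
        rw [mem_ball, dist_zero_right]
        linarith
      by_cases hxA : x ∈ A
      · obtain ⟨u, hu, hcu⟩ := (hAs x hxb hxA).contDiffOn (m := 2) le_rfl (by simp)
        refine ⟨u, by simpa using hu, W, ?_, fun y _ => hself y⟩
        rw [contMDiffOn_iff_contDiffOn]
        exact hcu
      · obtain ⟨ε, hε, hεA⟩ := hAcl x hxb hxA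
        have hWx := hne x hxb hxA
        have hcW : ContinuousAt W x := hW.continuousAt (isOpen_ball.mem_nhds hxb)
        have h1 : ∀ᶠ y in 𝓝 x, ‖W x - W y‖ < ‖W x‖ / 4 := by
          have := hcW.eventually (ball_mem_nhds (W x) (by positivity : 0 < ‖W x‖ / 4))
          filter_upwards [this] with y hy
          rw [norm_sub_rev]
          simpa [dist_eq_norm] using hy
        have h2 : ∀ᶠ y in 𝓝 x, dist y x < ε := ball_mem_nhds x hε
        refine ⟨_, h1.and h2, fun _ => W x, contMDiffOn_const, ?_⟩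
        rintro y ⟨hy1, hy2⟩
        unfold AX_t
        by_cases hyr : r < ‖y‖
        · rw [if_pos hyr]; exact mem_univ _
        · rw [if_neg hyr, if_neg (hεA y hy2), mem_closedBall, dist_eq_norm]
          have h3 : ‖W x‖ ≤ ‖W x - W y‖ + ‖W y‖ := by
            calc ‖W x‖ = ‖(W x - W y) + W y‖ := by rw [sub_add_cancel]
              _ ≤ _ := norm_add_le _ _
          show ‖W x - W y‖ ≤ ‖W y‖ / 2
          linarith [norm_nonneg (W y)]
  obtain ⟨g, hg⟩ := exists_contMDiffMap_forall_mem_convex_of_local (n := 2) 𝓘(ℝ, ℂ)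
    (t := AX_t r W A) hconv hloc
  refine ⟨g, ?_, ?_, ?_⟩
  · have := g.contMDiff
    rw [contMDiff_iff_contDiff] at this
    exact this
  · intro x hx hxA
    have h := hg x
    unfold AX_t at h
    rw [if_neg (not_lt.2 hx), if_pos hxA] at h
    exact h
  · intro x hx hxA
    have h := hg x
    unfold AX_t at h
    rw [if_neg (not_lt.2 hx), if_neg hxA, mem_closedBall, dist_eq_norm] at h
    exact h

end TN
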