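import Pool.Agent.H12.TN.GP
import Pool.Agent.H12.TN.CP

/-!
Project MP_8a27c0_TN, block PH (section 3.7 of /team-store/H12_8a27c0_general.md; helper60): Poincare-Hopf
inequality for vector fields equivariant under a convex cocompact Fuchsian group.  Common definitions.
All integrals are over the open unit disc `ball 0 1`.
-/

namespace TN
open Metric Set Filter Topology DS MeasureTheory

variable {Γ : Type} [Group Γ]

/-- Wirtinger derivative `∂f/∂z` -/
noncomputable def dz (f : ℂ → ℂ) (x : ℂ) : ℂ :=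
  (fderiv ℝ f x 1 - Complex.I * fderiv ℝ f x Complex.I) / 2

/-- Wirtinger derivative `∂f/∂(conj z)` -/
noncomputable def dzb (f : ℂ → ℂ) (x : ℂ) : ℂ :=
  (fderiv ℝ f x 1 + Complex.I * fderiv ℝ f x Complex.I) / 2

/-- the derivative of `om p q` -/
noncomputable def omD (p q x : ℂ) : ℂ := (p - q) / ((x - q) * (p - x))

/-- the holomorphic vector field `1 / om'` -/
noncomputable def Xf (p q x : ℂ) : ℂ := (x - q) * (p - x) / (p - q)

/-- the height of `g x` above the gap with end points `p`, `q` -/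
noncomputable def Fuchs.ht (F : Fuchs Γ) (p q : ℂ) (g : Γ) (x : ℂ) : ℝ := (om p q (F.act g x)).im

/-- sum over the group -/
noncomputable def Fuchs.S (F : Fuchs Γ) (f : ℂ → ℝ) (x : ℂ) : ℝ := ∑ᶠ g : Γ, f (F.act g x)

/-- equivariant vector fields -/
def Fuchs.Equi (F : Fuchs Γ) (V : ℂ → ℂ) : Prop :=
  ∀ g, ∀ x ∈ ball (0:ℂ) 1, V (F.act g x) = F.dact g x * V x

/-- invariant forms `E d(conj z)` -/
def Fuchs.CoEqui (F : Fuchs Γ) (E : ℂ → ℂ) : Prop :=
  ∀ g, ∀ x ∈ ball (0:ℂ) 1, E (F.act g x) * (starRingEnd ℂ) (F.dact g x) = E x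

/-- invariant functions -/
def Fuchs.Invt (F : Fuchs Γ) (χ : ℂ → ℝ) : Prop :=
  ∀ g, ∀ x ∈ ball (0:ℂ) 1, χ (F.act g x) = χ x

open Classical in
/-- product function in the strip coordinate -/
noncomputable def psiI (p q : ℂ) (τ ρ : ℝ → ℝ) (x : ℂ) : ℝ :=
  if ‖x‖ < 1 then τ (om p q x).re * ρ (om p q x).im else 0

/-- the vector field of a map `H` of the disc -/
noncomputable def vf (H : ℂ → ℂ) (x : ℂ) : ℂ :=
  (H x - x) * ((1 - ‖x‖ ^ 2 : ℝ) : ℂ) / (1 - (starRingEnd ℂ) x * H x)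

/-- a partition function along one period -/
structure Tau (l : ℝ) (τ : ℝ → ℝ) : Prop where
  smooth : ContDiff ℝ 2 τ
  nonneg : ∀ t, 0 ≤ τ t
  supp : ∀ t, l ≤ |t| → τ t = 0
  sum : ∀ t, ∑ᶠ n : ℤ, τ (t + n * l) = 1
  int : ∫ t, τ t = l

/-- a step from `0` to `1` between `a` and `b` -/
structure Step (a b : ℝ) (c : ℝ → ℝ) : Prop where
  smooth : ContDiff ℝ 2 c
  nonneg : ∀ t, 0 ≤ c t
  le_one : ∀ t, c t ≤ 1
  zero : ∀ t, t ≤ a → c t = 0
  one : ∀ t, b ≤ t → c t = 1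

/-- an invariant function which is the step function `c` of the height on the half planes of the gaps and
`1` off them -/
structure Cut (F : Fuchs Γ) {n : ℕ} (p q : Fin n → ℂ) (c : ℝ → ℝ) (χ : ℂ → ℝ) : Prop where
  smooth : ContDiffOn ℝ 2 χ (ball 0 1)
  invt : F.Invt χ
  nonneg : ∀ x ∈ ball (0:ℂ) 1, 0 ≤ χ x
  le_one : ∀ x ∈ ball (0:ℂ) 1, χ x ≤ 1
  near : ∀ i, ∀ x ∈ ball (0:ℂ) 1, (om (p i) (q i) x).im < Real.pi / 2 → χ x = c (om (p i) (q i) x).im
  far : ∀ x ∈ ball (0:ℂ) 1, (∀ i g, Real.pi / 2 ≤ F.ht (p i) (q i) g x) → χ x = 1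

end TN
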