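import Pool.Agent.H60.PH.Base

/-!
ST (functions of one real variable).
`exists_step`: `c t = Real.smoothTransition ((t - a) / (b - a))`.
`exists_tau`: let `c` be a step function between `0` and `l`, `τ t = c (t + l) - c t`.  For `t ≤ 0` it is `c (t + l) ≥ 0`, for `t ≥ 0`
it is `1 - c t ≥ 0`; it vanishes for `|t| ≥ l`; the sum over the integers telescopes: for `t` given only finitely many terms are nonzero,
and `∑_{|n| ≤ N} τ (t + n l) = c (t + (N+1) l) - c (t - N l) = 1` for large `N`.  The integral is
`∫_{-l}^0 c (t + l) + ∫_0^l (1 - c t) = l`.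
`cot_ibp`: `c` vanishes on `[0, a]`; on `[a, b']` `(- cos/sin)' = 1/sin²`; integrate by parts; `c a = 0`, `c b' = 1`; `deriv c = 0` off `[a, b]`.
-/

namespace TN
open Metric Set Filter Topology MeasureTheory

theorem exists_step {a b : ℝ} (hab : a < b) : ∃ c : ℝ → ℝ, Step a b c := by
  have h0 : 0 < b - a := by linarith
  refine ⟨fun t => Real.smoothTransition ((t - a) / (b - a)), ?_, fun t => Real.smoothTransition.nonneg _,
    fun t => Real.smoothTransition.le_one _, fun t ht => ?_, fun t ht => ?_⟩
  · exact (Real.smoothTransition.contDiff (n := 2)).comp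
      ((contDiff_id.sub contDiff_const).div_const _)
  · exact Real.smoothTransition.zero_of_nonpos (div_nonpos_of_nonpos_of_nonneg (by linarith) h0.le)
  · exact Real.smoothTransition.one_of_one_le ((one_le_div h0).2 (by linarith))

theorem exists_tau {l : ℝ} (hl : 0 < l) : ∃ τ : ℝ → ℝ, Tau l τ := by
  obtain ⟨c, hc⟩ := exists_step hl
  have hsupp : ∀ t, l ≤ |t| → c (t + l) - c t = 0 := by
    intro t ht
    rcases le_abs.1 ht with h | h
    · rw [hc.one t h, hc.one (t + l) (by linarith), sub_self]
    · rw [hc.zero t (by linarith), hc.zero (t + l) (by linarith), sub_self]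
  refine ⟨fun t => c (t + l) - c t, ?_, fun t => ?_, hsupp, fun t => ?_, ?_⟩
  · exact (hc.smooth.comp (contDiff_id.add contDiff_const)).sub hc.smooth
  · rcases le_total t 0 with h | h
    · rw [hc.zero t h, sub_zero]
      exact hc.nonneg _
    · rw [hc.one (t + l) (by linarith)]
      linarith [hc.le_one t]
  · obtain ⟨N, hN⟩ := exists_nat_gt ((l + |t|) / l)
    rw [div_lt_iff₀ hl] at hN
    have hinj : Function.Injective (fun j : ℕ => (j : ℤ) - N) := by
      intro i j h
      simp only at h
      omega
    have hs : Function.support (fun n : ℤ => c (t + n * l + l) - c (t + n * l)) ⊆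
        ((Finset.range (2 * N)).map ⟨_, hinj⟩ : Finset ℤ) := by
      intro n hn
      rw [Function.mem_support] at hn
      have h1 : |t + n * l| < l := by
        by_contra h
        exact hn (hsupp _ (not_lt.1 h))
      rw [abs_lt] at h1
      have h2 := neg_abs_le t
      have h3 := le_abs_self t
      have h4 : (n : ℝ) * l < N * l := by linarith
      have h5 : (-(N:ℝ)) * l < n * l := by linarith
      have h6 : (n : ℝ) < N := lt_of_mul_lt_mul_right h4 hl.le
      have h7 : (-(N:ℝ)) < n := lt_of_mul_lt_mul_right h5 hl.le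
      have h8 : n < N := by exact_mod_cast h6
      have h9 : -(N : ℤ) < n := by exact_mod_cast h7
      rw [Finset.mem_coe, Finset.mem_map]
      refine ⟨(n + N).toNat, ?_, ?_⟩
      · rw [Finset.mem_range]
        omega
      · change (((n + N).toNat : ℕ) : ℤ) - N = n
        omega
    rw [finsum_eq_sum_of_support_subset _ hs, Finset.sum_map]
    have h1 : ∀ j ∈ Finset.range (2 * N), c (t + (((⟨fun j : ℕ => (j : ℤ) - N, hinj⟩ :
        ℕ ↪ ℤ) j : ℤ) : ℝ) * l + l) - c (t + (((⟨fun j : ℕ => (j : ℤ) - N, hinj⟩ :
        ℕ ↪ ℤ) j : ℤ) : ℝ) * l) =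
        (fun j : ℕ => c (t + ((j : ℝ) - N) * l)) (j + 1) -
          (fun j : ℕ => c (t + ((j : ℝ) - N) * l)) j := by
      intro j _
      simp only [Function.Embedding.coeFn_mk]
      push_cast
      congr 2
      ring
    rw [Finset.sum_congr rfl h1]
    refine (Finset.sum_range_sub (fun j : ℕ => c (t + ((j : ℝ) - N) * l)) (2 * N)).trans ?_
    rw [hc.one, hc.zero, sub_zero]
    · push_cast
      have h3 := le_abs_self t
      have : t + (0 - (N:ℝ)) * l = t - N * l := by ring
      rw [this]
      linarith
    · push_cast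
      have h2 := neg_abs_le t
      have : t + (2 * (N:ℝ) - N) * l = t + N * l := by ring
      rw [this]
      linarith
  · have hs : Function.support (fun t => c (t + l) - c t) ⊆ Ioc (-l) l := by
      intro t ht
      have h1 : |t| < l := by
        by_contra h
        exact ht (hsupp _ (not_lt.1 h))
      rw [abs_lt] at h1
      exact ⟨h1.1, h1.2.le⟩
    rw [← intervalIntegral.integral_eq_integral_of_support_subset hs]
    have hcc := hc.smooth.continuous
    have hint : ∀ x y : ℝ, IntervalIntegrable c volume x y := fun x y =>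
      hcc.intervalIntegrable x y
    have hint2 : IntervalIntegrable (fun x => c (x + l)) volume (-l) l :=
      (hcc.comp (continuous_id.add continuous_const)).intervalIntegrable _ _
    rw [intervalIntegral.integral_sub hint2 (hint _ _),
      intervalIntegral.integral_comp_add_right, neg_add_cancel,
      ← intervalIntegral.integral_add_adjacent_intervals (hint 0 l) (hint l (l + l)),
      ← intervalIntegral.integral_add_adjacent_intervals (hint (-l) 0) (hint 0 l)]
    have e1 : ∫ x in l..(l + l), c x = l := by
      have : ∫ x in l..(l + l), c x = ∫ x in l..(l + l), (1 : ℝ) := by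
        refine intervalIntegral.integral_congr fun x hx => ?_
        rw [uIcc_of_le (by linarith)] at hx
        exact hc.one x hx.1
      rw [this, intervalIntegral.integral_const]
      simp
    have e2 : ∫ x in (-l)..0, c x = 0 := by
      have : ∫ x in (-l)..0, c x = ∫ x in (-l)..0, (0 : ℝ) := by
        refine intervalIntegral.integral_congr fun x hx => ?_
        rw [uIcc_of_le (by linarith)] at hx
        exact hc.zero x hx.2
      rw [this, intervalIntegral.integral_zero]
    rw [e1, e2]
    ring

theorem step_deriv {a b : ℝ} {c : ℝ → ℝ} (hc : Step a b c) {t : ℝ} (ht : t ≤ a ∨ b ≤ t) : deriv c t = 0 := by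
  rcases ht with h | h
  · refine IsLocalMin.deriv_eq_zero (Filter.Eventually.of_forall fun x => ?_)
    rw [hc.zero t h]
    exact hc.nonneg x
  · refine IsLocalMax.deriv_eq_zero (Filter.Eventually.of_forall fun x => ?_)
    rw [hc.one t h]
    exact hc.le_one x

theorem ST_cont {a b : ℝ} {c : ℝ → ℝ} (hc : Step a b c) : Continuous (deriv c) :=
  hc.smooth.continuous_deriv (by norm_num)

theorem step_int {a b : ℝ} {c : ℝ → ℝ} (hc : Step a b c) (ha : 0 ≤ a) (hb : b ≤ Real.pi) :
    ∫ t in (0:ℝ)..Real.pi, deriv c t = 1 := by
  rw [intervalIntegral.integral_deriv_eq_sub (fun t _ => (hc.smooth.differentiable (by norm_num)) t)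
    ((ST_cont hc).intervalIntegrable _ _), hc.one _ hb, hc.zero _ ha, sub_zero]

theorem cot_ibp {a b b' : ℝ} {c : ℝ → ℝ} (hc : Step a b c) (ha : 0 < a) (hab : a < b) (hb : b ≤ b')
    (hb' : b' < Real.pi) :
    ∫ t in (0:ℝ)..b', c t / Real.sin t ^ 2 =
      (∫ t in (0:ℝ)..Real.pi, deriv c t * (Real.cos t / Real.sin t)) - Real.cos b' / Real.sin b' := by
  have hsin : ∀ t ∈ uIcc a b', Real.sin t ≠ 0 := by
    intro t ht
    rw [uIcc_of_le (by linarith)] at ht
    exact (Real.sin_pos_of_pos_of_lt_pi (by linarith [ht.1]) (by linarith [ht.2])).ne'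
  have hc1 : ContinuousOn (fun t => c t / Real.sin t ^ 2) (uIcc a b') :=
    hc.smooth.continuous.continuousOn.div (Real.continuous_sin.pow 2).continuousOn
      fun t ht => pow_ne_zero 2 (hsin t ht)
  have hc2 : ContinuousOn (fun t => deriv c t * (Real.cos t / Real.sin t)) (uIcc a b') :=
    (ST_cont hc).continuousOn.mul (Real.continuous_cos.continuousOn.div
      Real.continuous_sin.continuousOn hsin)
  have hz1 : ∀ t ∈ uIcc 0 a, c t / Real.sin t ^ 2 = 0 := by
    intro t ht
    rw [uIcc_of_le ha.le] at ht
    rw [hc.zero t ht.2, zero_div]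
  have hz2 : ∀ t ∈ uIcc 0 a, deriv c t * (Real.cos t / Real.sin t) = 0 := by
    intro t ht
    rw [uIcc_of_le ha.le] at ht
    rw [step_deriv hc (Or.inl ht.2), zero_mul]
  have hz3 : ∀ t ∈ uIcc b' Real.pi, deriv c t * (Real.cos t / Real.sin t) = 0 := by
    intro t ht
    rw [uIcc_of_le hb'.le] at ht
    rw [step_deriv hc (Or.inr (hb.trans ht.1)), zero_mul]
  have i1 : IntervalIntegrable (fun t => c t / Real.sin t ^ 2) volume a b' := hc1.intervalIntegrable
  have i2 : IntervalIntegrable (fun t => deriv c t * (Real.cos t / Real.sin t)) volume a b' :=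
    hc2.intervalIntegrable
  have i3 : IntervalIntegrable (fun t => c t / Real.sin t ^ 2) volume 0 a :=
    (continuousOn_const.congr hz1).intervalIntegrable
  have i4 : IntervalIntegrable (fun t => deriv c t * (Real.cos t / Real.sin t)) volume 0 a :=
    (continuousOn_const.congr hz2).intervalIntegrable
  have i5 : IntervalIntegrable (fun t => deriv c t * (Real.cos t / Real.sin t)) volume b' Real.pi :=
    (continuousOn_const.congr hz3).intervalIntegrable
  have e1 : ∫ t in (0:ℝ)..a, c t / Real.sin t ^ 2 = 0 := by
    rw [intervalIntegral.integral_congr hz1, intervalIntegral.integral_zero]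
  have e2 : ∫ t in (0:ℝ)..a, deriv c t * (Real.cos t / Real.sin t) = 0 := by
    rw [intervalIntegral.integral_congr hz2, intervalIntegral.integral_zero]
  have e3 : ∫ t in b'..Real.pi, deriv c t * (Real.cos t / Real.sin t) = 0 := by
    rw [intervalIntegral.integral_congr hz3, intervalIntegral.integral_zero]
  rw [← intervalIntegral.integral_add_adjacent_intervals i3 i1, e1, zero_add,
    ← intervalIntegral.integral_add_adjacent_intervals (i4.trans i2) i5, e3, add_zero,
    ← intervalIntegral.integral_add_adjacent_intervals i4 i2, e2, zero_add]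
  have hG : ∫ t in a..b', (c t / Real.sin t ^ 2 - deriv c t * (Real.cos t / Real.sin t)) =
      (fun t => -(c t * (Real.cos t / Real.sin t))) b' -
        (fun t => -(c t * (Real.cos t / Real.sin t))) a := by
    refine intervalIntegral.integral_eq_sub_of_hasDerivAt
      (f := fun t => -(c t * (Real.cos t / Real.sin t))) (fun t ht => ?_) (i1.sub i2)
    have hs := hsin t ht
    have d1 : HasDerivAt c (deriv c t) t :=
      ((hc.smooth.differentiable (by norm_num)) t).hasDerivAt
    have d2 := (Real.hasDerivAt_cos t).div (Real.hasDerivAt_sin t) hs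
    refine (d1.mul d2).neg.congr_deriv ?_
    have h1 := Real.sin_sq_add_cos_sq t
    have h2 : -Real.sin t * Real.sin t - Real.cos t * Real.cos t = -1 := by linarith
    simp only [Pi.div_apply]
    rw [h2]
    field_simp
    ring
  rw [intervalIntegral.integral_sub i1 i2] at hG
  simp only at hG
  rw [hc.zero a le_rfl, hc.one b' hb] at hG
  linarith

end TN
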