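import Pool.Agent.H60.PH.EX
import Pool.Agent.H60.PH.ST

/-!
CF (the vector field in the collars).  Let `c` be a step function between `y₁/2` and `y₁` (`exists_step`).  For `x` in the disc with `ω = om (p i) (q i) x` put
`C i x = - (1 - c (im ω)) * (M i ω - 2 π w i / l i * re ω * I)` if `im ω ≤ y₁`, and `0` otherwise.  It is invariant under `κ i` (`hl`: `ω` becomes `ω + l i`,
`hMp`), it vanishes for `im ω ≥ y₁`, and it is continuous on the disc (the two definitions agree for `im ω = y₁`: `ContinuousOn.if`).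
`inv_ext` gives an invariant function `N`, equal to `C i` where `im (om (p i) (q i) x) < π/2`, locally `C i ∘ act g` or `0`, hence continuous on the disc.
`V' = V * exp N`.  For `im ω < y₁/2`: `c = 0`, `N x = - M i ω + 2 π w i / l i * re ω * I`, so `V' x = Xf * exp (M i ω) * exp (N x)`.
-/

namespace TN
open Metric Set Filter Topology DS MeasureTheory

variable {Γ : Type} [Group Γ]

open Classical in
/-- the correction on one collar -/
noncomputable def CF_C (p q : ℂ) (l : ℝ) (w : ℤ) (y₁ : ℝ) (c : ℝ → ℝ) (M : ℂ → ℂ) (x : ℂ) : ℂ :=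
  if (om p q x).im ≤ y₁ then -(((1 - c (om p q x).im : ℝ) : ℂ) *
    (M (om p q x) - ((2 * Real.pi * w / l * (om p q x).re : ℝ) : ℂ) * Complex.I)) else 0

theorem CF_om_cont {p q : ℂ} (hp : ‖p‖ = 1) (hq : ‖q‖ = 1) (hpq : p ≠ q) :
    ContinuousOn (om p q) (ball 0 1) := fun _ hx =>
  (om_hasDerivAt hp hq hpq (mem_ball_zero_iff.1 hx)).continuousAt.continuousWithinAt

theorem CF_cont {p q : ℂ} (hp : ‖p‖ = 1) (hq : ‖q‖ = 1) (hpq : p ≠ q) {l : ℝ} {w : ℤ} {y₁ : ℝ}
    {c : ℝ → ℝ} (hc : Step (y₁ / 2) y₁ c) {M : ℂ → ℂ}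
    (hM : ContinuousOn M {ω : ℂ | 0 < ω.im ∧ ω.im ≤ y₁}) :
    ContinuousOn (CF_C p q l w y₁ c M) (ball 0 1) := by
  have h0 := CF_om_cont hp hq hpq
  rw [continuousOn_iff_continuous_domRestrict]
  have h1 : Continuous ((ball (0:ℂ) 1).domRestrict (om p q)) := continuousOn_iff_continuous_domRestrict.1 h0
  have h2 : Continuous (fun x : ball (0:ℂ) 1 => (om p q x).im) := Complex.continuous_im.comp h1
  have h3 : Continuous (fun x : ball (0:ℂ) 1 => (om p q x).re) := Complex.continuous_re.comp h1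
  have h4 : ContinuousOn (fun x : ball (0:ℂ) 1 => M (om p q x)) {x | (om p q x).im ≤ y₁} := by
    refine hM.comp h1.continuousOn fun x hx => ?_
    exact ⟨(om_im_pos hp hq hpq (mem_ball_zero_iff.1 x.2)).1, hx⟩
  refine continuous_if_le h2 continuous_const ?_ continuousOn_const ?_
  · refine ContinuousOn.neg (ContinuousOn.mul ?_ (ContinuousOn.sub h4 ?_))
    · exact (Complex.continuous_ofReal.comp
        (continuous_const.sub (hc.smooth.continuous.comp h2))).continuousOn
    · exact ((Complex.continuous_ofReal.comp (continuous_const.mul h3)).mul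
        continuous_const).continuousOn
  · intro x hx
    rw [hx, hc.one _ le_rfl, sub_self, Complex.ofReal_zero, zero_mul, neg_zero]

theorem collar_field (F : Fuchs Γ) {n : ℕ} {κ : Fin n → Γ} {p q : Fin n → ℂ} (G : Gaps F n κ p q)
    {l : Fin n → ℝ} (hl0 : ∀ i, 0 < l i)
    (hl : ∀ i, ∀ x ∈ ball (0:ℂ) 1, om (p i) (q i) (F.act (κ i) x) = om (p i) (q i) x + l i)
    {w : Fin n → ℤ} {y₁ : ℝ} (hy : 0 < y₁) (hy' : y₁ < Real.pi / 2) {V : ℂ → ℂ}
    (hVc : ContinuousOn V (ball 0 1)) (hVe : F.Equi V) {M : Fin n → ℂ → ℂ}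
    (hM : ∀ i, ContinuousOn (M i) {ω : ℂ | 0 < ω.im ∧ ω.im ≤ y₁})
    (hMp : ∀ i, ∀ ω : ℂ, 0 < ω.im → ω.im ≤ y₁ → M i (ω + l i) = M i ω + 2 * Real.pi * w i * Complex.I)
    (hVM : ∀ i, ∀ x ∈ ball (0:ℂ) 1, (om (p i) (q i) x).im ≤ y₁ →
      V x = Xf (p i) (q i) x * Complex.exp (M i (om (p i) (q i) x))) :
    ∃ V' : ℂ → ℂ, ContinuousOn V' (ball 0 1) ∧ F.Equi V' ∧
      (∀ i, ∀ x ∈ ball (0:ℂ) 1, (om (p i) (q i) x).im < y₁ / 2 → V' x = Xf (p i) (q i) x *
        Complex.exp (((2 * Real.pi * w i / l i * (om (p i) (q i) x).re : ℝ) : ℂ) * Complex.I)) ∧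
      (∀ x ∈ ball (0:ℂ) 1, V' x = 0 ↔ V x = 0) ∧
      ∀ x ∈ ball (0:ℂ) 1, (∀ i g, y₁ ≤ F.ht (p i) (q i) g x) → V' x = V x := by
  obtain ⟨c, hc⟩ := exists_step (a := y₁ / 2) (b := y₁) (by linarith)
  obtain ⟨N, hN1, hN2, hN3, hN4⟩ := inv_ext F G (E := ℂ)
    (c := fun i => CF_C (p i) (q i) (l i) (w i) y₁ c (M i)) hy' (by
      intro i x hx
      have hpos := (om_im_pos (G.ar i).np (G.ar i).nq (G.ar i).ne (mem_ball_zero_iff.1 hx)).1
      simp only [CF_C]
      rw [hl i x hx]
      have e1 : (om (p i) (q i) x + l i).im = (om (p i) (q i) x).im := by simp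
      have e2 : (om (p i) (q i) x + l i).re = (om (p i) (q i) x).re + l i := by simp
      rw [e1, e2]
      by_cases h : (om (p i) (q i) x).im ≤ y₁
      · rw [if_pos h, if_pos h, hMp i _ hpos h]
        have hli : (l i : ℂ) ≠ 0 := Complex.ofReal_ne_zero.2 (hl0 i).ne'
        congr 2
        push_cast
        field_simp
        ring
      · rw [if_neg h, if_neg h])
    (by
      intro i x hx h
      simp only [CF_C]
      split_ifs with h2
      · rw [hc.one _ h, sub_self, Complex.ofReal_zero, zero_mul, neg_zero]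
      · rfl)
  have hNc : ContinuousOn N (ball 0 1) := by
    intro x hx
    obtain ⟨δ, hδ, H⟩ := hN4 x hx
    have hn : ball x δ ∈ 𝓝[ball 0 1] x := mem_nhdsWithin_of_mem_nhds (ball_mem_nhds x hδ)
    rcases H with ⟨i, g, H⟩ | H
    · have h1 : ContinuousOn (fun y => CF_C (p i) (q i) (l i) (w i) y₁ c (M i) (F.act g y))
          (ball 0 1) := by
        refine (CF_cont (G.ar i).np (G.ar i).nq (G.ar i).ne hc (hM i)).comp
          ((act_cont F g).mono ball_subset_closedBall) fun y hy => ?_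
        exact mem_ball_zero_iff.2 (act_lt F g (mem_ball_zero_iff.1 hy))
      refine (h1 x hx).congr_of_eventuallyEq ?_ (H x hx (by simpa using hδ))
      filter_upwards [hn, self_mem_nhdsWithin] with y hy hy1
      exact H y hy1 hy
    · refine (continuousWithinAt_const (b := (0:ℂ))).congr_of_eventuallyEq ?_
        (H x hx (by simpa using hδ))
      filter_upwards [hn, self_mem_nhdsWithin] with y hy hy1
      exact H y hy1 hy
  refine ⟨fun x => V x * Complex.exp (N x), ?_, ?_, ?_, ?_, ?_⟩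
  · exact hVc.mul (Complex.continuous_exp.comp_continuousOn hNc)
  · intro g x hx
    simp only
    rw [hN1 g x hx, hVe g x hx, mul_assoc]
  · intro i x hx h
    simp only
    have h1 : (om (p i) (q i) x).im ≤ y₁ := by linarith
    rw [hN2 i x hx (by linarith), hVM i x hx h1, CF_C, if_pos h1, hc.zero _ h.le, mul_assoc,
      ← Complex.exp_add]
    congr 2
    push_cast
    ring
  · intro x _
    simp only [mul_eq_zero, Complex.exp_ne_zero, or_false]
  · intro x hx h
    simp only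
    rw [hN3 x hx h, Complex.exp_zero, mul_one]

end TN
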