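import Pool.Agent.H60.PH.Base

/-!
SO (sums over the group).  `fin_supp`: `F.proper` (FA) for `max r r'`.  `S_eq`: outside of the finite set all terms vanish
(`finsum_eq_sum_of_support_subset`).  `S_inv`: reindex by right multiplication `g ↦ g * h` (`finsum_comp_equiv (Equiv.mulRight h)`,
`act_mul`).  `S_mul`: `χ (act g x) = χ x`, pull the constant out of the (finite) sum.  `S_smooth`: near a point of the disc `F.S f` is a
finite sum of the functions `f ∘ act g`; `act g` is a smooth map of the disc to itself (complex differentiable on an open set, so `ContDiffOn ℂ`,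
then restrict scalars).  `S_add`: both finite sums over a common finite set.
-/

namespace TN
open Metric Set Filter Topology DS MeasureTheory

variable {Γ : Type} [Group Γ]

theorem act_smooth (F : Fuchs Γ) (g : Γ) {n : ℕ} : ContDiffOn ℝ n (F.act g) (ball 0 1) := by
  have h : ContDiffOn ℂ n (fun x : ℂ => F.u g * (x - F.b g) / (1 - (starRingEnd ℂ) (F.b g) * x))
      (ball 0 1) := by
    refine ContDiffOn.div ?_ ?_ fun x hx => den_ne (F.hb g) (mem_ball_zero_iff.1 hx).le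
    · exact (contDiff_const.mul (contDiff_id.sub contDiff_const)).contDiffOn
    · exact (contDiff_const.sub (contDiff_const.mul contDiff_id)).contDiffOn
  exact h.restrict_scalars ℝ

theorem dact_smooth (F : Fuchs Γ) (g : Γ) {n : ℕ} : ContDiffOn ℝ n (F.dact g) (ball 0 1) := by
  have h : ContDiffOn ℂ n (fun x : ℂ => F.u g * (1 - (starRingEnd ℂ) (F.b g) * F.b g) /
      (1 - (starRingEnd ℂ) (F.b g) * x) ^ 2) (ball 0 1) := by
    refine ContDiffOn.div ?_ ?_ fun x hx => pow_ne_zero _ (den_ne (F.hb g) (mem_ball_zero_iff.1 hx).le)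
    · exact contDiff_const.contDiffOn
    · exact ((contDiff_const.sub (contDiff_const.mul contDiff_id)).pow 2).contDiffOn
  exact h.restrict_scalars ℝ

theorem fin_supp (F : Fuchs Γ) {r r' : ℝ} (hr : r < 1) (hr' : r' < 1) :
    ∃ t : Finset Γ, ∀ g, g ∉ t → ∀ x : ℂ, ‖x‖ ≤ r' → r < ‖F.act g x‖ ∧ r < ‖F.act g⁻¹ x‖ := by
  classical
  have hA := proper F (r := max r r') (max_lt hr hr')
  refine ⟨hA.toFinset ∪ hA.toFinset.image (fun g => g⁻¹), fun g hg x hx => ?_⟩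
  rw [Finset.mem_union, not_or] at hg
  constructor
  · by_contra hlt
    push Not at hlt
    apply hg.1
    rw [Set.Finite.mem_toFinset]
    exact ⟨x, hx.trans (le_max_right _ _), hlt.trans (le_max_left _ _)⟩
  · by_contra hlt
    push Not at hlt
    apply hg.2
    rw [Finset.mem_image]
    refine ⟨g⁻¹, ?_, inv_inv g⟩
    rw [Set.Finite.mem_toFinset]
    exact ⟨x, hx.trans (le_max_right _ _), hlt.trans (le_max_left _ _)⟩

theorem S_eq (F : Fuchs Γ) {f : ℂ → ℝ} {r r' : ℝ} (hf : ∀ x, r < ‖x‖ → f x = 0) {t : Finset Γ}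
    (ht : ∀ g, g ∉ t → ∀ x : ℂ, ‖x‖ ≤ r' → r < ‖F.act g x‖ ∧ r < ‖F.act g⁻¹ x‖) {x : ℂ} (hx : ‖x‖ ≤ r') :
    F.S f x = ∑ g ∈ t, f (F.act g x) := by
  refine finsum_eq_sum_of_support_subset _ fun g hg => ?_
  by_contra hgt
  exact hg (hf _ (ht g hgt x hx).1)

/-- the sum over the inverses -/
theorem S_eq_inv (F : Fuchs Γ) {f : ℂ → ℝ} {r r' : ℝ} (hf : ∀ x, r < ‖x‖ → f x = 0) {t : Finset Γ}
    (ht : ∀ g, g ∉ t → ∀ x : ℂ, ‖x‖ ≤ r' → r < ‖F.act g x‖ ∧ r < ‖F.act g⁻¹ x‖) {x : ℂ} (hx : ‖x‖ ≤ r') :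
    F.S f x = ∑ g ∈ t, f (F.act g⁻¹ x) := by
  have h1 : F.S f x = ∑ᶠ g : Γ, f (F.act g⁻¹ x) :=
    (finsum_comp_equiv (Equiv.inv Γ) (f := fun g => f (F.act g x))).symm
  rw [h1]
  refine finsum_eq_sum_of_support_subset _ fun g hg => ?_
  by_contra hgt
  exact hg (hf _ (ht g hgt x hx).2)

theorem S_inv (F : Fuchs Γ) (f : ℂ → ℝ) (h : Γ) {x : ℂ} (hx : ‖x‖ ≤ 1) : F.S f (F.act h x) = F.S f x := by
  have h1 : F.S f (F.act h x) = ∑ᶠ g : Γ, f (F.act (g * h) x) := by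
    unfold Fuchs.S
    refine finsum_congr fun g => ?_
    rw [act_mul F g h hx]
  rw [h1]
  exact finsum_comp_equiv (Equiv.mulRight h) (f := fun g => f (F.act g x))

theorem S_mul (F : Fuchs Γ) {χ : ℂ → ℝ} (hχ : F.Invt χ) (f : ℂ → ℝ) {x : ℂ} (hx : x ∈ ball (0:ℂ) 1) :
    F.S (fun y => χ y * f y) x = χ x * F.S f x := by
  have h1 : F.S (fun y => χ y * f y) x = ∑ᶠ g : Γ, χ x • f (F.act g x) := by
    unfold Fuchs.S
    refine finsum_congr fun g => ?_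
    show χ (F.act g x) * f (F.act g x) = _
    rw [hχ g x hx, smul_eq_mul]
  rw [h1, ← smul_finsum, smul_eq_mul]
  rfl

theorem S_add (F : Fuchs Γ) {f h : ℂ → ℝ} {r : ℝ} (hr : r < 1) (hf : ∀ x, r < ‖x‖ → f x = 0)
    (hh : ∀ x, r < ‖x‖ → h x = 0) {x : ℂ} (hx : x ∈ ball (0:ℂ) 1) :
    F.S (fun y => f y + h y) x = F.S f x + F.S h x := by
  obtain ⟨t, ht⟩ := fin_supp F hr (mem_ball_zero_iff.1 hx)
  rw [S_eq F hf ht le_rfl, S_eq F hh ht le_rfl, ← Finset.sum_add_distrib]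
  refine S_eq F (r := r) (r' := ‖x‖) ?_ ht le_rfl
  intro y hy
  rw [hf y hy, hh y hy, add_zero]

theorem S_nonneg (F : Fuchs Γ) {f : ℂ → ℝ} (hf : ∀ x, 0 ≤ f x) (x : ℂ) : 0 ≤ F.S f x :=
  finsum_nonneg fun _ => hf _

/-- one term is a lower bound -/
theorem S_ge (F : Fuchs Γ) {f : ℂ → ℝ} {r : ℝ} (hr : r < 1) (hf : ∀ x, r < ‖x‖ → f x = 0)
    (h0 : ∀ x, 0 ≤ f x) (g : Γ) {x : ℂ} (hx : x ∈ ball (0:ℂ) 1) : f (F.act g x) ≤ F.S f x := by
  obtain ⟨t, ht⟩ := fin_supp F hr (mem_ball_zero_iff.1 hx)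
  by_cases hg : g ∈ t
  · rw [S_eq F hf ht le_rfl]
    exact Finset.single_le_sum (f := fun g => f (F.act g x)) (fun _ _ => h0 _) hg
  · rw [hf _ (ht g hg x le_rfl).1]
    exact S_nonneg F h0 x

theorem S_smooth (F : Fuchs Γ) {f : ℂ → ℝ} {r : ℝ} (hr : r < 1) (hf : ∀ x, r < ‖x‖ → f x = 0) {n : ℕ}
    (hs : ContDiffOn ℝ n f (ball 0 1)) : ContDiffOn ℝ n (F.S f) (ball 0 1) := by
  intro x hx
  have hx1 : ‖x‖ < 1 := mem_ball_zero_iff.1 hx
  obtain ⟨t, ht⟩ := fin_supp F hr (r' := (1 + ‖x‖) / 2) (by linarith)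
  have h1 : ContDiffOn ℝ n (fun y => ∑ g ∈ t, f (F.act g y)) (ball 0 1) := by
    refine ContDiffOn.sum fun g _ => ?_
    exact hs.comp (act_smooth F g) fun y hy => mem_ball_zero_iff.2 (act_lt F g (mem_ball_zero_iff.1 hy))
  have h2 : ContDiffAt ℝ n (fun y => ∑ g ∈ t, f (F.act g y)) x := h1.contDiffAt (isOpen_ball.mem_nhds hx)
  have h3 : F.S f =ᶠ[𝓝 x] fun y => ∑ g ∈ t, f (F.act g y) := by
    have h4 : ball (0:ℂ) ((1 + ‖x‖) / 2) ∈ 𝓝 x :=
      isOpen_ball.mem_nhds (mem_ball_zero_iff.2 (by linarith))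
    filter_upwards [h4] with y hy
    exact S_eq F hf ht (mem_ball_zero_iff.1 hy).le
  exact (h2.congr_of_eventuallyEq h3).contDiffWithinAt

end TN
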