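import Pool.Agent.H60.PH.LP
import Pool.Agent.H60.PH.SO

/-!
CR (the core has interior points).  Since `F` is nonelementary the limit set has three different points `a₁, a₂, a₃`: the four end points of two
elements without common fixed point (`AR.lim`, Pool/Agent/H12/TN/FC), see also FD.  Let `K x = 2 x / (1 + ‖x‖²)` (homeomorphism of the disc onto itself,
`K x = x` on the circle).  Direct computation for `‖p‖ = ‖q‖ = 1`:
`re (eta p q x) * ‖p - x‖² / (1 + ‖x‖²) = - im (K x * conj (p - q)) - im (p * conj q)`   (*)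
(`re (I (1 - p conj q)(x - q) conj (p - x)) = - im (..)`, expand).  For `g` and `p' = act g⁻¹ p`, `q' = act g⁻¹ q`:
`eta p q (act g x) = λ * eta p' q' x` with `λ = (1 - ‖b‖²)/‖1 - conj b q'‖² > 0` (`mob_sub`, and
`1 - p conj q = (1-‖b‖²)(1 - p' conj q') / ((1 - conj b p') conj (1 - conj b q'))`).
For `a ∈ F.lim`: `act g a ∈ F.lim`, so `¬ 0 < re (eta (p i) (q i) (act g a))` or `act g a = p i` by `Gaps.gap`; in both cases the affine
function `A y = - im (y * conj (p' - q')) - im (p' * conj q')` satisfies `A a ≤ 0` (for `a = p'`: `A p' = 0`).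
So `A ≤ 0` on the triangle with vertices `a₁, a₂, a₃` (three points of the circle, so not collinear, interior nonempty), and by (*)
`re (eta (p i) (q i) (act g x)) ≤ 0` for all `x` in the disc with `K x` in the triangle; `om_half`.  `K` is continuous and onto a
neighbourhood: take `x₀` with `K x₀` = the centroid (`x₀ = y/(1 + sqrt (1 - ‖y‖²))`), and `ε` by continuity of `K`.
`exists_f0`: let `β` be a `ContDiffBump` at `x₀` with support in `ball x₀ ε ∩ closedBall 0 r`, `t` the finite set of `fin_supp` for `r' = r`, and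
`f₀ = β / (t.card + 1)`.  For `x` in the disc: if no translate of `x` is in `closedBall 0 r` then `F.S f₀ x = 0`; otherwise
`F.S f₀ x = F.S f₀ (act h x)` (`S_inv`) with `‖act h x‖ ≤ r`, a sum of at most `t.card` terms (`S_eq`), each `≤ 1/(t.card + 1)`.
The integral of a continuous nonnegative function, positive at `x₀`, is positive.
-/

namespace TN
open Metric Set Filter Topology DS MeasureTheory

variable {Γ : Type} [Group Γ]

/-- the affine function of a chord -/
noncomputable def CR_A (p q y : ℂ) : ℝ :=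
  -(y * (starRingEnd ℂ) (p - q)).im - (p * (starRingEnd ℂ) q).im

/-- the map `K` -/
noncomputable def CR_K (x : ℂ) : ℂ := ((2 / (1 + ‖x‖ ^ 2) : ℝ) : ℂ) * x

private theorem CR_sq (z : ℂ) : ‖z‖ ^ 2 = z.re ^ 2 + z.im ^ 2 := by
  rw [← Complex.normSq_eq_norm_sq, Complex.normSq_apply]
  ring

private theorem CR_star {p q x : ℂ} (hp : ‖p‖ = 1) (hq : ‖q‖ = 1) :
    (eta p q x).re * ‖p - x‖ ^ 2 = (1 + ‖x‖ ^ 2) * CR_A p q (CR_K x) := by
  have hp2 : p.re ^ 2 + p.im ^ 2 = 1 := by rw [← CR_sq, hp]; norm_num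
  have hq2 : q.re ^ 2 + q.im ^ 2 = 1 := by rw [← CR_sq, hq]; norm_num
  have h1 : (0:ℝ) < 1 + ‖x‖ ^ 2 := by positivity
  have hR : (1 + ‖x‖ ^ 2) * CR_A p q (CR_K x) =
      -2 * (x * (starRingEnd ℂ) (p - q)).im - (1 + ‖x‖ ^ 2) * (p * (starRingEnd ℂ) q).im := by
    unfold CR_A CR_K
    rw [mul_assoc, Complex.im_ofReal_mul]
    field_simp
  rw [hR]
  by_cases hpx : p - x = 0
  · have hx : x = p := (sub_eq_zero.1 hpx).symm
    subst hx
    rw [sub_self, norm_zero, hp]
    simp only [Complex.mul_im, Complex.conj_re, Complex.conj_im, Complex.sub_re, Complex.sub_im,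
      map_sub]
    ring
  · have h2 : (eta p q x).re * ‖p - x‖ ^ 2 =
        (Complex.I * (1 - p * (starRingEnd ℂ) q) * (x - q) * (starRingEnd ℂ) (p - x)).re := by
      have h3 : eta p q x * ((‖p - x‖ ^ 2 : ℝ) : ℂ) =
          Complex.I * (1 - p * (starRingEnd ℂ) q) * (x - q) * (starRingEnd ℂ) (p - x) := by
        rw [← Complex.normSq_eq_norm_sq, ← Complex.mul_conj, eta]
        field_simp
      rw [← h3, Complex.re_mul_ofReal]
    rw [h2, CR_sq x]
    simp only [Complex.mul_im, Complex.mul_re, Complex.conj_re, Complex.conj_im, Complex.sub_re,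
      Complex.sub_im, map_sub, Complex.I_re, Complex.I_im, Complex.one_re, Complex.one_im]
    linear_combination (x.im * q.re - x.re * q.im) * hp2 - (x.im * p.re - x.re * p.im) * hq2

/-- sign of `re eta` from the sign of the affine function -/
private theorem CR_le {p q x : ℂ} (hp : ‖p‖ = 1) (hq : ‖q‖ = 1)
    (h : CR_A p q (CR_K x) ≤ 0) : (eta p q x).re ≤ 0 := by
  have h1 := CR_star (x := x) hp hq
  by_cases hpx : p = x
  · subst hpx
    simp [eta]
  have h2 : 0 < ‖p - x‖ ^ 2 := by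
    have : 0 < ‖p - x‖ := norm_pos_iff.2 (sub_ne_zero.2 hpx)
    positivity
  have h3 : (eta p q x).re * ‖p - x‖ ^ 2 ≤ 0 := by
    rw [h1]
    exact mul_nonpos_of_nonneg_of_nonpos (by positivity) h
  by_contra h4
  push Not at h4
  have := mul_pos h4 h2
  linarith

/-- the affine function is nonpositive at the points of the limit set -/
private theorem CR_lim (F : Fuchs Γ) {n : ℕ} {κ : Fin n → Γ} {p q : Fin n → ℂ}
    (G : Gaps F n κ p q) (i : Fin n) (g : Γ) {a : ℂ} (ha : a ∈ F.lim) :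
    CR_A (F.act g⁻¹ (p i)) (F.act g⁻¹ (q i)) a ≤ 0 := by
  have hp := (G.ar i).np
  have hq := (G.ar i).nq
  have hp' : ‖F.act g⁻¹ (p i)‖ = 1 := act_eq F _ hp
  have hq' : ‖F.act g⁻¹ (q i)‖ = 1 := act_eq F _ hq
  have han : ‖a‖ = 1 := ha.1
  have hK : CR_K a = a := by
    unfold CR_K
    rw [han]
    norm_num
  have h1 := CR_star (x := a) hp' hq'
  rw [hK, han] at h1
  have h2 : (eta (F.act g⁻¹ (p i)) (F.act g⁻¹ (q i)) a).re ≤ 0 := by
    by_contra h3
    push Not at h3
    have hne : F.act g a ≠ p i := by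
      intro h4
      have h5 : F.act g⁻¹ (p i) = a := by rw [← h4, act_inv_act F g han.le]
      rw [h5] at h3
      simp [eta] at h3
    have h6 := eta_act F g hp' hq' han.le
    rw [act_act_inv F g hp.le, act_act_inv F g hq.le] at h6
    have h7 : 0 < (eta (p i) (q i) (F.act g a)).re := by
      rw [h6, Complex.re_ofReal_mul]
      exact mul_pos (norm_pos_iff.2 (dact_ne F g hq'.le)) h3
    exact G.gap i _ (act_eq F g han) hne h7 (lim_inv F g ha)
  have h8 : (eta (F.act g⁻¹ (p i)) (F.act g⁻¹ (q i)) a).re * ‖F.act g⁻¹ (p i) - a‖ ^ 2 ≤ 0 :=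
    mul_nonpos_of_nonpos_of_nonneg h2 (by positivity)
  rw [h1] at h8
  norm_num at h8
  linarith

/-- points above the triangle are in the core -/
private theorem CR_pt (F : Fuchs Γ) {n : ℕ} {κ : Fin n → Γ} {p q : Fin n → ℂ}
    (G : Gaps F n κ p q) {a b c : ℂ} (ha : a ∈ F.lim) (hb : b ∈ F.lim) (hc : c ∈ F.lim)
    {x : ℂ} (hx : ‖x‖ < 1) {s t : ℝ} (hs : 0 ≤ s) (ht : 0 ≤ t) (hst : s + t ≤ 1)
    (hK : CR_K x = a + s * (b - a) + t * (c - a)) (i : Fin n) (g : Γ) :
    Real.pi / 2 ≤ F.ht (p i) (q i) g x := by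
  have hp := (G.ar i).np
  have hq := (G.ar i).nq
  have hp' : ‖F.act g⁻¹ (p i)‖ = 1 := act_eq F _ hp
  have hq' : ‖F.act g⁻¹ (q i)‖ = 1 := act_eq F _ hq
  have h1 := CR_lim F G i g ha
  have h2 := CR_lim F G i g hb
  have h3 := CR_lim F G i g hc
  have h4 : CR_A (F.act g⁻¹ (p i)) (F.act g⁻¹ (q i)) (CR_K x) =
      (1 - s - t) * CR_A (F.act g⁻¹ (p i)) (F.act g⁻¹ (q i)) a +
      s * CR_A (F.act g⁻¹ (p i)) (F.act g⁻¹ (q i)) b +
      t * CR_A (F.act g⁻¹ (p i)) (F.act g⁻¹ (q i)) c := by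
    rw [hK]
    unfold CR_A
    simp only [Complex.mul_im, Complex.mul_re, Complex.conj_re, Complex.conj_im, Complex.sub_re,
      Complex.sub_im, Complex.add_re, Complex.add_im, map_sub, Complex.ofReal_re,
      Complex.ofReal_im]
    ring
  have h5 : CR_A (F.act g⁻¹ (p i)) (F.act g⁻¹ (q i)) (CR_K x) ≤ 0 := by
    rw [h4]
    have e1 : (1 - s - t) * CR_A (F.act g⁻¹ (p i)) (F.act g⁻¹ (q i)) a ≤ 0 :=
      mul_nonpos_of_nonneg_of_nonpos (by linarith) h1
    have e2 : s * CR_A (F.act g⁻¹ (p i)) (F.act g⁻¹ (q i)) b ≤ 0 :=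
      mul_nonpos_of_nonneg_of_nonpos hs h2
    have e3 : t * CR_A (F.act g⁻¹ (p i)) (F.act g⁻¹ (q i)) c ≤ 0 :=
      mul_nonpos_of_nonneg_of_nonpos ht h3
    linarith
  have h6 := CR_le hp' hq' h5
  have h7 := eta_act F g hp' hq' hx.le
  rw [act_act_inv F g hp.le, act_act_inv F g hq.le] at h7
  have h8 : (eta (p i) (q i) (F.act g x)).re ≤ 0 := by
    rw [h7, Complex.re_ofReal_mul]
    exact mul_nonpos_of_nonneg_of_nonpos (norm_nonneg _) h6
  by_contra h9
  push Not at h9
  have := (om_half hp hq (G.ar i).ne (act_lt F g hx)).1 h9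
  linarith

/-- three points of the circle are not collinear -/
private theorem CR_det {a b c : ℂ} (ha : ‖a‖ = 1) (hb : ‖b‖ = 1) (hc : ‖c‖ = 1) (hab : a ≠ b)
    (hac : a ≠ c) (hbc : b ≠ c) : ((b - a) * (starRingEnd ℂ) (c - a)).im ≠ 0 := by
  intro h
  have ha0 : a ≠ 0 := by rintro rfl; simp at ha
  have hb0 : b ≠ 0 := by rintro rfl; simp at hb
  have hc0 : c ≠ 0 := by rintro rfl; simp at hc
  have h1 : (b - a) * (starRingEnd ℂ) (c - a) - (starRingEnd ℂ) ((b - a) * (starRingEnd ℂ) (c - a)) = 0 := by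
    rw [Complex.sub_conj, h]
    simp
  rw [map_mul, Complex.conj_conj, map_sub, map_sub, ← Complex.inv_eq_conj ha,
    ← Complex.inv_eq_conj hb, ← Complex.inv_eq_conj hc] at h1
  have h2 : (b - a) * (c⁻¹ - a⁻¹) - (b⁻¹ - a⁻¹) * (c - a) = (b - a) * (a - c) * (b - c) / (a * b * c) := by
    field_simp
    ring
  rw [h2, div_eq_zero_iff] at h1
  rcases h1 with h1 | h1
  · exact mul_ne_zero (mul_ne_zero (sub_ne_zero.2 hab.symm) (sub_ne_zero.2 hac)) (sub_ne_zero.2 hbc) h1
  · exact mul_ne_zero (mul_ne_zero ha0 hb0) hc0 h1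

private theorem CR_K_cont : Continuous CR_K := by
  unfold CR_K
  refine Continuous.mul (Complex.continuous_ofReal.comp ?_) continuous_id
  refine Continuous.div continuous_const (by fun_prop) fun x => ?_
  positivity

/-- `K` is onto the disc -/
private theorem CR_onto {y : ℂ} (hy : ‖y‖ < 1) : ∃ x : ℂ, ‖x‖ < 1 ∧ CR_K x = y := by
  have h0 : 0 < 1 - ‖y‖ ^ 2 := by nlinarith [norm_nonneg y]
  set s := Real.sqrt (1 - ‖y‖ ^ 2) with hs
  have hs0 : 0 < s := Real.sqrt_pos.2 h0
  have hs2 : s ^ 2 = 1 - ‖y‖ ^ 2 := Real.sq_sqrt h0.le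
  have hn : ‖(((1 + s)⁻¹ : ℝ) : ℂ) * y‖ = (1 + s)⁻¹ * ‖y‖ := by
    rw [norm_mul, Complex.norm_real, Real.norm_eq_abs, abs_of_pos (by positivity)]
  refine ⟨(((1 + s)⁻¹ : ℝ) : ℂ) * y, ?_, ?_⟩
  · rw [hn, inv_mul_lt_iff₀ (by positivity)]
    linarith
  · unfold CR_K
    rw [hn]
    have h1 : 2 / (1 + ((1 + s)⁻¹ * ‖y‖) ^ 2) = 1 + s := by
      have h2 : ‖y‖ ^ 2 = (1 - s) * (1 + s) := by linarith
      rw [mul_pow, h2]
      field_simp
      ring
    rw [h1, ← mul_assoc, ← Complex.ofReal_mul, mul_inv_cancel₀ (by positivity), Complex.ofReal_one,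
      one_mul]

theorem exists_core (F : Fuchs Γ) (hN : F.Nonel) {n : ℕ} {κ : Fin n → Γ} {p q : Fin n → ℂ}
    (G : Gaps F n κ p q) : ∃ x₀ ∈ ball (0:ℂ) 1, ∃ ε > 0, ball x₀ ε ⊆ ball 0 1 ∧
      ∀ x ∈ ball x₀ ε, ∀ i g, Real.pi / 2 ≤ F.ht (p i) (q i) g x := by
  obtain ⟨g, h, hg, hh, hgh⟩ := hN
  obtain ⟨a, b, hab⟩ := exists_AR F hg
  obtain ⟨c, c', hcc⟩ := exists_AR F hh
  have hac : a ≠ c := by
    rintro rfl
    exact hgh a hab.np hab.fp hcc.fp
  have hbc : b ≠ c := by
    rintro rfl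
    exact hgh b hab.nq hab.fq hcc.fp
  have ha := (AR.lim hab).1
  have hb := (AR.lim hab).2
  have hc := (AR.lim hcc).1
  set d := ((b - a) * (starRingEnd ℂ) (c - a)).im with hd
  have hd0 : d ≠ 0 := CR_det hab.np hab.nq hcc.np hab.ne hac hbc
  let s : ℂ → ℝ := fun y => ((y - a) * (starRingEnd ℂ) (c - a)).im / d
  let t : ℂ → ℝ := fun y => -((y - a) * (starRingEnd ℂ) (b - a)).im / d
  have hsc : Continuous s := by
    refine Continuous.div_const (Complex.continuous_im.comp ?_) d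
    fun_prop
  have htc : Continuous t := by
    refine Continuous.div_const (Continuous.neg (Complex.continuous_im.comp ?_)) d
    fun_prop
  have hrep : ∀ y : ℂ, y = a + s y * (b - a) + t y * (c - a) := by
    intro y
    have hd' : (b.im - a.im) * (c.re - a.re) - (b.re - a.re) * (c.im - a.im) = d := by
      rw [hd]
      simp only [Complex.mul_im, Complex.conj_re, Complex.conj_im, Complex.sub_re,
        Complex.sub_im, map_sub]
      ring
    have h1 : s y * d = (y.im - a.im) * (c.re - a.re) - (y.re - a.re) * (c.im - a.im) := by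
      simp only [s]
      rw [div_mul_cancel₀ _ hd0]
      simp only [Complex.mul_im, Complex.conj_re, Complex.conj_im, Complex.sub_re,
        Complex.sub_im, map_sub]
      ring
    have h2 : t y * d = -((y.im - a.im) * (b.re - a.re) - (y.re - a.re) * (b.im - a.im)) := by
      simp only [t]
      rw [div_mul_cancel₀ _ hd0]
      simp only [Complex.mul_im, Complex.conj_re, Complex.conj_im, Complex.sub_re,
        Complex.sub_im, map_sub]
      ring
    apply Complex.ext
    · simp only [Complex.mul_re, Complex.sub_re,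
        Complex.sub_im, Complex.add_re, Complex.ofReal_re, Complex.ofReal_im]
      apply mul_left_cancel₀ hd0
      linear_combination (y.re - a.re) * (-hd') - (b.re - a.re) * h1 - (c.re - a.re) * h2
    · simp only [Complex.mul_im, Complex.sub_re,
        Complex.sub_im, Complex.add_im, Complex.ofReal_re, Complex.ofReal_im]
      apply mul_left_cancel₀ hd0
      linear_combination (y.im - a.im) * (-hd') - (b.im - a.im) * h1 - (c.im - a.im) * h2
  have hy1 : ‖(a + b + c) / 3‖ < 1 := by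
    have e1 : ‖a + b‖ ^ 2 = 4 - ‖a - b‖ ^ 2 := by
      have ha2 : a.re ^ 2 + a.im ^ 2 = 1 := by rw [← CR_sq, hab.np]; norm_num
      have hb2 : b.re ^ 2 + b.im ^ 2 = 1 := by rw [← CR_sq, hab.nq]; norm_num
      rw [CR_sq, CR_sq]
      simp only [Complex.sub_re, Complex.sub_im, Complex.add_re, Complex.add_im]
      linear_combination 2 * ha2 + 2 * hb2
    have e2 : 0 < ‖a - b‖ := norm_pos_iff.2 (sub_ne_zero.2 hab.ne)
    have e3 : ‖a + b‖ < 2 := by nlinarith [norm_nonneg (a + b)]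
    have e4 : ‖a + b + c‖ ≤ ‖a + b‖ + ‖c‖ := norm_add_le _ _
    rw [hcc.np] at e4
    rw [norm_div, Complex.norm_ofNat, div_lt_one (by norm_num)]
    linarith
  obtain ⟨x₀, hx₀, hKx⟩ := CR_onto hy1
  have hs0 : s ((a + b + c) / 3) = 1 / 3 := by
    simp only [s]
    have : (a + b + c) / 3 - a = (((1:ℝ) / 3 : ℝ) : ℂ) * (b - a) + (((1:ℝ) / 3 : ℝ) : ℂ) * (c - a) := by
      push_cast
      ring
    rw [this, add_mul, mul_assoc, mul_assoc, Complex.add_im, Complex.im_ofReal_mul,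
      Complex.im_ofReal_mul, ← hd, Complex.mul_conj, Complex.ofReal_im]
    field_simp
    ring
  have ht0 : t ((a + b + c) / 3) = 1 / 3 := by
    simp only [t]
    have : (a + b + c) / 3 - a = (((1:ℝ) / 3 : ℝ) : ℂ) * (b - a) + (((1:ℝ) / 3 : ℝ) : ℂ) * (c - a) := by
      push_cast
      ring
    have h3 : ((c - a) * (starRingEnd ℂ) (b - a)).im = -d := by
      rw [hd]
      simp only [Complex.mul_im, Complex.conj_re, Complex.conj_im, Complex.sub_re,
        Complex.sub_im, map_sub]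
      ring
    rw [this, add_mul, mul_assoc, mul_assoc, Complex.add_im, Complex.im_ofReal_mul,
      Complex.im_ofReal_mul, h3, Complex.mul_conj, Complex.ofReal_im]
    field_simp
    ring
  have hev : ∀ᶠ x in 𝓝 x₀, x ∈ ball (0:ℂ) 1 ∧ 0 < s (CR_K x) ∧ 0 < t (CR_K x) ∧
      s (CR_K x) + t (CR_K x) < 1 := by
    have k1 : ∀ᶠ x in 𝓝 x₀, x ∈ ball (0:ℂ) 1 := isOpen_ball.mem_nhds (by simpa using hx₀)
    have k2 : ∀ᶠ x in 𝓝 x₀, 0 < s (CR_K x) := by
      refine ((hsc.comp CR_K_cont).tendsto x₀).eventually (lt_mem_nhds ?_)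
      rw [Function.comp_apply, hKx, hs0]
      norm_num
    have k3 : ∀ᶠ x in 𝓝 x₀, 0 < t (CR_K x) := by
      refine ((htc.comp CR_K_cont).tendsto x₀).eventually (lt_mem_nhds ?_)
      rw [Function.comp_apply, hKx, ht0]
      norm_num
    have k4 : ∀ᶠ x in 𝓝 x₀, s (CR_K x) + t (CR_K x) < 1 := by
      refine (((hsc.comp CR_K_cont).add (htc.comp CR_K_cont)).tendsto x₀).eventually
        (gt_mem_nhds ?_)
      change s (CR_K x₀) + t (CR_K x₀) < 1
      rw [hKx, ht0, hs0]
      norm_num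
    filter_upwards [k1, k2, k3, k4] with x h1 h2 h3 h4
    exact ⟨h1, h2, h3, h4⟩
  obtain ⟨ε, hε, hb'⟩ := Metric.eventually_nhds_iff_ball.1 hev
  refine ⟨x₀, by simpa using hx₀, ε, hε, fun x hx => (hb' x hx).1, fun x hx i g => ?_⟩
  obtain ⟨h1, h2, h3, h4⟩ := hb' x hx
  exact CR_pt F G ha hb hc (by simpa using h1) h2.le h3.le h4.le (hrep _) i g

/-- a test function in the core -/
theorem exists_f0 (F : Fuchs Γ) (hN : F.Nonel) {n : ℕ} {κ : Fin n → Γ} {p q : Fin n → ℂ}
    (G : Gaps F n κ p q) : ∃ (f₀ : ℂ → ℝ) (r : ℝ), r < 1 ∧ Continuous f₀ ∧ (∀ x, 0 ≤ f₀ x) ∧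
      (∀ x, r < ‖x‖ → f₀ x = 0) ∧ (∀ x ∈ ball (0:ℂ) 1, F.S f₀ x ≤ 1) ∧
      (∀ x ∈ ball (0:ℂ) 1, f₀ x ≠ 0 → ∀ i g, Real.pi / 2 ≤ F.ht (p i) (q i) g x) ∧
      0 < ∫ x in ball (0:ℂ) 1, f₀ x / (1 - ‖x‖ ^ 2) ^ 2 := by
  obtain ⟨x₀, hx₀, ε, hε, -, hcore⟩ := exists_core F hN G
  rw [mem_ball_zero_iff] at hx₀
  set ε' := min ε ((1 - ‖x₀‖) / 2) with hε'
  have hε'0 : 0 < ε' := lt_min hε (by linarith)
  set r := (1 + ‖x₀‖) / 2 with hr
  have hr1 : r < 1 := by rw [hr]; linarith
  obtain ⟨t, ht⟩ := fin_supp F hr1 hr1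
  have hN0 : (0:ℝ) < t.card + 1 := by positivity
  let f₀ : ℂ → ℝ := fun x => max 0 (1 - dist x x₀ / ε') / (t.card + 1)
  have hf0 : ∀ x, 0 ≤ f₀ x := fun x => div_nonneg (le_max_left _ _) hN0.le
  have hf1 : ∀ x, f₀ x ≤ 1 / (t.card + 1) := by
    intro x
    refine div_le_div_of_nonneg_right (max_le zero_le_one ?_) hN0.le
    have : 0 ≤ dist x x₀ / ε' := by positivity
    linarith
  have hfc : Continuous f₀ := by
    refine Continuous.div_const (continuous_const.max ?_) _
    exact continuous_const.sub ((continuous_id.dist continuous_const).div_const _)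
  have hfz : ∀ x, ε' ≤ dist x x₀ → f₀ x = 0 := by
    intro x hx
    have : 1 ≤ dist x x₀ / ε' := (one_le_div hε'0).2 hx
    simp only [f₀]
    rw [max_eq_left (by linarith), zero_div]
  have hfr : ∀ x, r < ‖x‖ → f₀ x = 0 := by
    intro x hx
    apply hfz
    have h1 : ‖x‖ ≤ dist x x₀ + ‖x₀‖ := by
      rw [dist_eq_norm]
      simpa using norm_add_le (x - x₀) x₀
    have h2 : ε' ≤ (1 - ‖x₀‖) / 2 := min_le_right _ _
    rw [hr] at hx
    linarith
  refine ⟨f₀, r, hr1, hfc, hf0, hfr, ?_, ?_, ?_⟩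
  · intro x hx
    rw [mem_ball_zero_iff] at hx
    by_cases hex : ∃ h, ‖F.act h x‖ ≤ r
    · obtain ⟨h, hh⟩ := hex
      rw [← S_inv F f₀ h hx.le, S_eq F hfr ht hh]
      calc ∑ g ∈ t, f₀ (F.act g (F.act h x)) ≤ ∑ g ∈ t, 1 / ((t.card : ℝ) + 1) :=
            Finset.sum_le_sum fun g _ => hf1 _
        _ = t.card / (t.card + 1) := by
            rw [Finset.sum_const, nsmul_eq_mul]
            ring
        _ ≤ 1 := (div_le_one hN0).2 (by linarith)
    · push Not at hex
      have : F.S f₀ x = 0 := by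
        unfold Fuchs.S
        rw [← finsum_zero (α := Γ) (M := ℝ)]
        exact finsum_congr fun g => hfr _ (hex g)
      rw [this]
      exact zero_le_one
  · intro x _ hfx i g
    refine hcore x ?_ i g
    rw [mem_ball]
    by_contra h
    push Not at h
    exact hfx (hfz x ((min_le_left _ _).trans h))
  · have hcl : ∀ x, r < ‖x‖ → f₀ x / (1 - ‖x‖ ^ 2) ^ 2 = 0 := fun x hx => by
      rw [hfr x hx, zero_div]
    have hφc : Continuous fun x : ℂ => f₀ x / (1 - ‖x‖ ^ 2) ^ 2 := by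
      rw [continuous_iff_continuousAt]
      intro x
      by_cases hx : ‖x‖ < 1
      · have : (1 - ‖x‖ ^ 2) ^ 2 ≠ 0 := by
          have : 0 < 1 - ‖x‖ ^ 2 := by nlinarith [norm_nonneg x]
          positivity
        exact hfc.continuousAt.div (by fun_prop) this
      · have h1 : ∀ᶠ y in 𝓝 x, r < ‖y‖ :=
          (continuous_norm.tendsto x).eventually (lt_mem_nhds (by linarith))
        have h2 : (fun x : ℂ => f₀ x / (1 - ‖x‖ ^ 2) ^ 2) =ᶠ[𝓝 x] fun _ => 0 := by
          filter_upwards [h1] with y hy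
          exact hcl y hy
        exact continuousAt_const.congr h2.symm
    have hsup : HasCompactSupport fun x : ℂ => f₀ x / (1 - ‖x‖ ^ 2) ^ 2 := by
      refine HasCompactSupport.intro (isCompact_closedBall (0:ℂ) r) fun x hx => hcl x ?_
      simpa using hx
    rw [setIntegral_eq_integral_of_forall_compl_eq_zero]
    · refine hφc.integral_pos_of_hasCompactSupport_nonneg_nonzero hsup (fun x => ?_) (x := x₀) ?_
      · exact div_nonneg (hf0 x) (by positivity)
      · have h1 : 0 < 1 - ‖x₀‖ ^ 2 := by nlinarith [norm_nonneg x₀]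
        have h2 : 0 < f₀ x₀ := by
          simp only [f₀, dist_self, zero_div, sub_zero]
          rw [max_eq_right zero_le_one]
          positivity
        positivity
    · intro x hx
      rw [mem_ball_zero_iff, not_lt] at hx
      exact hcl x (by linarith)

end TN
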