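import Pool.Agent.H60.PH.Base

/-!
CV (changes of variables).  `cv`: `integral_image_eq_integral_abs_det_fderiv_smul` for the injective map `act g` on `ball 0 1`
(`F.act_inj`, `F.act_hasDerivAt`, image = the ball: `act_lt`, `act_act_inv`); the real determinant of the multiplication by `c` is
`‖c‖²` (see the proof of LA in Pool/Agent/H36/DS/LA.lean, or `Complex.conformalAt`/`LinearMap.det` by the matrix in the basis `1, I`).
`strip_cv`: the same for `om p q` from the disc onto the open strip (`om_im_pos`, `omi_ball`, `om_omi`, `omi_om`, `om_hasDerivAt`);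
`strip_prod`: the strip is the product `ℝ × (0, π)` (`Complex.measurableEquivRealProd`, `Complex.volume_preserving_equiv_real_prod`),
`MeasureTheory.integral_prod_mul` after writing the set integral over the strip with indicator of `Ioo 0 π` in the second factor.
-/

namespace TN
open Metric Set Filter Topology DS MeasureTheory

variable {Γ : Type} [Group Γ]

/-- the real determinant of a complex derivative -/
theorem CV_det (c : ℂ) :
    ((ContinuousLinearMap.toSpanSingleton ℂ c).restrictScalars ℝ : ℂ →L[ℝ] ℂ).det = ‖c‖ ^ 2 := by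
  have h1 : (((ContinuousLinearMap.toSpanSingleton ℂ c).restrictScalars ℝ : ℂ →L[ℝ] ℂ) :
      ℂ →ₗ[ℝ] ℂ) = LinearMap.mulLeft ℝ c := by
    ext x
    simp [mul_comm]
  rw [ContinuousLinearMap.det, h1]
  have h2 := Algebra.norm_complex_apply c
  rw [Algebra.norm_apply] at h2
  rw [Complex.sq_norm, ← h2]
  rfl

/-- change of variables for injective holomorphic maps -/
theorem CV_gen {E : Type*} [NormedAddCommGroup E] [NormedSpace ℝ E] {Ω : Set ℂ}
    (hΩ : MeasurableSet Ω) {f f' : ℂ → ℂ} (hf : ∀ x ∈ Ω, HasDerivAt f (f' x) x)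
    (hi : InjOn f Ω) (k : ℂ → E) :
    ∫ y in f '' Ω, k y = ∫ x in Ω, (‖f' x‖ ^ 2) • k (f x) := by
  rw [integral_image_eq_integral_abs_det_fderiv_smul volume hΩ
    (f' := fun x => ((ContinuousLinearMap.toSpanSingleton ℂ (f' x)).restrictScalars ℝ)) _ hi]
  · apply integral_congr_ae
    apply Eventually.of_forall
    intro x
    simp only
    rw [CV_det, abs_of_nonneg (sq_nonneg _)]
  · intro x hx
    exact ((hf x hx).hasFDerivAt.restrictScalars ℝ).hasFDerivWithinAt

theorem cv (F : Fuchs Γ) (g : Γ) {E : Type*} [NormedAddCommGroup E] [NormedSpace ℝ E] (k : ℂ → E) :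
    ∫ y in ball (0:ℂ) 1, k y = ∫ x in ball (0:ℂ) 1, (‖F.dact g x‖ ^ 2) • k (F.act g x) := by
  have himg : F.act g '' ball (0:ℂ) 1 = ball (0:ℂ) 1 := by
    ext y
    simp only [mem_image, mem_ball_zero_iff]
    constructor
    · rintro ⟨x, hx, rfl⟩
      exact act_lt F g hx
    · intro hy
      exact ⟨F.act g⁻¹ y, act_lt F _ hy, act_act_inv F g hy.le⟩
  have h := CV_gen (measurableSet_ball (x := (0:ℂ)) (ε := 1)) (f := F.act g) (f' := F.dact g)
    (fun x hx => act_hasDerivAt F g (mem_ball_zero_iff.1 hx).le)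
    ((act_inj F g).mono ball_subset_closedBall) k
  rw [himg] at h
  exact h

theorem strip_cv {p q : ℂ} (hp : ‖p‖ = 1) (hq : ‖q‖ = 1) (hpq : p ≠ q) (k : ℂ → ℝ) :
    ∫ x in ball (0:ℂ) 1, ‖omD p q x‖ ^ 2 * k (om p q x) = ∫ ω in {ω : ℂ | 0 < ω.im ∧ ω.im < Real.pi}, k ω := by
  have hmem : ∀ x ∈ ball (0:ℂ) 1, x ∈ Dpq p q := by
    intro x hx
    have hx1 : ‖x‖ < 1 := mem_ball_zero_iff.1 hx
    refine ⟨hx1.le, ?_, ?_⟩
    · rintro rfl; linarith
    · rintro rfl; linarith
  have himg : om p q '' ball (0:ℂ) 1 = {ω : ℂ | 0 < ω.im ∧ ω.im < Real.pi} := by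
    ext y
    simp only [mem_image, mem_ball_zero_iff, mem_ofPred_eq]
    constructor
    · rintro ⟨x, hx, rfl⟩
      exact om_im_pos hp hq hpq hx
    · intro hy
      exact ⟨omi p q y, omi_ball hp hq hpq hy.1 hy.2, om_omi hp hq hpq ⟨hy.1.le, hy.2.le⟩⟩
  have hinj : InjOn (om p q) (ball (0:ℂ) 1) := by
    intro x hx y hy h
    rw [← omi_om hp hq hpq (hmem x hx), ← omi_om hp hq hpq (hmem y hy), h]
  have h := CV_gen (measurableSet_ball (x := (0:ℂ)) (ε := 1)) (f := om p q) (f' := omD p q)
    (fun x hx => om_hasDerivAt hp hq hpq (mem_ball_zero_iff.1 hx)) hinj k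
  rw [himg] at h
  rw [h]
  simp only [smul_eq_mul]

theorem strip_prod {p q : ℂ} (hp : ‖p‖ = 1) (hq : ‖q‖ = 1) (hpq : p ≠ q) (τ k : ℝ → ℝ) :
    ∫ x in ball (0:ℂ) 1, ‖omD p q x‖ ^ 2 * (τ (om p q x).re * k (om p q x).im) =
      (∫ t, τ t) * ∫ s in (0:ℝ)..Real.pi, k s := by
  rw [strip_cv hp hq hpq (fun ω => τ ω.re * k ω.im)]
  have hS : MeasurableSet {ω : ℂ | 0 < ω.im ∧ ω.im < Real.pi} :=
    ((isOpen_lt continuous_const Complex.continuous_im).inter
      (isOpen_lt Complex.continuous_im continuous_const)).measurableSet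
  rw [← integral_indicator hS]
  have h1 : ∀ ω : ℂ, ({ω : ℂ | 0 < ω.im ∧ ω.im < Real.pi}.indicator (fun ω : ℂ => τ ω.re * k ω.im)) ω =
      (fun z : ℝ × ℝ => τ z.1 * (Ioo 0 Real.pi).indicator k z.2) (Complex.measurableEquivRealProd ω) := by
    intro ω
    simp only [Complex.measurableEquivRealProd_apply]
    by_cases hω : 0 < ω.im ∧ ω.im < Real.pi
    · rw [indicator_of_mem (by exact hω), indicator_of_mem (by exact hω)]
    · rw [indicator_of_notMem (by exact hω), indicator_of_notMem (by exact hω), mul_zero]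
  rw [integral_congr_ae (Eventually.of_forall h1),
    Complex.volume_preserving_equiv_real_prod.integral_comp
      Complex.measurableEquivRealProd.measurableEmbedding
      (fun z : ℝ × ℝ => τ z.1 * (Ioo 0 Real.pi).indicator k z.2),
    Measure.volume_eq_prod, integral_prod_mul, integral_indicator measurableSet_Ioo,
    intervalIntegral.integral_of_le Real.pi_pos.le, integral_Ioc_eq_integral_Ioo]

end TN
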