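import Pool.Agent.H60.PH.SO

/-!
PT (equivariant patching on holes).  For `x` in the disc at most one pair `(g, i)` has `act g x ∈ closure (O i)`: if also `act h x ∈ closure (O j)`
then `act (h g⁻¹) (act g x) = act h x`, so `h g⁻¹ = 1` and `i = j` by `hd`.  Define `f' x = (J g x)⁻¹ * fi i (act g x)` if `act g x ∈ O i` for some
(chosen) pair, and `f' x = f x` otherwise (`J g x ≠ 0`, since `J g⁻¹ (act g x) * J g x = J 1 x = 1`).
Invariance: if `act g x ∈ O i` then `act (g h⁻¹) (act h x) ∈ O i`, and `J g x = J (g h⁻¹) (act h x) * J h x`.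
Local statement at `x`: all closures are compact subsets of the disc (`closure (O i)` is closed and bounded), contained in `closedBall 0 r`, `r < 1`; take
`fin_supp` with a ball around `x` in `closedBall 0 r'`: only finitely many `g` can map a point near `x` into some `closure (O i)`.  If no pair has
`act g x ∈ closure (O i)` then the same holds near `x` (finitely many closed sets): first alternative.  Otherwise, with the unique pair `(g, i)`, near `x`
no other pair `(h, j)` has `act h x' ∈ closure (O j)`: if `act g x' ∈ O i` then `f' (act g x') = fi i (act g x')` (pair `(1, i)`, `hJ1`), otherwise `act g x'` is in no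
translate of an `O j` and `f' (act g x') = f (act g x')`.
-/

namespace TN
open Metric Set Filter Topology DS MeasureTheory

variable {Γ : Type} [Group Γ]

theorem PT_uniq (F : Fuchs Γ) {m : ℕ} {O : Fin m → Set ℂ}
    (hd : ∀ i j g, (g ≠ 1 ∨ i ≠ j) → Disjoint (F.act g '' closure (O i)) (closure (O j)))
    {x : ℂ} (hx : ‖x‖ < 1) {g h : Γ} {i j : Fin m} (h1 : F.act g x ∈ closure (O i))
    (h2 : F.act h x ∈ closure (O j)) : h = g ∧ i = j := by
  by_contra hne
  have h3 : h * g⁻¹ ≠ 1 ∨ i ≠ j := by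
    by_contra h4
    push Not at h4
    exact hne ⟨mul_inv_eq_one.1 h4.1, h4.2⟩
  refine (Set.disjoint_left.1 (hd i j _ h3)) (Set.mem_image_of_mem _ h1) ?_
  rw [← act_mul F _ _ hx.le, inv_mul_cancel_right]
  exact h2

theorem PT_J (F : Fuchs Γ) {J : Γ → ℂ → ℂ} (hJ1 : ∀ x ∈ ball (0:ℂ) 1, J 1 x = 1)
    (hJ : ∀ g h, ∀ x ∈ ball (0:ℂ) 1, J (g * h) x = J g (F.act h x) * J h x) (g : Γ) {x : ℂ}
    (hx : x ∈ ball (0:ℂ) 1) : J g x ≠ 0 := by
  intro h
  have h1 := hJ g⁻¹ g x hx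
  rw [inv_mul_cancel, hJ1 x hx, h, mul_zero] at h1
  exact one_ne_zero h1

theorem PT_rad {m : ℕ} {O : Fin m → Set ℂ} (hs : ∀ i, closure (O i) ⊆ ball 0 1) :
    ∃ r : ℝ, r < 1 ∧ ∀ i, ∀ x ∈ closure (O i), ‖x‖ ≤ r := by
  have hK : IsCompact (⋃ i, closure (O i)) :=
    isCompact_iUnion fun i =>
      Metric.isCompact_of_isClosed_isBounded isClosed_closure (isBounded_ball.subset (hs i))
  rcases (⋃ i, closure (O i)).eq_empty_or_nonempty with h0 | hne
  · refine ⟨0, one_pos, fun i x hx => ?_⟩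
    have : x ∈ ⋃ i, closure (O i) := mem_iUnion.2 ⟨i, hx⟩
    rw [h0] at this
    exact absurd this (Set.notMem_empty x)
  · obtain ⟨x₀, hx₀, hm⟩ := hK.exists_isMaxOn hne continuous_norm.continuousOn
    obtain ⟨i₀, hi₀⟩ := mem_iUnion.1 hx₀
    exact ⟨‖x₀‖, mem_ball_zero_iff.1 (hs i₀ hi₀), fun i x hx => hm (mem_iUnion.2 ⟨i, hx⟩)⟩

theorem PT_loc (F : Fuchs Γ) {m : ℕ} {O : Fin m → Set ℂ} (hs : ∀ i, closure (O i) ⊆ ball 0 1)
    {x : ℂ} (hx : ‖x‖ < 1) :
    ∃ δ > 0, ∀ x' ∈ ball (0:ℂ) 1, dist x' x < δ → ∀ g i, F.act g x ∉ closure (O i) →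
      F.act g x' ∉ closure (O i) := by
  obtain ⟨r, hr, hrO⟩ := PT_rad hs
  obtain ⟨t, ht⟩ := fin_supp F hr (r' := (1 + ‖x‖) / 2) (by linarith)
  have h1 : ∀ g i, ∀ᶠ x' in 𝓝 x, F.act g x ∉ closure (O i) → F.act g x' ∉ closure (O i) := by
    intro g i
    by_cases h : F.act g x ∈ closure (O i)
    · exact Filter.Eventually.of_forall fun x' h' => absurd h h'
    · have hc : ContinuousAt (F.act g) x := (act_cont F g).continuousAt
        (mem_of_superset (isOpen_ball.mem_nhds (mem_ball_zero_iff.2 hx)) ball_subset_closedBall)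
      have h2 : (closure (O i))ᶜ ∈ 𝓝 (F.act g x) := isClosed_closure.isOpen_compl.mem_nhds h
      filter_upwards [hc.preimage_mem_nhds h2] with x' hx' _
      exact hx'
  have h2 : ∀ᶠ x' in 𝓝 x, ∀ g ∈ t, ∀ i, F.act g x ∉ closure (O i) → F.act g x' ∉ closure (O i) := by
    rw [Filter.eventually_all_finset]
    intro g _
    rw [Filter.eventually_all]
    exact h1 g
  have h3 : ball (0:ℂ) ((1 + ‖x‖) / 2) ∈ 𝓝 x :=
    isOpen_ball.mem_nhds (mem_ball_zero_iff.2 (by linarith))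
  obtain ⟨δ, hδ, H⟩ := Metric.eventually_nhds_iff.1 (h2.and h3)
  refine ⟨δ, hδ, fun x' _ hd g i hg => ?_⟩
  obtain ⟨H1, H2⟩ := H hd
  by_cases hgt : g ∈ t
  · exact H1 g hgt i hg
  · intro hmem
    exact absurd (hrO i _ hmem) (not_le.2 (ht g hgt x' (mem_ball_zero_iff.1 H2).le).1)

open Classical in
theorem patch (F : Fuchs Γ) {m : ℕ} {O : Fin m → Set ℂ} (ho : ∀ i, IsOpen (O i))
    (hs : ∀ i, closure (O i) ⊆ ball 0 1)
    (hd : ∀ i j g, (g ≠ 1 ∨ i ≠ j) → Disjoint (F.act g '' closure (O i)) (closure (O j)))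
    {J : Γ → ℂ → ℂ} (hJ1 : ∀ x ∈ ball (0:ℂ) 1, J 1 x = 1)
    (hJ : ∀ g h, ∀ x ∈ ball (0:ℂ) 1, J (g * h) x = J g (F.act h x) * J h x) {f : ℂ → ℂ}
    (hf : ∀ g, ∀ x ∈ ball (0:ℂ) 1, f (F.act g x) = J g x * f x) (fi : Fin m → ℂ → ℂ) :
    ∃ f' : ℂ → ℂ, (∀ g, ∀ x ∈ ball (0:ℂ) 1, f' (F.act g x) = J g x * f' x) ∧
      (∀ i, ∀ x ∈ O i, f' x = fi i x) ∧
      (∀ x ∈ ball (0:ℂ) 1, (∀ g i, F.act g x ∉ O i) → f' x = f x) ∧
      ∀ x ∈ ball (0:ℂ) 1, ∃ δ > 0,
        (∀ x' ∈ ball (0:ℂ) 1, dist x' x < δ → f' x' = f x' ∧ ∀ g i, F.act g x' ∉ O i) ∨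
        ∃ g i, F.act g x ∈ closure (O i) ∧ ∀ x' ∈ ball (0:ℂ) 1, dist x' x < δ →
          f' (F.act g x') = if F.act g x' ∈ O i then fi i (F.act g x') else f (F.act g x') := by
  have hlt : ∀ x ∈ ball (0:ℂ) 1, ‖x‖ < 1 := fun x hx => mem_ball_zero_iff.1 hx
  have hb : ∀ g : Γ, ∀ x ∈ ball (0:ℂ) 1, F.act g x ∈ ball (0:ℂ) 1 :=
    fun g x hx => mem_ball_zero_iff.2 (act_lt F g (hlt x hx))
  have hOb : ∀ i, O i ⊆ ball 0 1 := fun i => subset_closure.trans (hs i)
  let f' : ℂ → ℂ := fun x => if h : ∃ a : Γ × Fin m, F.act a.1 x ∈ O a.2 then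
    (J h.choose.1 x)⁻¹ * fi h.choose.2 (F.act h.choose.1 x) else f x
  have h1 : ∀ x ∈ ball (0:ℂ) 1, ∀ g i, F.act g x ∈ O i → f' x = (J g x)⁻¹ * fi i (F.act g x) := by
    intro x hx g i hg
    have h : ∃ a : Γ × Fin m, F.act a.1 x ∈ O a.2 := ⟨(g, i), hg⟩
    have e1 : f' x = (J h.choose.1 x)⁻¹ * fi h.choose.2 (F.act h.choose.1 x) := dif_pos h
    rw [e1]
    have h2 := h.choose_spec
    generalize h.choose = a at h2 ⊢
    obtain ⟨k, j⟩ := a
    obtain ⟨e2, e3⟩ := PT_uniq F hd (hlt x hx) (subset_closure hg) (subset_closure h2)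
    simp only at e2
    subst e2 e3
    rfl
  have h3 : ∀ x ∈ ball (0:ℂ) 1, (∀ g i, F.act g x ∉ O i) → f' x = f x := by
    intro x _ hg
    refine dif_neg ?_
    rintro ⟨a, ha⟩
    exact hg _ _ ha
  have h2 : ∀ i, ∀ x ∈ O i, f' x = fi i x := by
    intro i x hx
    have hxb := hOb i hx
    have e : F.act 1 x = x := act_one F (hlt x hxb).le
    rw [h1 x hxb 1 i (by rw [e]; exact hx), hJ1 x hxb, e, inv_one, one_mul]
  refine ⟨f', ?_, h2, h3, ?_⟩
  · intro h x hx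
    by_cases hex : ∃ g i, F.act g x ∈ O i
    · obtain ⟨g, i, hg⟩ := hex
      have e1 : F.act (g * h⁻¹) (F.act h x) = F.act g x := by
        rw [← act_mul F _ _ (hlt x hx).le, inv_mul_cancel_right]
      have e2 : J g x = J (g * h⁻¹) (F.act h x) * J h x := by
        rw [← hJ _ _ x hx, inv_mul_cancel_right]
      rw [h1 x hx g i hg, h1 _ (hb h x hx) (g * h⁻¹) i (by rw [e1]; exact hg), e1, e2]
      have n1 := PT_J F hJ1 hJ h hx
      have n2 := PT_J F hJ1 hJ (g * h⁻¹) (hb h x hx)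
      field_simp
    · push Not at hex
      rw [h3 x hx hex, h3 _ (hb h x hx) fun g i => by
        rw [← act_mul F _ _ (hlt x hx).le]; exact hex _ _]
      exact hf h x hx
  · intro x hx
    obtain ⟨δ, hδ, H⟩ := PT_loc F hs (hlt x hx)
    refine ⟨δ, hδ, ?_⟩
    by_cases hex : ∃ g i, F.act g x ∈ closure (O i)
    · obtain ⟨g, i, hg⟩ := hex
      right
      refine ⟨g, i, hg, fun x' hx' hd' => ?_⟩
      by_cases hO : F.act g x' ∈ O i
      · rw [if_pos hO, h2 i _ hO]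
      · rw [if_neg hO, h3 _ (hb g x' hx')]
        intro h j hj
        rw [← act_mul F _ _ (hlt x' hx').le] at hj
        by_cases hc : F.act (h * g) x ∈ closure (O j)
        · obtain ⟨e1, e2⟩ := PT_uniq F hd (hlt x hx) hg hc
          rw [e1, ← e2] at hj
          exact hO hj
        · exact H x' hx' hd' _ j hc (subset_closure hj)
    · push Not at hex
      left
      intro x' hx' hd'
      have h4 : ∀ g i, F.act g x' ∉ O i := fun g i hgi =>
        H x' hx' hd' g i (hex g i) (subset_closure hgi)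
      exact ⟨h3 x' hx' h4, h4⟩

end TN
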