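import Pool.Agent.H60.PH.WR

/-!
RG (a regularisation of `- 1/(2 conj z)`).  `T = s²`; `r t = (2 - t/T)/T` for `t < T`, `r t = 1/t` for `t ≥ T`.  `r` is `C¹` on the real line: the derivatives
`-1/T²` and `-1/t²` agree at `T` (`contDiff_one_iff_deriv`, `HasDerivAt` at `T` from the left and the right).
`R z = - z * r (‖z‖²) / 2`.  `dz R z = - (r t + t r' t)/2` with `t = ‖z‖²` (`dz_mul`, `dz_normSq`), and `r + t r' = (t r)' = 2 (1 - t/T)/T ≥ 0` for `t < T`, `0` for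
`t ≥ T`.  For `‖z‖ ≥ s`: `R z = - z/(2 ‖z‖²) = -1/(2 conj z)`.
-/

namespace TN
open Metric Set Filter Topology

/-- the profile -/
noncomputable def RG_r (T t : ℝ) : ℝ := if t < T then (2 - t / T) / T else 1 / t

/-- its derivative -/
noncomputable def RG_d (T t : ℝ) : ℝ := if t < T then -1 / T ^ 2 else -1 / t ^ 2

theorem RG_hasDerivAt {T : ℝ} (hT : 0 < T) (t : ℝ) : HasDerivAt (RG_r T) (RG_d T t) t := by
  have hl : ∀ t : ℝ, HasDerivAt (fun t : ℝ => (2 - t / T) / T) (-1 / T ^ 2) t := by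
    intro t
    have h1 : HasDerivAt (fun t : ℝ => (2 - t / T) / T) ((0 - 1 / T) / T) t :=
      (((hasDerivAt_const t (2:ℝ)).sub ((hasDerivAt_id t).div_const T)).div_const T)
    convert h1 using 1
    field_simp
    ring
  have hr : ∀ t : ℝ, 0 < t → HasDerivAt (fun t : ℝ => 1 / t) (-1 / t ^ 2) t := by
    intro t ht
    have h1 := hasDerivAt_inv ht.ne'
    have h2 : (fun t : ℝ => 1 / t) = fun t => t⁻¹ := by funext t; rw [one_div]
    rw [h2]
    have h3 : -1 / t ^ 2 = -(t ^ 2)⁻¹ := by rw [neg_div, one_div]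
    rw [h3]
    exact h1
  rcases lt_trichotomy t T with h | h | h
  · have e : RG_d T t = -1 / T ^ 2 := if_pos h
    rw [e]
    refine (hl t).congr_of_eventuallyEq ?_
    filter_upwards [gt_mem_nhds h] with s hs
    exact if_pos hs
  · subst h
    have e : RG_d t t = -1 / t ^ 2 := if_neg (lt_irrefl t)
    rw [e]
    have h1 : HasDerivWithinAt (RG_r t) (-1 / t ^ 2) (Iic t) t := by
      refine (hl t).hasDerivWithinAt.congr_of_mem ?_ self_mem_Iic
      intro s hs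
      rcases (mem_Iic.1 hs).lt_or_eq with h | h
      · exact if_pos h
      · subst h
        show RG_r s s = (2 - s / s) / s
        unfold RG_r
        rw [if_neg (lt_irrefl s), div_self hT.ne']
        ring
    have h2 : HasDerivWithinAt (RG_r t) (-1 / t ^ 2) (Ici t) t := by
      refine (hr t hT).hasDerivWithinAt.congr_of_mem ?_ self_mem_Ici
      intro s hs
      exact if_neg (not_lt.2 hs)
    have h3 := h1.union h2
    rw [Iic_union_Ici] at h3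
    exact h3.hasDerivAt univ_mem
  · have e : RG_d T t = -1 / t ^ 2 := if_neg (not_lt.2 h.le)
    rw [e]
    refine (hr t (hT.trans h)).congr_of_eventuallyEq ?_
    filter_upwards [lt_mem_nhds h] with s hs
    exact if_neg (not_lt.2 (le_of_lt hs))

theorem PHRG_cont {T : ℝ} (hT : 0 < T) : Continuous (RG_d T) := by
  have e : RG_d T = fun t => -1 / (max t T) ^ 2 := by
    funext t
    unfold RG_d
    split_ifs with h
    · rw [max_eq_right h.le]
    · rw [max_eq_left (not_lt.1 h)]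
  rw [e]
  refine continuous_const.div (by fun_prop) ?_
  intro t
  have : 0 < max t T := lt_max_of_lt_right hT
  positivity

theorem RG_smooth {T : ℝ} (hT : 0 < T) : ContDiff ℝ 1 (RG_r T) := by
  rw [contDiff_one_iff_deriv]
  refine ⟨fun t => (RG_hasDerivAt hT t).differentiableAt, ?_⟩
  have : deriv (RG_r T) = RG_d T := funext fun t => (RG_hasDerivAt hT t).deriv
  rw [this]
  exact PHRG_cont hT

theorem exists_reg {s : ℝ} (hs : 0 < s) : ∃ R : ℂ → ℂ, ContDiff ℝ 1 R ∧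
    (∀ z, s ≤ ‖z‖ → R z = -1 / (2 * (starRingEnd ℂ) z)) ∧ ∀ z, (dz R z).re ≤ 0 := by
  have hT : 0 < s ^ 2 := by positivity
  have hq : ContDiff ℝ 1 (fun z : ℂ => ‖z‖ ^ 2) := contDiff_norm_sq ℝ
  have hrc : ContDiff ℝ 1 (fun z : ℂ => ((RG_r (s ^ 2) (‖z‖ ^ 2) : ℝ) : ℂ)) :=
    Complex.ofRealCLM.contDiff.comp ((RG_smooth hT).comp hq)
  have hlin : ContDiff ℝ 1 (fun z : ℂ => (-1 / 2 : ℂ) * z) := contDiff_const.mul contDiff_id
  refine ⟨fun z => (-1 / 2 : ℂ) * z * ((RG_r (s ^ 2) (‖z‖ ^ 2) : ℝ) : ℂ), hlin.mul hrc, ?_, ?_⟩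
  · intro z hz
    have h1 : s ^ 2 ≤ ‖z‖ ^ 2 := by gcongr
    have h2 : RG_r (s ^ 2) (‖z‖ ^ 2) = 1 / ‖z‖ ^ 2 := if_neg (not_lt.2 h1)
    have hz0 : z ≠ 0 := by
      rintro rfl
      rw [norm_zero] at hz
      linarith
    have hc0 : (starRingEnd ℂ) z ≠ 0 := (map_ne_zero _).2 hz0
    have h3 : ((‖z‖ ^ 2 : ℝ) : ℂ) = z * (starRingEnd ℂ) z := by
      rw [Complex.mul_conj, Complex.normSq_eq_norm_sq]
    show (-1 / 2 : ℂ) * z * ((RG_r (s ^ 2) (‖z‖ ^ 2) : ℝ) : ℂ) = _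
    rw [h2, Complex.ofReal_div, h3, Complex.ofReal_one]
    field_simp
  · intro z
    have hd1 : DifferentiableAt ℝ (fun z : ℂ => (-1 / 2 : ℂ) * z) z := hlin.differentiable (by norm_num) z
    have hd2 : DifferentiableAt ℝ (fun z : ℂ => ((RG_r (s ^ 2) (‖z‖ ^ 2) : ℝ) : ℂ)) z :=
      hrc.differentiable (by norm_num) z
    have e1 := (dz_mul hd1 hd2).1
    have e2 : dz (fun z : ℂ => (-1 / 2 : ℂ) * z) z = -1 / 2 := by
      have h : HasDerivAt (fun z : ℂ => (-1 / 2 : ℂ) * z) ((-1 / 2 : ℂ) * 1) z :=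
        (hasDerivAt_id z).const_mul (-1 / 2 : ℂ)
      rw [(dz_holo h).1, mul_one]
    have e3 := (dz_real (t := fun _ => 0) (s := fun y : ℂ => ‖y‖ ^ 2) (x := z)
      (RG_hasDerivAt hT (‖z‖ ^ 2)).differentiableAt (hq.differentiable (by norm_num) z)).1
    rw [(RG_hasDerivAt hT (‖z‖ ^ 2)).deriv, (dz_normSq z).1] at e3
    rw [e1, e2, e3]
    have h3 : z * (starRingEnd ℂ) z = ((‖z‖ ^ 2 : ℝ) : ℂ) := by
      rw [Complex.mul_conj, Complex.normSq_eq_norm_sq]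
    have h4 : (-1 / 2 : ℂ) * ((RG_r (s ^ 2) (‖z‖ ^ 2) : ℝ) : ℂ) +
        (-1 / 2 : ℂ) * z * (((RG_d (s ^ 2) (‖z‖ ^ 2) : ℝ) : ℂ) * (starRingEnd ℂ) z) =
        ((-1 / 2 * (RG_r (s ^ 2) (‖z‖ ^ 2) + ‖z‖ ^ 2 * RG_d (s ^ 2) (‖z‖ ^ 2)) : ℝ) : ℂ) := by
      push_cast
      have h3' : z * (starRingEnd ℂ) z = (‖z‖ : ℂ) ^ 2 := by rw [h3]; push_cast; ring
      linear_combination (-1 / 2 : ℂ) * ((RG_d (s ^ 2) (‖z‖ ^ 2) : ℝ) : ℂ) * h3'
    rw [h4, Complex.ofReal_re]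
    have h5 : 0 ≤ RG_r (s ^ 2) (‖z‖ ^ 2) + ‖z‖ ^ 2 * RG_d (s ^ 2) (‖z‖ ^ 2) := by
      unfold RG_r RG_d
      split_ifs with h
      · have : (2 - ‖z‖ ^ 2 / s ^ 2) / s ^ 2 + ‖z‖ ^ 2 * (-1 / (s ^ 2) ^ 2) =
            2 * (s ^ 2 - ‖z‖ ^ 2) / (s ^ 2) ^ 2 := by
          field_simp
          ring
        rw [this]
        have : 0 ≤ s ^ 2 - ‖z‖ ^ 2 := by linarith
        positivity
      · have hpos : 0 < ‖z‖ ^ 2 := lt_of_lt_of_le hT (not_lt.1 h)
        have : 1 / ‖z‖ ^ 2 + ‖z‖ ^ 2 * (-1 / (‖z‖ ^ 2) ^ 2) = 0 := by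
          field_simp
          ring
        rw [this]
    linarith

end TN
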