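import Pool.Agent.H60.PH.EZ
import Pool.Agent.H60.PH.RG
import Pool.Agent.H60.PH.PT

/-!
EF (the regularised connection form).  Apply `patch` with `O i = ball (k i) s` (closure = `closedBall (k i) s`), `J g x = (conj (dact g x))⁻¹` (`dact_mul`, `dact_ne`),
`f x = if V x = 0 then 0 else e0 V x` (by `e0_equi`, and `V (act g x) = 0 ↔ V x = 0`), `fi i x = R (x - k i) - x/(1 - ‖x‖²)`, `R` from `exists_reg` with `s/2`.
`E = f'`.  `CoEqui` from the invariance.  Note `V x = x - k i ≠ 0` near every point of `closedBall (k i) s` other than `k i`... precisely: for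
`s/2 < ‖x - k i‖ < s` we have `V y = y - k i` near `x`, so `e0 V x = fi i x` (`e0_zero`).
Local analysis at `x` (`‖x‖ < 1`) by the last statement of `patch`.  First alternative: near `x` `E = f` and no point is in a translate of a `O i`, so `V ≠ 0` near `x`
(`hV0`: a zero `x'` has `act g x' = k i ∈ O i`), and `E = e0 V` near `x`: smooth (`e0_smooth`), `dz E = dz (e0 V)` (`e0_dz`).
Second alternative `(g, i)`, `‖act g x - k i‖ ≤ s`.  If `‖act g x - k i‖ < s`: near `x` `E (act g x') = fi i (act g x')`.  If `‖act g x - k i‖ = s`: near `x`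
`s/2 < ‖act g x' - k i‖`, so `E (act g x') = e0 V (act g x')` in both cases (`V (act g x) = act g x - k i ≠ 0`, so `V ≠ 0` near `act g x`).  In both cases
`E (act g x') = h (act g x')` near `x` with `h` `C¹` at `act g x` and `(dz h (act g x)).re ≤ -1/(1 - ‖act g x‖²)²` (for `fi i`: `dz (x/(1-‖x‖²)) = 1/(1-‖x‖²)²`), and
`E x' = h (act g x') * conj (dact g x')`: smooth (`act_smooth`, `dact_smooth`), and `dz E x = dz h (act g x) * dact g x * conj (dact g x)` (`dz_comp`, `dz_conj`,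
`dzb (dact g) = 0`), so `re (dz E x) = ‖dact g x‖² re (dz h (act g x)) ≤ - ‖dact g x‖²/(1 - ‖act g x‖²)² = -1/(1-‖x‖²)²` (`act_conf`).
-/

namespace TN
open Metric Set Filter Topology DS MeasureTheory

variable {Γ : Type} [Group Γ]

theorem EF_dact_deriv (F : Fuchs Γ) (g : Γ) {x : ℂ} (hx : ‖x‖ ≤ 1) :
    ∃ D, HasDerivAt (F.dact g) D x := by
  have h0 := den_ne (F.hb g) hx
  have h1 : DifferentiableAt ℂ (fun y : ℂ => F.u g * (1 - (starRingEnd ℂ) (F.b g) * F.b g) /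
      (1 - (starRingEnd ℂ) (F.b g) * y) ^ 2) x := by
    refine DifferentiableAt.fun_div (differentiableAt_const _) ?_ (pow_ne_zero 2 h0)
    fun_prop
  exact ⟨_, h1.hasDerivAt⟩

theorem EF_loc (F : Fuchs Γ) {E h : ℂ → ℂ} {g : Γ} {x : ℂ} (hx : ‖x‖ < 1)
    (hh : ContDiffAt ℝ 1 h (F.act g x))
    (hdz : (dz h (F.act g x)).re ≤ -1 / (1 - ‖F.act g x‖ ^ 2) ^ 2)
    (hE : ∀ᶠ x' in 𝓝 x, E x' = h (F.act g x') * (starRingEnd ℂ) (F.dact g x')) :
    ContDiffAt ℝ 1 E x ∧ (dz E x).re ≤ -1 / (1 - ‖x‖ ^ 2) ^ 2 := by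
  have hxb : ball (0:ℂ) 1 ∈ 𝓝 x := isOpen_ball.mem_nhds (mem_ball_zero_iff.2 hx)
  have ha : ContDiffAt ℝ 1 (F.act g) x := (act_smooth F g (n := 1)).contDiffAt hxb
  have hda : ContDiffAt ℝ 1 (F.dact g) x := (dact_smooth F g (n := 1)).contDiffAt hxb
  have h1 : ContDiffAt ℝ 1 (fun y => h (F.act g y)) x := hh.comp x ha
  have h2 : ContDiffAt ℝ 1 (fun y => (starRingEnd ℂ) (F.dact g y)) x :=
    (Complex.conjCLE : ℂ →L[ℝ] ℂ).contDiff.contDiffAt.comp x hda
  have h3 : ContDiffAt ℝ 1 (fun y => h (F.act g y) * (starRingEnd ℂ) (F.dact g y)) x := h1.mul h2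
  refine ⟨h3.congr_of_eventuallyEq hE, ?_⟩
  rw [(dz_congr hE).1, (dz_mul (h1.differentiableAt (by norm_num))
    (h2.differentiableAt (by norm_num))).1,
    (dz_comp (hh.differentiableAt (by norm_num)) (act_hasDerivAt F g hx.le)).1,
    (dz_conj (hda.differentiableAt (by norm_num))).1]
  obtain ⟨D, hD⟩ := EF_dact_deriv F g hx.le
  rw [(dz_holo hD).2, map_zero, mul_zero, add_zero, mul_assoc, Complex.mul_conj,
    Complex.re_mul_ofReal, Complex.normSq_eq_norm_sq]
  have h4 := act_conf F g hx.le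
  have h5 : 0 < ‖F.dact g x‖ := norm_pos_iff.2 (dact_ne F g hx.le)
  have h6 : 0 < 1 - ‖x‖ ^ 2 := by nlinarith [norm_nonneg x]
  rw [h4] at hdz
  calc (dz h (F.act g x)).re * ‖F.dact g x‖ ^ 2
      ≤ (-1 / (‖F.dact g x‖ * (1 - ‖x‖ ^ 2)) ^ 2) * ‖F.dact g x‖ ^ 2 :=
        mul_le_mul_of_nonneg_right hdz (sq_nonneg _)
    _ = -1 / (1 - ‖x‖ ^ 2) ^ 2 := by
        field_simp

theorem EF_fi {R : ℂ → ℂ} (hR : ContDiff ℝ 1 R) (hR2 : ∀ z, (dz R z).re ≤ 0) (k : ℂ) {x : ℂ}
    (hx : ‖x‖ < 1) :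
    ContDiffAt ℝ 1 (fun x => R (x - k) - x / ((1 - ‖x‖ ^ 2 : ℝ) : ℂ)) x ∧
      (dz (fun x => R (x - k) - x / ((1 - ‖x‖ ^ 2 : ℝ) : ℂ)) x).re ≤ -1 / (1 - ‖x‖ ^ 2) ^ 2 := by
  have h6 : 0 < 1 - ‖x‖ ^ 2 := by nlinarith [norm_nonneg x]
  have h6' : ((1 - ‖x‖ ^ 2 : ℝ) : ℂ) ≠ 0 := Complex.ofReal_ne_zero.2 h6.ne'
  have c1 : ContDiffAt ℝ 1 (fun x : ℂ => R (x - k)) x :=
    (hR.comp (contDiff_id.sub contDiff_const)).contDiffAt
  have c2 : ContDiffAt ℝ 1 (fun x : ℂ => ((‖x‖ ^ 2 : ℝ) : ℂ)) x := by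
    have : ContDiff ℝ 1 (fun x : ℂ => ((‖x‖ ^ 2 : ℝ) : ℂ)) :=
      Complex.ofRealCLM.contDiff.comp (contDiff_norm_sq ℝ)
    exact this.contDiffAt
  have e1 : (fun x : ℂ => ((1 - ‖x‖ ^ 2 : ℝ) : ℂ)) = fun x : ℂ => 1 - ((‖x‖ ^ 2 : ℝ) : ℂ) := by
    funext y
    push_cast
    rfl
  have c3 : ContDiffAt ℝ 1 (fun x : ℂ => ((1 - ‖x‖ ^ 2 : ℝ) : ℂ)) x := by
    rw [e1]
    exact contDiffAt_const.sub c2
  have c4 : ContDiffAt ℝ 1 (fun x : ℂ => x / ((1 - ‖x‖ ^ 2 : ℝ) : ℂ)) x := by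
    have := contDiffAt_id.mul (c3.inv h6')
    refine this.congr_of_eventuallyEq (Eventually.of_forall fun y => ?_)
    exact div_eq_mul_inv _ _
  refine ⟨c1.sub c4, ?_⟩
  have d1 := c1.differentiableAt (by norm_num)
  have d2 := c2.differentiableAt (by norm_num)
  have d3 := c3.differentiableAt (by norm_num)
  have d4 := c4.differentiableAt (by norm_num)
  have hid : DifferentiableAt ℝ (fun y : ℂ => y) x := differentiableAt_id
  have hz3 : dz (fun x : ℂ => ((1 - ‖x‖ ^ 2 : ℝ) : ℂ)) x = -(starRingEnd ℂ) x := by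
    rw [e1, (dz_sub (differentiableAt_const 1) d2).1, (dz_const 1 x).1, (dz_normSq x).1, zero_sub]
  have hz1 : dz (fun x : ℂ => R (x - k)) x = dz R (x - k) := by
    have h := (dz_comp (f := R) (g := fun y => y - k) (x := x) (g' := 1)
      ((hR.differentiable (by norm_num)) _) ((hasDerivAt_id x).sub_const k)).1
    rw [h, mul_one]
  have hid1 : dz (fun y : ℂ => y) x = 1 := (dz_holo (hasDerivAt_id x)).1
  have hz4 : dz (fun x : ℂ => x / ((1 - ‖x‖ ^ 2 : ℝ) : ℂ)) x = ((1 / (1 - ‖x‖ ^ 2) ^ 2 : ℝ) : ℂ) := by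
    rw [(dz_div hid d3 h6').1, hz3, hid1]
    have h7 : 1 * ((1 - ‖x‖ ^ 2 : ℝ) : ℂ) - x * -(starRingEnd ℂ) x = 1 := by
      rw [mul_neg, Complex.mul_conj, Complex.normSq_eq_norm_sq]
      push_cast
      ring
    rw [h7]
    push_cast
    ring
  rw [(dz_sub d1 d4).1, hz1, hz4, Complex.sub_re, Complex.ofReal_re]
  have h8 := hR2 (x - k)
  have h9 : -1 / (1 - ‖x‖ ^ 2) ^ 2 = -(1 / (1 - ‖x‖ ^ 2) ^ 2) := by ring
  rw [h9]
  linarith

theorem exists_form (F : Fuchs Γ) {m : ℕ} {k : Fin m → ℂ} {s : ℝ} (hs : 0 < s)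
    (hb : ∀ i, closedBall (k i) s ⊆ ball 0 1)
    (hd : ∀ i j g, (g ≠ 1 ∨ i ≠ j) → Disjoint (F.act g '' closedBall (k i) s) (closedBall (k j) s))
    {V : ℂ → ℂ} (hV : ContDiffOn ℝ 2 V (ball 0 1)) (hVe : F.Equi V)
    (hVk : ∀ i, ∀ x ∈ closedBall (k i) s, V x = x - k i)
    (hV0 : ∀ x ∈ ball (0:ℂ) 1, V x = 0 → ∃ g i, F.act g x = k i) :
    ∃ E : ℂ → ℂ, ContDiffOn ℝ 1 E (ball 0 1) ∧ F.CoEqui E ∧
      (∀ x ∈ ball (0:ℂ) 1, (dz E x).re ≤ -1 / (1 - ‖x‖ ^ 2) ^ 2) ∧
      ∀ x ∈ ball (0:ℂ) 1, (∀ g i, F.act g x ∉ closedBall (k i) s) → E x = e0 V x := by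
  classical
  obtain ⟨R, hR1, hR2, hR3⟩ := exists_reg (half_pos hs)
  have hcl : ∀ i, closure (ball (k i) s) = closedBall (k i) s := fun i => closure_ball _ hs.ne'
  set f : ℂ → ℂ := fun x => if V x = 0 then 0 else e0 V x with hf_def
  set fi : Fin m → ℂ → ℂ := fun i x => R (x - k i) - x / ((1 - ‖x‖ ^ 2 : ℝ) : ℂ) with hfi_def
  obtain ⟨E, q1, q2, q3, q4⟩ := patch F (O := fun i => ball (k i) s) (fun i => isOpen_ball)
    (fun i => by rw [hcl]; exact hb i)
    (fun i j g h => by rw [hcl, hcl]; exact hd i j g h)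
    (J := fun g x => ((starRingEnd ℂ) (F.dact g x))⁻¹)
    (fun x hx => by
      have h1 : F.dact 1 x = 1 := dact_one F (mem_ball_zero_iff.1 hx).le
      simp only [h1, map_one, inv_one])
    (fun g h x hx => by
      simp only [dact_mul F g h (mem_ball_zero_iff.1 hx).le, map_mul, mul_inv])
    (f := f)
    (fun g x hx => by
      have h1 := dact_ne F g (mem_ball_zero_iff.1 hx).le
      have h2 := hVe g x hx
      by_cases hV0 : V x = 0
      · have h3 : V (F.act g x) = 0 := by rw [h2, hV0, mul_zero]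
        simp only [hf_def, if_pos hV0, if_pos h3, mul_zero]
      · have h3 : V (F.act g x) ≠ 0 := by rw [h2]; exact mul_ne_zero h1 hV0
        simp only [hf_def, if_neg hV0, if_neg h3]
        have h4 := e0_equi F hV hVe g (mem_ball_zero_iff.1 hx) hV0
        have h5 : (starRingEnd ℂ) (F.dact g x) ≠ 0 := (map_ne_zero _).2 h1
        rw [← h4]
        field_simp)
    fi
  have hco : F.CoEqui E := by
    intro g x hx
    have h1 : (starRingEnd ℂ) (F.dact g x) ≠ 0 :=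
      (map_ne_zero _).2 (dact_ne F g (mem_ball_zero_iff.1 hx).le)
    rw [q1 g x hx]
    field_simp
  have hmain : ∀ x ∈ ball (0:ℂ) 1,
      ContDiffAt ℝ 1 E x ∧ (dz E x).re ≤ -1 / (1 - ‖x‖ ^ 2) ^ 2 := by
    intro x hx
    have hx1 : ‖x‖ < 1 := mem_ball_zero_iff.1 hx
    have hxn : ball (0:ℂ) 1 ∈ 𝓝 x := isOpen_ball.mem_nhds hx
    obtain ⟨δ, hδ, h | ⟨g, i, hgi, h⟩⟩ := q4 x hx
    · have hne : ∀ x' ∈ ball (0:ℂ) 1, dist x' x < δ → V x' ≠ 0 := by
        intro x' hx' hd' h0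
        obtain ⟨g, i, hg⟩ := hV0 x' hx' h0
        apply (h x' hx' hd').2 g i
        rw [hg]
        exact mem_ball_self hs
      have hev : E =ᶠ[𝓝 x] e0 V := by
        filter_upwards [hxn, ball_mem_nhds x hδ] with x' hx' hd'
        rw [(h x' hx' hd').1]
        simp only [hf_def, if_neg (hne x' hx' hd')]
      have h0 := hne x hx (by simpa using hδ)
      refine ⟨(e0_smooth hV hx1 h0).congr_of_eventuallyEq hev, ?_⟩
      rw [(dz_congr hev).1, e0_dz hV hx1 h0]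
    · rw [hcl] at hgi
      have hyb : F.act g x ∈ ball (0:ℂ) 1 := hb i hgi
      have hy1 : ‖F.act g x‖ < 1 := mem_ball_zero_iff.1 hyb
      have hact : ContinuousAt (F.act g) x := (act_hasDerivAt F g hx1.le).continuousAt
      have hE : ∀ᶠ x' in 𝓝 x, E x' = (if F.act g x' ∈ ball (k i) s then fi i (F.act g x') else
          f (F.act g x')) * (starRingEnd ℂ) (F.dact g x') := by
        filter_upwards [hxn, ball_mem_nhds x hδ] with x' hx' hd'
        rw [← hco g x' hx', h x' hx' hd']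
      rcases lt_or_eq_of_le (mem_closedBall.1 hgi) with hlt | heq
      · have hin : ∀ᶠ x' in 𝓝 x, F.act g x' ∈ ball (k i) s :=
          hact.eventually_mem (isOpen_ball.mem_nhds hlt)
        obtain ⟨c1, c2⟩ := EF_fi hR1 hR3 (k i) hy1
        refine EF_loc F hx1 c1 c2 ?_
        filter_upwards [hE, hin] with x' h1 h2
        rw [h1, if_pos h2]
      · have hVy : V (F.act g x) = F.act g x - k i := hVk i _ hgi
        have hVy0 : V (F.act g x) ≠ 0 := by
          rw [hVy, ← norm_pos_iff, ← dist_eq_norm, heq]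
          exact hs
        have hVc : ContinuousAt V (F.act g x) :=
          hV.continuousOn.continuousAt (isOpen_ball.mem_nhds hyb)
        have hin : ∀ᶠ x' in 𝓝 x, V (F.act g x') ≠ 0 :=
          hact.eventually (hVc.eventually_ne hVy0)
        have hfar : ∀ᶠ x' in 𝓝 x, s / 2 < dist (F.act g x') (k i) := by
          have h1 : ContinuousAt (fun x' => dist (F.act g x') (k i)) x :=
            hact.dist continuousAt_const
          have h1' : s / 2 < dist (F.act g x) (k i) := by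
            rw [heq]
            exact half_lt_self hs
          exact h1.eventually (lt_mem_nhds h1')
        refine EF_loc F hx1 (e0_smooth hV hy1 hVy0) (e0_dz hV hy1 hVy0).le ?_
        filter_upwards [hE, hin, hfar, hxn] with x' h1 h2 h3 h4
        rw [h1]
        congr 1
        split_ifs with h5
        · have h6 : F.act g x' ≠ k i := by
            intro h7
            rw [h7, dist_self] at h3
            linarith
          have h7 : ∀ᶠ y in 𝓝 (F.act g x'), V y = y - k i := by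
            filter_upwards [isOpen_ball.mem_nhds h5] with y hy
            exact hVk i y (ball_subset_closedBall hy)
          rw [e0_zero (act_lt F g (mem_ball_zero_iff.1 h4)) h6 h7]
          simp only [hfi_def]
          rw [hR2 _ (by rw [← dist_eq_norm]; exact h3.le)]
        · simp only [hf_def, if_neg h2]
  refine ⟨E, fun x hx => (hmain x hx).1.contDiffWithinAt, hco, fun x hx => (hmain x hx).2, ?_⟩
  intro x hx hno
  have h1 : V x ≠ 0 := by
    intro h0
    obtain ⟨g, i, hg⟩ := hV0 x hx h0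
    apply hno g i
    rw [hg]
    exact mem_closedBall_self hs.le
  rw [q3 x hx fun g i hgi => hno g i (ball_subset_closedBall hgi)]
  simp only [hf_def, if_neg h1]

end TN
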