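import Pool.Agent.H60.PH.LP

/-!
EX (invariant extension of functions given on the collars).  `C x = c i (act g x)` if `F.ht (p i) (q i) g x < π/2` for some `i`, `g` (chosen),
and `C x = 0` otherwise.  By `ht_disj` another choice `(j, h)` has `j = i` and `h = κ_i^z g`, and `c i` is invariant under powers of
`κ i` (induction on `z : ℤ`, `act_mul`), so `C x = c i (act g x)` for every such pair `(i, g)`.  Invariance: `ht_mul`.
Local statement at `x`: let `δ` be from `ht_lip` with `η = (π/2 - y₁)/2`.  If `F.ht (p i) (q i) g x < π/2 - η` for some `i, g`: then for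
`x'` near `x` the height is `< π/2`, so `C x' = c i (act g x')`.  Otherwise all heights at `x'` are `> y₁`, so `C x' = 0`
(either no height is `< π/2`, or `C x' = c i (act g x') = 0` by `hz`).
`exists_cut`: apply `inv_ext` to `c i x = c (im om) - 1` (real), `y₁ = b`, and put `χ = 1 + C`.
-/

namespace TN
open Metric Set Filter Topology DS MeasureTheory

variable {Γ : Type} [Group Γ]

theorem EX_zpow {F : Fuchs Γ} {κ : Γ} {E : Type} {c : ℂ → E}
    (hinv : ∀ x ∈ ball (0:ℂ) 1, c (F.act κ x) = c x) (k : Γ) (hk : k ∈ Subgroup.zpowers κ) :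
    ∀ x ∈ ball (0:ℂ) 1, c (F.act k x) = c x := by
  have hle : ∀ x ∈ ball (0:ℂ) 1, ‖x‖ ≤ 1 := fun x hx => by
    have : ‖x‖ < 1 := by simpa using hx
    exact this.le
  have hb : ∀ g : Γ, ∀ x ∈ ball (0:ℂ) 1, F.act g x ∈ ball (0:ℂ) 1 := fun g x hx => by
    have : ‖x‖ < 1 := by simpa using hx
    simpa using act_lt F g this
  have hm : ∀ x ∈ ball (0:ℂ) 1, c (F.act κ⁻¹ x) = c x := by
    intro x hx
    rw [← hinv _ (hb κ⁻¹ x hx), act_act_inv F κ (hle x hx)]
  rw [Subgroup.mem_zpowers_iff] at hk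
  obtain ⟨z, rfl⟩ := hk
  induction z using Int.induction_on with
  | zero =>
    intro x hx
    rw [zpow_zero, act_one F (hle x hx)]
  | succ n ih =>
    intro x hx
    rw [zpow_add_one, act_mul F _ _ (hle x hx), ih _ (hb κ x hx), hinv x hx]
  | pred n ih =>
    intro x hx
    rw [zpow_sub_one, act_mul F _ _ (hle x hx), ih _ (hb κ⁻¹ x hx), hm x hx]

theorem inv_ext (F : Fuchs Γ) {n : ℕ} {κ : Fin n → Γ} {p q : Fin n → ℂ} (G : Gaps F n κ p q)
    {E : Type} [Zero E] {c : Fin n → ℂ → E} {y₁ : ℝ} (hy : y₁ < Real.pi / 2)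
    (hinv : ∀ i, ∀ x ∈ ball (0:ℂ) 1, c i (F.act (κ i) x) = c i x)
    (hz : ∀ i, ∀ x ∈ ball (0:ℂ) 1, y₁ ≤ (om (p i) (q i) x).im → c i x = 0) :
    ∃ C : ℂ → E, (∀ g, ∀ x ∈ ball (0:ℂ) 1, C (F.act g x) = C x) ∧
      (∀ i, ∀ x ∈ ball (0:ℂ) 1, (om (p i) (q i) x).im < Real.pi / 2 → C x = c i x) ∧
      (∀ x ∈ ball (0:ℂ) 1, (∀ i g, y₁ ≤ F.ht (p i) (q i) g x) → C x = 0) ∧
      ∀ x ∈ ball (0:ℂ) 1, ∃ δ > 0, (∃ i g, ∀ x' ∈ ball (0:ℂ) 1, dist x' x < δ → C x' = c i (F.act g x')) ∨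
        (∀ x' ∈ ball (0:ℂ) 1, dist x' x < δ → C x' = 0) := by
  classical
  have hlt : ∀ x ∈ ball (0:ℂ) 1, ‖x‖ < 1 := fun x hx => by simpa using hx
  have hb : ∀ g : Γ, ∀ x ∈ ball (0:ℂ) 1, F.act g x ∈ ball (0:ℂ) 1 := fun g x hx => by
    simpa using act_lt F g (hlt x hx)
  let C : ℂ → E := fun x => if h : ∃ a : Fin n × Γ, F.ht (p a.1) (q a.1) a.2 x < Real.pi / 2 then
    c h.choose.1 (F.act h.choose.2 x) else 0
  have hC0 : ∀ x, (¬ ∃ a : Fin n × Γ, F.ht (p a.1) (q a.1) a.2 x < Real.pi / 2) → C x = 0 := by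
    intro x hx
    exact dif_neg hx
  have hC1 : ∀ x ∈ ball (0:ℂ) 1, ∀ i g, F.ht (p i) (q i) g x < Real.pi / 2 →
      C x = c i (F.act g x) := by
    intro x hx i g hg
    have h : ∃ a : Fin n × Γ, F.ht (p a.1) (q a.1) a.2 x < Real.pi / 2 := ⟨(i, g), hg⟩
    have e1 : C x = c h.choose.1 (F.act h.choose.2 x) := dif_pos h
    rw [e1]
    have h2 := h.choose_spec
    generalize h.choose = a at h2 ⊢
    obtain ⟨j, k⟩ := a
    obtain ⟨e2, e3⟩ := ht_disj F G (hlt x hx) hg h2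
    subst e2
    have e4 : F.act k x = F.act (k * g⁻¹) (F.act g x) := by
      rw [← act_mul F _ _ (hlt x hx).le, inv_mul_cancel_right]
    simp only
    rw [e4]
    exact EX_zpow (hinv i) _ e3 _ (hb g x hx)
  have hC2 : ∀ x ∈ ball (0:ℂ) 1, (∀ i g, y₁ ≤ F.ht (p i) (q i) g x) → C x = 0 := by
    intro x hx h
    by_cases h1 : ∃ a : Fin n × Γ, F.ht (p a.1) (q a.1) a.2 x < Real.pi / 2
    · obtain ⟨⟨i, g⟩, hg⟩ := h1
      rw [hC1 x hx i g hg]
      exact hz i _ (hb g x hx) (h i g)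
    · exact hC0 x h1
  refine ⟨C, ?_, ?_, hC2, ?_⟩
  · intro g x hx
    by_cases h1 : ∃ a : Fin n × Γ, F.ht (p a.1) (q a.1) a.2 (F.act g x) < Real.pi / 2
    · obtain ⟨⟨i, h⟩, hh⟩ := h1
      rw [hC1 _ (hb g x hx) i h hh]
      simp only at hh
      rw [ht_mul F _ _ _ _ (hlt x hx)] at hh
      rw [hC1 x hx i (h * g) hh, act_mul F _ _ (hlt x hx).le]
    · rw [hC0 _ h1, hC0 x]
      rintro ⟨⟨i, h⟩, hh⟩
      apply h1
      refine ⟨(i, h * g⁻¹), ?_⟩
      simp only at hh ⊢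
      rw [ht_mul F _ _ _ _ (hlt x hx), inv_mul_cancel_right]
      exact hh
  · intro i x hx h
    have e1 : F.act 1 x = x := act_one F (hlt x hx).le
    have h1 : F.ht (p i) (q i) 1 x < Real.pi / 2 := by
      rw [Fuchs.ht, e1]
      exact h
    rw [hC1 x hx i 1 h1, e1]
  · intro x hx
    have hη : 0 < (Real.pi / 2 - y₁) / 2 := by linarith
    obtain ⟨δ, hδ, H⟩ := ht_lip F G (hlt x hx) hη
    refine ⟨δ, hδ, ?_⟩
    by_cases h1 : ∃ a : Fin n × Γ, F.ht (p a.1) (q a.1) a.2 x < Real.pi / 2 - (Real.pi / 2 - y₁) / 2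
    · obtain ⟨⟨i, g⟩, hg⟩ := h1
      left
      refine ⟨i, g, fun x' hx' hd => hC1 x' hx' i g ?_⟩
      have := abs_lt.1 (H x' hx' hd i g)
      simp only at hg
      linarith [this.2]
    · right
      intro x' hx' hd
      refine hC2 x' hx' fun i g => ?_
      have h2 := abs_lt.1 (H x' hx' hd i g)
      have h3 : Real.pi / 2 - (Real.pi / 2 - y₁) / 2 ≤ F.ht (p i) (q i) g x := by
        by_contra h4
        exact h1 ⟨(i, g), not_le.1 h4⟩
      linarith [h2.1]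

theorem EX_ht_smooth (F : Fuchs Γ) {p q : ℂ} (hp : ‖p‖ = 1) (hq : ‖q‖ = 1) (hpq : p ≠ q) (g : Γ)
    {m : WithTop ℕ∞} : ContDiffOn ℝ m (fun x => (om p q (F.act g x)).im) (ball 0 1) := by
  have h1 : DifferentiableOn ℂ (fun x => om p q (F.act g x)) (ball 0 1) := by
    intro x hx
    have hx' : ‖x‖ < 1 := by simpa using hx
    have h2 := (om_hasDerivAt hp hq hpq (act_lt F g hx')).comp x (act_hasDerivAt F g hx'.le)
    exact h2.differentiableAt.differentiableWithinAt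
  have h2 : ContDiffOn ℂ m (fun x => om p q (F.act g x)) (ball 0 1) := h1.contDiffOn isOpen_ball
  exact Complex.imCLM.contDiff.comp_contDiffOn (h2.restrict_scalars ℝ)

theorem exists_cut (F : Fuchs Γ) {n : ℕ} {κ : Fin n → Γ} {p q : Fin n → ℂ} (G : Gaps F n κ p q)
    {a b : ℝ} {c : ℝ → ℝ} (hc : Step a b c) (hb : b < Real.pi / 2) :
    ∃ χ : ℂ → ℝ, Cut F p q c χ := by
  have hlt : ∀ x ∈ ball (0:ℂ) 1, ‖x‖ < 1 := fun x hx => by simpa using hx
  obtain ⟨C, h1, h2, h3, h4⟩ := inv_ext F G (E := ℝ) (c := fun i x => c (om (p i) (q i) x).im - 1) hb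
    (by
      intro i x hx
      have e := ht_kappa F G i (Subgroup.mem_zpowers (κ i)) 1 (hlt x hx)
      rw [Fuchs.ht, Fuchs.ht, mul_one, act_one F (hlt x hx).le] at e
      simp only [e])
    (by
      intro i x hx h
      rw [hc.one _ h, sub_self])
  have hval : ∀ x ∈ ball (0:ℂ) 1, C x = 0 ∨ ∃ i g, C x = c (om (p i) (q i) (F.act g x)).im - 1 := by
    intro x hx
    obtain ⟨δ, hδ, H | H⟩ := h4 x hx
    · obtain ⟨i, g, H⟩ := H
      exact Or.inr ⟨i, g, H x hx (by simpa using hδ)⟩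
    · exact Or.inl (H x hx (by simpa using hδ))
  refine ⟨fun x => 1 + C x, ?_, ?_, ?_, ?_, ?_, ?_⟩
  · intro x hx
    obtain ⟨δ, hδ, H | H⟩ := h4 x hx
    · obtain ⟨i, g, H⟩ := H
      have hs : ContDiffOn ℝ 2 (fun y => 1 + (c (om (p i) (q i) (F.act g y)).im - 1)) (ball 0 1) := by
        have := hc.smooth.comp_contDiffOn
          (EX_ht_smooth F (G.ar i).np (G.ar i).nq (G.ar i).ne g (m := 2))
        exact contDiffOn_const.add (this.sub contDiffOn_const)
      refine ((hs x hx).congr_of_eventuallyEq ?_ ?_)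
      · have : ball x δ ∈ 𝓝[ball 0 1] x := mem_nhdsWithin_of_mem_nhds (ball_mem_nhds x hδ)
        filter_upwards [this, self_mem_nhdsWithin] with y hy hy1
        rw [H y hy1 hy]
      · rw [H x hx (by simpa using hδ)]
    · have hs : ContDiffOn ℝ 2 (fun _ : ℂ => (1 : ℝ)) (ball 0 1) := contDiffOn_const
      refine ((hs x hx).congr_of_eventuallyEq ?_ ?_)
      · have : ball x δ ∈ 𝓝[ball 0 1] x := mem_nhdsWithin_of_mem_nhds (ball_mem_nhds x hδ)
        filter_upwards [this, self_mem_nhdsWithin] with y hy hy1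
        rw [H y hy1 hy, add_zero]
      · rw [H x hx (by simpa using hδ), add_zero]
  · intro g x hx
    simp only [h1 g x hx]
  · intro x hx
    rcases hval x hx with h | ⟨i, g, h⟩
    · simp [h]
    · simp [h, hc.nonneg]
  · intro x hx
    rcases hval x hx with h | ⟨i, g, h⟩
    · simp [h]
    · simp [h, hc.le_one]
  · intro i x hx h
    rw [h2 i x hx h]
    ring
  · intro x hx h
    rw [h3 x hx fun i g => hb.le.trans (h i g), add_zero]

/-- values of a cut-off function in terms of one height -/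
theorem Cut.eq {F : Fuchs Γ} {n : ℕ} {p q : Fin n → ℂ} {c : ℝ → ℝ} {χ : ℂ → ℝ} (h : Cut F p q c χ)
    {i : Fin n} {g : Γ} {x : ℂ} (hx : ‖x‖ < 1) (hh : F.ht (p i) (q i) g x < Real.pi / 2) :
    χ x = c (F.ht (p i) (q i) g x) := by
  rw [← h.invt g x (by simpa using hx)]
  exact h.near i _ (by simpa using act_lt F g hx) hh

/-- where all heights are at least `b` the cut-off function is `1` -/
theorem Cut.eq_one {F : Fuchs Γ} {n : ℕ} {p q : Fin n → ℂ} {a b : ℝ} {c : ℝ → ℝ} {χ : ℂ → ℝ}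
    (h : Cut F p q c χ) (hc : Step a b c) {x : ℂ} (hx : ‖x‖ < 1)
    (hh : ∀ i g, b ≤ F.ht (p i) (q i) g x) : χ x = 1 := by
  by_cases h1 : ∃ i g, F.ht (p i) (q i) g x < Real.pi / 2
  · obtain ⟨i, g, hg⟩ := h1
    rw [h.eq hx hg]
    exact hc.one _ (hh i g)
  · push Not at h1
    exact h.far x (by simpa using hx) h1

/-- where the cut-off function is not zero all heights are greater than `a` -/
theorem Cut.ne_zero {F : Fuchs Γ} {n : ℕ} {p q : Fin n → ℂ} {a b : ℝ} {c : ℝ → ℝ} {χ : ℂ → ℝ}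
    (h : Cut F p q c χ) (hc : Step a b c) (ha : a < Real.pi / 2) {x : ℂ} (hx : ‖x‖ < 1) (hh : χ x ≠ 0) :
    ∀ i g, a < F.ht (p i) (q i) g x := by
  intro i g
  by_contra h1
  push Not at h1
  apply hh
  rw [h.eq hx (h1.trans_lt ha)]
  exact hc.zero _ h1

end TN
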