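import Pool.Agent.H60.PH.IP

/-!
PA (product functions in the strip coordinate).  The set `omi p q '' {ω | |re ω| ≤ R, a ≤ im ω ≤ c}` is a compact subset of the
open disc (`omi_cont`, `omi_ball`), so contained in `closedBall 0 r`, `r < 1`; if `‖x‖ < 1` and `psiI x ≠ 0` then `om x` is in the
rectangle and `x = omi (om x)` (`omi_om`).  Smooth on the disc: `om p q` is holomorphic there (`om_hasDerivAt`), so `ContDiffOn ℝ`;
compose with `re`, `im`, `τ`, `ρ`.  `contDiff_of_supp`.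
-/

namespace TN
open Metric Set Filter Topology MeasureTheory

theorem om_smooth {p q : ℂ} (hp : ‖p‖ = 1) (hq : ‖q‖ = 1) (hpq : p ≠ q) {n : ℕ} :
    ContDiffOn ℝ n (om p q) (ball 0 1) := by
  have h1 : DifferentiableOn ℂ (om p q) (ball 0 1) := fun x hx =>
    (om_hasDerivAt hp hq hpq (mem_ball_zero_iff.1 hx)).differentiableAt.differentiableWithinAt
  exact (h1.contDiffOn isOpen_ball).restrict_scalars ℝ

theorem PA_ne {p x : ℂ} (hp : ‖p‖ = 1) (hx : x ∈ ball (0:ℂ) 1) : x ≠ p := by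
  rintro rfl
  rw [mem_ball_zero_iff] at hx
  linarith

theorem omD_smooth {p q : ℂ} (hp : ‖p‖ = 1) (hq : ‖q‖ = 1) (hpq : p ≠ q) {n : ℕ} :
    ContDiffOn ℝ n (omD p q) (ball 0 1) ∧ ContDiffOn ℝ n (Xf p q) (ball 0 1) ∧
      ∀ x ∈ ball (0:ℂ) 1, omD p q x ≠ 0 ∧ Xf p q x ≠ 0 ∧ Xf p q x * omD p q x = 1 := by
  have hpq' : p - q ≠ 0 := sub_ne_zero.2 hpq
  refine ⟨?_, ?_, ?_⟩
  · have h1 : DifferentiableOn ℂ (omD p q) (ball 0 1) := by
      intro x hx
      have h2 : x - q ≠ 0 := sub_ne_zero.2 (PA_ne hq hx)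
      have h3 : p - x ≠ 0 := sub_ne_zero.2 (PA_ne hp hx).symm
      unfold omD
      apply DifferentiableAt.differentiableWithinAt
      apply DifferentiableAt.div
      · fun_prop
      · fun_prop
      · exact mul_ne_zero h2 h3
    exact (h1.contDiffOn isOpen_ball).restrict_scalars ℝ
  · have h1 : DifferentiableOn ℂ (Xf p q) (ball 0 1) := by
      intro x _
      unfold Xf
      apply DifferentiableAt.differentiableWithinAt
      fun_prop
    exact (h1.contDiffOn isOpen_ball).restrict_scalars ℝ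
  · intro x hx
    have h2 : x - q ≠ 0 := sub_ne_zero.2 (PA_ne hq hx)
    have h3 : p - x ≠ 0 := sub_ne_zero.2 (PA_ne hp hx).symm
    have h4 := mul_ne_zero h2 h3
    refine ⟨div_ne_zero hpq' h4, div_ne_zero h4 hpq', ?_⟩
    unfold Xf omD
    field_simp

theorem psiI_smooth {p q : ℂ} (hp : ‖p‖ = 1) (hq : ‖q‖ = 1) (hpq : p ≠ q) {τ ρ : ℝ → ℝ}
    (hτ : ContDiff ℝ 2 τ) (hρ : ContDiff ℝ 2 ρ) {R a c : ℝ} (ha : 0 < a) (hc : c < Real.pi)
    (hR : ∀ t, R ≤ |t| → τ t = 0) (hρ0 : ∀ t, t ≤ a ∨ c ≤ t → ρ t = 0) :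
    ContDiff ℝ 2 (psiI p q τ ρ) ∧ ∃ r : ℝ, r < 1 ∧ ∀ x, r < ‖x‖ → psiI p q τ ρ x = 0 := by
  set K : Set ℂ := Icc (-R) R ×ℂ Icc a c with hK
  have hKc : IsCompact K := isCompact_Icc.reProdIm isCompact_Icc
  have hKS : K ⊆ Str := by
    intro ω hω
    have h1 : ω.im ∈ Icc a c := hω.2
    exact ⟨(ha.trans_le h1.1).le, (h1.2.trans_lt hc).le⟩
  have himg : IsCompact (omi p q '' K) := hKc.image_of_continuousOn ((omi_cont hp hq hpq).mono hKS)
  have hsub : omi p q '' K ⊆ ball (0:ℂ) 1 := by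
    rintro _ ⟨ω, hω, rfl⟩
    have h1 : ω.im ∈ Icc a c := hω.2
    rw [mem_ball_zero_iff]
    exact omi_ball hp hq hpq (ha.trans_le h1.1) (h1.2.trans_lt hc)
  obtain ⟨r, hr, hKr⟩ := exists_lt_subset_ball himg.isClosed hsub
  have hzero : ∀ x, r < ‖x‖ → psiI p q τ ρ x = 0 := by
    intro x hx
    by_contra hne
    unfold psiI at hne
    split_ifs at hne with h1
    · have h2 : τ (om p q x).re ≠ 0 := left_ne_zero_of_mul hne
      have h3 : ρ (om p q x).im ≠ 0 := right_ne_zero_of_mul hne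
      have h4 : |(om p q x).re| < R := by
        by_contra h
        exact h2 (hR _ (not_lt.1 h))
      have h5 : a < (om p q x).im ∧ (om p q x).im < c := by
        constructor
        · by_contra h
          exact h3 (hρ0 _ (Or.inl (not_lt.1 h)))
        · by_contra h
          exact h3 (hρ0 _ (Or.inr (not_lt.1 h)))
      have h6 : om p q x ∈ K := ⟨⟨(abs_lt.1 h4).1.le, (abs_lt.1 h4).2.le⟩, h5.1.le, h5.2.le⟩
      have h7 : x ∈ Dpq p q := CP_ball_Dpq hp hq (mem_ball_zero_iff.2 h1)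
      have h8 : x ∈ omi p q '' K := ⟨_, h6, omi_om hp hq hpq h7⟩
      have h9 := mem_ball_zero_iff.1 (hKr h8)
      linarith
    · exact hne rfl
  refine ⟨?_, r, hr, hzero⟩
  refine contDiff_of_supp (n := 2) ?_ hr hzero
  have h1 : ContDiffOn ℝ 2 (fun x => τ (om p q x).re * ρ (om p q x).im) (ball 0 1) := by
    have h2 : ContDiffOn ℝ 2 (om p q) (ball 0 1) := om_smooth (n := 2) hp hq hpq
    have h3 : ContDiffOn ℝ 2 (fun x => (om p q x).re) (ball 0 1) :=
      Complex.reCLM.contDiff.comp_contDiffOn h2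
    have h4 : ContDiffOn ℝ 2 (fun x => (om p q x).im) (ball 0 1) :=
      Complex.imCLM.contDiff.comp_contDiffOn h2
    exact (hτ.comp_contDiffOn h3).mul (hρ.comp_contDiffOn h4)
  refine h1.congr fun x hx => ?_
  unfold psiI
  rw [if_pos (mem_ball_zero_iff.1 hx)]

end TN
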