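import Pool.Agent.H60.PH.WR
import Pool.Agent.H60.PH.PA
import Pool.Agent.H60.PH.SO

/-!
EZ (the connection form of a vector field): `e0 V = (dzb V / V - conj (dz V / V)) / 2 - x / (1 - ‖x‖²)`.
`e0_smooth`: `dz V`, `dzb V` are `C¹` (`dz_smooth`), `V x ≠ 0`, `1 - ‖x‖² ≠ 0`.
`e0_dz`: with `dz_div`, `dz_conj`, `dz_dzb`: `dz (dzb V / V) = (dz dzb V * V - dzb V * dz V)/V² =: a`, `dzb (dz V / V) = (dzb dz V * V - dz V * dzb V)/V² = a`, so
`dz (conj (dz V / V)) = conj a` and `a - conj a` is purely imaginary; `dz (x / (1 - ‖x‖²)) = 1/(1-‖x‖²) + x conj x/(1-‖x‖²)² = 1/(1-‖x‖²)²` (`dz_normSq`).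
`e0_equi`: near `x`: `V (act g y) = dact g y * V y`; apply `dz_comp`, `dz_mul`, `dz_holo`: `dzb V (act g x) * conj (dact g x) = dact g x * dzb V x` and
`dz V (act g x) * dact g x = D * V x + dact g x * dz V x`, `D` the derivative of `dact g` at `x`, `D / dact g x = 2 conj b/(1 - conj b x)`; and
`act g x * conj (dact g x)/(1 - ‖act g x‖²) = x/(1-‖x‖²) - conj (D / dact g x)/2` (apply `dzb` to `1 - ‖act g y‖² = ‖dact g y‖ (1 - ‖y‖²)`, or directly with `act_norm`).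
`e0_collar`: `V = Xf * exp (i c re om)` near `x`: `dzb V / V = i c conj (omD) / 2`, `dz V / V = 1/(x - q) - 1/(p - x) + i c omD / 2`; the identity
`- conj (1/(x - q) - 1/(p - x))/2 - x/(1-‖x‖²) = (I/2) (cos y/ sin y) conj (omD)`, `y = im om`, follows from `cos y / sin y = re eta / im eta`, `eta_im`, and
`re (eta) = - im ((1 - p conj q)(x - q)/(p - x))` (numerically checked), or by applying `dzb ∘ log` to `om_metric`.
`e0_zero`: `V y = y - k` near `x`: `dz V = 1`, `dzb V = 0`.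
-/

namespace TN
open Metric Set Filter Topology DS MeasureTheory

variable {Γ : Type} [Group Γ]

noncomputable def e0 (V : ℂ → ℂ) (x : ℂ) : ℂ :=
  (dzb V x / V x - (starRingEnd ℂ) (dz V x / V x)) / 2 - x / ((1 - ‖x‖ ^ 2 : ℝ) : ℂ)

theorem EZ_N_ne {x : ℂ} (hx : ‖x‖ < 1) : ((1 - ‖x‖ ^ 2 : ℝ) : ℂ) ≠ 0 := by
  have h1 : 0 < 1 - ‖x‖ ^ 2 := by nlinarith [norm_nonneg x]
  exact_mod_cast h1.ne'

theorem EZ_N_smooth {n : ℕ} (x : ℂ) : ContDiffAt ℝ n (fun y : ℂ => ((1 - ‖y‖ ^ 2 : ℝ) : ℂ)) x := by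
  have h1 : ContDiff ℝ n (fun y : ℂ => (1 - ‖y‖ ^ 2 : ℝ)) := contDiff_const.sub (contDiff_norm_sq ℝ)
  exact (Complex.ofRealCLM.contDiff.comp h1).contDiffAt

theorem EZ_N (x : ℂ) : ((1 - ‖x‖ ^ 2 : ℝ) : ℂ) = 1 - x * (starRingEnd ℂ) x := by
  rw [Complex.mul_conj, Complex.normSq_eq_norm_sq]
  push_cast
  ring

theorem EZ_div {f g : ℂ → ℂ} {n : ℕ} {x : ℂ} (hf : ContDiffAt ℝ n f x) (hg : ContDiffAt ℝ n g x)
    (h0 : g x ≠ 0) : ContDiffAt ℝ n (fun y => f y / g y) x := by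
  have h1 : ContDiffAt ℝ n (fun y => (g y)⁻¹) x := hg.inv h0
  simp only [div_eq_mul_inv]
  exact hf.mul h1

theorem EZ_conj {f : ℂ → ℂ} {n : ℕ} {x : ℂ} (hf : ContDiffAt ℝ n f x) :
    ContDiffAt ℝ n (fun y => (starRingEnd ℂ) (f y)) x :=
  (Complex.conjCLE.contDiff (n := n)).contDiffAt.comp x hf

theorem EZ_pre {V : ℂ → ℂ} (hV : ContDiffOn ℝ 2 V (ball 0 1)) {x : ℂ} (hx : ‖x‖ < 1) :
    ContDiffAt ℝ 1 V x ∧ ContDiffAt ℝ 1 (dz V) x ∧ ContDiffAt ℝ 1 (dzb V) x := by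
  have hxb : ball (0 : ℂ) 1 ∈ 𝓝 x := isOpen_ball.mem_nhds (mem_ball_zero_iff.2 hx)
  obtain ⟨h1, h2⟩ := dz_smooth (n := 1) isOpen_ball (by norm_num; exact hV)
  exact ⟨(hV.contDiffAt hxb).of_le (by norm_num), h1.contDiffAt hxb, h2.contDiffAt hxb⟩

theorem e0_smooth {V : ℂ → ℂ} (hV : ContDiffOn ℝ 2 V (ball 0 1)) {x : ℂ} (hx : ‖x‖ < 1) (h0 : V x ≠ 0) :
    ContDiffAt ℝ 1 (e0 V) x := by
  obtain ⟨h1, h2, h3⟩ := EZ_pre hV hx
  have h4 := EZ_div (n := 1) h3 h1 h0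
  have h5 := EZ_conj (EZ_div (n := 1) h2 h1 h0)
  exact ((h4.sub h5).div_const 2).sub (EZ_div (n := 1) contDiffAt_id (EZ_N_smooth x) (EZ_N_ne hx))

theorem EZ_half {f : ℂ → ℂ} {x : ℂ} (hf : DifferentiableAt ℝ f x) :
    dz (fun y => f y / 2) x = dz f x / 2 := by
  rw [(dz_div hf (differentiableAt_const (2 : ℂ)) two_ne_zero).1, (dz_const 2 x).1]
  ring

theorem EZ_dzN (x : ℂ) : dz (fun y : ℂ => ((1 - ‖y‖ ^ 2 : ℝ) : ℂ)) x = - (starRingEnd ℂ) x := by
  have h1 : (fun y : ℂ => ((1 - ‖y‖ ^ 2 : ℝ) : ℂ)) = fun y => (1 : ℂ) - ((‖y‖ ^ 2 : ℝ) : ℂ) := by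
    funext y
    push_cast
    ring
  have h2 : ContDiff ℝ 1 (fun y : ℂ => ((‖y‖ ^ 2 : ℝ) : ℂ)) :=
    Complex.ofRealCLM.contDiff.comp (contDiff_norm_sq ℝ)
  have h3 : DifferentiableAt ℝ (fun y : ℂ => ((‖y‖ ^ 2 : ℝ) : ℂ)) x :=
    (h2.differentiable (by norm_num)).differentiableAt
  rw [h1, (dz_sub (differentiableAt_const (1 : ℂ)) h3).1, (dz_const 1 x).1, (dz_normSq x).1, zero_sub]

theorem EZ_dzx {x : ℂ} (hx : ‖x‖ < 1) : dz (fun y : ℂ => y / ((1 - ‖y‖ ^ 2 : ℝ) : ℂ)) x =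
    ((1 / (1 - ‖x‖ ^ 2) ^ 2 : ℝ) : ℂ) := by
  have hN := EZ_N_ne hx
  have h1 : dz (fun y : ℂ => y) x = 1 := (dz_holo (hasDerivAt_id x)).1
  rw [(dz_div (f := fun y => y) differentiableAt_id
    ((EZ_N_smooth (n := 1) x).differentiableAt (by norm_num)) hN).1, EZ_dzN, h1]
  rw [div_eq_iff (pow_ne_zero 2 hN)]
  have h2 : ((1 / (1 - ‖x‖ ^ 2) ^ 2 : ℝ) : ℂ) * ((1 - ‖x‖ ^ 2 : ℝ) : ℂ) ^ 2 = 1 := by
    rw [← Complex.ofReal_pow, ← Complex.ofReal_mul]
    have h3 : 0 < 1 - ‖x‖ ^ 2 := by nlinarith [norm_nonneg x]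
    rw [one_div, inv_mul_cancel₀ (pow_ne_zero 2 h3.ne')]
    simp
  rw [h2, EZ_N]
  ring

theorem e0_dz {V : ℂ → ℂ} (hV : ContDiffOn ℝ 2 V (ball 0 1)) {x : ℂ} (hx : ‖x‖ < 1) (h0 : V x ≠ 0) :
    (dz (e0 V) x).re = -1 / (1 - ‖x‖ ^ 2) ^ 2 := by
  have hxb : ball (0 : ℂ) 1 ∈ 𝓝 x := isOpen_ball.mem_nhds (mem_ball_zero_iff.2 hx)
  obtain ⟨h1, h2, h3⟩ := EZ_pre hV hx
  have hd1 := h1.differentiableAt (by norm_num)
  have hd2 := h2.differentiableAt (by norm_num)
  have hd3 := h3.differentiableAt (by norm_num)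
  have h4 := (EZ_div (n := 1) h3 h1 h0).differentiableAt (by norm_num)
  have h5 := (EZ_div (n := 1) h2 h1 h0).differentiableAt (by norm_num)
  have h5' := (EZ_conj (EZ_div (n := 1) h2 h1 h0)).differentiableAt (by norm_num)
  have h6 := (EZ_div (n := 1) contDiffAt_id (EZ_N_smooth x) (EZ_N_ne hx)).differentiableAt (by norm_num)
  have hA : dz (fun y => dzb V y / V y) x = (dz (dzb V) x * V x - dzb V x * dz V x) / V x ^ 2 :=
    (dz_div hd3 hd1 h0).1
  have hB : dz (fun y => (starRingEnd ℂ) (dz V y / V y)) x =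
      (starRingEnd ℂ) ((dzb (dz V) x * V x - dz V x * dzb V x) / V x ^ 2) := by
    rw [(dz_conj h5).1, (dz_div hd2 hd1 h0).2]
  have hC : dz (fun y => (dzb V y / V y - (starRingEnd ℂ) (dz V y / V y)) / 2) x =
      ((dz (dzb V) x * V x - dzb V x * dz V x) / V x ^ 2 -
      (starRingEnd ℂ) ((dz (dzb V) x * V x - dzb V x * dz V x) / V x ^ 2)) / 2 := by
    rw [EZ_half (h4.fun_sub h5'), (dz_sub h4 h5').1, hA, hB, dz_dzb (hV.contDiffAt hxb),
      mul_comm (dz V x) (dzb V x)]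
  have hD : dz (e0 V) x = dz (fun y => (dzb V y / V y - (starRingEnd ℂ) (dz V y / V y)) / 2) x -
      dz (fun y : ℂ => y / ((1 - ‖y‖ ^ 2 : ℝ) : ℂ)) x :=
    (dz_sub (f := fun y => (dzb V y / V y - (starRingEnd ℂ) (dz V y / V y)) / 2)
      (((EZ_div (n := 1) h3 h1 h0).sub (EZ_conj (EZ_div (n := 1) h2 h1 h0))).div_const
        2 |>.differentiableAt (by norm_num)) h6).1
  rw [hD, hC, EZ_dzx hx, Complex.sub_re, Complex.ofReal_re]
  set a := (dz (dzb V) x * V x - dzb V x * dz V x) / V x ^ 2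
  have h7 : ((a - (starRingEnd ℂ) a) / 2).re = 0 := by
    rw [Complex.div_ofNat_re, Complex.sub_re, Complex.conj_re, sub_self, zero_div]
  rw [h7]
  ring

theorem EZ_dact (F : Fuchs Γ) (g : Γ) {x : ℂ} (hx : ‖x‖ < 1) :
    HasDerivAt (F.dact g) (F.dact g x * (2 * (starRingEnd ℂ) (F.b g) /
      (1 - (starRingEnd ℂ) (F.b g) * x))) x := by
  have hne := den_ne (F.hb g) hx.le
  have h1 : HasDerivAt (fun y : ℂ => 1 - (starRingEnd ℂ) (F.b g) * y) (-(starRingEnd ℂ) (F.b g)) x := by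
    simpa using ((hasDerivAt_id x).const_mul ((starRingEnd ℂ) (F.b g))).const_sub 1
  have h2 := (h1.pow 2)
  have h3 := (h2.inv (pow_ne_zero 2 hne)).const_mul (F.u g * (1 - (starRingEnd ℂ) (F.b g) * F.b g))
  have h4 : F.dact g = fun y => F.u g * (1 - (starRingEnd ℂ) (F.b g) * F.b g) *
      (((1 - (starRingEnd ℂ) (F.b g) * y) ^ 2))⁻¹ := by
    funext y
    rw [← div_eq_mul_inv]
    rfl
  rw [h4]
  refine h3.congr_deriv ?_
  simp only [Nat.cast_ofNat, Nat.add_one_sub_one, pow_one, Pi.pow_apply]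
  field_simp

theorem e0_equi (F : Fuchs Γ) {V : ℂ → ℂ} (hV : ContDiffOn ℝ 2 V (ball 0 1)) (hVe : F.Equi V) (g : Γ)
    {x : ℂ} (hx : ‖x‖ < 1) (h0 : V x ≠ 0) :
    e0 V (F.act g x) * (starRingEnd ℂ) (F.dact g x) = e0 V x := by
  have hxb : ball (0 : ℂ) 1 ∈ 𝓝 x := isOpen_ball.mem_nhds (mem_ball_zero_iff.2 hx)
  have ha : ‖F.act g x‖ < 1 := act_lt F g hx
  obtain ⟨h1, -, -⟩ := EZ_pre hV hx
  obtain ⟨h1', -, -⟩ := EZ_pre hV ha
  have hd1 := h1.differentiableAt (by norm_num)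
  have hd1' := h1'.differentiableAt (by norm_num)
  have hDa := act_hasDerivAt F g hx.le
  have hDd := EZ_dact F g hx
  have hDne : F.dact g x ≠ 0 := dact_ne F g hx.le
  have hVa : V (F.act g x) = F.dact g x * V x := hVe g x (mem_ball_zero_iff.2 hx)
  have hev : (fun y => V (F.act g y)) =ᶠ[𝓝 x] fun y => F.dact g y * V y := by
    filter_upwards [hxb] with y hy
    exact hVe g y hy
  obtain ⟨e1, e2⟩ := dz_congr hev
  obtain ⟨e3, e4⟩ := dz_comp hd1' hDa
  obtain ⟨e5, e6⟩ := dz_mul (f := F.dact g) (hDd.differentiableAt.restrictScalars ℝ) hd1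
  obtain ⟨e7, e8⟩ := dz_holo hDd
  rw [e3, e5, e7] at e1
  rw [e4, e6, e8, zero_mul, zero_add] at e2
  have hne := den_ne (F.hb g) hx.le
  have hne' : (1 : ℂ) - F.b g * (starRingEnd ℂ) x ≠ 0 := by
    intro h
    apply hne
    have := congrArg (starRingEnd ℂ) h
    simpa using this
  have hN := EZ_N_ne hx
  have hN' := EZ_N_ne ha
  -- the main identity
  have key : F.act g x * (starRingEnd ℂ) (F.dact g x) / ((1 - ‖F.act g x‖ ^ 2 : ℝ) : ℂ) =
      x / ((1 - ‖x‖ ^ 2 : ℝ) : ℂ) - F.b g / (1 - F.b g * (starRingEnd ℂ) x) := by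
    have hu : F.u g * (starRingEnd ℂ) (F.u g) = 1 := by
      rw [Complex.mul_conj, Complex.normSq_eq_norm_sq, F.hu]
      simp
    have hBB : (1 : ℂ) - F.b g * (starRingEnd ℂ) (F.b g) ≠ 0 := by
      rw [← EZ_N]
      exact EZ_N_ne (F.hb g)
    have hxX : (1 : ℂ) - x * (starRingEnd ℂ) x ≠ 0 := by
      rw [← EZ_N]
      exact hN
    have hne2 : (1 : ℂ) - x * (starRingEnd ℂ) (F.b g) ≠ 0 := by rw [mul_comm]; exact hne
    have hne3 : (1 : ℂ) - (starRingEnd ℂ) x * F.b g ≠ 0 := by rw [mul_comm]; exact hne'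
    have ea : F.act g x = F.u g * (x - F.b g) / (1 - (starRingEnd ℂ) (F.b g) * x) := rfl
    have eac : (starRingEnd ℂ) (F.act g x) = (starRingEnd ℂ) (F.u g) *
        ((starRingEnd ℂ) x - (starRingEnd ℂ) (F.b g)) / (1 - F.b g * (starRingEnd ℂ) x) := by
      rw [ea]
      simp only [map_div₀, map_mul, map_sub, map_one, Complex.conj_conj]
    have ed : (starRingEnd ℂ) (F.dact g x) = (starRingEnd ℂ) (F.u g) *
        (1 - F.b g * (starRingEnd ℂ) (F.b g)) / (1 - F.b g * (starRingEnd ℂ) x) ^ 2 := by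
      have : F.dact g x = F.u g * (1 - (starRingEnd ℂ) (F.b g) * F.b g) /
        (1 - (starRingEnd ℂ) (F.b g) * x) ^ 2 := rfl
      rw [this]
      simp only [map_div₀, map_mul, map_sub, map_one, map_pow, Complex.conj_conj]
    have eN : ((1 - ‖F.act g x‖ ^ 2 : ℝ) : ℂ) = (1 - F.b g * (starRingEnd ℂ) (F.b g)) *
        (1 - x * (starRingEnd ℂ) x) / ((1 - (starRingEnd ℂ) (F.b g) * x) *
        (1 - F.b g * (starRingEnd ℂ) x)) := by
      rw [EZ_N, eac, ea, eq_div_iff (mul_ne_zero hne hne')]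
      field_simp
      linear_combination (-(x - F.b g) * ((starRingEnd ℂ) x - (starRingEnd ℂ) (F.b g))) * hu
    rw [eN, ea, ed, EZ_N]
    have k1 : F.u g * (x - F.b g) / (1 - (starRingEnd ℂ) (F.b g) * x) *
        ((starRingEnd ℂ) (F.u g) * (1 - F.b g * (starRingEnd ℂ) (F.b g)) /
          (1 - F.b g * (starRingEnd ℂ) x) ^ 2) /
        ((1 - F.b g * (starRingEnd ℂ) (F.b g)) * (1 - x * (starRingEnd ℂ) x) /
          ((1 - (starRingEnd ℂ) (F.b g) * x) * (1 - F.b g * (starRingEnd ℂ) x))) =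
        (F.u g * (starRingEnd ℂ) (F.u g)) * ((x - F.b g) / ((1 - x * (starRingEnd ℂ) x) *
          (1 - F.b g * (starRingEnd ℂ) x))) := by
      field_simp
    rw [k1, hu, one_mul, div_sub_div _ _ hxX hne']
    congr 1
    ring
  have hc : (starRingEnd ℂ) (2 * (starRingEnd ℂ) (F.b g) / (1 - (starRingEnd ℂ) (F.b g) * x)) =
      2 * (F.b g / (1 - F.b g * (starRingEnd ℂ) x)) := by
    simp only [map_div₀, map_mul, map_sub, map_one, map_ofNat, Complex.conj_conj]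
    ring
  have hz : dz V (F.act g x) / V (F.act g x) * F.dact g x =
      2 * (starRingEnd ℂ) (F.b g) / (1 - (starRingEnd ℂ) (F.b g) * x) + dz V x / V x := by
    rw [div_mul_eq_mul_div, e1, hVa]
    field_simp
  have hzb : dzb V (F.act g x) / V (F.act g x) * (starRingEnd ℂ) (F.dact g x) = dzb V x / V x := by
    rw [div_mul_eq_mul_div, e2, hVa]
    field_simp
  have hz' := congrArg (starRingEnd ℂ) hz
  rw [map_mul, map_add, hc] at hz'
  unfold e0
  rw [sub_mul, div_mul_eq_mul_div, sub_mul, hzb, hz', div_mul_eq_mul_div (F.act g x), key]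
  ring

theorem EZ_exp {h : ℂ → ℂ} {x : ℂ} (hh : DifferentiableAt ℝ h x) :
    dz (fun y => Complex.exp (h y)) x = Complex.exp (h x) * dz h x ∧
      dzb (fun y => Complex.exp (h y)) x = Complex.exp (h x) * dzb h x := by
  have h1 := (hh.hasFDerivAt).cexp
  rw [dz, dzb, dz, dzb, h1.fderiv]
  simp only [smul_apply, smul_eq_mul]
  constructor <;> ring

theorem EZ_cot {p q : ℂ} (hp : ‖p‖ = 1) (hq : ‖q‖ = 1) (hpq : p ≠ q) {x : ℂ} (hx : ‖x‖ < 1) :
    -(starRingEnd ℂ) (1 / (x - q) - 1 / (p - x)) / 2 - x / ((1 - ‖x‖ ^ 2 : ℝ) : ℂ) =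
      Complex.I / 2 * (starRingEnd ℂ) (omD p q x) *
      ((Real.cos (om p q x).im / Real.sin (om p q x).im : ℝ) : ℂ) := by
  have hxp : x ≠ p := by rintro rfl; linarith
  have hxq : x ≠ q := by rintro rfl; linarith
  have hη := eta_ne hp hq hpq hxp hxq
  have hp0 : p ≠ 0 := by rintro rfl; simp at hp
  have hq0 : q ≠ 0 := by rintro rfl; simp at hq
  have hP : (starRingEnd ℂ) p = p⁻¹ := by
    refine eq_inv_of_mul_eq_one_right ?_
    rw [Complex.mul_conj, Complex.normSq_eq_norm_sq, hp]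
    simp
  have hQ : (starRingEnd ℂ) q = q⁻¹ := by
    refine eq_inv_of_mul_eq_one_right ?_
    rw [Complex.mul_conj, Complex.normSq_eq_norm_sq, hq]
    simp
  have h1 : p - x ≠ 0 := sub_ne_zero.2 (Ne.symm hxp)
  have h2 : x - q ≠ 0 := sub_ne_zero.2 hxq
  have h3 : p - q ≠ 0 := sub_ne_zero.2 hpq
  have hN := EZ_N_ne hx
  have him : (eta p q x).im ≠ 0 := by
    rw [eta_im hp hq]
    have h4 : 0 < 1 - ‖x‖ ^ 2 := by nlinarith [norm_nonneg x]
    have h5 : 0 < ‖p - x‖ := norm_pos_iff.2 h1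
    have h6 : 0 < ‖p - q‖ := norm_pos_iff.2 h3
    positivity
  have hcot : Real.cos (om p q x).im / Real.sin (om p q x).im =
      (eta p q x).re / (eta p q x).im := by
    rw [om, Complex.log_im, Complex.sin_arg, Complex.cos_arg hη]
    have h7 : ‖eta p q x‖ ≠ 0 := norm_ne_zero_iff.2 hη
    field_simp
  have hcotC : (((eta p q x).re / (eta p q x).im : ℝ) : ℂ) = Complex.I *
      (eta p q x + (starRingEnd ℂ) (eta p q x)) / (eta p q x - (starRingEnd ℂ) (eta p q x)) := by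
    have himC : ((eta p q x).im : ℂ) ≠ 0 := by exact_mod_cast him
    rw [Complex.add_conj, Complex.sub_conj, Complex.ofReal_div]
    push_cast
    have hI := Complex.I_ne_zero
    field_simp
  rw [hcot, hcotC]
  set X := (starRingEnd ℂ) x with hX
  have hpX : 1 - p * X ≠ 0 := by
    intro h
    apply h1
    have h8 : (starRingEnd ℂ) (1 - p * X) = 0 := by rw [h, map_zero]
    rw [map_sub, map_one, map_mul, hX, Complex.conj_conj, hP] at h8
    have h9 : p - x = p * (1 - p⁻¹ * x) := by field_simp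
    rw [h9, h8, mul_zero]
  have hqX : 1 - q * X ≠ 0 := by
    intro h
    apply h2
    have h8 : (starRingEnd ℂ) (1 - q * X) = 0 := by rw [h, map_zero]
    rw [map_sub, map_one, map_mul, hX, Complex.conj_conj, hQ] at h8
    have h9 : x - q = -(q * (1 - q⁻¹ * x)) := by field_simp; ring
    rw [h9, h8, mul_zero, neg_zero]
  have hxX : 1 - x * X ≠ 0 := by
    rw [hX, ← EZ_N]
    exact hN
  have e1 : eta p q x = -Complex.I * (p - q) * (x - q) / (q * (p - x)) := by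
    rw [eta, hQ]
    field_simp
    ring
  have e2 : (starRingEnd ℂ) (eta p q x) = Complex.I * (p - q) * (1 - q * X) / (q * (1 - p * X)) := by
    rw [e1]
    simp only [map_div₀, map_mul, map_sub, map_neg, Complex.conj_I, hP, hQ, ← hX]
    have h9 : p⁻¹ - X ≠ 0 := by
      intro h
      apply hpX
      field_simp at h
      linear_combination h
    rw [div_eq_div_iff (mul_ne_zero (inv_ne_zero hq0) h9) (mul_ne_zero hq0 hpX)]
    field_simp
    ring
  have e3 : eta p q x - (starRingEnd ℂ) (eta p q x) =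
      -Complex.I * (p - q) ^ 2 * (1 - x * X) / (q * (p - x) * (1 - p * X)) := by
    rw [e2, e1]
    field_simp
    ring
  have e4 : eta p q x + (starRingEnd ℂ) (eta p q x) =
      -Complex.I * (p - q) * (2 * x - (p + q) * (1 + x * X) + 2 * p * q * X) /
        (q * (p - x) * (1 - p * X)) := by
    rw [e2, e1]
    field_simp
    ring
  have e5 : (starRingEnd ℂ) (omD p q x) = (p - q) / ((1 - q * X) * (1 - p * X)) := by
    rw [omD]
    simp only [map_div₀, map_mul, map_sub, hP, hQ, ← hX]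
    have h9 : p⁻¹ - X ≠ 0 := by
      intro h
      apply hpX
      field_simp at h
      linear_combination h
    have h10 : X - q⁻¹ ≠ 0 := by
      intro h
      apply hqX
      field_simp at h
      linear_combination -h
    rw [div_eq_div_iff (mul_ne_zero h10 h9) (mul_ne_zero hqX hpX)]
    field_simp
    ring
  have e6 : (starRingEnd ℂ) (1 / (x - q) - 1 / (p - x)) = -(q / (1 - q * X) + p / (1 - p * X)) := by
    simp only [map_div₀, map_sub, map_one, hP, hQ, ← hX]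
    have h9 : p⁻¹ - X = (1 - p * X) / p := by field_simp
    have h10 : X - q⁻¹ = -(1 - q * X) / q := by field_simp; ring
    rw [h9, h10]
    field_simp
    ring
  rw [e3, e4, e5, e6, EZ_N, ← hX]
  have hI := Complex.I_ne_zero
  have k1 : Complex.I * (-Complex.I * (p - q) * (2 * x - (p + q) * (1 + x * X) + 2 * p * q * X) /
      (q * (p - x) * (1 - p * X))) / (-Complex.I * (p - q) ^ 2 * (1 - x * X) /
      (q * (p - x) * (1 - p * X))) = Complex.I * ((2 * x - (p + q) * (1 + x * X) + 2 * p * q * X) /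
      ((p - q) * (1 - x * X))) := by
    field_simp
  have k2 : Complex.I / 2 * ((p - q) / ((1 - q * X) * (1 - p * X))) *
      (Complex.I * ((2 * x - (p + q) * (1 + x * X) + 2 * p * q * X) / ((p - q) * (1 - x * X)))) =
      (Complex.I * Complex.I) * ((2 * x - (p + q) * (1 + x * X) + 2 * p * q * X) /
        (2 * ((1 - q * X) * (1 - p * X) * (1 - x * X)))) := by
    field_simp
  have k3 : ∀ D1 D2 D3 : ℂ, D1 ≠ 0 → D2 ≠ 0 → D3 ≠ 0 → -(-(q / D1 + p / D2)) / 2 - x / D3 =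
      ((q * D2 + p * D1) * D3 - 2 * x * (D1 * D2)) / (2 * (D1 * D2 * D3)) := by
    intro D1 D2 D3 g1 g2 g3
    field_simp
  rw [k1, k2, k3 _ _ _ hqX hpX hxX, Complex.I_mul_I, neg_one_mul, ← neg_div]
  congr 1
  ring

theorem e0_collar {p q : ℂ} (hp : ‖p‖ = 1) (hq : ‖q‖ = 1) (hpq : p ≠ q) {V : ℂ → ℂ} {c : ℝ} {x : ℂ}
    (hx : ‖x‖ < 1)
    (hV : ∀ᶠ y in 𝓝 x, V y = Xf p q y * Complex.exp (((c * (om p q y).re : ℝ) : ℂ) * Complex.I)) :
    e0 V x = Complex.I / 2 * (starRingEnd ℂ) (omD p q x) *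
      ((c + Real.cos (om p q x).im / Real.sin (om p q x).im : ℝ) : ℂ) := by
  have hxp : x ≠ p := by rintro rfl; linarith
  have hxq : x ≠ q := by rintro rfl; linarith
  have h1 : p - x ≠ 0 := sub_ne_zero.2 (Ne.symm hxp)
  have h2 : x - q ≠ 0 := sub_ne_zero.2 hxq
  have h3 : p - q ≠ 0 := sub_ne_zero.2 hpq
  have hom : HasDerivAt (om p q) (omD p q x) x := om_hasDerivAt hp hq hpq hx
  have hXf : HasDerivAt (Xf p q) (((p - x) - (x - q)) / (p - q)) x := by
    have h4 : HasDerivAt (fun y : ℂ => (y - q) * (p - y)) ((p - x) - (x - q)) x := by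
      have h5 := ((hasDerivAt_id x).sub_const q).mul ((hasDerivAt_id x).const_sub p)
      refine h5.congr_deriv ?_
      simp only [id]
      ring
    exact h4.div_const (p - q)
  set h : ℂ → ℂ := fun y => (((c * (om p q y).re : ℝ) : ℂ) * Complex.I) with hh
  have hh' : h = fun y => (c : ℂ) * Complex.I * (((om p q y).re : ℝ) : ℂ) := by
    funext y
    simp only [hh]
    push_cast
    ring
  have hre : DifferentiableAt ℝ (fun y => (((om p q y).re : ℝ) : ℂ)) x := by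
    have h4 : DifferentiableAt ℝ (om p q) x := hom.differentiableAt.restrictScalars ℝ
    exact (Complex.ofRealCLM.differentiableAt.comp x (Complex.reCLM.differentiableAt.comp x h4))
  have hhd : DifferentiableAt ℝ h x := by
    rw [hh']
    exact (differentiableAt_const _).fun_mul hre
  obtain ⟨r1, r2⟩ := dz_re hom
  have hz : dz h x = c * Complex.I * (omD p q x / 2) := by
    rw [hh', (dz_mul (differentiableAt_const _) hre).1, (dz_const _ x).1, r1, zero_mul, zero_add]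
  have hzb : dzb h x = c * Complex.I * ((starRingEnd ℂ) (omD p q x) / 2) := by
    rw [hh', (dz_mul (differentiableAt_const _) hre).2, (dz_const _ x).2, r2, zero_mul, zero_add]
  obtain ⟨e1, e2⟩ := dz_congr (g := fun y => Xf p q y * Complex.exp (h y)) hV
  obtain ⟨e3, e4⟩ := dz_mul (hXf.differentiableAt.restrictScalars ℝ) hhd.cexp
  obtain ⟨e5, e6⟩ := dz_holo hXf
  obtain ⟨e7, e8⟩ := EZ_exp hhd
  have hVx : V x = Xf p q x * Complex.exp (h x) := hV.self_of_nhds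
  have hX0 : Xf p q x ≠ 0 := div_ne_zero (mul_ne_zero h2 h1) h3
  have hE0 := Complex.exp_ne_zero (h x)
  have f1 : dz V x / V x = (1 / (x - q) - 1 / (p - x)) + c * Complex.I * (omD p q x / 2) := by
    rw [e1, e3, e5, e7, hz, hVx, Xf]
    rw [Xf] at hX0
    field_simp
  have f2 : dzb V x / V x = c * Complex.I * ((starRingEnd ℂ) (omD p q x) / 2) := by
    rw [e2, e4, e6, e8, hzb, hVx]
    field_simp
    first | done | ring
  have hcot := EZ_cot hp hq hpq hx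
  unfold e0
  rw [f1, f2, map_add]
  have f3 : (starRingEnd ℂ) ((c : ℂ) * Complex.I * (omD p q x / 2)) =
      -(c * Complex.I * ((starRingEnd ℂ) (omD p q x) / 2)) := by
    simp only [map_mul, map_div₀, Complex.conj_ofReal, Complex.conj_I, map_ofNat]
    ring
  rw [f3, Complex.ofReal_add, mul_add, ← hcot]
  ring

theorem e0_zero {V : ℂ → ℂ} {k x : ℂ} (hx : ‖x‖ < 1) (hxk : x ≠ k) (hV : ∀ᶠ y in 𝓝 x, V y = y - k) :
    e0 V x = -1 / (2 * (starRingEnd ℂ) (x - k)) - x / ((1 - ‖x‖ ^ 2 : ℝ) : ℂ) := by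
  have _ := hx
  obtain ⟨e1, e2⟩ := dz_congr (g := fun y => y - k) hV
  obtain ⟨e3, e4⟩ := dz_holo ((hasDerivAt_id x).sub_const k)
  have e3' : dz (fun y : ℂ => y - k) x = 1 := e3
  have e4' : dzb (fun y : ℂ => y - k) x = 0 := e4
  have hVx : V x = x - k := hV.self_of_nhds
  have hne : x - k ≠ 0 := sub_ne_zero.2 hxk
  have hne' : (starRingEnd ℂ) (x - k) ≠ 0 := by
    rw [Ne, map_eq_zero]
    exact hne
  unfold e0
  rw [e1, e2, e3', e4', hVx, zero_div, map_div₀, map_one]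
  field_simp
  ring

end TN
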