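import Pool.Agent.H60.PH.PT

/-!
HF (the vector field inside the holes).  Choose `s > 0` with `closedBall (k i) s ⊆ O i` for all `i`.  Let `Li` be a continuous logarithm of
`V x / (x - k i)` on `frontier (O i)`; the closed sets `frontier (O i)` and `closedBall (k i) s` are disjoint (`O i` open), so by the Tietze theorem
(real and imaginary parts, or `ContinuousMap.exists_extension`; `frontier (O i)` and the ball are closed in `ℂ`) there is a continuous `Λ i : ℂ → ℂ` with
`Λ i = Li` on the frontier and `Λ i = 0` on the ball.  `fi i x = (x - k i) * exp (Λ i x)`.  Apply `patch` with `J g x = F.dact g x` (`dact_mul`, `dact_one`), `f = V`.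
Continuity of `V'` at `x`: in the first alternative `V' = V` near `x`.  In the second, near `x`: `V' x' = (dact g x')⁻¹ * V' (act g x')` and
`V' (act g x') = (if act g x' ∈ O i then fi i .. else V ..)`; the function `y ↦ if y ∈ O i then fi i y else V y` is continuous on the disc because `fi i = V` on
`frontier (O i)` (`ContinuousOn.if` / `ContinuousOn.piecewise`; `k i ∉ frontier (O i)`).
Zeros: if `V' x = 0` and `act g x ∈ O i` then `V' (act g x) = fi i (act g x) = 0`, so `act g x = k i`; if `x` is in no translate of a hole then `V x = 0`, which is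
impossible by `hV0`.
-/

namespace TN
open Metric Set Filter Topology DS MeasureTheory

variable {Γ : Type} [Group Γ]

/-- the extension of a logarithm from a closed set, vanishing on a disjoint closed set -/
theorem HF_ext {S T : Set ℂ} (hS : IsClosed S) (hT : IsClosed T) (hd : Disjoint T S) {L : ℂ → ℂ}
    (hL : ContinuousOn L S) :
    ∃ Λ : ℂ → ℂ, Continuous Λ ∧ (∀ x ∈ S, Λ x = L x) ∧ ∀ x ∈ T, Λ x = 0 := by
  obtain ⟨G, hG⟩ := ContinuousMap.exists_restrict_eq (Y := ℂ) hS
    (⟨S.domRestrict L, hL.domRestrict⟩ : C(S, ℂ))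
  obtain ⟨u, hu0, hu1, -⟩ := exists_continuous_zero_one_of_isClosed hT hS hd
  refine ⟨fun x => (u x : ℂ) * G x, ?_, fun x hx => ?_, fun x hx => ?_⟩
  · exact (Complex.continuous_ofReal.comp u.continuous).mul G.continuous
  · have h1 : G x = L x := by
      exact congrArg (fun f : C(S, ℂ) => f ⟨x, hx⟩) hG
    have h2 : u x = 1 := hu1 hx
    simp only
    rw [h1, h2]
    simp
  · have h2 : u x = 0 := hu0 hx
    simp only
    rw [h2]
    simp

theorem holes_field (F : Fuchs Γ) {H : ℂ → ℂ} {m : ℕ} {O : Fin m → Set ℂ} {k : Fin m → ℂ}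
    (ho : Holes F H ⊤ m O k) {V : ℂ → ℂ} (hVc : ContinuousOn V (ball 0 1)) (hVe : F.Equi V)
    (hV0 : ∀ x ∈ ball (0:ℂ) 1, V x = 0 → ∃ g i, F.act g x ∈ O i)
    (hlog : ∀ i, HasLog (fun x => V x / (x - k i)) (frontier (O i))) :
    ∃ (V' : ℂ → ℂ) (s : ℝ), 0 < s ∧ ContinuousOn V' (ball 0 1) ∧ F.Equi V' ∧
      (∀ i, closedBall (k i) s ⊆ O i ∧ ∀ x ∈ closedBall (k i) s, V' x = x - k i) ∧
      (∀ x ∈ ball (0:ℂ) 1, V' x = 0 → ∃ g i, F.act g x = k i) ∧
      ∀ x ∈ ball (0:ℂ) 1, (∀ g i, F.act g x ∉ O i) → V' x = V x := by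
  classical
  have hle : ∀ x ∈ ball (0:ℂ) 1, ‖x‖ < 1 := fun x hx => mem_ball_zero_iff.1 hx
  have hball : ∀ (g : Γ), ∀ x ∈ ball (0:ℂ) 1, F.act g x ∈ ball (0:ℂ) 1 := fun g x hx =>
    mem_ball_zero_iff.2 (act_lt F g (hle x hx))
  -- the radius
  obtain ⟨s, hs0, hsO⟩ : ∃ s : ℝ, 0 < s ∧ ∀ i, closedBall (k i) s ⊆ O i := by
    have h1 : ∀ i, ∀ᶠ s : ℝ in 𝓝[>] 0, closedBall (k i) s ⊆ O i := by
      intro i
      obtain ⟨ε, hε, hb⟩ := Metric.isOpen_iff.1 (ho.opn i) (k i) (ho.mem i)
      have h2 : ∀ᶠ s : ℝ in 𝓝[>] 0, s < ε := mem_nhdsWithin_of_mem_nhds (Iio_mem_nhds hε)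
      filter_upwards [h2] with s hs
      exact (closedBall_subset_ball hs).trans hb
    have h2 : ∀ᶠ s : ℝ in 𝓝[>] 0, 0 < s := self_mem_nhdsWithin
    exact (h2.and (Filter.eventually_all.2 h1)).exists
  have hkf : ∀ i, ∀ x ∈ frontier (O i), x ∉ O i := by
    intro i x hx h
    rw [(ho.opn i).frontier_eq] at hx
    exact hx.2 h
  -- the logarithms
  choose L hLc hL using hlog
  have hΛ : ∀ i, ∃ Λ : ℂ → ℂ, Continuous Λ ∧ (∀ x ∈ frontier (O i), Λ x = L i x) ∧
      ∀ x ∈ closedBall (k i) s, Λ x = 0 := by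
    intro i
    refine HF_ext isClosed_frontier isClosed_closedBall ?_ (hLc i)
    refine Set.disjoint_left.2 fun x hx hx' => ?_
    exact hkf i x hx' (hsO i hx)
  choose Λ hΛc hΛf hΛ0 using hΛ
  set fi : Fin m → ℂ → ℂ := fun i x => (x - k i) * Complex.exp (Λ i x) with hfi
  have hfic : ∀ i, Continuous (fi i) := fun i =>
    (continuous_id.sub continuous_const).mul (Complex.continuous_exp.comp (hΛc i))
  obtain ⟨V', hV1, hV2, hV3, hV4⟩ := patch F (J := fun g x => F.dact g x) (f := V) ho.opn ho.sub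
    (fun i j g h => ho.disj i j g (Subgroup.mem_top g) h)
    (fun x hx => dact_one F (hle x hx).le)
    (fun g h x hx => dact_mul F g h (hle x hx).le) hVe fi
  have hfr : ∀ i, ∀ y ∈ frontier (O i), fi i y = V y := by
    intro i y hy
    have hne : y - k i ≠ 0 := by
      intro h
      rw [sub_eq_zero] at h
      exact hkf i y hy (h ▸ ho.mem i)
    simp only [hfi]
    rw [hΛf i y hy, ← hL i y hy]
    field_simp
  have hE : ∀ i, ContinuousOn (fun y => if y ∈ O i then fi i y else V y) (ball (0:ℂ) 1) := by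
    intro i
    refine ContinuousOn.if (fun a ha => hfr i a ha.2) (hfic i).continuousOn
      (hVc.mono inter_subset_left)
  refine ⟨V', s, hs0, ?_, hV1, fun i => ⟨hsO i, fun x hx => ?_⟩, ?_, hV3⟩
  · intro x hx
    obtain ⟨δ, hδ, h | ⟨g, i, -, h⟩⟩ := hV4 x hx
    · have hev : V' =ᶠ[𝓝[ball (0:ℂ) 1] x] V := by
        filter_upwards [self_mem_nhdsWithin, mem_nhdsWithin_of_mem_nhds (ball_mem_nhds x hδ)]
          with x' h1 h2
        exact (h x' h1 h2).1
      exact (hVc x hx).congr_of_eventuallyEq hev (h x hx (by rw [dist_self]; exact hδ)).1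
    · have heq : ∀ x' ∈ ball (0:ℂ) 1, dist x' x < δ → V' x' = (F.dact g x')⁻¹ *
          (if F.act g x' ∈ O i then fi i (F.act g x') else V (F.act g x')) := by
        intro x' h1 h2
        rw [← h x' h1 h2, hV1 g x' h1, inv_mul_cancel_left₀ (dact_ne F g (hle x' h1).le)]
      have hc : ContinuousWithinAt (fun x' => (F.dact g x')⁻¹ *
          (if F.act g x' ∈ O i then fi i (F.act g x') else V (F.act g x'))) (ball (0:ℂ) 1) x := by
        refine ContinuousWithinAt.mul ?_ ?_
        · exact (((dact_smooth F g (n := 1)).continuousOn) x hx).inv₀ (dact_ne F g (hle x hx).le)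
        · exact ((hE i).comp ((act_cont F g).mono ball_subset_closedBall) (hball g)) x hx
      refine hc.congr_of_eventuallyEq ?_ (heq x hx (by rw [dist_self]; exact hδ))
      filter_upwards [self_mem_nhdsWithin, mem_nhdsWithin_of_mem_nhds (ball_mem_nhds x hδ)]
        with x' h1 h2
      exact heq x' h1 h2
  · rw [hV2 i x (hsO i hx)]
    simp only [hfi]
    rw [hΛ0 i x hx, Complex.exp_zero, mul_one]
  · intro x hx h0
    by_cases h : ∃ g i, F.act g x ∈ O i
    · obtain ⟨g, i, hgi⟩ := h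
      refine ⟨g, i, ?_⟩
      have h1 := hV1 g x hx
      rw [h0, mul_zero, hV2 i _ hgi] at h1
      simp only [hfi] at h1
      exact sub_eq_zero.1 ((mul_eq_zero.1 h1).resolve_right (Complex.exp_ne_zero _))
    · exfalso
      have h1 := hV3 x hx (fun g i hgi => h ⟨g, i, hgi⟩)
      rw [h0] at h1
      exact h (hV0 x hx h1.symm)

end TN
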