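import Pool.Agent.H60.PH.IP
import Pool.Agent.H60.PH.SO
import Pool.Agent.H60.PH.EX

/-!
PC (a partition function for the core).  By `Gaps.coc` with `y = b` there is `ρ < 1` such that every `x` of the disc all of whose heights
are `≥ b` has a translate in `closedBall 0 ρ`.  Let `β` be a `ContDiffBump` at `0` equal to one on `closedBall 0 (max ρ 0)`, with support in
`closedBall 0 r`, `r < 1`.  `F.S β` is smooth on the disc (`S_smooth`), `≥ 0`, invariant, and `≥ 1` at points all of whose heights are `≥ b`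
(`S_ge`).  `ψ₁ x = χ₁ x * β x / F.S β x` for `‖x‖ < 1`, `0` otherwise.  Smooth at `x`, `‖x‖ < 1`: if `F.S β x > 0` clear.
If `F.S β x = 0` then some height at `x` is `< b`, so is the same height at `x'` near `x` (`ht_lip`), and `χ₁ x' = c₁ (..) = 0`
(`Cut.eq`): `ψ₁ = 0` near `x`.  `contDiff_of_supp`.  `F.S ψ₁ = χ₁ * (F.S β)⁻¹ * F.S β` by `S_mul` (with the invariant function
`χ₁ / F.S β`), and `χ₁ x = 0` where `F.S β x = 0`.
-/

namespace TN
open Metric Set Filter Topology DS MeasureTheory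

variable {Γ : Type} [Group Γ]

theorem exists_psi1 (F : Fuchs Γ) {n : ℕ} {κ : Fin n → Γ} {p q : Fin n → ℂ} (G : Gaps F n κ p q)
    {b c : ℝ} {c₁ : ℝ → ℝ} (hc₁ : Step b c c₁) (hb : 0 < b) (hb2 : b < Real.pi / 2) {χ₁ : ℂ → ℝ}
    (hχ₁ : Cut F p q c₁ χ₁) :
    ∃ (ψ₁ : ℂ → ℝ) (r : ℝ), r < 1 ∧ ContDiff ℝ 2 ψ₁ ∧ (∀ x, 0 ≤ ψ₁ x) ∧ (∀ x, r < ‖x‖ → ψ₁ x = 0) ∧
      (∀ x ∈ ball (0:ℂ) 1, χ₁ x = 0 → ψ₁ x = 0) ∧ ∀ x ∈ ball (0:ℂ) 1, F.S ψ₁ x = χ₁ x := by
  obtain ⟨ρ, hρ, hcoc⟩ := G.coc b hb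
  have hρ' : max ρ 0 < 1 := max_lt hρ one_pos
  have hρ0 : 0 ≤ max ρ 0 := le_max_right _ _
  let β : ContDiffBump (0 : ℂ) :=
    { rIn := (1 + max ρ 0) / 2
      rOut := (1 + (1 + max ρ 0) / 2) / 2
      rIn_pos := by linarith
      rIn_lt_rOut := by linarith }
  have hr : β.rOut < 1 := by
    show (1 + (1 + max ρ 0) / 2) / 2 < 1
    linarith
  have hβ0 : ∀ x : ℂ, 0 ≤ β x := fun x => β.nonneg
  have hβs : ∀ x : ℂ, β.rOut < ‖x‖ → β x = 0 := by
    intro x hx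
    refine β.zero_of_le_dist ?_
    rw [dist_zero_right]
    exact hx.le
  have hβ1 : ∀ x : ℂ, ‖x‖ ≤ ρ → β x = 1 := by
    intro x hx
    refine β.one_of_mem_closedBall ?_
    rw [mem_closedBall_zero_iff]
    show ‖x‖ ≤ (1 + max ρ 0) / 2
    have := le_max_left ρ 0
    linarith
  have hβc : ContDiff ℝ 2 β := β.contDiff
  have hSs : ContDiffOn ℝ 2 (F.S β) (ball 0 1) := S_smooth F (n := 2) hr hβs hβc.contDiffOn
  -- where the sum vanishes some height is less than `b`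
  have hlow : ∀ x ∈ ball (0:ℂ) 1, F.S β x = 0 → ∃ i g, F.ht (p i) (q i) g x < b := by
    intro x hx h0
    by_contra h1
    push Not at h1
    obtain ⟨g, hg⟩ := hcoc x hx h1
    have h2 := S_ge F hr hβs hβ0 g hx
    rw [h0, hβ1 _ hg] at h2
    linarith
  have hcut0 : ∀ x ∈ ball (0:ℂ) 1, (∃ i g, F.ht (p i) (q i) g x < b) → χ₁ x = 0 := by
    intro x hx h1
    obtain ⟨i, g, hg⟩ := h1
    rw [hχ₁.eq (mem_ball_zero_iff.1 hx) (hg.trans hb2)]
    exact hc₁.zero _ hg.le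
  have hψ0 : ∀ x, 0 ≤ χ₁ x * β x / F.S β x := by
    intro x
    have hS := S_nonneg F hβ0 x
    by_cases hx : ‖x‖ < 1
    · exact div_nonneg (mul_nonneg (hχ₁.nonneg x (mem_ball_zero_iff.2 hx)) (hβ0 x)) hS
    · rw [hβs x (by linarith [not_lt.1 hx]), mul_zero, zero_div]
  have hψs : ∀ x, β.rOut < ‖x‖ → χ₁ x * β x / F.S β x = 0 := by
    intro x hx
    rw [hβs x hx, mul_zero, zero_div]
  refine ⟨fun x => χ₁ x * β x / F.S β x, β.rOut, hr, ?_, hψ0, hψs, ?_, ?_⟩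
  · refine contDiff_of_supp (n := 2) ?_ hr hψs
    intro x hx
    by_cases h0 : F.S β x = 0
    · obtain ⟨i, g, hg⟩ := hlow x hx h0
      obtain ⟨δ, hδ, H⟩ := ht_lip F G (mem_ball_zero_iff.1 hx) (sub_pos.2 hg)
      have h1 : (fun y => χ₁ y * β y / F.S β y) =ᶠ[𝓝 x] fun _ => (0 : ℝ) := by
        filter_upwards [ball_mem_nhds x hδ, isOpen_ball.mem_nhds hx] with y hy hy1
        have h2 := abs_lt.1 (H y hy1 hy i g)
        rw [hcut0 y hy1 ⟨i, g, by linarith [h2.2]⟩, zero_mul, zero_div]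
      exact (contDiffAt_const.congr_of_eventuallyEq h1).contDiffWithinAt
    · exact ((hχ₁.smooth x hx).mul hβc.contDiffAt.contDiffWithinAt).div (hSs x hx) h0
  · intro x _ h
    simp only [h, zero_mul, zero_div]
  · intro x hx
    have hinv : F.Invt (fun y => χ₁ y / F.S β y) := by
      intro g y hy
      simp only
      rw [hχ₁.invt g y hy, S_inv F β g (mem_ball_zero_iff.1 hy).le]
    have h1 := S_mul F hinv β hx
    have h2 : (fun y => χ₁ y * β y / F.S β y) = fun y => (χ₁ y / F.S β y) * β y := by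
      funext y
      ring
    rw [h2, h1]
    by_cases h0 : F.S β x = 0
    · rw [hcut0 x hx (hlow x hx h0), zero_div, zero_mul]
    · rw [div_mul_cancel₀ _ h0]

end TN
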