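import Pool.Agent.H60.PH.AX
import Pool.Agent.H60.PH.PC
import Pool.Agent.H60.PH.ST

/-!
SM (equivariant smoothing).  We may assume `y < π/2` (replace `y` by `min y 1`).  `c` a step function between `y/2` and `y` (`exists_step`), `χ` its cut-off function
(`exists_cut`), `φ` from `exists_psi1` (`b = y/2`, `c = y`): `φ ≥ 0` smooth, `φ = 0` for `‖x‖ > r`, `F.S φ = χ` on the disc.  `V₀` from `approx` for `r`.
`V x = ∑ᶠ g, (φ (act g x) : ℂ) * V₀ (act g x) / dact g x + (1 - χ x) * W x`.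
Smooth: near a point of the disc the sum is a finite sum (`fin_supp`) of smooth functions (`act_smooth`, `dact_smooth`, `dact_ne`); `(1 - χ) W` is `C²` at `x ∈ A`
(`hAs`), and if `x ∉ A` then near `x` no point is in `A` (`hAcl`), so all heights are `> y` there and `χ = 1` (`Cut.eq_one`).
Equivariance: `dact (g h) x = dact g (act h x) * dact h x`, reindex the sum by `g ↦ g h` (`finsum_comp_equiv`, `Equiv.mulRight h`).
`x ∈ A`: `act g x ∈ A`, so for `φ (act g x) ≠ 0` (`‖act g x‖ ≤ r`) `V₀ (act g x) = W (act g x) = dact g x * W x`; the sum is `F.S φ x * W x = χ x * W x`.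
`x ∉ A`: `act g x ∉ A` (`hAi` for `g⁻¹`), so `‖V₀ (act g x) / dact g x - W x‖ ≤ ‖W x‖ / 2` when `φ (act g x) ≠ 0`, and
`‖V x - W x‖ = ‖∑ φ (act g x) (V₀ (act g x)/dact g x - W x)‖ ≤ χ x * ‖W x‖ / 2 < ‖W x‖`.
-/

namespace TN
open Metric Set Filter Topology DS MeasureTheory

variable {Γ : Type} [Group Γ]

/-- the averaged field -/
noncomputable def SM_P (F : Fuchs Γ) (φ : ℂ → ℝ) (V₀ : ℂ → ℂ) (x : ℂ) : ℂ :=
  ∑ᶠ g : Γ, (φ (F.act g x) : ℂ) * V₀ (F.act g x) / F.dact g x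

theorem SM_P_eq (F : Fuchs Γ) {φ : ℂ → ℝ} (V₀ : ℂ → ℂ) {r r' : ℝ} (hf : ∀ x, r < ‖x‖ → φ x = 0)
    {t : Finset Γ}
    (ht : ∀ g, g ∉ t → ∀ x : ℂ, ‖x‖ ≤ r' → r < ‖F.act g x‖ ∧ r < ‖F.act g⁻¹ x‖) {x : ℂ}
    (hx : ‖x‖ ≤ r') :
    SM_P F φ V₀ x = ∑ g ∈ t, (φ (F.act g x) : ℂ) * V₀ (F.act g x) / F.dact g x := by
  refine finsum_eq_sum_of_support_subset _ fun g hg => ?_
  by_contra hgt
  refine hg ?_
  simp only [hf _ (ht g hgt x hx).1, Complex.ofReal_zero, zero_mul, zero_div]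

theorem SM_P_smooth (F : Fuchs Γ) {φ : ℂ → ℝ} {V₀ : ℂ → ℂ} {r : ℝ} (hr : r < 1)
    (hf : ∀ x, r < ‖x‖ → φ x = 0) (hφ : ContDiff ℝ 2 φ) (hV : ContDiff ℝ 2 V₀) :
    ContDiffOn ℝ 2 (SM_P F φ V₀) (ball 0 1) := by
  intro x hx
  have hx1 : ‖x‖ < 1 := mem_ball_zero_iff.1 hx
  obtain ⟨t, ht⟩ := fin_supp F hr (r' := (1 + ‖x‖) / 2) (by linarith)
  have h1 : ContDiffOn ℝ 2 (fun y => ∑ g ∈ t, (φ (F.act g y) : ℂ) * V₀ (F.act g y) / F.dact g y)
      (ball 0 1) := by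
    refine ContDiffOn.sum fun g _ => ?_
    simp only [div_eq_mul_inv]
    refine ContDiffOn.mul (ContDiffOn.mul ?_ ?_) (ContDiffOn.inv (dact_smooth F g (n := 2))
      fun y hy => dact_ne F g (mem_ball_zero_iff.1 hy).le)
    · exact Complex.ofRealCLM.contDiff.comp_contDiffOn
        (hφ.comp_contDiffOn (act_smooth F g (n := 2)))
    · exact hV.comp_contDiffOn (act_smooth F g (n := 2))
  have h2 := h1.contDiffAt (isOpen_ball.mem_nhds hx)
  refine (h2.congr_of_eventuallyEq ?_).contDiffWithinAt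
  have h3 : {y : ℂ | ‖y‖ < (1 + ‖x‖) / 2} ∈ 𝓝 x :=
    (isOpen_lt continuous_norm continuous_const).mem_nhds (by show ‖x‖ < _; linarith)
  filter_upwards [h3] with y hy
  exact SM_P_eq F V₀ hf ht (le_of_lt hy)

theorem SM_P_equi (F : Fuchs Γ) (φ : ℂ → ℝ) (V₀ : ℂ → ℂ) (h : Γ) {x : ℂ} (hx : ‖x‖ ≤ 1) :
    SM_P F φ V₀ (F.act h x) = F.dact h x * SM_P F φ V₀ x := by
  have h1 : SM_P F φ V₀ (F.act h x) = ∑ᶠ g : Γ, F.dact h x •
      ((φ (F.act (g * h) x) : ℂ) * V₀ (F.act (g * h) x) / F.dact (g * h) x) := by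
    unfold SM_P
    refine finsum_congr fun g => ?_
    have hd := dact_ne F h hx
    have hd2 := dact_ne F g (act_le F h hx)
    rw [act_mul F g h hx, dact_mul F g h hx, smul_eq_mul]
    field_simp
  rw [h1, ← smul_finsum, smul_eq_mul]
  congr 1
  exact finsum_comp_equiv (Equiv.mulRight h)
    (f := fun g => (φ (F.act g x) : ℂ) * V₀ (F.act g x) / F.dact g x)

theorem smo (F : Fuchs Γ) {n : ℕ} {κ : Fin n → Γ} {p q : Fin n → ℂ} (G : Gaps F n κ p q) {W : ℂ → ℂ}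
    (hW : ContinuousOn W (ball 0 1)) (hWe : F.Equi W) {A : Set ℂ}
    (hAi : ∀ g, ∀ x ∈ ball (0:ℂ) 1, x ∈ A → F.act g x ∈ A)
    (hAcl : ∀ x ∈ ball (0:ℂ) 1, x ∉ A → ∃ ε > 0, ∀ y, dist y x < ε → y ∉ A)
    (hAs : ∀ x ∈ ball (0:ℂ) 1, x ∈ A → ContDiffAt ℝ 2 W x) {y : ℝ} (hy : 0 < y)
    (hyA : ∀ i g, ∀ x ∈ ball (0:ℂ) 1, F.ht (p i) (q i) g x ≤ y → x ∈ A)
    (hne : ∀ x ∈ ball (0:ℂ) 1, x ∉ A → W x ≠ 0) :
    ∃ V : ℂ → ℂ, ContDiffOn ℝ 2 V (ball 0 1) ∧ F.Equi V ∧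
      (∀ x ∈ ball (0:ℂ) 1, x ∈ A → V x = W x) ∧ ∀ x ∈ ball (0:ℂ) 1, x ∉ A → V x ≠ 0 := by
  have hpi : (1:ℝ) < Real.pi / 2 := by have := Real.pi_gt_three; linarith
  obtain ⟨y', hy'⟩ : ∃ y', y' = min y 1 := ⟨_, rfl⟩
  have hy0 : 0 < y' := by rw [hy']; exact lt_min hy one_pos
  have hyy : y' ≤ y := by rw [hy']; exact min_le_left _ _
  have hypi : y' < Real.pi / 2 := by rw [hy']; exact (min_le_right _ _).trans_lt hpi
  obtain ⟨c, hc⟩ := exists_step (a := y' / 2) (b := y') (by linarith)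
  obtain ⟨χ, hχ⟩ := exists_cut F G hc hypi
  obtain ⟨φ, r, hr, hφs, hφ0, hφr, -, hφS⟩ := exists_psi1 F G hc (by linarith) (by linarith) hχ
  obtain ⟨V₀, hV₀, hVA, hVn⟩ := approx hr hW hAcl hAs hne
  have hχ1 : ∀ x ∈ ball (0:ℂ) 1, x ∉ A → χ x = 1 := by
    intro x hx hxA
    refine hχ.eq_one hc (mem_ball_zero_iff.1 hx) fun i g => ?_
    by_contra hlt
    push Not at hlt
    exact hxA (hyA i g x hx (hlt.le.trans hyy))
  have hsmooth : ContDiffOn ℝ 2 (fun x => ((1 - χ x : ℝ) : ℂ) * W x) (ball 0 1) := by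
    intro x hx
    by_cases hxA : x ∈ A
    · have h1 : ContDiffAt ℝ 2 χ x := hχ.smooth.contDiffAt (isOpen_ball.mem_nhds hx)
      have h2 : ContDiffAt ℝ 2 (fun x => ((1 - χ x : ℝ) : ℂ)) x :=
        Complex.ofRealCLM.contDiff.contDiffAt.comp x (contDiffAt_const.sub h1)
      exact (h2.mul (hAs x hx hxA)).contDiffWithinAt
    · obtain ⟨ε, hε, hA⟩ := hAcl x hx hxA
      have h1 : (fun x => ((1 - χ x : ℝ) : ℂ) * W x) =ᶠ[𝓝 x] fun _ => (0:ℂ) := by
        filter_upwards [ball_mem_nhds x hε, isOpen_ball.mem_nhds hx] with z hz hz1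
        rw [hχ1 z hz1 (hA z hz), sub_self, Complex.ofReal_zero, zero_mul]
      exact (contDiffAt_const.congr_of_eventuallyEq h1).contDiffWithinAt
  refine ⟨fun x => SM_P F φ V₀ x + ((1 - χ x : ℝ) : ℂ) * W x,
    (SM_P_smooth F hr hφr hφs hV₀).add hsmooth, ?_, ?_, ?_⟩
  · intro g x hx
    have hx1 := (mem_ball_zero_iff.1 hx).le
    show SM_P F φ V₀ (F.act g x) + ((1 - χ (F.act g x) : ℝ) : ℂ) * W (F.act g x) =
      F.dact g x * (SM_P F φ V₀ x + ((1 - χ x : ℝ) : ℂ) * W x)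
    rw [SM_P_equi F φ V₀ g hx1, hχ.invt g x hx, hWe g x hx]
    ring
  · intro x hx hxA
    have hx1 := (mem_ball_zero_iff.1 hx).le
    obtain ⟨t, ht⟩ := fin_supp F hr (mem_ball_zero_iff.1 hx)
    show SM_P F φ V₀ x + ((1 - χ x : ℝ) : ℂ) * W x = W x
    rw [SM_P_eq F V₀ hφr ht le_rfl]
    have h1 : ∀ g ∈ t, (φ (F.act g x) : ℂ) * V₀ (F.act g x) / F.dact g x =
        (φ (F.act g x) : ℂ) * W x := by
      intro g _
      by_cases hz : φ (F.act g x) = 0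
      · rw [hz]; simp
      · have hle : ‖F.act g x‖ ≤ r := by
          by_contra hlt
          exact hz (hφr _ (not_le.1 hlt))
        have hd := dact_ne F g hx1
        rw [hVA _ hle (hAi g x hx hxA), hWe g x hx]
        field_simp
    rw [Finset.sum_congr rfl h1, ← Finset.sum_mul]
    have h2 : ∑ g ∈ t, (φ (F.act g x) : ℂ) = (χ x : ℂ) := by
      rw [← hφS x hx, S_eq F hφr ht le_rfl]
      push_cast
      rfl
    rw [h2]
    push_cast
    ring
  · intro x hx hxA h0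
    have hx1 := (mem_ball_zero_iff.1 hx).le
    have hWx := hne x hx hxA
    have h0' : SM_P F φ V₀ x = 0 := by
      have h1 : SM_P F φ V₀ x + ((1 - χ x : ℝ) : ℂ) * W x = 0 := h0
      rw [hχ1 x hx hxA, sub_self, Complex.ofReal_zero, zero_mul, add_zero] at h1
      exact h1
    obtain ⟨t, ht⟩ := fin_supp F hr (mem_ball_zero_iff.1 hx)
    have hsum : ∑ g ∈ t, φ (F.act g x) = 1 := by
      rw [← S_eq F hφr ht le_rfl, hφS x hx, hχ1 x hx hxA]
    have h2 : SM_P F φ V₀ x - W x =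
        ∑ g ∈ t, (φ (F.act g x) : ℂ) * (V₀ (F.act g x) / F.dact g x - W x) := by
      have h5 : ∑ g ∈ t, (φ (F.act g x) : ℂ) * W x = W x := by
        rw [← Finset.sum_mul, ← Complex.ofReal_sum, hsum, Complex.ofReal_one, one_mul]
      have h6 : ∑ g ∈ t, (φ (F.act g x) : ℂ) * (V₀ (F.act g x) / F.dact g x - W x) =
          ∑ g ∈ t, (φ (F.act g x) : ℂ) * V₀ (F.act g x) / F.dact g x -
            ∑ g ∈ t, (φ (F.act g x) : ℂ) * W x := by
        rw [← Finset.sum_sub_distrib]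
        refine Finset.sum_congr rfl fun g _ => ?_
        ring
      rw [h6, h5, SM_P_eq F V₀ hφr ht le_rfl]
    have h3 : ‖SM_P F φ V₀ x - W x‖ ≤ ∑ g ∈ t, φ (F.act g x) * (‖W x‖ / 2) := by
      rw [h2]
      refine (norm_sum_le _ _).trans (Finset.sum_le_sum fun g _ => ?_)
      by_cases hz : φ (F.act g x) = 0
      · simp [hz]
      · have hle : ‖F.act g x‖ ≤ r := by
          by_contra hlt
          exact hz (hφr _ (not_le.1 hlt))
        have hd := dact_ne F g hx1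
        have hnA : F.act g x ∉ A := by
          intro hA
          have h7 := hAi g⁻¹ _ (mem_ball_zero_iff.2 (act_lt F g (mem_ball_zero_iff.1 hx))) hA
          rw [act_inv_act F g hx1] at h7
          exact hxA h7
        rw [norm_mul, Complex.norm_real, Real.norm_of_nonneg (hφ0 _)]
        refine mul_le_mul_of_nonneg_left ?_ (hφ0 _)
        have h4 := hVn _ hle hnA
        rw [hWe g x hx] at h4
        have h8 : V₀ (F.act g x) / F.dact g x - W x =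
            (V₀ (F.act g x) - F.dact g x * W x) / F.dact g x := by field_simp
        rw [h8, norm_div, div_le_iff₀ (norm_pos_iff.2 hd)]
        rw [norm_mul] at h4
        linarith
    rw [← Finset.sum_mul, hsum, one_mul, h0', zero_sub, norm_neg] at h3
    have h9 := norm_pos_iff.2 hWx
    linarith

end TN
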