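import Pool.Agent.H60.PH.VF

/-!
VC (the vector field near a gap).  Let `ω = om p q x`, `y = im ω ∈ (0, π)`, `δ = om p q (H x) - ω`, so `im δ ∈ (-y, π - y)`.
`vf_strip`: with `A = eta p q (H x) = exp (ω + δ)`, `B = eta p q x = exp ω`: `vf H x * omD p q x = (A - B)(B - conj B)/(B (A - conj B))`:
by `eta_sub` `A - B = I c (p - q)(H x - x)/((p - H x)(p - x))`, `B = I c (x - q)/(p - x)`, and (direct computation, `c = 1 - p conj q`)
`B - conj B = 2 i im B`, `eta_im`; `A - conj B = I c (p - q)(…)`: `conj B = conj(I c (x-q)/(p-x))`.  Multiply out (numerically checked).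
Then insert the exponentials: `(e^δ - 1)(e^{2iy} - 1)/(e^{δ+2iy} - 1) = 2 i sin y sinh(δ/2) / sinh(δ/2 + iy)`.
`sinh_re`: `sinh z / z = ∫_0^1 cosh (t z) dt`, `re cosh (t (a + i b)) = cosh (t a) cos (t b) > 0` for `|b| < π/2` (see `expq` in CP).
`sinh_shift`: `sinh (z + i y)/i` has real part `sin (im z + y) cosh (re z)`.
`collar_log`: `M ω = L ω + log (sinh(δ/2)/(δ/2)) + log (sin y) - log (sinh(δ/2 + iy)/i)`, `δ = exp (L ω)`, `y = im ω`; all arguments of `Complex.log` have positive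
real part, so `M` is continuous; `exp (M ω) = δ * (sinh(δ/2)/(δ/2)) * sin y / (sinh(δ/2+iy)/i) = vf * omD`, and `Xf * omD = 1`; `x = omi (om x)` (`omi_om`);
`im δ = im (om (H x)) - y` is in `(-y, π - y)` by `om_im_pos` (`x = omi ω`, `H x` in the disc).  Periodicity: `exp (L (ω + l)) = exp (L ω)`.
-/

namespace TN
open Metric Set Filter Topology DS MeasureTheory

variable {Γ : Type} [Group Γ]

private theorem VC_cosh_re (z : ℂ) : (Complex.cosh z).re = Real.cosh z.re * Real.cos z.im := by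
  conv_lhs => rw [← Complex.re_add_im z]
  rw [Complex.cosh_add, Complex.sinh_mul_I, Complex.cosh_mul_I, ← Complex.ofReal_sinh,
    ← Complex.ofReal_cosh, ← Complex.ofReal_sin, ← Complex.ofReal_cos]
  simp only [Complex.add_re, Complex.mul_re, Complex.mul_im, Complex.ofReal_re, Complex.ofReal_im,
    Complex.I_re, Complex.I_im]
  ring

theorem sinh_re {z : ℂ} (h0 : z ≠ 0) (hz : |z.im| < Real.pi / 2) : 0 < (Complex.sinh z / z).re := by
  have hder : ∀ t ∈ Icc (0:ℝ) 1, HasDerivAt (fun t : ℝ => (Complex.sinh ((t:ℂ) * z) / z).re)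
      ((Complex.cosh ((t:ℂ) * z)).re) t := by
    intro t _
    have h1 : HasDerivAt (fun t : ℝ => (t:ℂ) * z) z t := by
      have := ((Complex.ofRealCLM.hasDerivAt (x := t)).mul_const z)
      simpa using this
    have h2 := ((Complex.hasDerivAt_sinh ((t:ℂ) * z)).comp t h1).div_const z
    have h3 : Complex.cosh ((t:ℂ) * z) * z / z = Complex.cosh ((t:ℂ) * z) := by field_simp
    rw [h3] at h2
    exact (Complex.reCLM.hasFDerivAt.comp_hasDerivAt t h2)
  obtain ⟨t, ht, h4⟩ := CP_mvt hder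
  have h5 : 0 < (Complex.cosh ((t:ℂ) * z)).re := by
    have h6 : ((t:ℂ) * z).im = t * z.im := by simp
    rw [VC_cosh_re, h6]
    apply mul_pos (Real.cosh_pos _)
    apply Real.cos_pos_of_mem_Ioo
    have h7 : |t * z.im| < Real.pi / 2 := by
      rw [abs_mul, abs_of_pos ht.1]
      calc t * |z.im| ≤ 1 * |z.im| := mul_le_mul_of_nonneg_right ht.2.le (abs_nonneg _)
        _ < Real.pi / 2 := by rw [one_mul]; exact hz
    rw [abs_lt] at h7
    exact ⟨h7.1, h7.2⟩
  rw [h4] at h5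
  simp only [Complex.ofReal_one, one_mul, Complex.ofReal_zero, zero_mul, Complex.sinh_zero,
    zero_div, Complex.zero_re, sub_zero] at h5
  exact h5

theorem sinh_shift {z : ℂ} {y : ℝ} (h0 : 0 < z.im + y) (h1 : z.im + y < Real.pi) :
    0 < (Complex.sinh (z + Complex.I * y) / Complex.I).re := by
  have e1 : z + Complex.I * y = (z.re : ℂ) + ((z.im + y : ℝ) : ℂ) * Complex.I := by
    apply Complex.ext <;> simp
  rw [e1, Complex.sinh_add, Complex.sinh_mul_I, Complex.cosh_mul_I, ← Complex.ofReal_sinh,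
    ← Complex.ofReal_cosh, ← Complex.ofReal_sin, ← Complex.ofReal_cos, Complex.div_I]
  have h2 : 0 < Real.cosh z.re * Real.sin (z.im + y) :=
    mul_pos (Real.cosh_pos _) (Real.sin_pos_of_pos_of_lt_pi h0 h1)
  simp only [Complex.neg_re, Complex.mul_re, Complex.add_re, Complex.add_im, Complex.mul_im,
    Complex.ofReal_re, Complex.ofReal_im, Complex.I_re, Complex.I_im]
  ring_nf
  ring_nf at h2
  exact h2

private theorem VC_conj {z : ℂ} (h : ‖z‖ = 1) : z * (starRingEnd ℂ) z = 1 := by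
  rw [Complex.mul_conj, Complex.normSq_eq_norm_sq, h]; simp

private theorem VC_ne {z x : ℂ} (h : ‖z‖ = 1) (hx : ‖x‖ < 1) : z - x ≠ 0 := by
  refine sub_ne_zero.2 ?_
  rintro rfl
  linarith

private theorem VC_alg {p q : ℂ} (hp : ‖p‖ = 1) (hq : ‖q‖ = 1) (hpq : p ≠ q) {h x : ℂ}
    (hx : ‖x‖ < 1) (hH : ‖h‖ < 1) :
    eta p q h - (starRingEnd ℂ) (eta p q x) =
      -(Complex.I * (p - q) ^ 2 * (starRingEnd ℂ) q * (1 - (starRingEnd ℂ) x * h)) /
        ((p - h) * (1 - p * (starRingEnd ℂ) x)) := by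
  have hpP := VC_conj hp
  have hqQ := VC_conj hq
  have n1 := VC_ne hp hx
  have n2 := VC_ne hp hH
  have n3 : (starRingEnd ℂ) p - (starRingEnd ℂ) x ≠ 0 := by
    rw [← map_sub]
    exact (map_ne_zero _).2 n1
  have n4 : 1 - p * (starRingEnd ℂ) x ≠ 0 := by
    have : 1 - p * (starRingEnd ℂ) x = p * ((starRingEnd ℂ) p - (starRingEnd ℂ) x) := by
      linear_combination -hpP
    rw [this]
    refine mul_ne_zero ?_ n3
    rintro rfl
    simp at hp
  have hC : (starRingEnd ℂ) (eta p q x) =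
      Complex.I * (p - q) * ((starRingEnd ℂ) q - (starRingEnd ℂ) x) / (1 - p * (starRingEnd ℂ) x) := by
    unfold eta
    simp only [map_div₀, map_mul, map_sub, map_one, Complex.conj_I, Complex.conj_conj]
    rw [div_eq_div_iff n3 n4]
    linear_combination (Complex.I * ((starRingEnd ℂ) q - (starRingEnd ℂ) x) *
      (p * (starRingEnd ℂ) x * 0 + q * (starRingEnd ℂ) x - 1)) * hpP
  rw [hC]
  unfold eta
  rw [div_sub_div _ _ n2 n4, div_left_inj' (mul_ne_zero n2 n4)]
  linear_combination (Complex.I * (2 * p * h * (starRingEnd ℂ) x - p ^ 2 * (starRingEnd ℂ) x - h -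
    h * q * (starRingEnd ℂ) x + q)) * hqQ

theorem vf_strip {p q : ℂ} (hp : ‖p‖ = 1) (hq : ‖q‖ = 1) (hpq : p ≠ q) {H : ℂ → ℂ} {x : ℂ}
    (hx : ‖x‖ < 1) (hH : ‖H x‖ < 1) :
    vf H x * omD p q x = 2 * Complex.I * ((Real.sin (om p q x).im : ℝ) : ℂ) *
      Complex.sinh ((om p q (H x) - om p q x) / 2) /
      Complex.sinh ((om p q (H x) - om p q x) / 2 + Complex.I * ((om p q x).im : ℂ)) := by
  have n0 : p - q ≠ 0 := sub_ne_zero.2 hpq
  have n1 := VC_ne hp hx
  have n2 := VC_ne hp hH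
  have n3 : x - q ≠ 0 := by
    rw [← neg_sub]
    exact neg_ne_zero.2 (VC_ne hq hx)
  have n4 : 1 - p * (starRingEnd ℂ) x ≠ 0 := by
    have : 1 - p * (starRingEnd ℂ) x = p * ((starRingEnd ℂ) p - (starRingEnd ℂ) x) := by
      linear_combination -(VC_conj hp)
    rw [this]
    refine mul_ne_zero ?_ ?_
    · rintro rfl
      simp at hp
    · rw [← map_sub]
      exact (map_ne_zero _).2 n1
  have n5 : 1 - (starRingEnd ℂ) x * H x ≠ 0 := by
    intro h
    have := vf_den hx hH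
    rw [h] at this
    simp at this
  have nQ : (starRingEnd ℂ) q ≠ 0 := by
    intro h
    have := VC_conj hq
    rw [h] at this
    simp at this
  have nc : 1 - p * (starRingEnd ℂ) q ≠ 0 := by
    rw [← norm_ne_zero_iff, pq_norm hp hq]
    exact norm_ne_zero_iff.2 n0
  have hI := Complex.I_ne_zero
  have xp : x ≠ p := (sub_ne_zero.1 n1).symm
  have xq : x ≠ q := sub_ne_zero.1 n3
  have Hp : H x ≠ p := (sub_ne_zero.1 n2).symm
  have Hq : H x ≠ q := (sub_ne_zero.1 (VC_ne hq hH)).symm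
  have hAB := eta_sub (p := p) (q := q) Hp xp
  have hBC := VC_alg hp hq hpq (h := x) hx hx
  have hAC := VC_alg hp hq hpq (h := H x) hx hH
  have hB : eta p q x = Complex.I * (1 - p * (starRingEnd ℂ) q) * (x - q) / (p - x) := rfl
  have hxx : ((1 - ‖x‖ ^ 2 : ℝ) : ℂ) = 1 - (starRingEnd ℂ) x * x := by
    rw [mul_comm, Complex.mul_conj, Complex.normSq_eq_norm_sq]
    push_cast
    ring
  have nB := eta_ne hp hq hpq xp xq
  have nAC : eta p q (H x) - (starRingEnd ℂ) (eta p q x) ≠ 0 := by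
    rw [hAC]
    refine div_ne_zero (neg_ne_zero.2 ?_) (mul_ne_zero n2 n4)
    exact mul_ne_zero (mul_ne_zero (mul_ne_zero hI (pow_ne_zero 2 n0)) nQ) n5
  have key : vf H x * omD p q x =
      (eta p q (H x) - eta p q x) * (eta p q x - (starRingEnd ℂ) (eta p q x)) /
        (eta p q x * (eta p q (H x) - (starRingEnd ℂ) (eta p q x))) := by
    have n4' : 1 - (starRingEnd ℂ) x * p ≠ 0 := by rwa [mul_comm]
    have n5' : 1 - H x * (starRingEnd ℂ) x ≠ 0 := by rwa [mul_comm]
    rw [hAB, hBC, hAC, hB, vf, omD, hxx]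
    field_simp
  rw [key]
  set ω := om p q x with hω
  set δ := om p q (H x) - ω with hδ
  have eB : eta p q x = Complex.exp ω := (exp_om hp hq hpq xp xq).symm
  have eA : eta p q (H x) = Complex.exp ω * Complex.exp (δ / 2) ^ 2 := by
    rw [← exp_om hp hq hpq Hp Hq, ← Complex.exp_nat_mul, ← Complex.exp_add]
    congr 1
    rw [hδ]
    push_cast
    ring
  have eC : (starRingEnd ℂ) (eta p q x) = Complex.exp ω / Complex.exp (Complex.I * (ω.im : ℂ)) ^ 2 := by
    rw [eB, ← Complex.exp_conj, ← Complex.exp_nat_mul, ← Complex.exp_sub]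
    congr 1
    apply Complex.ext
    · simp
    · simp
      ring
  have eS : ((Real.sin ω.im : ℝ) : ℂ) = ((Complex.exp (Complex.I * (ω.im : ℂ)))⁻¹ -
      Complex.exp (Complex.I * (ω.im : ℂ))) * Complex.I / 2 := by
    rw [Complex.ofReal_sin, Complex.sin, neg_mul, Complex.exp_neg, mul_comm (ω.im : ℂ) Complex.I]
  have e1 : Complex.sinh (δ / 2) = (Complex.exp (δ / 2) - (Complex.exp (δ / 2))⁻¹) / 2 := by
    rw [Complex.sinh, Complex.exp_neg]
  have e2 : Complex.sinh (δ / 2 + Complex.I * (ω.im : ℂ)) =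
      (Complex.exp (δ / 2) * Complex.exp (Complex.I * (ω.im : ℂ)) -
        (Complex.exp (δ / 2) * Complex.exp (Complex.I * (ω.im : ℂ)))⁻¹) / 2 := by
    rw [Complex.sinh, Complex.exp_neg, Complex.exp_add]
  rw [eS, e1, e2]
  rw [eA, eC] at nAC
  rw [eA, eC, eB]
  have hne := Complex.exp_ne_zero ω
  have hna := Complex.exp_ne_zero (δ / 2)
  have hnb := Complex.exp_ne_zero (Complex.I * (ω.im : ℂ))
  generalize Complex.exp (δ / 2) = a at nAC hna ⊢
  generalize Complex.exp (Complex.I * (ω.im : ℂ)) = b at nAC hnb ⊢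
  generalize Complex.exp ω = E at nAC hne ⊢
  have nab : a ^ 2 * b ^ 2 - 1 ≠ 0 := by
    intro h
    apply nAC
    rw [sub_eq_zero, eq_div_iff (pow_ne_zero 2 hnb)]
    linear_combination E * h
  have f1 : E * a ^ 2 - E = E * (a ^ 2 - 1) := by ring
  have f2 : E - E / b ^ 2 = E * (b ^ 2 - 1) / b ^ 2 := by field_simp
  have f3 : E * a ^ 2 - E / b ^ 2 = E * (a ^ 2 * b ^ 2 - 1) / b ^ 2 := by field_simp
  have f4 : (a - a⁻¹) / 2 = (a ^ 2 - 1) / (2 * a) := by field_simp
  have f5 : (a * b - (a * b)⁻¹) / 2 = (a ^ 2 * b ^ 2 - 1) / (2 * (a * b)) := by field_simp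
  have f6 : (b⁻¹ - b) * Complex.I / 2 = - ((b ^ 2 - 1) * Complex.I) / (2 * b) := by
    field_simp
    ring
  rw [f1, f2, f3, f4, f5, f6]
  field_simp
  linear_combination ((1 - a ^ 2) * (1 - b ^ 2)) * Complex.I_sq

theorem collar_log (F : Fuchs Γ) {e : Elt Γ} (he : Norm F e) {κ : Γ} {p q : ℂ} (hκ : F.AR κ p q)
    {l : ℝ} {y₁ : ℝ} (hy₁ : y₁ < Real.pi / 2) {L : ℂ → ℂ}
    (hLc : ContinuousOn L {ω : ℂ | 0 < ω.im ∧ ω.im ≤ y₁})
    (hL : ∀ ω : ℂ, 0 < ω.im → ω.im ≤ y₁ → om p q (e.H (omi p q ω)) - ω = Complex.exp (L ω)) {w : ℤ}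
    (hLp : ∀ ω : ℂ, 0 < ω.im → ω.im ≤ y₁ → L (ω + l) = L ω + 2 * Real.pi * w * Complex.I) :
    ∃ M : ℂ → ℂ, ContinuousOn M {ω : ℂ | 0 < ω.im ∧ ω.im ≤ y₁} ∧
      (∀ ω : ℂ, 0 < ω.im → ω.im ≤ y₁ → M (ω + l) = M ω + 2 * Real.pi * w * Complex.I) ∧
      ∀ x ∈ ball (0:ℂ) 1, (om p q x).im ≤ y₁ → vf e.H x = Xf p q x * Complex.exp (M (om p q x)) := by
  have hp := hκ.np
  have hq := hκ.nq
  have hpq := hκ.ne
  have hpi := Real.pi_pos
  -- the bound on the imaginary part of `exp (L ω)`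
  have him : ∀ ω : ℂ, 0 < ω.im → ω.im ≤ y₁ → 0 < (Complex.exp (L ω)).im + ω.im ∧
      (Complex.exp (L ω)).im + ω.im < Real.pi := by
    intro ω h0 h1
    have hx : ‖omi p q ω‖ < 1 := omi_ball hp hq hpq h0 (by linarith)
    have hHx : ‖e.H (omi p q ω)‖ < 1 := by
      have := he.mapB (by simpa using hx : omi p q ω ∈ ball (0:ℂ) 1)
      simpa using this
    have h2 := om_im_pos hp hq hpq hHx
    have h3 := hL ω h0 h1
    have h4 := congrArg Complex.im h3
    rw [Complex.sub_im] at h4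
    constructor <;> linarith [h2.1, h2.2]
  have hexp : ContinuousOn (fun ω => Complex.exp (L ω)) {ω : ℂ | 0 < ω.im ∧ ω.im ≤ y₁} := hLc.cexp
  have hG1 : ∀ ω : ℂ, 0 < ω.im → ω.im ≤ y₁ →
      0 < (Complex.sinh (Complex.exp (L ω) / 2) / (Complex.exp (L ω) / 2)).re := by
    intro ω h0 h1
    refine sinh_re (div_ne_zero (Complex.exp_ne_zero _) two_ne_zero) ?_
    have h2 := him ω h0 h1
    have h3 : (Complex.exp (L ω) / 2).im = (Complex.exp (L ω)).im / 2 := by
      rw [Complex.div_ofNat_im]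
    rw [h3, abs_lt]
    constructor <;> linarith [h2.1, h2.2]
  have hG2 : ∀ ω : ℂ, 0 < ω.im → ω.im ≤ y₁ →
      0 < (Complex.sinh (Complex.exp (L ω) / 2 + Complex.I * (ω.im : ℂ)) / Complex.I).re := by
    intro ω h0 h1
    have h2 := him ω h0 h1
    have h3 : (Complex.exp (L ω) / 2).im = (Complex.exp (L ω)).im / 2 := by
      rw [Complex.div_ofNat_im]
    refine sinh_shift ?_ ?_ <;> rw [h3] <;> linarith [h2.1, h2.2]
  have hG3 : ∀ ω : ℂ, 0 < ω.im → ω.im ≤ y₁ → 0 < Real.sin ω.im := fun ω h0 h1 =>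
    Real.sin_pos_of_pos_of_lt_pi h0 (by linarith)
  have hcim : Continuous (fun ω : ℂ => ω.im) := Complex.continuous_im
  refine ⟨fun ω => L ω + Complex.log (Complex.sinh (Complex.exp (L ω) / 2) / (Complex.exp (L ω) / 2)) +
    Complex.log ((Real.sin ω.im : ℝ) : ℂ) -
    Complex.log (Complex.sinh (Complex.exp (L ω) / 2 + Complex.I * (ω.im : ℂ)) / Complex.I),
    ?_, ?_, ?_⟩
  · refine ((hLc.add ?_).add ?_).sub ?_
    · refine ContinuousOn.clog ?_ fun ω hω => Or.inl (hG1 ω hω.1 hω.2)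
      refine ContinuousOn.div ?_ (hexp.div_const 2) fun ω _ => div_ne_zero (Complex.exp_ne_zero _) two_ne_zero
      exact Complex.continuous_sinh.comp_continuousOn (hexp.div_const 2)
    · refine ContinuousOn.clog ?_ fun ω hω => Or.inl ?_
      · exact (Complex.continuous_ofReal.comp (Real.continuous_sin.comp hcim)).continuousOn
      · rw [Complex.ofReal_re]
        exact hG3 ω hω.1 hω.2
    · refine ContinuousOn.clog ?_ fun ω hω => Or.inl (hG2 ω hω.1 hω.2)
      refine ContinuousOn.div_const ?_ _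
      refine Complex.continuous_sinh.comp_continuousOn ((hexp.div_const 2).add ?_)
      exact (continuous_const.mul (Complex.continuous_ofReal.comp hcim)).continuousOn
  · intro ω h0 h1
    have e1 : Complex.exp (L (ω + l)) = Complex.exp (L ω) := by
      rw [hLp ω h0 h1, Complex.exp_add]
      have : (2 : ℂ) * Real.pi * w * Complex.I = w * (2 * Real.pi * Complex.I) := by ring
      rw [this, Complex.exp_int_mul_two_pi_mul_I, mul_one]
    have e2 : (ω + l).im = ω.im := by simp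
    simp only [e1, e2]
    rw [hLp ω h0 h1]
    ring
  · intro x hx hy
    have hx1 : ‖x‖ < 1 := by simpa using hx
    have hHx : ‖e.H x‖ < 1 := by
      have := he.mapB hx
      simpa using this
    have hyy := om_im_pos hp hq hpq hx1
    have h1 := hL (om p q x) hyy.1 hy
    rw [omi_om hp hq hpq (CP_ball_Dpq hp hq hx)] at h1
    have h2 := vf_strip hp hq hpq hx1 hHx
    rw [h1] at h2
    have h3 : Xf p q x * omD p q x = 1 := by
      have n0 : p - q ≠ 0 := sub_ne_zero.2 hpq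
      have n1 := VC_ne hp hx1
      have n3 : x - q ≠ 0 := by
        rw [← neg_sub]
        exact neg_ne_zero.2 (VC_ne hq hx1)
      rw [Xf, omD]
      field_simp
    have h4 : omD p q x ≠ 0 := by
      intro h
      rw [h, mul_zero] at h3
      exact zero_ne_one h3
    have g1 := hG1 _ hyy.1 hy
    have g2 := hG2 _ hyy.1 hy
    have g3 := hG3 _ hyy.1 hy
    have hI := Complex.I_ne_zero
    apply mul_right_cancel₀ h4
    rw [mul_right_comm, h3, one_mul, h2, Complex.exp_sub, Complex.exp_add, Complex.exp_add,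
      Complex.exp_log (by intro h; rw [h] at g1; simp at g1),
      Complex.exp_log (by rw [Ne, Complex.ofReal_eq_zero]; exact g3.ne'),
      Complex.exp_log (by intro h; rw [h] at g2; simp at g2)]
    have g4 : Complex.sinh (Complex.exp (L (om p q x)) / 2 + Complex.I * ((om p q x).im : ℂ)) ≠ 0 := by
      intro h
      rw [h] at g2
      simp at g2
    have g5 := Complex.exp_ne_zero (L (om p q x))
    field_simp

end TN
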