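import Pool.Agent.H60.PH.Q3
import Pool.Agent.H60.PH.VC
import Pool.Agent.H60.PH.HF
import Pool.Agent.H60.PH.CF
import Pool.Agent.H60.PH.SM
import Pool.Agent.H60.PH.EF
import Pool.Agent.H12.TN.IX

/-!
FN (assembly of the Poincare-Hopf block, section 3.7 of /team-store/H12_8a27c0_general.md).
`V = vf H`; logarithms in the collars (`collar`, `collar_log`), holes filled (`holes_field`), collars straightened
(`collar_field`), equivariant smoothing (`smo`), connection form (`exists_form`), contradiction (`no_form`).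
-/

namespace TN
open Metric Set Filter Topology DS MeasureTheory

variable {Γ : Type} [Group Γ]

theorem FN_rad {m : ℕ} {C : Fin m → Set ℂ} (hC : ∀ i, IsClosed (C i)) (hs : ∀ i, C i ⊆ ball 0 1) :
    ∃ r : ℝ, r < 1 ∧ ∀ i, ∀ x ∈ C i, ‖x‖ ≤ r := by
  have h1 : ∀ i, ∃ r : ℝ, r < 1 ∧ ∀ x ∈ C i, ‖x‖ ≤ r := by
    intro i
    have hcomp : IsCompact (C i) :=
      Metric.isCompact_of_isClosed_isBounded (hC i) (isBounded_ball.subset (hs i))
    rcases (C i).eq_empty_or_nonempty with h | h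
    · exact ⟨0, one_pos, by rw [h]; simp⟩
    · obtain ⟨z, hz, hz'⟩ := hcomp.exists_isMaxOn h continuous_norm.continuousOn
      exact ⟨‖z‖, by simpa using hs i hz, fun x hx => hz' hx⟩
  choose r hr hrx using h1
  rcases (Finset.univ : Finset (Fin m)).eq_empty_or_nonempty with h | h
  · refine ⟨0, one_pos, fun i => ?_⟩
    have := Finset.mem_univ i
    rw [h] at this
    simp at this
  · obtain ⟨j, _, hj⟩ := Finset.exists_max_image Finset.univ r h
    exact ⟨r j, hr j, fun i x hx => (hrx i x hx).trans (hj i (Finset.mem_univ i))⟩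

theorem FN_min {n : ℕ} {y : Fin n → ℝ} (hy : ∀ i, 0 < y i) {z : ℝ} (hz : 0 < z) :
    ∃ Y : ℝ, 0 < Y ∧ Y < z ∧ ∀ i, Y ≤ y i := by
  have h1 : ∀ᶠ Y in 𝓝[>] (0:ℝ), ∀ i, Y ≤ y i := by
    rw [eventually_all]
    intro i
    exact nhdsWithin_le_nhds (Iic_mem_nhds (hy i))
  have h2 : ∀ᶠ Y in 𝓝[>] (0:ℝ), Y < z := nhdsWithin_le_nhds (Iio_mem_nhds hz)
  have h3 : ∀ᶠ Y in 𝓝[>] (0:ℝ), 0 < Y := self_mem_nhdsWithin
  obtain ⟨Y, hY⟩ := (h1.and (h2.and h3)).exists
  exact ⟨Y, hY.2.2, hY.2.1, hY.1⟩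

/-- translates of small balls: closed locally -/
theorem FN_cl1 (F : Fuchs Γ) {m : ℕ} {k : Fin m → ℂ} {s r : ℝ} (hr : r < 1)
    (hk : ∀ i, ∀ y ∈ closedBall (k i) s, ‖y‖ ≤ r) {x : ℂ} (hx : ‖x‖ < 1)
    (h : ∀ g i, F.act g x ∉ closedBall (k i) s) :
    ∀ᶠ y in 𝓝 x, ∀ g i, F.act g y ∉ closedBall (k i) s := by
  set r' := (1 + ‖x‖) / 2 with hr'
  have hr'1 : r' < 1 := by linarith
  have hxr' : ‖x‖ < r' := by linarith
  obtain ⟨t, ht⟩ := fin_supp F hr hr'1
  have h1 : ∀ᶠ y in 𝓝 x, ‖y‖ < r' := continuous_norm.continuousAt.eventually (gt_mem_nhds hxr')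
  have h2 : ∀ᶠ y in 𝓝 x, ∀ g ∈ t, ∀ i, F.act g y ∉ closedBall (k i) s := by
    rw [Filter.eventually_all_finset]
    intro g _
    rw [eventually_all]
    intro i
    have hc : ContinuousAt (F.act g) x :=
      (act_cont F g).continuousAt (mem_of_superset (isOpen_ball.mem_nhds
        (by simpa using hx : x ∈ ball (0:ℂ) 1)) ball_subset_closedBall)
    exact hc.eventually (isClosed_closedBall.isOpen_compl.mem_nhds (h g i))
  filter_upwards [h1, h2] with y hy1 hy2 g i hmem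
  by_cases hg : g ∈ t
  · exact hy2 g hg i hmem
  · have := (ht g hg y hy1.le).1
    have h3 := hk i _ hmem
    linarith

/-- heights greater than `y` everywhere: an open condition -/
theorem FN_cl2 (F : Fuchs Γ) {n : ℕ} {κ : Fin n → Γ} {p q : Fin n → ℂ} (G : Gaps F n κ p q) {y : ℝ}
    (hy : y < Real.pi / 2) {x : ℂ} (hx : ‖x‖ < 1) (h : ∀ i g, y < F.ht (p i) (q i) g x) :
    ∃ δ > 0, ∀ x' ∈ ball (0:ℂ) 1, dist x' x < δ → ∀ i g, y < F.ht (p i) (q i) g x' := by
  have hm : ∃ M, y < M ∧ ∀ i g, M ≤ F.ht (p i) (q i) g x := by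
    by_cases hex : ∃ i g, F.ht (p i) (q i) g x < Real.pi / 2
    · obtain ⟨i, g, hig⟩ := hex
      refine ⟨F.ht (p i) (q i) g x, h i g, ?_⟩
      intro j h'
      by_cases hj : F.ht (p j) (q j) h' x < Real.pi / 2
      · obtain ⟨e1, e2⟩ := ht_disj F G hx hig hj
        subst e1
        have := ht_kappa F G i e2 g hx
        rw [inv_mul_cancel_right] at this
        exact this.ge
      · push Not at hj
        exact hig.le.trans hj
    · push Not at hex
      exact ⟨Real.pi / 2, hy, hex⟩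
  obtain ⟨M, hM, hMx⟩ := hm
  obtain ⟨δ, hδ, hδ'⟩ := ht_lip F G hx (η := M - y) (by linarith)
  refine ⟨δ, hδ, fun x' hx' hd i g => ?_⟩
  have h1 := (abs_lt.1 (hδ' x' hx' hd i g)).1
  have h2 := hMx i g
  linarith

theorem FN_ht_one (F : Fuchs Γ) (p q : ℂ) {x : ℂ} (hx : ‖x‖ < 1) : F.ht p q 1 x = (om p q x).im := by
  unfold Fuchs.ht
  rw [act_one F hx.le]

/-- a map commuting with a nonelementary convex cocompact group, with holes of index one inside and
superattracting or superrepelling fixed points on the gaps, does not exist -/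
theorem ph' (F : Fuchs Γ) (hN : F.Nonel) (hU : F.UC) {e : Elt Γ} (he : Norm F e)
    (hc : ∀ g, e.θ g = g) {m : ℕ} {O : Fin m → Set ℂ} {k : Fin m → ℂ} (ho : Holes F e.H ⊤ m O k)
    (hT : ∀ ξ : ℂ, ‖ξ‖ = 1 → ξ ∉ F.lim → e.H ξ = ξ → SA e.H ξ ∨ SA e.Hi ξ) : False := by
  have hpi := Real.pi_gt_three
  obtain ⟨n, κ, p, q, G⟩ := gaps F hN hU
  choose l hl0 hl' using fun i => om_act (F := F) (G.ar i)
  have hDpq : ∀ i, ∀ x ∈ ball (0:ℂ) 1, x ∈ Dpq (p i) (q i) := by
    intro i x hx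
    have hx1 : ‖x‖ < 1 := by simpa using hx
    refine ⟨hx1.le, ?_, ?_⟩
    · rintro rfl
      linarith [(G.ar i).np]
    · rintro rfl
      linarith [(G.ar i).nq]
  have hl : ∀ i, ∀ x ∈ ball (0:ℂ) 1, om (p i) (q i) (F.act (κ i) x) = om (p i) (q i) x + l i :=
    fun i x hx => (hl' i x (hDpq i x hx)).2
  choose y1 hy10 hy1π hy1ne L hLc hL w hw hLp using fun i =>
    collar F he (G.ar i) (hc (κ i)) (hl i)
      (fun ξ hξ hξp hξq hξe hξf => hT ξ hξ (G.gap i ξ hξ hξp hξe) hξf)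
  choose M hMc hMp hM using fun i =>
    collar_log F he (G.ar i) (hy1π i) (hLc i) (hL i) (hLp i)
  obtain ⟨r, hr, hrO⟩ := FN_rad (C := fun i => closure (O i)) (fun i => isClosed_closure) ho.sub
  obtain ⟨yF, hyF0, hyF⟩ := ht_fin F G hr
  obtain ⟨Y, hY0, hYz, hYy⟩ := FN_min hy10 (z := min yF 1) (lt_min hyF0 one_pos)
  have hYF : Y < yF := lt_of_lt_of_le hYz (min_le_left _ _)
  have hY1 : Y < 1 := lt_of_lt_of_le hYz (min_le_right _ _)
  have hYπ : Y < Real.pi / 2 := by linarith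
  -- points of low height are in no hole
  have hlow : ∀ i h, ∀ x ∈ ball (0:ℂ) 1, F.ht (p i) (q i) h x < yF → ∀ g, ∀ z : ℂ, ‖z‖ ≤ r → F.act g x = z → False := by
    intro i h x hx hhx g z hz hgz
    have hx1 : ‖x‖ < 1 := by simpa using hx
    have h1 := hyF z hz i (h * g⁻¹)
    rw [← hgz, ht_mul F (p i) (q i) (h * g⁻¹) g hx1, inv_mul_cancel_right] at h1
    linarith
  have hlow' : ∀ i, ∀ x ∈ ball (0:ℂ) 1, ∀ h, F.ht (p i) (q i) h x < yF → ∀ g j, F.act g x ∉ closure (O j) := by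
    intro i x hx h hhx g j hmem
    exact hlow i h x hx hhx g _ (hrO j _ hmem) rfl
  -- the field in the holes
  have hV0 : ∀ x ∈ ball (0:ℂ) 1, vf e.H x = 0 → ∃ g i, F.act g x ∈ O i := by
    intro x hx h0
    obtain ⟨g, _, i, y, hy, hyx⟩ := ho.fix x hx ((vf_zero he hx).1 h0)
    have hy1 : ‖y‖ ≤ 1 := by
      have := ho.sub i (subset_closure hy)
      have : ‖y‖ < 1 := by simpa using this
      exact this.le
    refine ⟨g⁻¹, i, ?_⟩
    rw [← hyx, act_inv_act F g hy1]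
    exact hy
  obtain ⟨V₁, s, hs, hV₁c, hV₁e, hV₁k, hV₁0, hV₁V⟩ :=
    holes_field F ho (vf_cont he) (vf_equi F he hc) hV0 (vf_log F he ho)
  have hV₁M : ∀ i, ∀ x ∈ ball (0:ℂ) 1, (om (p i) (q i) x).im ≤ Y →
      V₁ x = Xf (p i) (q i) x * Complex.exp (M i (om (p i) (q i) x)) := by
    intro i x hx hxY
    have hx1 : ‖x‖ < 1 := by simpa using hx
    rw [hV₁V x hx, hM i x hx (hxY.trans (hYy i))]
    intro g j hmem
    refine hlow' i x hx 1 ?_ g j (subset_closure hmem)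
    rw [FN_ht_one F _ _ hx1]
    linarith
  -- the field in the collars
  obtain ⟨V₂, hV₂c, hV₂e, hV₂X, hV₂0, hV₂V⟩ := collar_field F G hl0 hl (w := w) hY0 hYπ hV₁c hV₁e
    (M := M) (fun i => (hMc i).mono fun ω hω => ⟨hω.1, hω.2.trans (hYy i)⟩)
    (fun i ω h1 h2 => hMp i ω h1 (h2.trans (hYy i))) hV₁M
  set s' := s / 2 with hs'
  have hs'0 : 0 < s' := by positivity
  have hkO : ∀ i, closedBall (k i) s' ⊆ O i := fun i =>
    (closedBall_subset_closedBall (by linarith)).trans (hV₁k i).1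
  have hkr : ∀ i, ∀ y ∈ closedBall (k i) s', ‖y‖ ≤ r := fun i y hy =>
    hrO i y (subset_closure (hkO i hy))
  have hkb : ∀ i, closedBall (k i) s' ⊆ ball 0 1 := fun i => (hkO i).trans (subset_closure.trans (ho.sub i))
  have hV₂k : ∀ i, ∀ x ∈ closedBall (k i) s, V₂ x = x - k i := by
    intro i x hx
    have hxO : x ∈ O i := (hV₁k i).1 hx
    have hxr : ‖x‖ ≤ r := hrO i x (subset_closure hxO)
    rw [hV₂V x (ho.sub i (subset_closure hxO)) (fun j g => hYF.le.trans (hyF x hxr j g))]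
    exact (hV₁k i).2 x hx
  -- smoothing
  set A : Set ℂ := {x | (∃ g i, F.act g x ∈ closedBall (k i) s') ∨ ∃ i g, F.ht (p i) (q i) g x ≤ Y / 4} with hA
  have hAi : ∀ g, ∀ x ∈ ball (0:ℂ) 1, x ∈ A → F.act g x ∈ A := by
    intro g x hx hxA
    have hx1 : ‖x‖ < 1 := by simpa using hx
    rcases hxA with ⟨h, i, hh⟩ | ⟨i, h, hh⟩
    · left
      refine ⟨h * g⁻¹, i, ?_⟩
      rw [← act_mul F _ _ hx1.le, inv_mul_cancel_right]
      exact hh
    · right
      refine ⟨i, h * g⁻¹, ?_⟩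
      rw [ht_mul F _ _ _ _ hx1, inv_mul_cancel_right]
      exact hh
  have hAcl : ∀ x ∈ ball (0:ℂ) 1, x ∉ A → ∃ ε > 0, ∀ y, dist y x < ε → y ∉ A := by
    intro x hx hxA
    have hx1 : ‖x‖ < 1 := by simpa using hx
    have hxA' : (∀ g i, F.act g x ∉ closedBall (k i) s') ∧ ∀ i g, Y / 4 < F.ht (p i) (q i) g x := by
      constructor
      · intro g i hmem
        exact hxA (Or.inl ⟨g, i, hmem⟩)
      · intro i g
        by_contra hle
        push Not at hle
        exact hxA (Or.inr ⟨i, g, hle⟩)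
    have h1 := FN_cl1 F hr hkr hx1 hxA'.1
    obtain ⟨δ, hδ, hδ'⟩ := FN_cl2 F G (by linarith : Y / 4 < Real.pi / 2) hx1 hxA'.2
    have h2 : ∀ᶠ y in 𝓝 x, y ∈ ball (0:ℂ) 1 := isOpen_ball.mem_nhds hx
    have h3 : ∀ᶠ y in 𝓝 x, dist y x < δ := ball_mem_nhds x hδ
    obtain ⟨ε, hε, hε'⟩ := Metric.eventually_nhds_iff.1 (h1.and (h2.and h3))
    refine ⟨ε, hε, fun y hy hyA => ?_⟩
    obtain ⟨g1, g2, g3⟩ := hε' hy
    rcases hyA with ⟨g, i, hmem⟩ | ⟨i, g, hle⟩
    · exact g1 g i hmem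
    · exact absurd (hδ' y g2 g3 i g) (not_lt.2 hle)
  have hAs : ∀ x ∈ ball (0:ℂ) 1, x ∈ A → ContDiffAt ℝ 2 V₂ x := by
    intro x hx hxA
    have hx1 : ‖x‖ < 1 := by simpa using hx
    have hbx : ball (0:ℂ) 1 ∈ 𝓝 x := isOpen_ball.mem_nhds hx
    have hact : ∀ g, ContDiffAt ℝ 2 (F.act g) x := fun g => (act_smooth F g (n := 2)).contDiffAt hbx
    have hdact : ∀ g, ContDiffAt ℝ 2 (F.dact g) x := fun g => (dact_smooth F g (n := 2)).contDiffAt hbx
    have hcont : ∀ g, ContinuousAt (F.act g) x := fun g => (hact g).continuousAt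
    -- reduction to the point `act g x`
    have hred : ∀ (g : Γ) (W : ℂ → ℂ), ContDiffAt ℝ 2 W (F.act g x) →
        (∀ᶠ y in 𝓝 x, V₂ (F.act g y) = W (F.act g y)) → ContDiffAt ℝ 2 V₂ x := by
      intro g W hW hev
      have h1 : ContDiffAt ℝ 2 (fun y => W (F.act g y) / F.dact g y) x := by
        have h2 : ContDiffAt ℝ 2 (fun y => W (F.act g y) * (F.dact g y)⁻¹) x :=
          (hW.comp x (hact g)).mul (ContDiffAt.inv (hdact g) (dact_ne F g hx1.le))
        simpa only [div_eq_mul_inv] using h2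
      refine h1.congr_of_eventuallyEq ?_
      filter_upwards [hev, hbx] with y hy hyb
      have hy1 : ‖y‖ < 1 := by simpa using hyb
      rw [← hy, hV₂e g y hyb]
      field_simp [dact_ne F g hy1.le]
    rcases hxA with ⟨g, i, hmem⟩ | ⟨i, g, hle⟩
    · refine hred g (fun y => y - k i) (contDiffAt_id.sub contDiffAt_const) ?_
      have hb : F.act g x ∈ ball (k i) s := by
        rw [mem_closedBall] at hmem
        rw [mem_ball]
        linarith
      filter_upwards [(hcont g).eventually (isOpen_ball.mem_nhds hb)] with y hy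
      exact hV₂k i _ (ball_subset_closedBall hy)
    · have hgb : F.act g x ∈ ball (0:ℂ) 1 := by simpa using act_lt F g hx1
      have hgn : ball (0:ℂ) 1 ∈ 𝓝 (F.act g x) := isOpen_ball.mem_nhds hgb
      have hpq := G.ar i
      have hom : ContDiffAt ℝ 2 (om (p i) (q i)) (F.act g x) :=
        (om_smooth hpq.np hpq.nq hpq.ne (n := 2)).contDiffAt hgn
      have hXf : ContDiffAt ℝ 2 (Xf (p i) (q i)) (F.act g x) :=
        ((omD_smooth hpq.np hpq.nq hpq.ne (n := 2)).2.1).contDiffAt hgn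
      refine hred g (fun y => Xf (p i) (q i) y *
        Complex.exp (((2 * Real.pi * w i / l i * (om (p i) (q i) y).re : ℝ) : ℂ) * Complex.I)) ?_ ?_
      · refine hXf.mul ?_
        have h2 : ContDiffAt ℝ 2 (fun y => ((2 * Real.pi * w i / l i * (om (p i) (q i) y).re : ℝ) : ℂ) *
            Complex.I) (F.act g x) := by
          have h3 : ContDiffAt ℝ 2 (fun y => (om (p i) (q i) y).re) (F.act g x) :=
            Complex.reCLM.contDiff.contDiffAt.comp _ hom
          have h4 : ContDiffAt ℝ 2 (fun y => 2 * Real.pi * w i / l i * (om (p i) (q i) y).re) (F.act g x) :=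
            contDiffAt_const.mul h3
          exact (Complex.ofRealCLM.contDiff.contDiffAt.comp _ h4).mul contDiffAt_const
        exact h2.cexp
      · obtain ⟨δ, hδ, hδ'⟩ := ht_lip F G hx1 (η := Y / 4) (by linarith)
        filter_upwards [hbx, ball_mem_nhds x hδ] with y hyb hyd
        have hy1 : ‖y‖ < 1 := by simpa using hyb
        have hgy : F.act g y ∈ ball (0:ℂ) 1 := by simpa using act_lt F g hy1
        apply hV₂X i _ hgy
        have h5 := (abs_lt.1 (hδ' y hyb hyd i g)).2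
        have h6 : F.ht (p i) (q i) g y = (om (p i) (q i) (F.act g y)).im := rfl
        rw [h6] at h5
        linarith
  have hyA : ∀ i g, ∀ x ∈ ball (0:ℂ) 1, F.ht (p i) (q i) g x ≤ Y / 4 → x ∈ A :=
    fun i g x _ h => Or.inr ⟨i, g, h⟩
  have hV₂z : ∀ x ∈ ball (0:ℂ) 1, V₂ x = 0 → ∃ g i, F.act g x = k i := fun x hx h0 =>
    hV₁0 x hx ((hV₂0 x hx).1 h0)
  have hne : ∀ x ∈ ball (0:ℂ) 1, x ∉ A → V₂ x ≠ 0 := by
    intro x hx hxA h0
    obtain ⟨g, i, hgi⟩ := hV₂z x hx h0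
    apply hxA
    left
    refine ⟨g, i, ?_⟩
    rw [hgi]
    exact mem_closedBall_self hs'0.le
  obtain ⟨V₃, hV₃s, hV₃e, hV₃A, hV₃n⟩ := smo F G hV₂c hV₂e hAi hAcl hAs (y := Y / 4) (by linarith) hyA hne
  -- the form
  have hdis : ∀ i j g, (g ≠ 1 ∨ i ≠ j) →
      Disjoint (F.act g '' closedBall (k i) s') (closedBall (k j) s') := by
    intro i j g h
    exact (ho.disj i j g (Subgroup.mem_top g) h).mono
      (image_mono ((hkO i).trans subset_closure)) ((hkO j).trans subset_closure)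
  have hV₃k : ∀ i, ∀ x ∈ closedBall (k i) s', V₃ x = x - k i := by
    intro i x hx
    have hxb := hkb i hx
    have hx1 : ‖x‖ < 1 := by simpa using hxb
    rw [hV₃A x hxb (Or.inl ⟨1, i, by rw [act_one F hx1.le]; exact hx⟩)]
    exact hV₂k i x (closedBall_subset_closedBall (by linarith) hx)
  have hV₃z : ∀ x ∈ ball (0:ℂ) 1, V₃ x = 0 → ∃ g i, F.act g x = k i := by
    intro x hx h0
    by_cases hxA : x ∈ A
    · rw [hV₃A x hx hxA] at h0
      exact hV₂z x hx h0
    · exact absurd h0 (hV₃n x hx hxA)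
  obtain ⟨E, hE1, hEe, hEd, hEV⟩ := exists_form F hs'0 hkb hdis hV₃s hV₃e hV₃k hV₃z
  refine no_form F hN G hl0 hl hw (y₀ := Y / 4) (by linarith) hE1 hEe hEd ?_
  intro i x hx hxY
  have hx1 : ‖x‖ < 1 := by simpa using hx
  have hpq := G.ar i
  rw [hEV x hx]
  · apply e0_collar hpq.np hpq.nq hpq.ne hx1
    have hom : ContinuousAt (om (p i) (q i)) x :=
      ((om_smooth hpq.np hpq.nq hpq.ne (n := 0)).contDiffAt (isOpen_ball.mem_nhds hx)).continuousAt
    have him : ContinuousAt (fun y => (om (p i) (q i) y).im) x := Complex.continuous_im.continuousAt.comp hom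
    filter_upwards [isOpen_ball.mem_nhds hx, him.eventually (gt_mem_nhds hxY)] with y hyb hyY
    have hy1 : ‖y‖ < 1 := by simpa using hyb
    rw [hV₃A y hyb (Or.inr ⟨i, 1, by rw [FN_ht_one F _ _ hy1]; exact hyY.le⟩)]
    exact hV₂X i y hyb (by linarith)
  · intro g j hmem
    refine hlow i 1 x hx ?_ g _ (hkr j _ hmem) rfl
    rw [FN_ht_one F _ _ hx1]
    linarith

end TN
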