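import Pool.Agent.H60.PH.WR

/-!
IP (integration by parts).  `contDiff_of_supp`: `f` is smooth on the open disc and vanishes on the open set `{r < ‖x‖}`; the two open
sets cover the plane.  `ibp`: let `β` be a smooth bump function (`ContDiffBump` at `0` with radii `r' = (1+r)/2`, `r'' = (1+r')/2`), and
`h' = β h` (zero off the disc, `C¹` on the plane by `contDiff_of_supp`), equal to `h` on `ball 0 r'`, so `dz h' = dz h` there; outside of
`closedBall 0 r` both integrands vanish (`f = 0`, `dz f = 0`).  `integral_mul_fderiv_eq_neg_fderiv_mul_of_integrable` in the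
directions `1` and `I` (all functions are continuous with compact support) gives `∫ f * dz h' = - ∫ dz f * h'` over the plane.
-/

namespace TN
open Metric Set Filter Topology MeasureTheory

theorem contDiff_of_supp {E : Type*} [NormedAddCommGroup E] [NormedSpace ℝ E] {f : ℂ → E} {n : ℕ}
    (hf : ContDiffOn ℝ n f (ball 0 1)) {r : ℝ} (hr : r < 1) (hs : ∀ x, r < ‖x‖ → f x = 0) :
    ContDiff ℝ n f := by
  rw [contDiff_iff_contDiffAt]
  intro x
  by_cases hx : ‖x‖ < 1
  · exact hf.contDiffAt (isOpen_ball.mem_nhds (mem_ball_zero_iff.2 hx))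
  · have h1 : f =ᶠ[𝓝 x] fun _ => 0 := by
      have h2 : {y : ℂ | r < ‖y‖} ∈ 𝓝 x :=
        (isOpen_lt continuous_const continuous_norm).mem_nhds (by
          show r < ‖x‖
          linarith [not_lt.1 hx])
      filter_upwards [h2] with y hy
      exact hs y hy
    exact contDiffAt_const.congr_of_eventuallyEq h1

theorem IP_integrable_supp {E : Type*} [NormedAddCommGroup E] {f : ℂ → E}
    (hf : ContinuousOn f (ball 0 1)) {r : ℝ} (hr : r < 1) (hs : ∀ x, r < ‖x‖ → f x = 0) :
    IntegrableOn f (ball 0 1) := by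
  have h1 : IntegrableOn f (closedBall 0 r) :=
    (hf.mono (closedBall_subset_ball hr)).integrableOn_compact (isCompact_closedBall _ _)
  refine h1.of_forall_sdiff_eq_zero measurableSet_ball fun x hx => hs x ?_
  have h2 := hx.2
  rw [mem_closedBall_zero_iff, not_le] at h2
  exact h2

theorem IP_integrable {E : Type*} [NormedAddCommGroup E] {f : ℂ → E}
    (hf : ContinuousOn f (ball 0 1)) {r : ℝ} (hr : r < 1) (hs : ∀ x, r < ‖x‖ → f x = 0) :
    Integrable f := by
  refine (integrableOn_iff_integrable_of_support_subset ?_).1 (IP_integrable_supp hf hr hs)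
  intro x hx
  by_contra h
  rw [mem_ball_zero_iff, not_lt] at h
  exact hx (hs x (by linarith))

theorem IP_fderiv {f : ℂ → ℂ} {r : ℝ} (hs : ∀ x, r < ‖x‖ → f x = 0) {x : ℂ} (hx : r < ‖x‖) :
    fderiv ℝ f x = 0 := by
  have h1 : f =ᶠ[𝓝 x] fun _ => 0 := by
    have h2 : {y : ℂ | r < ‖y‖} ∈ 𝓝 x :=
      (isOpen_lt continuous_const continuous_norm).mem_nhds hx
    filter_upwards [h2] with y hy
    exact hs y hy
  rw [h1.fderiv_eq]
  simp

theorem ibp {f h : ℂ → ℂ} {r : ℝ} (hr : r < 1) (hf : ContDiffOn ℝ 1 f (ball 0 1))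
    (hs : ∀ x, r < ‖x‖ → f x = 0) (hh : ContDiffOn ℝ 1 h (ball 0 1)) :
    ∫ x in ball (0:ℂ) 1, f x * dz h x = - ∫ x in ball (0:ℂ) 1, dz f x * h x := by
  have hF : ContDiff ℝ 1 f := contDiff_of_supp (n := 1) hf hr hs
  have hfd : ∀ v : ℂ, ContinuousOn (fun x => fderiv ℝ f x v) (ball 0 1) := fun v =>
    (hf.continuousOn_fderiv_of_isOpen isOpen_ball le_rfl).clm_apply continuousOn_const
  have hhd : ∀ v : ℂ, ContinuousOn (fun x => fderiv ℝ h x v) (ball 0 1) := fun v =>
    (hh.continuousOn_fderiv_of_isOpen isOpen_ball le_rfl).clm_apply continuousOn_const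
  have i1 : ∀ v : ℂ, Integrable (fun x => fderiv ℝ f x v * h x) := fun v =>
    IP_integrable ((hfd v).mul hh.continuousOn) hr fun x hx => by
      simp only [IP_fderiv hs hx, ContinuousLinearMap.zero_apply, zero_mul]
  have i2 : ∀ v : ℂ, Integrable (fun x => f x * fderiv ℝ h x v) := fun v =>
    IP_integrable (hf.continuousOn.mul (hhd v)) hr fun x hx => by
      simp only [hs x hx, zero_mul]
  have i3 : Integrable (fun x => f x * h x) :=
    IP_integrable (hf.continuousOn.mul hh.continuousOn) hr fun x hx => by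
      simp only [hs x hx, zero_mul]
  have hts : ∀ x ∈ tsupport f, x ∈ ball (0:ℂ) 1 := by
    intro x hx
    have h1 : tsupport f ⊆ closedBall (0:ℂ) r := by
      refine closure_minimal ?_ isClosed_closedBall
      intro y hy
      rw [mem_closedBall_zero_iff]
      by_contra hn
      exact hy (hs y (not_le.1 hn))
    exact closedBall_subset_ball hr (h1 hx)
  have key : ∀ v : ℂ, ∫ x, f x * fderiv ℝ h x v = - ∫ x, fderiv ℝ f x v * h x := by
    intro v
    refine integral_mul_fderiv_eq_neg_fderiv_mul_of_integrable (i1 v) (i2 v) i3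
      (fun x _ => (hF.differentiable one_ne_zero) x) fun x hx => ?_
    exact (hh.differentiableOn one_ne_zero).differentiableAt (isOpen_ball.mem_nhds (hts x hx))
  have e1 : ∫ x in ball (0:ℂ) 1, f x * dz h x = ∫ x, f x * dz h x := by
    refine setIntegral_eq_integral_of_forall_compl_eq_zero fun x hx => ?_
    rw [mem_ball_zero_iff, not_lt] at hx
    rw [hs x (by linarith), zero_mul]
  have e2 : ∫ x in ball (0:ℂ) 1, dz f x * h x = ∫ x, dz f x * h x := by
    refine setIntegral_eq_integral_of_forall_compl_eq_zero fun x hx => ?_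
    rw [mem_ball_zero_iff, not_lt] at hx
    unfold dz
    rw [IP_fderiv hs (by linarith : r < ‖x‖)]
    simp
  have e3 : ∀ x, f x * dz h x =
      (f x * fderiv ℝ h x 1 - Complex.I * (f x * fderiv ℝ h x Complex.I)) / 2 := by
    intro x
    unfold dz
    ring
  have e4 : ∀ x, dz f x * h x =
      (fderiv ℝ f x 1 * h x - Complex.I * (fderiv ℝ f x Complex.I * h x)) / 2 := by
    intro x
    unfold dz
    ring
  rw [e1, e2]
  simp only [e3, e4]
  rw [integral_div, integral_div, integral_sub (i2 1) ((i2 _).const_mul _),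
    integral_sub (i1 1) ((i1 _).const_mul _), integral_const_mul, integral_const_mul, key, key]
  ring

/-- continuous functions on the disc with support in a smaller disc are integrable -/
theorem integrable_supp {E : Type*} [NormedAddCommGroup E] {f : ℂ → E}
    (hf : ContinuousOn f (ball 0 1)) {r : ℝ} (hr : r < 1) (hs : ∀ x, r < ‖x‖ → f x = 0) :
    IntegrableOn f (ball 0 1) := IP_integrable_supp hf hr hs

end TN
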