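import Pool.Agent.H60.PH.Base

/-!
LP (heights).  `om_half`: `im (log z) = arg z`, for `0 < arg z < π`: `arg z < π/2 ↔ 0 < re z` (`Complex.abs_arg_lt_pi_div_two_iff`).
`ht_lip`: on the convex ball `ball x δ₀ ⊆ ball 0 r`, `r < 1`, the function `y ↦ om (p i) (q i) (act g y)` has derivative of norm
`‖omD (act g y)‖ * ‖dact g y‖ = 2 sin (..) / (1 - ‖act g y‖²) * ‖dact g y‖ = 2 sin (..) / (1 - ‖y‖²) ≤ 2 / (1 - r²)` (`om_metric`, `act_conf`);
`Convex.norm_image_sub_le_of_norm_hasDerivWithin_le`.  `ht_kappa`: `om_act`, `act_mul`.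
`ht_fin` (heights over a compact set are bounded below): suppose `‖x n‖ ≤ r`, `F.ht (p i) (q i) (g n) (x n) → 0` (pass to a subsequence with a
fixed `i`; there are finitely many `i`).  Multiply `g n` by a power of `κ i` (`om_act_zpow`: `om (act (κ^z) y) = om y + z l`), which does
not change the height (`ht_kappa`), so that `re (om (act (g n) (x n))) ∈ [0, l]`.  Along a subsequence `ω n = om (act (g n) (x n)) → t + 0 i`,
`y n = act (g n) (x n) = omi (ω n) → ξ = omi t` (`omi_cont`), `‖ξ‖ = 1` (`omi_sphere`), `eta ξ = exp t > 0`, `ξ ≠ p`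
(`omi_mem`), so `ξ ∉ F.lim` by `Gaps.gap`.  But `pd (y n) (act (g n) 0) = pd (x n) 0 = ‖x n‖ ≤ r` and `‖y n‖ → 1`, so
`dist (y n) (act (g n) 0) → 0` (`pd_close`), `act (g n) 0 → ξ`, `ξ ∈ F.lim`.  Contradiction.
-/

namespace TN
open Metric Set Filter Topology DS MeasureTheory

variable {Γ : Type} [Group Γ]

theorem LP_ne {p x : ℂ} (hp : ‖p‖ = 1) (hx : ‖x‖ < 1) : x ≠ p := by
  rintro rfl
  exact hx.ne hp

theorem LP_lip (F : Fuchs Γ) {p q : ℂ} (hp : ‖p‖ = 1) (hq : ‖q‖ = 1) (hpq : p ≠ q) {r : ℝ}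
    (hr0 : 0 ≤ r) (hr : r < 1) (g : Γ) {x x' : ℂ} (hx : x ∈ ball (0:ℂ) r)
    (hx' : x' ∈ ball (0:ℂ) r) :
    |F.ht p q g x' - F.ht p q g x| ≤ 2 / (1 - r ^ 2) * ‖x' - x‖ := by
  have h3 : 0 < 1 - r ^ 2 := by nlinarith
  have hd : ∀ y ∈ ball (0:ℂ) r, HasDerivWithinAt (fun y => om p q (F.act g y))
      ((p - q) / ((F.act g y - q) * (p - F.act g y)) * F.dact g y) (ball (0:ℂ) r) y := by
    intro y hy
    have hy1 : ‖y‖ < 1 := lt_trans (mem_ball_zero_iff.1 hy) hr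
    exact ((om_hasDerivAt hp hq hpq (act_lt F g hy1)).comp y
      (act_hasDerivAt F g hy1.le)).hasDerivWithinAt
  have hb : ∀ y ∈ ball (0:ℂ) r,
      ‖(p - q) / ((F.act g y - q) * (p - F.act g y)) * F.dact g y‖ ≤ 2 / (1 - r ^ 2) := by
    intro y hy
    have hy0 : ‖y‖ < r := mem_ball_zero_iff.1 hy
    have hy1 : ‖y‖ < 1 := hy0.trans hr
    have h1 := om_metric hp hq hpq (act_lt F g hy1)
    rw [act_conf F g hy1.le] at h1
    have h2 : ‖y‖ ^ 2 < r ^ 2 := pow_lt_pow_left₀ hy0 (norm_nonneg y) two_ne_zero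
    rw [norm_mul, le_div_iff₀ h3]
    have h4 : ‖(p - q) / ((F.act g y - q) * (p - F.act g y))‖ * ‖F.dact g y‖ * (1 - r ^ 2) ≤
        ‖(p - q) / ((F.act g y - q) * (p - F.act g y))‖ * ‖F.dact g y‖ * (1 - ‖y‖ ^ 2) :=
      mul_le_mul_of_nonneg_left (by linarith) (by positivity)
    refine h4.trans ?_
    rw [mul_assoc, h1]
    linarith [Real.sin_le_one (om p q (F.act g y)).im]
  have h := (convex_ball (0:ℂ) r).norm_image_sub_le_of_norm_hasDerivWithin_le hd hb hx hx'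
  have h5 : F.ht p q g x' - F.ht p q g x = (om p q (F.act g x') - om p q (F.act g x)).im := by
    unfold Fuchs.ht
    rw [Complex.sub_im]
  rw [h5]
  exact (Complex.abs_im_le_norm _).trans h

theorem om_half {p q : ℂ} (hp : ‖p‖ = 1) (hq : ‖q‖ = 1) (hpq : p ≠ q) {x : ℂ} (hx : ‖x‖ < 1) :
    (om p q x).im < Real.pi / 2 ↔ 0 < (eta p q x).re := by
  have h1 := om_im_pos hp hq hpq hx
  have e : (om p q x).im = Complex.arg (eta p q x) := Complex.log_im _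
  rw [e] at h1 ⊢
  have h2 : eta p q x ≠ 0 := eta_ne hp hq hpq (LP_ne hp hx) (LP_ne hq hx)
  have h3 := Complex.abs_arg_lt_pi_div_two_iff (z := eta p q x)
  rw [abs_of_pos h1.1] at h3
  rw [h3]
  exact or_iff_left h2

theorem ht_lip (F : Fuchs Γ) {n : ℕ} {κ : Fin n → Γ} {p q : Fin n → ℂ} (G : Gaps F n κ p q) {x : ℂ}
    (hx : ‖x‖ < 1) {η : ℝ} (hη : 0 < η) : ∃ δ > 0, ∀ x' ∈ ball (0:ℂ) 1, dist x' x < δ → ∀ i g,
      |F.ht (p i) (q i) g x' - F.ht (p i) (q i) g x| < η := by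
  have hx0 := norm_nonneg x
  obtain ⟨r, hr⟩ : ∃ r : ℝ, r = (1 + ‖x‖) / 2 := ⟨_, rfl⟩
  have hr1 : r < 1 := by linarith
  have hxr : ‖x‖ < r := by linarith
  have hr0 : 0 ≤ r := by linarith
  have h3 : 0 < 1 - r ^ 2 := by nlinarith
  refine ⟨min (r - ‖x‖) (η * (1 - r ^ 2) / 2), lt_min (by linarith) (by positivity),
    fun x' _ hd i g => ?_⟩
  have hd1 := lt_of_lt_of_le hd (min_le_left _ _)
  have hd2 := lt_of_lt_of_le hd (min_le_right _ _)
  rw [dist_eq_norm] at hd1 hd2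
  have hxb : x ∈ ball (0:ℂ) r := mem_ball_zero_iff.2 hxr
  have hxb' : x' ∈ ball (0:ℂ) r := by
    rw [mem_ball_zero_iff]
    have h4 : ‖x'‖ ≤ ‖x‖ + ‖x' - x‖ := by
      have h5 := norm_add_le x (x' - x)
      rwa [add_sub_cancel] at h5
    linarith
  refine lt_of_le_of_lt (LP_lip F (G.ar i).np (G.ar i).nq (G.ar i).ne hr0 hr1 g hxb hxb') ?_
  calc 2 / (1 - r ^ 2) * ‖x' - x‖ < 2 / (1 - r ^ 2) * (η * (1 - r ^ 2) / 2) :=
        mul_lt_mul_of_pos_left hd2 (by positivity)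
    _ = η := by field_simp

theorem ht_mul (F : Fuchs Γ) (p q : ℂ) (g h : Γ) {x : ℂ} (hx : ‖x‖ < 1) :
    F.ht p q g (F.act h x) = F.ht p q (g * h) x := by
  unfold Fuchs.ht
  rw [act_mul F g h hx.le]

theorem ht_kappa (F : Fuchs Γ) {n : ℕ} {κ : Fin n → Γ} {p q : Fin n → ℂ} (G : Gaps F n κ p q) (i : Fin n)
    {c : Γ} (hc : c ∈ Subgroup.zpowers (κ i)) (g : Γ) {x : ℂ} (hx : ‖x‖ < 1) :
    F.ht (p i) (q i) (c * g) x = F.ht (p i) (q i) g x := by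
  obtain ⟨z, rfl⟩ := Subgroup.mem_zpowers_iff.1 hc
  obtain ⟨l, _, hl⟩ := om_act (G.ar i)
  have h1 := (om_act_zpow (G.ar i) (l := l) fun y hy =>
    (hl y (CP_ball_Dpq (G.ar i).np (G.ar i).nq hy)).2).2 z (F.act g x)
    (CP_ball_Dpq (G.ar i).np (G.ar i).nq (mem_ball_zero_iff.2 (act_lt F g hx)))
  unfold Fuchs.ht
  rw [act_mul F _ g hx.le, h1.2, Complex.add_im, ← Complex.ofReal_intCast, ← Complex.ofReal_mul,
    Complex.ofReal_im, add_zero]

/-- two half planes meet only if they are equal -/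
theorem ht_disj (F : Fuchs Γ) {n : ℕ} {κ : Fin n → Γ} {p q : Fin n → ℂ} (G : Gaps F n κ p q) {i j : Fin n}
    {g h : Γ} {x : ℂ} (hx : ‖x‖ < 1) (h1 : F.ht (p i) (q i) g x < Real.pi / 2)
    (h2 : F.ht (p j) (q j) h x < Real.pi / 2) : i = j ∧ h * g⁻¹ ∈ Subgroup.zpowers (κ i) := by
  by_contra hcon
  have h3 : i ≠ j ∨ h * g⁻¹ ∉ Subgroup.zpowers (κ i) := not_and_or.1 hcon
  have h4 := (om_half (G.ar i).np (G.ar i).nq (G.ar i).ne (act_lt F g hx)).1 h1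
  have h5 := (om_half (G.ar j).np (G.ar j).nq (G.ar j).ne (act_lt F h hx)).1 h2
  refine G.disj i j (h * g⁻¹) h3 (F.act g x) (mem_ball_zero_iff.2 (act_lt F g hx)) h4 ?_
  rw [← act_mul F _ g hx.le, inv_mul_cancel_right]
  exact h5

theorem LP_fin_one (F : Fuchs Γ) {κ : Γ} {p q : ℂ} (hA : F.AR κ p q)
    (hgap : ∀ ξ : ℂ, ‖ξ‖ = 1 → ξ ≠ p → 0 < (eta p q ξ).re → ξ ∉ F.lim) {r : ℝ} (hr : r < 1) :
    ∃ y > 0, ∀ x : ℂ, ‖x‖ ≤ r → ∀ g, y ≤ F.ht p q g x := by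
  have hp := hA.np
  have hq := hA.nq
  have hpq := hA.ne
  by_contra hcon
  push Not at hcon
  have hex : ∀ m : ℕ, ∃ x : ℂ, ‖x‖ ≤ r ∧ ∃ g, F.ht p q g x < 1 / ((m : ℝ) + 1) :=
    fun m => hcon _ (by positivity)
  choose x hxr g hg using hex
  have hr0 : 0 ≤ r := (norm_nonneg _).trans (hxr 0)
  have hx1 : ∀ m, ‖x m‖ < 1 := fun m => (hxr m).trans_lt hr
  obtain ⟨l, hl0, hl⟩ := om_act hA
  have hz := (om_act_zpow hA (l := l) fun y hy => (hl y (CP_ball_Dpq hp hq hy)).2).2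
  -- normalised sequence
  obtain ⟨z, hzdef⟩ : ∃ z : ℕ → ℤ, z = fun m => - ⌊(om p q (F.act (g m) (x m))).re / l⌋ :=
    ⟨_, rfl⟩
  obtain ⟨y, hydef⟩ : ∃ y : ℕ → ℂ, y = fun m => F.act (κ ^ z m * g m) (x m) := ⟨_, rfl⟩
  have hy1 : ∀ m, ‖y m‖ < 1 := fun m => by
    rw [hydef]
    exact act_lt F _ (hx1 m)
  have hyD : ∀ m, y m ∈ Dpq p q := fun m => CP_ball_Dpq hp hq (mem_ball_zero_iff.2 (hy1 m))
  have hyo : ∀ m, om p q (y m) = om p q (F.act (g m) (x m)) + z m * l := fun m => by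
    rw [hydef]
    show om p q (F.act (κ ^ z m * g m) (x m)) = _
    rw [act_mul F _ _ (hx1 m).le]
    exact (hz (z m) _ (CP_ball_Dpq hp hq (mem_ball_zero_iff.2 (act_lt F (g m) (hx1 m))))).2
  have him : ∀ m, (om p q (y m)).im = F.ht p q (g m) (x m) := fun m => by
    rw [hyo m, Complex.add_im, ← Complex.ofReal_intCast, ← Complex.ofReal_mul,
      Complex.ofReal_im, add_zero]
    rfl
  have hre : ∀ m, (om p q (y m)).re ∈ Icc 0 l := fun m => by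
    rw [hyo m, Complex.add_re, ← Complex.ofReal_intCast, ← Complex.ofReal_mul, Complex.ofReal_re,
      hzdef]
    obtain ⟨R, hR⟩ : ∃ R, R = (om p q (F.act (g m) (x m))).re := ⟨_, rfl⟩
    simp only [← hR]
    have h1 := Int.floor_le (R / l)
    have h2 := Int.lt_floor_add_one (R / l)
    rw [le_div_iff₀ hl0] at h1
    rw [div_lt_iff₀ hl0] at h2
    push_cast
    constructor
    · linarith
    · nlinarith
  have hK : IsCompact (Icc (0:ℝ) l ×ℂ Icc (0:ℝ) Real.pi) := isCompact_Icc.reProdIm isCompact_Icc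
  have hmemK : ∀ m, om p q (y m) ∈ Icc (0:ℝ) l ×ℂ Icc (0:ℝ) Real.pi := fun m =>
    ⟨hre m, om_mem hp hq hpq (hyD m)⟩
  obtain ⟨ω, hω, φ, hφ, hlim⟩ := hK.tendsto_subseq hmemK
  have hωS : ω ∈ Str := hω.2
  have hωim : ω.im = 0 := by
    have h1 : Tendsto (fun m => (om p q (y (φ m))).im) atTop (𝓝 ω.im) :=
      (Complex.continuous_im.tendsto ω).comp hlim
    have h2 : Tendsto (fun m => (om p q (y (φ m))).im) atTop (𝓝 0) := by
      have h3 : Tendsto (fun m : ℕ => 1 / ((φ m : ℝ) + 1)) atTop (𝓝 0) :=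
        tendsto_one_div_add_atTop_nhds_zero_nat.comp hφ.tendsto_atTop
      refine squeeze_zero (fun m => (om_mem hp hq hpq (hyD _)).1) (fun m => ?_) h3
      rw [him]
      exact (hg (φ m)).le
    exact tendsto_nhds_unique h1 h2
  obtain ⟨ξ, hξ⟩ : ∃ ξ, ξ = omi p q ω := ⟨_, rfl⟩
  have hylim : Tendsto (fun m => y (φ m)) atTop (𝓝 ξ) := by
    have h1 : Tendsto (fun m => omi p q (om p q (y (φ m)))) atTop (𝓝 (omi p q ω)) := by
      refine (omi_cont hp hq hpq ω hωS).tendsto.comp (tendsto_nhdsWithin_iff.2 ⟨hlim, ?_⟩)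
      exact Eventually.of_forall fun m => om_mem hp hq hpq (hyD _)
    rw [← hξ] at h1
    refine h1.congr fun m => ?_
    exact omi_om hp hq hpq (hyD _)
  have hξ1 : ‖ξ‖ = 1 := by
    rw [hξ]
    exact omi_sphere hp hq hpq (Or.inl hωim)
  have hξD : ξ ∈ Dpq p q := by
    rw [hξ]
    exact omi_mem hp hq hpq hωS
  have heta : 0 < (eta p q ξ).re := by
    rw [← exp_om hp hq hpq hξD.2.1 hξD.2.2, hξ, om_omi hp hq hpq hωS, Complex.exp_re, hωim,
      Real.cos_zero, mul_one]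
    exact Real.exp_pos _
  refine hgap ξ hξ1 hξD.2.1 heta ?_
  refine lim_of_seq F (g := fun m => κ ^ z (φ m) * g (φ m)) (x := 0) (by simp) hξ1 ?_
  have hr2 : 0 < 1 - r ^ 2 := by nlinarith
  have hnorm : Tendsto (fun m => ‖y (φ m)‖) atTop (𝓝 1) := by
    have h1 := hylim.norm
    rwa [hξ1] at h1
  have hdist : ∀ m, ‖y (φ m) - F.act (κ ^ z (φ m) * g (φ m)) 0‖ ^ 2 * (1 - r ^ 2) ≤
      r ^ 2 * (1 - ‖y (φ m)‖ ^ 2) := by
    intro m
    have h0 : ‖F.act (κ ^ z (φ m) * g (φ m)) 0‖ < 1 := act_lt F _ (by simp)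
    have h1 : pd (y (φ m)) (F.act (κ ^ z (φ m) * g (φ m)) 0) ≤ r := by
      rw [hydef]
      show pd (F.act (κ ^ z (φ m) * g (φ m)) (x (φ m))) (F.act (κ ^ z (φ m) * g (φ m)) 0) ≤ r
      rw [act_pd F _ (hx1 _).le (by simp)]
      unfold pd
      rw [sub_zero, mul_zero, sub_zero, norm_one, div_one]
      exact hxr _
    have h2 := pd_close hr (hy1 _).le h0.le h1 (den_ne (hy1 _) h0.le)
    refine h2.trans ?_
    have h3 : 0 ≤ 1 - ‖y (φ m)‖ ^ 2 := by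
      have := hy1 (φ m)
      nlinarith [norm_nonneg (y (φ m))]
    have h4 : 1 - ‖F.act (κ ^ z (φ m) * g (φ m)) 0‖ ^ 2 ≤ 1 := by
      nlinarith [norm_nonneg (F.act (κ ^ z (φ m) * g (φ m)) 0)]
    refine mul_le_mul_of_nonneg_left ?_ (sq_nonneg r)
    nlinarith
  have hd0 : Tendsto (fun m => ‖y (φ m) - F.act (κ ^ z (φ m) * g (φ m)) 0‖ ^ 2) atTop (𝓝 0) := by
    have h1 : Tendsto (fun m => r ^ 2 * (1 - ‖y (φ m)‖ ^ 2) / (1 - r ^ 2)) atTop (𝓝 0) := by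
      have h2 := (((hnorm.pow 2).const_sub 1).const_mul (r ^ 2)).div_const (1 - r ^ 2)
      simpa using h2
    refine squeeze_zero (fun m => sq_nonneg _) (fun m => ?_) h1
    rw [le_div_iff₀ hr2]
    exact hdist m
  have hd1 : Tendsto (fun m => ‖y (φ m) - F.act (κ ^ z (φ m) * g (φ m)) 0‖) atTop (𝓝 0) := by
    have h1 := (Real.continuous_sqrt.tendsto 0).comp hd0
    rw [Real.sqrt_zero] at h1
    refine h1.congr fun m => ?_
    exact Real.sqrt_sq (norm_nonneg _)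
  have hd2 : Tendsto (fun m => y (φ m) - F.act (κ ^ z (φ m) * g (φ m)) 0) atTop (𝓝 0) :=
    tendsto_zero_iff_norm_tendsto_zero.2 hd1
  have h1 := hylim.sub hd2
  rw [sub_zero] at h1
  refine h1.congr fun m => ?_
  exact sub_sub_cancel _ _

theorem ht_fin (F : Fuchs Γ) {n : ℕ} {κ : Fin n → Γ} {p q : Fin n → ℂ} (G : Gaps F n κ p q) {r : ℝ}
    (hr : r < 1) : ∃ y > 0, ∀ x : ℂ, ‖x‖ ≤ r → ∀ i g, y ≤ F.ht (p i) (q i) g x := by
  have hi : ∀ i, ∃ y > 0, ∀ x : ℂ, ‖x‖ ≤ r → ∀ g, y ≤ F.ht (p i) (q i) g x := by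
    intro i
    exact LP_fin_one F (G.ar i) (G.gap i) hr
  choose y hy0 hy using hi
  rcases isEmpty_or_nonempty (Fin n) with he | hne
  · exact ⟨1, one_pos, fun x _ i => (he.false i).elim⟩
  · obtain ⟨j, hj⟩ := Finite.exists_min y
    exact ⟨y j, hy0 j, fun x hx i g => (hj i).trans (hy i x hx g)⟩

end TN
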