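import Pool.Agent.H60.PH.CV
import Pool.Agent.H60.PH.IP
import Pool.Agent.H60.PH.SO

/-!
LU (integration by parts on the quotient).  By `ibp` with `f = χ ψ`, `h = E` and the product rule (`dz_mul`)
`∫ χ ψ dz E = - ∫ ψ dz χ E - ∫ χ dz ψ E`.  The last integral is zero: where `χ ≠ 0` we have `F.S ψ = 1`, so it is
`∫ χ dz ψ (F.S ψ) E = ∑ g ∈ t, ∫ χ x * dz ψ x * ψ (act g x) * E x` (`S_eq`, `t` from `fin_supp` with `r' = r`; the factor `dz ψ x` vanishes for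
`‖x‖ > r`).  Put `k y = χ y * dz (ψ ∘ act g⁻¹) y * ψ y * E y`; by `cv` for `g` `∫ k = ∫ ‖dact g x‖² k (act g x)`, and for `y = act g x`:
`dz (ψ ∘ act g⁻¹) y * dact g x = dz ψ x` (`dz_comp` for `ψ = (ψ ∘ act g⁻¹) ∘ act g` near `x`), `E y * conj (dact g x) = E x`,
`‖dact g x‖² = dact g x * conj (dact g x)`, `χ y = χ x`: so the term is `∫ χ y * dz (ψ ∘ act g⁻¹) y * ψ y * E y`.
Sum over `t`: `∑ g ∈ t, dz (ψ ∘ act g⁻¹) y = dz (F.S ψ) y` for `‖y‖ < r'` (`S_eq_inv` on a neighbourhood: use `t` for a slightly larger `r'`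
from the beginning), and `F.S ψ = 1` on the open set `{χ ≠ 0}` of the disc, so `χ y * dz (F.S ψ) y = 0`.
-/

namespace TN
open Metric Set Filter Topology DS MeasureTheory

variable {Γ : Type} [Group Γ]

theorem LU_real {χ : ℂ → ℝ} (hχ : ContDiffOn ℝ 1 χ (ball 0 1)) :
    ContDiffOn ℝ 1 (fun y => ((χ y : ℝ) : ℂ)) (ball 0 1) :=
  Complex.ofRealCLM.contDiff.comp_contDiffOn hχ

theorem LU_dzc {f : ℂ → ℂ} (hf : ContDiffOn ℝ 1 f (ball 0 1)) : ContinuousOn (dz f) (ball 0 1) := by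
  have h : ContDiffOn ℝ ((0 : ℕ) + 1) f (ball 0 1) := by simpa using hf
  exact (dz_smooth isOpen_ball h).1.continuousOn

theorem LU_dz0 {f : ℂ → ℂ} {x : ℂ} (h : ∀ᶠ y in 𝓝 x, f y = 0) : dz f x = 0 := by
  have h1 : f =ᶠ[𝓝 x] fun _ => 0 := h
  rw [(dz_congr h1).1, (dz_const 0 x).1]

theorem LU_inv (F : Fuchs Γ) (g : Γ) {x : ℂ} (hx : ‖x‖ ≤ 1) :
    F.dact g⁻¹ (F.act g x) * F.dact g x = 1 := by
  rw [← dact_mul F g⁻¹ g hx, inv_mul_cancel, dact_one F hx]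

theorem lemU (F : Fuchs Γ) {χ ψ : ℂ → ℝ} {r : ℝ} (hr : r < 1) (hψ : ContDiffOn ℝ 1 ψ (ball 0 1))
    (hψs : ∀ x, r < ‖x‖ → ψ x = 0) (hχ : ContDiffOn ℝ 1 χ (ball 0 1)) (hχi : F.Invt χ)
    (hS : ∀ x ∈ ball (0:ℂ) 1, χ x ≠ 0 → F.S ψ x = 1) {E : ℂ → ℂ} (hE : ContDiffOn ℝ 1 E (ball 0 1))
    (hEe : F.CoEqui E) :
    ∫ x in ball (0:ℂ) 1, ((χ x * ψ x : ℝ) : ℂ) * dz E x =
      - ∫ x in ball (0:ℂ) 1, (ψ x : ℂ) * dz (fun y => ((χ y : ℝ) : ℂ)) x * E x := by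
  classical
  have hχc := LU_real hχ
  have hψc := LU_real hψ
  have hda : ∀ {f : ℂ → ℂ}, ContDiffOn ℝ 1 f (ball 0 1) → ∀ x ∈ ball (0:ℂ) 1,
      DifferentiableAt ℝ f x := fun hf x hx =>
    (hf.differentiableOn one_ne_zero).differentiableAt (isOpen_ball.mem_nhds hx)
  -- integration by parts
  have h1 := ibp (f := fun x => ((χ x * ψ x : ℝ) : ℂ)) hr (LU_real (hχ.mul hψ)) (fun x hx => by
    simp only [hψs x hx, mul_zero, Complex.ofReal_zero]) hE
  rw [h1, neg_inj]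
  have h2 : ∀ x ∈ ball (0:ℂ) 1, dz (fun x => ((χ x * ψ x : ℝ) : ℂ)) x * E x =
      (ψ x : ℂ) * dz (fun y => ((χ y : ℝ) : ℂ)) x * E x +
        (χ x : ℂ) * dz (fun y => ((ψ y : ℝ) : ℂ)) x * E x := by
    intro x hx
    have h3 : (fun x => ((χ x * ψ x : ℝ) : ℂ)) = fun x => ((χ x : ℝ) : ℂ) * ((ψ x : ℝ) : ℂ) := by
      funext y
      push_cast
      rfl
    rw [h3, (dz_mul (hda hχc x hx) (hda hψc x hx)).1]
    ring
  have hout : ∀ x, r < ‖x‖ → ∀ᶠ y in 𝓝 x, ψ y = 0 := by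
    intro x hx
    have h3 : {y : ℂ | r < ‖y‖} ∈ 𝓝 x := (isOpen_lt continuous_const continuous_norm).mem_nhds hx
    filter_upwards [h3] with y hy
    exact hψs y hy
  have hdz0 : ∀ x, r < ‖x‖ → dz (fun y => ((ψ y : ℝ) : ℂ)) x = 0 := by
    intro x hx
    apply LU_dz0
    filter_upwards [hout x hx] with y hy
    rw [hy, Complex.ofReal_zero]
  have i1 : IntegrableOn (fun x => (ψ x : ℂ) * dz (fun y => ((χ y : ℝ) : ℂ)) x * E x)
      (ball 0 1) :=
    integrable_supp ((hψc.continuousOn.mul (LU_dzc hχc)).mul hE.continuousOn) hr fun x hx => by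
      simp only [hψs x hx, Complex.ofReal_zero, zero_mul]
  have i2 : IntegrableOn (fun x => (χ x : ℂ) * dz (fun y => ((ψ y : ℝ) : ℂ)) x * E x)
      (ball 0 1) :=
    integrable_supp ((hχc.continuousOn.mul (LU_dzc hψc)).mul hE.continuousOn) hr fun x hx => by
      simp only [hdz0 x hx, mul_zero, zero_mul]
  rw [setIntegral_congr_fun measurableSet_ball h2, integral_add i1 i2]
  -- the second integral vanishes
  have hrr : max r 0 < 1 := max_lt hr one_pos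
  set r' : ℝ := (1 + max r 0) / 2 with hr'
  have hr'1 : r' < 1 := by rw [hr']; linarith
  have hrr' : r < r' := by
    have := le_max_left r 0
    rw [hr']; linarith
  obtain ⟨t, ht⟩ := fin_supp F hr hr'1
  have h3 : ∀ x ∈ ball (0:ℂ) 1, (χ x : ℂ) * dz (fun y => ((ψ y : ℝ) : ℂ)) x * E x =
      ∑ g ∈ t, (χ x : ℂ) * dz (fun y => ((ψ y : ℝ) : ℂ)) x * (ψ (F.act g x) : ℂ) * E x := by
    intro x hx
    by_cases hxr : r < ‖x‖
    · rw [hdz0 x hxr]
      simp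
    · by_cases hχx : χ x = 0
      · rw [hχx]
        simp
      · have h4 : (1 : ℂ) = ∑ g ∈ t, (ψ (F.act g x) : ℂ) := by
          have h5 := S_eq F hψs ht (x := x) (by linarith [not_lt.1 hxr])
          rw [hS x hx hχx] at h5
          exact_mod_cast h5
        calc (χ x : ℂ) * dz (fun y => ((ψ y : ℝ) : ℂ)) x * E x
            = (χ x : ℂ) * dz (fun y => ((ψ y : ℝ) : ℂ)) x * 1 * E x := by ring
          _ = _ := by
              rw [h4, Finset.mul_sum, Finset.sum_mul]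
  have hcomp : ∀ g, ContDiffOn ℝ 1 (fun y => ((ψ (F.act g y) : ℝ) : ℂ)) (ball 0 1) := by
    intro g
    have h4 : ContDiffOn ℝ 1 (F.act g) (ball 0 1) := act_smooth F g (n := 1)
    exact hψc.comp h4 fun x hx => by
      rw [mem_ball_zero_iff] at hx ⊢
      exact act_lt F g hx
  have h4 : ∀ g, ∫ x in ball (0:ℂ) 1,
      (χ x : ℂ) * dz (fun y => ((ψ y : ℝ) : ℂ)) x * (ψ (F.act g x) : ℂ) * E x =
      ∫ y in ball (0:ℂ) 1, (χ y : ℂ) * dz (fun y => ((ψ (F.act g⁻¹ y) : ℝ) : ℂ)) y * (ψ y : ℂ) *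
        E y := by
    intro g
    rw [cv F g (fun y => (χ y : ℂ) * dz (fun y => ((ψ (F.act g⁻¹ y) : ℝ) : ℂ)) y * (ψ y : ℂ) *
        E y)]
    refine setIntegral_congr_fun measurableSet_ball fun x hx => ?_
    have hx1 : ‖x‖ < 1 := mem_ball_zero_iff.1 hx
    have hgx : F.act g x ∈ ball (0:ℂ) 1 := mem_ball_zero_iff.2 (act_lt F g hx1)
    have e1 : dz (fun y => ((ψ (F.act g⁻¹ y) : ℝ) : ℂ)) (F.act g x) =
        dz (fun y => ((ψ y : ℝ) : ℂ)) x * F.dact g⁻¹ (F.act g x) := by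
      have h5 := (dz_comp (f := fun y => ((ψ y : ℝ) : ℂ)) (g := F.act g⁻¹) (x := F.act g x)
        (g' := F.dact g⁻¹ (F.act g x))
        (by rw [act_inv_act F g hx1.le]; exact hda hψc x hx)
        (act_hasDerivAt F g⁻¹ (mem_ball_zero_iff.1 hgx).le)).1
      rw [act_inv_act F g hx1.le] at h5
      exact h5
    have e2 := LU_inv F g hx1.le
    have e3 := hEe g x hx
    have e4 : ((‖F.dact g x‖ ^ 2 : ℝ) : ℂ) = F.dact g x * (starRingEnd ℂ) (F.dact g x) := by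
      rw [Complex.mul_conj, Complex.normSq_eq_norm_sq]
    show _ = (‖F.dact g x‖ ^ 2) • ((χ (F.act g x) : ℂ) *
      dz (fun y => ((ψ (F.act g⁻¹ y) : ℝ) : ℂ)) (F.act g x) * (ψ (F.act g x) : ℂ) *
        E (F.act g x))
    rw [Complex.real_smul, e4, hχi g x hx, e1, ← e3]
    linear_combination (-(χ x : ℂ) * dz (fun y => ((ψ y : ℝ) : ℂ)) x * (ψ (F.act g x) : ℂ) *
      E (F.act g x) * (starRingEnd ℂ) (F.dact g x)) * e2
  have i3 : ∀ g ∈ t, IntegrableOn (fun x => (χ x : ℂ) * dz (fun y => ((ψ y : ℝ) : ℂ)) x *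
      (ψ (F.act g x) : ℂ) * E x) (ball 0 1) := fun g _ =>
    integrable_supp (((hχc.continuousOn.mul (LU_dzc hψc)).mul (hcomp g).continuousOn).mul
      hE.continuousOn) hr fun x hx => by
        simp only [hdz0 x hx, mul_zero, zero_mul]
  have i4 : ∀ g ∈ t, IntegrableOn (fun y => (χ y : ℂ) *
      dz (fun y => ((ψ (F.act g⁻¹ y) : ℝ) : ℂ)) y * (ψ y : ℂ) * E y) (ball 0 1) := fun g _ =>
    integrable_supp (((hχc.continuousOn.mul (LU_dzc (hcomp g⁻¹))).mul hψc.continuousOn).mul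
      hE.continuousOn) hr fun x hx => by
        simp only [hψs x hx, Complex.ofReal_zero, mul_zero, zero_mul]
  have h5 : ∫ x in ball (0:ℂ) 1, (χ x : ℂ) * dz (fun y => ((ψ y : ℝ) : ℂ)) x * E x = 0 := by
    rw [setIntegral_congr_fun measurableSet_ball h3, integral_finsetSum t i3,
      Finset.sum_congr rfl fun g _ => h4 g, ← integral_finsetSum t i4]
    refine setIntegral_eq_zero_of_forall_eq_zero fun y hy => ?_
    show ∑ g ∈ t, (χ y : ℂ) * dz (fun y => ((ψ (F.act g⁻¹ y) : ℝ) : ℂ)) y * (ψ y : ℂ) * E y = 0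
    by_cases hyr : r < ‖y‖
    · simp [hψs y hyr]
    · by_cases hχy : χ y = 0
      · simp [hχy]
      · have h6 : ∑ g ∈ t, dz (fun y => ((ψ (F.act g⁻¹ y) : ℝ) : ℂ)) y = 0 := by
          rw [← dz_sum t fun g _ => hda (hcomp g⁻¹) y hy]
          have hcχ : ContinuousAt χ y := hχ.continuousOn.continuousAt (isOpen_ball.mem_nhds hy)
          have h7 : ∀ᶠ w in 𝓝 y, χ w ≠ 0 := hcχ.eventually_ne hχy
          have h8 : ∀ᶠ w in 𝓝 y, ‖w‖ < r' :=
            (isOpen_lt continuous_norm continuous_const).mem_nhds (by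
              show ‖y‖ < r'
              linarith [not_lt.1 hyr])
          have h9 : (fun w => ∑ g ∈ t, ((ψ (F.act g⁻¹ w) : ℝ) : ℂ)) =ᶠ[𝓝 y] fun _ => 1 := by
            filter_upwards [h7, h8] with w hw1 hw2
            have h10 := S_eq_inv F hψs ht (x := w) hw2.le
            rw [hS w (mem_ball_zero_iff.2 (by linarith)) hw1] at h10
            exact_mod_cast h10.symm
          rw [(dz_congr h9).1, (dz_const 1 y).1]
        calc ∑ g ∈ t, (χ y : ℂ) * dz (fun y => ((ψ (F.act g⁻¹ y) : ℝ) : ℂ)) y * (ψ y : ℂ) * E y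
            = (χ y : ℂ) * (∑ g ∈ t, dz (fun y => ((ψ (F.act g⁻¹ y) : ℝ) : ℂ)) y) *
                (ψ y : ℂ) * E y := by
              rw [Finset.mul_sum, Finset.sum_mul, Finset.sum_mul]
          _ = 0 := by rw [h6]; ring
  rw [h5, add_zero]

end TN
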