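import Pool.Agent.H60.PH.LP
import Pool.Agent.H60.PH.SO

/-!
PB (the sum over the group of a product function in the strip coordinate).  Let `f = psiI (p i) (q i) τ ρ`.
If all heights at `x` (for the gap `i`) are `≥ π/2 > c` then every term `f (act g x) = τ (..) * ρ (F.ht .. g x)` vanishes.
Let `F.ht (p i) (q i) g x < π/2`.  If a term `f (act h x)` is not zero then `F.ht (p i) (q i) h x < c < π/2`, so `h = κ_i ^ z * g` for some
`z : ℤ` by `ht_disj`.  The map `z ↦ κ_i ^ z * g` is injective (`pow_inj` with `AR.ne_one`), and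
`f (act (κ_i ^ z * g) x) = τ (re (om (act g x)) + z l) * ρ (F.ht (p i) (q i) g x)` (`om_act_zpow`, `act_mul`).  So the sum is
`(∑ᶠ z, τ (.. + z l)) * ρ (F.ht .. g x) = ρ (F.ht .. g x)`.
-/

namespace TN
open Metric Set Filter Topology DS MeasureTheory

variable {Γ : Type} [Group Γ]

theorem S_psiI (F : Fuchs Γ) {n : ℕ} {κ : Fin n → Γ} {p q : Fin n → ℂ} (G : Gaps F n κ p q) (i : Fin n)
    {l : ℝ} (hl : ∀ x ∈ ball (0:ℂ) 1, om (p i) (q i) (F.act (κ i) x) = om (p i) (q i) x + l)
    {τ ρ : ℝ → ℝ} (hτ : Tau l τ) {c : ℝ} (hc : c < Real.pi / 2) (hρ : ∀ t, c ≤ t → ρ t = 0) {x : ℂ}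
    (hx : ‖x‖ < 1) :
    (∀ g, F.ht (p i) (q i) g x < Real.pi / 2 →
      F.S (psiI (p i) (q i) τ ρ) x = ρ (F.ht (p i) (q i) g x)) ∧
    ((∀ g, Real.pi / 2 ≤ F.ht (p i) (q i) g x) → F.S (psiI (p i) (q i) τ ρ) x = 0) := by
  have hκ := G.ar i
  have hval : ∀ g, psiI (p i) (q i) τ ρ (F.act g x)
      = τ (om (p i) (q i) (F.act g x)).re * ρ (F.ht (p i) (q i) g x) := by
    intro g
    unfold psiI
    rw [if_pos (act_lt F g hx)]
    rfl
  refine ⟨fun g hg => ?_, fun h => ?_⟩
  · obtain ⟨-, hz⟩ := om_act_zpow hκ hl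
    have hinj : Function.Injective (fun z : ℤ => κ i ^ z * g) := by
      intro a b hab
      exact pow_inj F (AR.ne_one hκ) (mul_right_cancel hab)
    have hsup : ∀ h, h ∉ Set.range (fun z : ℤ => κ i ^ z * g) →
        psiI (p i) (q i) τ ρ (F.act h x) = 0 := by
      intro h hh
      rw [hval]
      by_cases hc' : c ≤ F.ht (p i) (q i) h x
      · rw [hρ _ hc', mul_zero]
      · exfalso
        apply hh
        have h2 : F.ht (p i) (q i) h x < Real.pi / 2 := by linarith [not_le.1 hc']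
        obtain ⟨-, h3⟩ := ht_disj F G hx hg h2
        obtain ⟨z, h4⟩ := Subgroup.mem_zpowers_iff.1 h3
        exact ⟨z, by simp only [h4, inv_mul_cancel_right]⟩
    have hterm : ∀ z : ℤ, psiI (p i) (q i) τ ρ (F.act (κ i ^ z * g) x)
        = τ ((om (p i) (q i) (F.act g x)).re + z * l) * ρ (F.ht (p i) (q i) g x) := by
      intro z
      rw [hval, ht_kappa F G i (Subgroup.zpow_mem_zpowers (κ i) z) g hx, act_mul F _ _ hx.le,
        (hz z _ (CP_ball_Dpq hκ.np hκ.nq (by simpa using act_lt F g hx))).2]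
      congr 2
      simp
    unfold Fuchs.S
    rw [← finsum_mem_univ, finsum_mem_inter_support_eq _ _ (Set.range (fun z : ℤ => κ i ^ z * g)),
      finsum_mem_range hinj, finsum_congr hterm, ← finsum_mul, hτ.sum, one_mul]
    ext h
    simp only [mem_inter_iff, mem_univ, true_and, Function.mem_support]
    constructor
    · intro h1
      refine ⟨?_, h1⟩
      by_contra h2
      exact h1 (hsup h h2)
    · exact fun h1 => h1.2
  · unfold Fuchs.S
    rw [finsum_congr (g := fun _ => (0:ℝ)), finsum_zero]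
    intro g
    rw [hval, hρ _ (hc.le.trans (h g)), mul_zero]

end TN
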