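import Pool.Agent.H60.PH.PA
import Pool.Agent.H60.PH.PB
import Pool.Agent.H60.PH.PC
import Pool.Agent.H60.PH.ST

/-!
PU (the partition of unity).  `ψ₁` from `exists_psi1`; the functions `psiI` are smooth with support in smaller discs (`psiI_smooth`, `a/2`,
`c`, `R = l i`), take the maximum `r` of finitely many radii.  Sum at a point `x` all of whose heights are `≥ a`: `F.S` is additive
(`S_add`, induction over the finite set of the `i`).  If some height `h = F.ht (p i) (q i) g x` is `< π/2`: then `F.S ψ₁ x = χ₁ x = c₁ h` (`Cut.eq`),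
`F.S (psiI .. i) x = (1 - c₁ h) * d h = 1 - c₁ h` as `h ≥ a`, and for `j ≠ i` all heights are `≥ π/2` (`ht_disj`), so
`F.S (psiI .. j) x = 0`.  If all heights are `≥ π/2` then `χ₁ x = 1` and all `F.S (psiI ..) x = 0`.
-/

namespace TN
open Metric Set Filter Topology DS MeasureTheory

variable {Γ : Type} [Group Γ]

theorem PU_sum (F : Fuchs Γ) {ι : Type} (s : Finset ι) {f : ι → ℂ → ℝ} {r : ℝ} (hr : r < 1)
    (hf : ∀ i, ∀ x, r < ‖x‖ → f i x = 0) {x : ℂ} (hx : x ∈ ball (0:ℂ) 1) :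
    F.S (fun y => ∑ i ∈ s, f i y) x = ∑ i ∈ s, F.S (f i) x := by
  classical
  induction s using Finset.induction_on with
  | empty =>
    simp only [Finset.sum_empty]
    unfold Fuchs.S
    exact finsum_zero
  | insert a s ha ih =>
    have h1 : (fun y => ∑ i ∈ insert a s, f i y) = fun y => f a y + ∑ i ∈ s, f i y := by
      funext y
      rw [Finset.sum_insert ha]
    rw [h1, S_add F hr (hf a) (fun y hy => Finset.sum_eq_zero fun i _ => hf i y hy) hx, ih,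
      Finset.sum_insert ha]

theorem PU_cut {F : Fuchs Γ} {n : ℕ} {p q : Fin n → ℂ} {c : ℝ → ℝ} {χ : ℂ → ℝ} (hχ : Cut F p q c χ)
    {x : ℂ} (hx : x ∈ ball (0:ℂ) 1) {i : Fin n} {g : Γ} (h : F.ht (p i) (q i) g x < Real.pi / 2) :
    χ x = c (F.ht (p i) (q i) g x) := by
  rw [← hχ.invt g x hx]
  exact hχ.near i _ (mem_ball_zero_iff.2 (act_lt F g (mem_ball_zero_iff.1 hx))) h

theorem exists_pu (F : Fuchs Γ) {n : ℕ} {κ : Fin n → Γ} {p q : Fin n → ℂ} (G : Gaps F n κ p q)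
    {l : Fin n → ℝ} (hl0 : ∀ i, 0 < l i)
    (hl : ∀ i, ∀ x ∈ ball (0:ℂ) 1, om (p i) (q i) (F.act (κ i) x) = om (p i) (q i) x + l i)
    {a b c : ℝ} (ha : 0 < a) (hab : a < b) (hbc : b < c) (hc : c < Real.pi / 2) {c₁ d : ℝ → ℝ}
    (hc₁ : Step b c c₁) (hd : Step (a / 2) a d) {τ : Fin n → ℝ → ℝ} (hτ : ∀ i, Tau (l i) (τ i))
    {χ₁ : ℂ → ℝ} (hχ₁ : Cut F p q c₁ χ₁) :
    ∃ (ψ₁ : ℂ → ℝ) (r : ℝ), r < 1 ∧ ContDiff ℝ 2 ψ₁ ∧ (∀ x, 0 ≤ ψ₁ x) ∧ (∀ x, r < ‖x‖ → ψ₁ x = 0) ∧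
      (∀ x ∈ ball (0:ℂ) 1, χ₁ x = 0 → ψ₁ x = 0) ∧ (∀ x ∈ ball (0:ℂ) 1, F.S ψ₁ x = χ₁ x) ∧
      (∀ i, ContDiff ℝ 2 (psiI (p i) (q i) (τ i) (fun t => (1 - c₁ t) * d t))) ∧
      (∀ i, ∀ x, r < ‖x‖ → psiI (p i) (q i) (τ i) (fun t => (1 - c₁ t) * d t) x = 0) ∧
      (∀ i x, 0 ≤ psiI (p i) (q i) (τ i) (fun t => (1 - c₁ t) * d t) x) ∧
      ∀ x ∈ ball (0:ℂ) 1, (∀ i g, a ≤ F.ht (p i) (q i) g x) →
        F.S (fun y => ψ₁ y + ∑ i, psiI (p i) (q i) (τ i) (fun t => (1 - c₁ t) * d t) y) x = 1 := by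
  classical
  have hpi := Real.pi_pos
  obtain ⟨ψ₁, r₁, hr₁, h1, h2, h3, h4, h5⟩ := exists_psi1 F G hc₁ (ha.trans hab) (hbc.trans hc) hχ₁
  have hρs : ContDiff ℝ 2 (fun t => (1 - c₁ t) * d t) := (contDiff_const.sub hc₁.smooth).mul hd.smooth
  have hρ0 : ∀ t, t ≤ a / 2 ∨ c ≤ t → (1 - c₁ t) * d t = 0 := by
    intro t ht
    rcases ht with ht | ht
    · rw [hd.zero t ht, mul_zero]
    · rw [hc₁.one t ht, sub_self, zero_mul]
  have hsm : ∀ i, ContDiff ℝ 2 (psiI (p i) (q i) (τ i) (fun t => (1 - c₁ t) * d t)) ∧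
      ∃ r : ℝ, r < 1 ∧ ∀ x, r < ‖x‖ → psiI (p i) (q i) (τ i) (fun t => (1 - c₁ t) * d t) x = 0 := by
    intro i
    refine psiI_smooth (G.ar i).np (G.ar i).nq (G.ar i).ne (hτ i).smooth hρs (R := l i) (a := a / 2)
      (c := c) (by linarith) (by linarith) (hτ i).supp hρ0
  choose hs1 ri hri1 hri2 using hsm
  obtain ⟨r, hr, hrr₁, hrri⟩ : ∃ r : ℝ, r < 1 ∧ r₁ ≤ r ∧ ∀ i, ri i ≤ r := by
    have hne : (insert r₁ (Finset.univ.image ri)).Nonempty := Finset.insert_nonempty _ _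
    refine ⟨(insert r₁ (Finset.univ.image ri)).max' hne, ?_, ?_, ?_⟩
    · rw [Finset.max'_lt_iff]
      intro y hy
      rw [Finset.mem_insert] at hy
      rcases hy with rfl | hy
      · exact hr₁
      · rw [Finset.mem_image] at hy
        obtain ⟨i, _, rfl⟩ := hy
        exact hri1 i
    · exact Finset.le_max' _ _ (Finset.mem_insert_self _ _)
    · intro i
      exact Finset.le_max' _ _ (Finset.mem_insert_of_mem (Finset.mem_image_of_mem _ (Finset.mem_univ i)))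
  have hψs : ∀ x, r < ‖x‖ → ψ₁ x = 0 := fun x hx => h3 x (hrr₁.trans_lt hx)
  have hps : ∀ i, ∀ x, r < ‖x‖ → psiI (p i) (q i) (τ i) (fun t => (1 - c₁ t) * d t) x = 0 :=
    fun i x hx => hri2 i x ((hrri i).trans_lt hx)
  refine ⟨ψ₁, r, hr, h1, h2, hψs, h4, h5, hs1, hps, ?_, ?_⟩
  · intro i x
    unfold psiI
    split_ifs
    · exact mul_nonneg ((hτ i).nonneg _) (mul_nonneg (sub_nonneg.2 (hc₁.le_one _)) (hd.nonneg _))
    · exact le_rfl
  · intro x hx hhx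
    have hx1 : ‖x‖ < 1 := mem_ball_zero_iff.1 hx
    rw [S_add F hr hψs (fun y hy => Finset.sum_eq_zero fun i _ => hps i y hy) hx,
      PU_sum F Finset.univ hr hps hx, h5 x hx]
    have hρc : ∀ t, c ≤ t → (1 - c₁ t) * d t = 0 := fun t ht => hρ0 t (Or.inr ht)
    have hSp := fun i => S_psiI F G i (hl i) (hτ i) (ρ := fun t => (1 - c₁ t) * d t) hc hρc hx1
    by_cases hex : ∃ i g, F.ht (p i) (q i) g x < Real.pi / 2
    · obtain ⟨i, g, hg⟩ := hex
      rw [PU_cut hχ₁ hx hg, Finset.sum_eq_single i]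
      · rw [(hSp i).1 g hg, hd.one _ (hhx i g)]
        ring
      · intro j _ hj
        refine (hSp j).2 fun h => ?_
        by_contra hlt
        push Not at hlt
        exact hj (ht_disj F G hx1 hg hlt).1.symm
      · intro h
        exact absurd (Finset.mem_univ i) h
    · push Not at hex
      rw [hχ₁.far x hx hex, Finset.sum_eq_zero fun i _ => (hSp i).2 (hex i), add_zero]

end TN
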