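import Pool.Agent.H60.PH.Base

/-!
WR (Wirtinger calculus).  Everything from `fderiv` rules.  `dz_comp`: for `HasDerivAt g g' x` (complex), the real derivative of `g`
is `v ↦ g' * v`, so `fderiv ℝ (f ∘ g) x v = fderiv ℝ f (g x) (g' * v)`; write a real linear map `A` of `ℂ` as
`A w = α w + β conj w` with `α = (A 1 - I A I)/2`, `β = (A 1 + I A I)/2`.  `dz_conj`: `fderiv ℝ (conj ∘ f) x v = conj (fderiv ℝ f x v)`.
`dz_dzb`: symmetry of second derivatives (`ContDiffAt.isSymmSndFDerivAt`, or `second_derivative_symmetric`).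
-/

namespace TN
open Metric Set Filter Topology

private theorem WR_eq (A : ℂ →L[ℝ] ℂ) (w : ℂ) :
    A w = (A 1 - Complex.I * A Complex.I) / 2 * w +
      (A 1 + Complex.I * A Complex.I) / 2 * (starRingEnd ℂ) w := by
  have h1 : A w = (w.re : ℂ) * A 1 + (w.im : ℂ) * A Complex.I := by
    have h2 : w = w.re • (1 : ℂ) + w.im • Complex.I := by
      rw [Complex.real_smul, Complex.real_smul, mul_one]
      exact (Complex.re_add_im w).symm
    conv_lhs => rw [h2, map_add, map_smul, map_smul]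
    rw [Complex.real_smul, Complex.real_smul]
  have h3 : w = (w.re : ℂ) + (w.im : ℂ) * Complex.I := (Complex.re_add_im w).symm
  have h4 : (starRingEnd ℂ) w = (w.re : ℂ) - (w.im : ℂ) * Complex.I := by
    apply Complex.ext <;> simp
  rw [h1, h4]
  conv_rhs => rw [h3]
  simp only [Complex.add_re, Complex.add_im, Complex.ofReal_re, Complex.ofReal_im,
    Complex.mul_re, Complex.mul_im, Complex.I_re, Complex.I_im, mul_zero, mul_one, zero_mul,
    add_zero, sub_zero, zero_add]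
  linear_combination ((w.im : ℂ) * A Complex.I) * Complex.I_mul_I

private theorem WR_of {f : ℂ → ℂ} {x : ℂ} {A : ℂ →L[ℝ] ℂ} (h : HasFDerivAt f A x) :
    dz f x = (A 1 - Complex.I * A Complex.I) / 2 ∧
      dzb f x = (A 1 + Complex.I * A Complex.I) / 2 := by
  rw [dz, dzb, h.fderiv]
  exact ⟨rfl, rfl⟩

private theorem WR_has {f : ℂ → ℂ} {x : ℂ} (h : DifferentiableAt ℝ f x) :
    HasFDerivAt f (fderiv ℝ f x) x := h.hasFDerivAt

theorem wr_expand (f : ℂ → ℂ) (x w : ℂ) :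
    fderiv ℝ f x w = dz f x * w + dzb f x * (starRingEnd ℂ) w :=
  WR_eq _ w

theorem dz_congr {f g : ℂ → ℂ} {x : ℂ} (h : f =ᶠ[𝓝 x] g) : dz f x = dz g x ∧ dzb f x = dzb g x := by
  rw [dz, dz, dzb, dzb, h.fderiv_eq]
  exact ⟨rfl, rfl⟩

theorem dz_const (c x : ℂ) : dz (fun _ => c) x = 0 ∧ dzb (fun _ => c) x = 0 := by
  obtain ⟨h1, h2⟩ := WR_of (hasFDerivAt_const (𝕜 := ℝ) c x)
  rw [h1, h2]
  simp

theorem dz_add {f g : ℂ → ℂ} {x : ℂ} (hf : DifferentiableAt ℝ f x) (hg : DifferentiableAt ℝ g x) :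
    dz (fun y => f y + g y) x = dz f x + dz g x ∧ dzb (fun y => f y + g y) x = dzb f x + dzb g x := by
  obtain ⟨h1, h2⟩ := WR_of (HasFDerivAt.fun_add (WR_has hf) (WR_has hg))
  rw [h1, h2, dz, dz, dzb, dzb]
  simp only [add_apply]
  constructor <;> ring

theorem dz_sub {f g : ℂ → ℂ} {x : ℂ} (hf : DifferentiableAt ℝ f x) (hg : DifferentiableAt ℝ g x) :
    dz (fun y => f y - g y) x = dz f x - dz g x ∧ dzb (fun y => f y - g y) x = dzb f x - dzb g x := by
  obtain ⟨h1, h2⟩ := WR_of (HasFDerivAt.fun_sub (WR_has hf) (WR_has hg))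
  rw [h1, h2, dz, dz, dzb, dzb]
  simp only [sub_apply]
  constructor <;> ring

theorem dz_mul {f g : ℂ → ℂ} {x : ℂ} (hf : DifferentiableAt ℝ f x) (hg : DifferentiableAt ℝ g x) :
    dz (fun y => f y * g y) x = dz f x * g x + f x * dz g x ∧
      dzb (fun y => f y * g y) x = dzb f x * g x + f x * dzb g x := by
  obtain ⟨h1, h2⟩ := WR_of (HasFDerivAt.fun_mul (WR_has hf) (WR_has hg))
  rw [h1, h2, dz, dz, dzb, dzb]
  simp only [add_apply, smul_apply, smul_eq_mul]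
  constructor <;> ring

private theorem WR_diff_div {f g : ℂ → ℂ} {x : ℂ} (hf : DifferentiableAt ℝ f x)
    (hg : DifferentiableAt ℝ g x) (h0 : g x ≠ 0) : DifferentiableAt ℝ (fun y => f y / g y) x := by
  have h1 : DifferentiableAt ℝ (fun y => (g y)⁻¹) x := hg.fun_inv h0
  have h2 := hf.fun_mul h1
  simp only [div_eq_mul_inv]
  exact h2

theorem dz_div {f g : ℂ → ℂ} {x : ℂ} (hf : DifferentiableAt ℝ f x) (hg : DifferentiableAt ℝ g x)
    (h0 : g x ≠ 0) : dz (fun y => f y / g y) x = (dz f x * g x - f x * dz g x) / g x ^ 2 ∧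
      dzb (fun y => f y / g y) x = (dzb f x * g x - f x * dzb g x) / g x ^ 2 := by
  have hq := WR_diff_div hf hg h0
  obtain ⟨h1, h2⟩ := dz_mul hq hg
  have hev : (fun y => f y / g y * g y) =ᶠ[𝓝 x] f := by
    filter_upwards [hg.continuousAt.eventually_ne h0] with y hy
    rw [div_mul_cancel₀ _ hy]
  obtain ⟨h3, h4⟩ := dz_congr hev
  rw [h3] at h1
  rw [h4] at h2
  constructor
  · rw [h1]
    field_simp
    ring
  · rw [h2]
    field_simp
    ring

theorem dz_sum {ι : Type*} (s : Finset ι) {f : ι → ℂ → ℂ} {x : ℂ}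
    (hf : ∀ i ∈ s, DifferentiableAt ℝ (f i) x) :
    dz (fun y => ∑ i ∈ s, f i y) x = ∑ i ∈ s, dz (f i) x := by
  classical
  induction s using Finset.induction_on with
  | empty => simpa using (dz_const 0 x).1
  | insert a s ha ih =>
    simp only [Finset.sum_insert ha]
    have h1 : ∀ i ∈ s, DifferentiableAt ℝ (f i) x := fun i hi => hf i (Finset.mem_insert_of_mem hi)
    have h2 : DifferentiableAt ℝ (fun y => ∑ i ∈ s, f i y) x := DifferentiableAt.fun_sum h1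
    rw [(dz_add (hf a (Finset.mem_insert_self a s)) h2).1, ih h1]

private theorem WR_holo {g : ℂ → ℂ} {x g' : ℂ} (hg : HasDerivAt g g' x) :
    ∃ A : ℂ →L[ℝ] ℂ, HasFDerivAt g A x ∧ ∀ v, A v = v * g' := by
  refine ⟨_, hg.hasFDerivAt.restrictScalars ℝ, fun v => ?_⟩
  simp

theorem dz_holo {g : ℂ → ℂ} {x g' : ℂ} (hg : HasDerivAt g g' x) : dz g x = g' ∧ dzb g x = 0 := by
  obtain ⟨A, hA, hv⟩ := WR_holo hg
  obtain ⟨h1, h2⟩ := WR_of hA
  rw [h1, h2, hv, hv]
  constructor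
  · linear_combination (-g' / 2) * Complex.I_mul_I
  · linear_combination (g' / 2) * Complex.I_mul_I

theorem dz_conj {f : ℂ → ℂ} {x : ℂ} (hf : DifferentiableAt ℝ f x) :
    dz (fun y => (starRingEnd ℂ) (f y)) x = (starRingEnd ℂ) (dzb f x) ∧
      dzb (fun y => (starRingEnd ℂ) (f y)) x = (starRingEnd ℂ) (dz f x) := by
  have h : HasFDerivAt (fun y => (starRingEnd ℂ) (f y))
      ((Complex.conjCLE : ℂ →L[ℝ] ℂ).comp (fderiv ℝ f x)) x :=
    (Complex.conjCLE : ℂ →L[ℝ] ℂ).hasFDerivAt.comp x (WR_has hf)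
  obtain ⟨h1, h2⟩ := WR_of h
  have h3 : ∀ v, ((Complex.conjCLE : ℂ →L[ℝ] ℂ).comp (fderiv ℝ f x)) v =
      (starRingEnd ℂ) (fderiv ℝ f x v) := fun v => rfl
  rw [h1, h2, h3, h3, dz, dzb]
  simp only [map_div₀, map_add, map_sub, map_mul, Complex.conj_I, map_ofNat]
  constructor <;> ring

theorem dz_comp {f g : ℂ → ℂ} {x g' : ℂ} (hf : DifferentiableAt ℝ f (g x)) (hg : HasDerivAt g g' x) :
    dz (fun y => f (g y)) x = dz f (g x) * g' ∧
      dzb (fun y => f (g y)) x = dzb f (g x) * (starRingEnd ℂ) g' := by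
  obtain ⟨A, hA, hv⟩ := WR_holo hg
  have h : HasFDerivAt (fun y => f (g y)) ((fderiv ℝ f (g x)).comp A) x :=
    (WR_has hf).comp x hA
  obtain ⟨h1, h2⟩ := WR_of h
  have h3 : ∀ v, ((fderiv ℝ f (g x)).comp A) v = dz f (g x) * (v * g') +
      dzb f (g x) * (starRingEnd ℂ) (v * g') := by
    intro v
    rw [ContinuousLinearMap.comp_apply, wr_expand, hv]
  rw [h1, h2, h3, h3]
  simp only [map_mul, map_one, Complex.conj_I, one_mul]
  constructor
  · linear_combination (-(dz f (g x) * g') / 2 + (dzb f (g x) * (starRingEnd ℂ) g') / 2) *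
      Complex.I_mul_I
  · linear_combination ((dz f (g x) * g') / 2 - (dzb f (g x) * (starRingEnd ℂ) g') / 2) *
      Complex.I_mul_I

/-- a real function of a real function -/
theorem dz_real {c t : ℝ → ℝ} {s : ℂ → ℝ} {x : ℂ} (hc : DifferentiableAt ℝ c (s x))
    (hs : DifferentiableAt ℝ s x) :
    dz (fun y => ((c (s y) : ℝ) : ℂ)) x = (deriv c (s x) : ℝ) * dz (fun y => ((s y : ℝ) : ℂ)) x ∧
      dzb (fun y => ((c (s y) : ℝ) : ℂ)) x = (deriv c (s x) : ℝ) * dzb (fun y => ((s y : ℝ) : ℂ)) x := by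
  have hs1 : HasFDerivAt s (fderiv ℝ s x) x := hs.hasFDerivAt
  have hc1 : HasFDerivAt (fun y => c (s y)) (deriv c (s x) • fderiv ℝ s x) x :=
    hc.hasDerivAt.comp_hasFDerivAt x hs1
  have h1 : HasFDerivAt (fun y => ((s y : ℝ) : ℂ)) (Complex.ofRealCLM.comp (fderiv ℝ s x)) x :=
    Complex.ofRealCLM.hasFDerivAt.comp x hs1
  have h2 : HasFDerivAt (fun y => ((c (s y) : ℝ) : ℂ))
      (Complex.ofRealCLM.comp (deriv c (s x) • fderiv ℝ s x)) x :=
    Complex.ofRealCLM.hasFDerivAt.comp x hc1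
  obtain ⟨h3, h4⟩ := WR_of h1
  obtain ⟨h5, h6⟩ := WR_of h2
  rw [h3, h4, h5, h6]
  have h7 : ∀ v, Complex.ofRealCLM.comp (fderiv ℝ s x) v = ((fderiv ℝ s x v : ℝ) : ℂ) :=
    fun v => rfl
  have h8 : ∀ v, Complex.ofRealCLM.comp (deriv c (s x) • fderiv ℝ s x) v =
      ((deriv c (s x) : ℝ) : ℂ) * ((fderiv ℝ s x v : ℝ) : ℂ) := by
    intro v
    rw [← Complex.ofReal_mul]
    rfl
  rw [h7, h7, h8, h8]
  constructor <;> ring

theorem dz_im {g : ℂ → ℂ} {x g' : ℂ} (hg : HasDerivAt g g' x) :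
    dz (fun y => (((g y).im : ℝ) : ℂ)) x = g' / (2 * Complex.I) ∧
      dzb (fun y => (((g y).im : ℝ) : ℂ)) x = (Complex.I / 2) * (starRingEnd ℂ) g' := by
  obtain ⟨A, hA, hv⟩ := WR_holo hg
  have h : HasFDerivAt (fun y => (((g y).im : ℝ) : ℂ))
      (Complex.ofRealCLM.comp (Complex.imCLM.comp A)) x :=
    Complex.ofRealCLM.hasFDerivAt.comp x (Complex.imCLM.hasFDerivAt.comp x hA)
  obtain ⟨h1, h2⟩ := WR_of h
  have h3 : ∀ v, (Complex.ofRealCLM.comp (Complex.imCLM.comp A)) v = (((v * g').im : ℝ) : ℂ) := by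
    intro v
    rw [← hv v]
    rfl
  rw [h1, h2, h3, h3]
  have hI := Complex.I_ne_zero
  constructor
  · rw [eq_div_iff (by simpa using hI)]
    apply Complex.ext <;> simp <;> ring
  · apply Complex.ext <;> simp <;> ring

theorem dz_re {g : ℂ → ℂ} {x g' : ℂ} (hg : HasDerivAt g g' x) :
    dz (fun y => (((g y).re : ℝ) : ℂ)) x = g' / 2 ∧
      dzb (fun y => (((g y).re : ℝ) : ℂ)) x = (starRingEnd ℂ) g' / 2 := by
  obtain ⟨A, hA, hv⟩ := WR_holo hg
  have h : HasFDerivAt (fun y => (((g y).re : ℝ) : ℂ))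
      (Complex.ofRealCLM.comp (Complex.reCLM.comp A)) x :=
    Complex.ofRealCLM.hasFDerivAt.comp x (Complex.reCLM.hasFDerivAt.comp x hA)
  obtain ⟨h1, h2⟩ := WR_of h
  have h3 : ∀ v, (Complex.ofRealCLM.comp (Complex.reCLM.comp A)) v = (((v * g').re : ℝ) : ℂ) := by
    intro v
    rw [← hv v]
    rfl
  rw [h1, h2, h3, h3]
  constructor
  · apply Complex.ext <;> simp
  · apply Complex.ext <;> simp

theorem dz_smooth {f : ℂ → ℂ} {U : Set ℂ} (hU : IsOpen U) {n : ℕ} (hf : ContDiffOn ℝ (n + 1) f U) :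
    ContDiffOn ℝ n (dz f) U ∧ ContDiffOn ℝ n (dzb f) U := by
  have h1 : ContDiffOn ℝ n (fderiv ℝ f) U := hf.fderiv_of_isOpen hU le_rfl
  have h2 : ∀ v : ℂ, ContDiffOn ℝ n (fun y => fderiv ℝ f y v) U := fun v =>
    h1.clm_apply contDiffOn_const
  constructor
  · exact ((h2 1).sub (contDiffOn_const.mul (h2 Complex.I))).div_const 2
  · exact ((h2 1).add (contDiffOn_const.mul (h2 Complex.I))).div_const 2

theorem dz_dzb {f : ℂ → ℂ} {x : ℂ} (hf : ContDiffAt ℝ 2 f x) : dz (dzb f) x = dzb (dz f) x := by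
  have h1 : ContDiffAt ℝ 1 (fderiv ℝ f) x := hf.fderiv_right (by norm_num)
  have h2 : HasFDerivAt (fderiv ℝ f) (fderiv ℝ (fderiv ℝ f) x) x :=
    (h1.differentiableAt (by norm_num)).hasFDerivAt
  have h3 : ∀ v : ℂ, HasFDerivAt (fun y => fderiv ℝ f y v)
      ((fderiv ℝ (fderiv ℝ f) x).flip v) x := by
    intro v
    exact (h2.clm_apply (hasFDerivAt_const v x)).congr_fderiv (by ext w <;> simp)
  have hsym : fderiv ℝ (fderiv ℝ f) x 1 Complex.I = fderiv ℝ (fderiv ℝ f) x Complex.I 1 :=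
    (hf.isSymmSndFDerivAt (by simp)) 1 Complex.I
  have hb : DifferentiableAt ℝ (fun y => Complex.I * fderiv ℝ f y Complex.I) x :=
    (differentiableAt_const _).fun_mul (h3 Complex.I).differentiableAt
  have key : ∀ (ε : ℂ), HasFDerivAt (fun y => (fderiv ℝ f y 1 + ε * fderiv ℝ f y Complex.I) / 2)
      ((1 / 2 : ℝ) • ((fderiv ℝ (fderiv ℝ f) x).flip 1 +
        ε • (fderiv ℝ (fderiv ℝ f) x).flip Complex.I)) x := by
    intro ε
    have h4 := ((h3 1).fun_add ((h3 Complex.I).const_mul ε)).const_smul (1 / 2 : ℝ)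
    refine (h4.congr_of_eventuallyEq (Eventually.of_forall fun y => ?_)).congr_fderiv ?_
    · simp only [Pi.smul_apply, Complex.real_smul]
      push_cast
      ring
    · rfl
  have k1 := key Complex.I
  have k2 := key (-Complex.I)
  have e1 : (fun y => (fderiv ℝ f y 1 + Complex.I * fderiv ℝ f y Complex.I) / 2) = dzb f := rfl
  have e2 : (fun y => (fderiv ℝ f y 1 + (-Complex.I) * fderiv ℝ f y Complex.I) / 2) = dz f := by
    funext y
    rw [dz]
    ring
  rw [e1] at k1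
  rw [e2] at k2
  rw [(WR_of k1).1, (WR_of k2).2]
  simp only [smul_apply, add_apply, ContinuousLinearMap.flip_apply, Complex.real_smul,
    smul_eq_mul, hsym]
  push_cast
  ring

/-- `log |·|`-free form: the derivative of `‖y‖ ^ 2` -/
theorem dz_normSq (x : ℂ) : dz (fun y => ((‖y‖ ^ 2 : ℝ) : ℂ)) x = (starRingEnd ℂ) x ∧
    dzb (fun y => ((‖y‖ ^ 2 : ℝ) : ℂ)) x = x := by
  have h1 : (fun y : ℂ => ((‖y‖ ^ 2 : ℝ) : ℂ)) = fun y => y * (starRingEnd ℂ) y := by
    funext y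
    rw [Complex.mul_conj, Complex.normSq_eq_norm_sq]
  have hid : DifferentiableAt ℝ (fun y : ℂ => y) x := differentiableAt_id
  have hcj : DifferentiableAt ℝ (fun y : ℂ => (starRingEnd ℂ) y) x :=
    (Complex.conjCLE : ℂ →L[ℝ] ℂ).differentiableAt
  obtain ⟨h2, h3⟩ := dz_mul hid hcj
  obtain ⟨h4, h5⟩ := dz_holo (hasDerivAt_id x)
  obtain ⟨h6, h7⟩ := dz_conj hid
  have h4' : dz (fun y : ℂ => y) x = 1 := h4
  have h5' : dzb (fun y : ℂ => y) x = 0 := h5
  rw [h1, h2, h3, h6, h7, h4', h5']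
  simp

end TN
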