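import Pool.Agent.H60.PH.CV
import Pool.Agent.H60.PH.EX
import Pool.Agent.H60.PH.PU
import Pool.Agent.H60.PH.WR

/-!
Q1 (the boundary term).  Write `ψI i = psiI (p i) (q i) (τ i) (fun t => (1 - c₁ t) * d t)`.  Let `‖x‖ < 1`.
(1) `ψ₁ x * dz χ₀ x = 0`: if some height at `x` is `< b` then `χ₁ x = c₁ (..) = 0` (`Cut.eq`) and `ψ₁ x = 0`; if all heights are `≥ b` then all heights at
points `x'` near `x` are `≥ a₁` (`ht_lip` with `η = b - a₁`) and `χ₀ x' = 1` (`Cut.eq_one`), so `dz χ₀ x = 0`.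
(2) `ψI i x * dz χ₀ x * E x = ‖omD x‖² * (τ i (re om x) * k (im om x))` with `k y = (1/4) * deriv c₀ y * (2 π w i / l i + cos y / sin y)`: let `y = im (om (p i) (q i) x)`.
If `y ≥ c` both sides vanish (`deriv c₀ y = 0` as `y ≥ a₁`: `step_deriv`).  If `y < c < π/2`: near `x` `χ₀ = c₀ (im om)` (`Cut.near`), so
`dz χ₀ x = deriv c₀ y * omD x / (2 I)` (`dz_real`, `dz_im`); if `deriv c₀ y ≠ 0` then `a ≤ y ≤ a₁ < b` and `a₁ < y₀`, so `c₁ y = 0`, `d y = 1`, and `E x` is
given by `hE`; multiply: `(omD/(2I)) * (I/2) * conj omD = ‖omD‖²/4`.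
(3) `strip_prod`: the integral of (2) is `(∫ τ i) * ∫_0^π k = l i * (1/4) (2 π w i / l i * 1 + J)` (`step_int`, `Tau.int`); `integral_ofReal`, sum over `i`
(each summand is integrable: continuous with compact support, or bounded measurable; in (3) use `integral_finsetSum`).
-/

namespace TN
open Metric Set Filter Topology DS MeasureTheory

variable {Γ : Type} [Group Γ]

theorem Q1_om_cont {p q : ℂ} (hp : ‖p‖ = 1) (hq : ‖q‖ = 1) (hpq : p ≠ q) :
    ContinuousOn (om p q) (ball 0 1) := fun x hx =>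
  (om_hasDerivAt hp hq hpq (by simpa using hx)).continuousAt.continuousWithinAt

theorem Q1_int {p q : ℂ} (hp : ‖p‖ = 1) (hq : ‖q‖ = 1) (hpq : p ≠ q) {l a a₁ : ℝ} {τ k : ℝ → ℝ}
    (hτ : Tau l τ) (ha : 0 < a) (ha₁ : a₁ < Real.pi) (hk : ContinuousOn k (Ioo 0 Real.pi))
    (hk0 : ∀ t, t ≤ a ∨ a₁ ≤ t → k t = 0) :
    IntegrableOn (fun x => ‖omD p q x‖ ^ 2 * (τ (om p q x).re * k (om p q x).im)) (ball 0 1) := by
  have hlt : ∀ x ∈ ball (0:ℂ) 1, ‖x‖ < 1 := fun x hx => by simpa using hx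
  have hcont : ContinuousOn (fun x => ‖omD p q x‖ ^ 2 * (τ (om p q x).re * k (om p q x).im))
      (ball 0 1) := by
    have h1 : ContinuousOn (omD p q) (ball 0 1) := by
      intro x hx
      have hx' := hlt x hx
      have hxp : x ≠ p := by rintro rfl; linarith
      have hxq : x ≠ q := by rintro rfl; linarith
      apply ContinuousAt.continuousWithinAt
      unfold omD
      refine ContinuousAt.div continuousAt_const (by fun_prop) ?_
      exact mul_ne_zero (sub_ne_zero.2 hxq) (sub_ne_zero.2 (Ne.symm hxp))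
    have h2 := Q1_om_cont hp hq hpq
    have h3 : ContinuousOn (fun x => τ (om p q x).re) (ball 0 1) :=
      (hτ.smooth.continuous.comp Complex.continuous_re).comp_continuousOn h2
    have h4 : ContinuousOn (fun x => k (om p q x).im) (ball 0 1) := by
      refine hk.comp (Complex.continuous_im.comp_continuousOn h2) ?_
      intro x hx
      exact om_im_pos hp hq hpq (hlt x hx)
    exact (h1.norm.pow 2).mul (h3.mul h4)
  let K : Set ℂ := (fun z : ℝ × ℝ => (z.1 : ℂ) + (z.2 : ℂ) * Complex.I) '' (Icc (-l) l ×ˢ Icc a a₁)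
  have hK : IsCompact K := (isCompact_Icc.prod isCompact_Icc).image (by fun_prop)
  have hKS : K ⊆ Str := by
    rintro _ ⟨⟨t, y⟩, ⟨ht, hy⟩, rfl⟩
    simp only [Str, mem_ofPred_eq, Complex.add_im, Complex.ofReal_im, Complex.mul_im,
      Complex.ofReal_re, Complex.I_im, Complex.I_re, mul_one, mul_zero, zero_add, add_zero]
    exact ⟨by linarith [hy.1], by linarith [hy.2]⟩
  have hL : IsCompact (omi p q '' K) := hK.image_of_continuousOn ((omi_cont hp hq hpq).mono hKS)
  have hLb : ∀ x ∈ omi p q '' K, ‖x‖ < 1 := by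
    rintro _ ⟨_, ⟨⟨t, y⟩, ⟨ht, hy⟩, rfl⟩, rfl⟩
    apply omi_ball hp hq hpq
    · simp only [Complex.add_im, Complex.ofReal_im, Complex.mul_im,
        Complex.ofReal_re, Complex.I_im, Complex.I_re, mul_one, mul_zero, zero_add, add_zero]
      linarith [hy.1]
    · simp only [Complex.add_im, Complex.ofReal_im, Complex.mul_im,
        Complex.ofReal_re, Complex.I_im, Complex.I_re, mul_one, mul_zero, zero_add, add_zero]
      linarith [hy.2]
  obtain ⟨r, hr, hrb⟩ : ∃ r < 1, ∀ x ∈ omi p q '' K, ‖x‖ ≤ r := by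
    rcases (omi p q '' K).eq_empty_or_nonempty with h | h
    · exact ⟨0, one_pos, by rw [h]; simp⟩
    · obtain ⟨z, hz, hz2⟩ := hL.exists_isMaxOn h continuous_norm.continuousOn
      exact ⟨‖z‖, hLb z hz, fun x hx => hz2 hx⟩
  have h1 : IntegrableOn (fun x => ‖omD p q x‖ ^ 2 * (τ (om p q x).re * k (om p q x).im))
      (closedBall 0 r) :=
    (hcont.mono (closedBall_subset_ball hr)).integrableOn_compact (isCompact_closedBall _ _)
  refine h1.of_forall_sdiff_eq_zero measurableSet_ball fun x hx => ?_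
  have hx1 : ‖x‖ < 1 := hlt x hx.1
  have h2 := hx.2
  rw [mem_closedBall_zero_iff, not_le] at h2
  by_contra h3
  apply absurd h2
  rw [not_lt]
  apply hrb
  have hD : x ∈ Dpq p q := ⟨hx1.le, by rintro rfl; linarith, by rintro rfl; linarith⟩
  refine ⟨om p q x, ⟨((om p q x).re, (om p q x).im), ⟨?_, ?_⟩, ?_⟩, omi_om hp hq hpq hD⟩
  · have : ¬ l ≤ |(om p q x).re| := by
      intro h4
      apply h3
      rw [hτ.supp _ h4]
      ring
    exact abs_le.1 (not_le.1 this).le
  · have : ¬ ((om p q x).im ≤ a ∨ a₁ ≤ (om p q x).im) := by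
      intro h4
      apply h3
      rw [hk0 _ h4]
      ring
    push Not at this
    exact ⟨this.1.le, this.2.le⟩
  · exact Complex.re_add_im _

noncomputable def Q1_k (c₀ : ℝ → ℝ) (A : ℝ) (y : ℝ) : ℝ :=
  1 / 4 * (deriv c₀ y * A + deriv c₀ y * (Real.cos y / Real.sin y))

theorem Q1_cot {a a₁ : ℝ} {c₀ : ℝ → ℝ} (hc₀ : Step a a₁ c₀) (ha : 0 < a) (ha₁ : a₁ < Real.pi) :
    Continuous (fun t => deriv c₀ t) ∧
      ContinuousOn (fun t => deriv c₀ t * (Real.cos t / Real.sin t)) (Icc 0 Real.pi) := by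
  have h1 : Continuous (deriv c₀) := hc₀.smooth.continuous_deriv (by norm_num)
  refine ⟨h1, fun t ht => ?_⟩
  by_cases h2 : t < a
  · have h3 : (fun t => deriv c₀ t * (Real.cos t / Real.sin t)) =ᶠ[𝓝 t] fun _ => 0 := by
      filter_upwards [Iio_mem_nhds h2] with s hs
      rw [step_deriv hc₀ (Or.inl (le_of_lt hs)), zero_mul]
    exact (continuousAt_const.congr h3.symm).continuousWithinAt
  · by_cases h4 : a₁ < t
    · have h3 : (fun t => deriv c₀ t * (Real.cos t / Real.sin t)) =ᶠ[𝓝 t] fun _ => 0 := by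
        filter_upwards [Ioi_mem_nhds h4] with s hs
        rw [step_deriv hc₀ (Or.inr (le_of_lt hs)), zero_mul]
      exact (continuousAt_const.congr h3.symm).continuousWithinAt
    · have h5 : Real.sin t ≠ 0 := (Real.sin_pos_of_pos_of_lt_pi (by linarith) (by linarith)).ne'
      exact (h1.continuousAt.mul
        (Real.continuous_cos.continuousAt.div Real.continuous_sin.continuousAt h5)).continuousWithinAt

theorem boundary_term (F : Fuchs Γ) {n : ℕ} {κ : Fin n → Γ} {p q : Fin n → ℂ} (G : Gaps F n κ p q)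
    {l : Fin n → ℝ} (hl0 : ∀ i, 0 < l i) {w : Fin n → ℤ}
    {a a₁ b c y₀ : ℝ} (ha : 0 < a) (haa : a < a₁) (hay : a₁ < y₀) (hab : a₁ < b) (hbc : b < c)
    (hc : c < Real.pi / 2) {c₀ c₁ d : ℝ → ℝ} (hc₀ : Step a a₁ c₀) (hc₁ : Step b c c₁)
    (hd : Step (a / 2) a d) {τ : Fin n → ℝ → ℝ} (hτ : ∀ i, Tau (l i) (τ i)) {χ₀ χ₁ : ℂ → ℝ}
    (hχ₀ : Cut F p q c₀ χ₀) (hχ₁ : Cut F p q c₁ χ₁) {ψ₁ : ℂ → ℝ}
    (hψ₁ : ∀ x ∈ ball (0:ℂ) 1, χ₁ x = 0 → ψ₁ x = 0) {E : ℂ → ℂ}
    (hE : ∀ i, ∀ x ∈ ball (0:ℂ) 1, (om (p i) (q i) x).im < y₀ →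
      E x = Complex.I / 2 * (starRingEnd ℂ) (omD (p i) (q i) x) *
        ((2 * Real.pi * w i / l i + Real.cos (om (p i) (q i) x).im / Real.sin (om (p i) (q i) x).im : ℝ) : ℂ)) :
    ∫ x in ball (0:ℂ) 1,
      ((ψ₁ x + ∑ i, psiI (p i) (q i) (τ i) (fun t => (1 - c₁ t) * d t) x : ℝ) : ℂ) *
        dz (fun y => ((χ₀ y : ℝ) : ℂ)) x * E x =
      ((∑ i, 1 / 4 * (2 * Real.pi * w i +
        l i * ∫ t in (0:ℝ)..Real.pi, deriv c₀ t * (Real.cos t / Real.sin t)) : ℝ) : ℂ) := by
  have hlt : ∀ x ∈ ball (0:ℂ) 1, ‖x‖ < 1 := fun x hx => by simpa using hx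
  have hpi := Real.pi_pos
  -- step 1
  have s1 : ∀ x ∈ ball (0:ℂ) 1, (ψ₁ x : ℂ) * dz (fun y => ((χ₀ y : ℝ) : ℂ)) x = 0 := by
    intro x hx
    by_cases h : ∃ i g, F.ht (p i) (q i) g x < b
    · obtain ⟨i, g, hg⟩ := h
      have h1 : χ₁ x = 0 := by
        rw [hχ₁.eq (hlt x hx) (i := i) (g := g) (by linarith)]
        exact hc₁.zero _ hg.le
      rw [hψ₁ x hx h1]
      simp
    · push Not at h
      obtain ⟨δ, hδ, H⟩ := ht_lip F G (hlt x hx) (η := b - a₁) (by linarith)
      have h2 : (fun y => ((χ₀ y : ℝ) : ℂ)) =ᶠ[𝓝 x] fun _ => 1 := by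
        filter_upwards [isOpen_ball.mem_nhds hx, ball_mem_nhds x hδ] with y hy hy2
        have h3 : χ₀ y = 1 := by
          refine hχ₀.eq_one hc₀ (hlt y hy) fun i g => ?_
          have h4 := (abs_lt.1 (H y hy hy2 i g)).1
          linarith [h i g]
        rw [h3]
        simp
      rw [(dz_congr h2).1, (dz_const 1 x).1, mul_zero]
  -- step 2
  have s2 : ∀ i, ∀ x ∈ ball (0:ℂ) 1, (psiI (p i) (q i) (τ i) (fun t => (1 - c₁ t) * d t) x : ℂ) *
      dz (fun y => ((χ₀ y : ℝ) : ℂ)) x * E x =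
      ((‖omD (p i) (q i) x‖ ^ 2 * (τ i (om (p i) (q i) x).re *
        Q1_k c₀ (2 * Real.pi * w i / l i) (om (p i) (q i) x).im) : ℝ) : ℂ) := by
    intro i x hx
    have hx1 := hlt x hx
    have hder := om_hasDerivAt (G.ar i).np (G.ar i).nq (G.ar i).ne hx1
    have hpsi : psiI (p i) (q i) (τ i) (fun t => (1 - c₁ t) * d t) x =
        τ i (om (p i) (q i) x).re * ((1 - c₁ (om (p i) (q i) x).im) * d (om (p i) (q i) x).im) := by
      unfold psiI
      rw [if_pos hx1]
    rw [hpsi]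
    by_cases hy : c ≤ (om (p i) (q i) x).im
    · have e1 := hc₁.one _ hy
      have e2 : deriv c₀ (om (p i) (q i) x).im = 0 := step_deriv hc₀ (Or.inr (by linarith))
      simp only [e1, e2, Q1_k]
      simp
    · push Not at hy
      have e0 : (fun y => ((χ₀ y : ℝ) : ℂ)) =ᶠ[𝓝 x]
          fun y => ((c₀ (om (p i) (q i) y).im : ℝ) : ℂ) := by
        have h1 : ∀ᶠ y in 𝓝 x, (om (p i) (q i) y).im < Real.pi / 2 := by
          have h2 : ContinuousAt (fun y => (om (p i) (q i) y).im) x :=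
            Complex.continuous_im.continuousAt.comp hder.continuousAt
          exact h2.eventually (gt_mem_nhds (by linarith))
        filter_upwards [isOpen_ball.mem_nhds hx, h1] with y hy1 hy2
        rw [hχ₀.near i y hy1 hy2]
      have hsd : DifferentiableAt ℝ (fun y => (om (p i) (q i) y).im) x := by
        have h3 : DifferentiableAt ℝ (om (p i) (q i)) x := hder.differentiableAt.restrictScalars ℝ
        exact Complex.imCLM.differentiableAt.comp x h3
      have hcd : DifferentiableAt ℝ c₀ (om (p i) (q i) x).im :=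
        (hc₀.smooth.differentiable (by norm_num)) _
      have e1 : dz (fun y => ((χ₀ y : ℝ) : ℂ)) x = (deriv c₀ (om (p i) (q i) x).im : ℝ) *
          (omD (p i) (q i) x / (2 * Complex.I)) := by
        rw [(dz_congr e0).1,
          (dz_real (c := c₀) (t := fun _ => 0) (s := fun y => (om (p i) (q i) y).im) hcd hsd).1,
          (dz_im hder).1]
        rfl
      rw [e1]
      by_cases h0 : deriv c₀ (om (p i) (q i) x).im = 0
      · simp only [h0, Q1_k]
        simp
      · have h5 : ¬ ((om (p i) (q i) x).im ≤ a ∨ a₁ ≤ (om (p i) (q i) x).im) := fun h =>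
          h0 (step_deriv hc₀ h)
        push Not at h5
        rw [hc₁.zero _ (by linarith), hd.one _ h5.1.le, hE i x hx (by linarith)]
        have h6 : omD (p i) (q i) x * (starRingEnd ℂ) (omD (p i) (q i) x) =
            ((‖omD (p i) (q i) x‖ ^ 2 : ℝ) : ℂ) := by
          rw [Complex.mul_conj, Complex.normSq_eq_norm_sq]
        simp only [sub_zero, mul_one, Q1_k]
        push_cast at h6 ⊢
        rw [← h6]
        have hI : Complex.I ≠ 0 := Complex.I_ne_zero
        field_simp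
        ring
  -- integrability of the summands
  have hcot := Q1_cot hc₀ ha (by linarith)
  have s3 : ∀ i, IntegrableOn (fun x => ‖omD (p i) (q i) x‖ ^ 2 * (τ i (om (p i) (q i) x).re *
        Q1_k c₀ (2 * Real.pi * w i / l i) (om (p i) (q i) x).im)) (ball 0 1) := by
    intro i
    refine Q1_int (G.ar i).np (G.ar i).nq (G.ar i).ne (hτ i) ha (a₁ := a₁) (by linarith) ?_ ?_
    · have h1 := hcot.2.mono Ioo_subset_Icc_self
      have h2 := hcot.1.continuousOn (s := Ioo 0 Real.pi)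
      unfold Q1_k
      exact continuousOn_const.mul ((h2.mul continuousOn_const).add h1)
    · intro t ht
      rw [Q1_k, step_deriv hc₀ ht]
      ring
  have s4 : ∫ x in ball (0:ℂ) 1,
      ((ψ₁ x + ∑ i, psiI (p i) (q i) (τ i) (fun t => (1 - c₁ t) * d t) x : ℝ) : ℂ) *
        dz (fun y => ((χ₀ y : ℝ) : ℂ)) x * E x =
      ∫ x in ball (0:ℂ) 1, ((∑ i, ‖omD (p i) (q i) x‖ ^ 2 * (τ i (om (p i) (q i) x).re *
        Q1_k c₀ (2 * Real.pi * w i / l i) (om (p i) (q i) x).im) : ℝ) : ℂ) := by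
    refine setIntegral_congr_fun measurableSet_ball fun x hx => ?_
    rw [Complex.ofReal_sum, ← Finset.sum_congr rfl fun i _ => s2 i x hx, Complex.ofReal_add,
      add_mul, s1 x hx, zero_add, Complex.ofReal_sum, Finset.sum_mul, Finset.sum_mul]
  rw [s4, integral_complex_ofReal, integral_finsetSum _ fun i _ => s3 i]
  congr 1
  refine Finset.sum_congr rfl fun i _ => ?_
  rw [strip_prod (G.ar i).np (G.ar i).nq (G.ar i).ne (τ i), (hτ i).int]
  unfold Q1_k
  rw [intervalIntegral.integral_const_mul, intervalIntegral.integral_add,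
    intervalIntegral.integral_mul_const, step_int hc₀ ha.le (by linarith)]
  · have := (hl0 i).ne'
    field_simp
  · exact (hcot.1.mul continuous_const).intervalIntegrable _ _
  · apply ContinuousOn.intervalIntegrable
    rw [uIcc_of_le hpi.le]
    exact hcot.2

end TN
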