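import Pool.Agent.H60.PH.CV
import Pool.Agent.H60.PH.IP
import Pool.Agent.H60.PH.SO

/-!
UN (unfolding).  Let `t` be the finite set of `fin_supp` for `r' = r`.  For `‖x‖ ≤ r`: `F.S h x = ∑ g ∈ t, h (act g x)` (`S_eq`) and
`F.S f x = ∑ g ∈ t, f (act g⁻¹ x)` (`S_eq_inv`); for `‖x‖ > r` both integrands vanish.  So the left side is
`∑ g ∈ t, ∫ f x * h (act g x) * T x` (each integrand is continuous on the disc with support in `closedBall 0 r`: `integrable_supp`), the
right side is `∑ g ∈ t, ∫ f (act g⁻¹ y) * h y * T y`.  By `cv` for `g`: `∫ k y = ∫ ‖dact g x‖² k (act g x)` with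
`k y = f (act g⁻¹ y) * h y * T y`: `k (act g x) = f x * h (act g x) * T (act g x)`, and `‖dact g x‖² T (act g x) = T x`.
-/

namespace TN
open Metric Set Filter Topology DS MeasureTheory

variable {Γ : Type} [Group Γ]

theorem unfold_int (F : Fuchs Γ) {f h T : ℂ → ℝ} {r : ℝ} (hr : r < 1)
    (hf : ContinuousOn f (ball 0 1)) (hfs : ∀ x, r < ‖x‖ → f x = 0)
    (hh : ContinuousOn h (ball 0 1)) (hhs : ∀ x, r < ‖x‖ → h x = 0)
    (hT : ContinuousOn T (ball 0 1))
    (hTe : ∀ g, ∀ x ∈ ball (0:ℂ) 1, ‖F.dact g x‖ ^ 2 * T (F.act g x) = T x) :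
    ∫ x in ball (0:ℂ) 1, f x * F.S h x * T x = ∫ x in ball (0:ℂ) 1, F.S f x * h x * T x := by
  obtain ⟨t, ht⟩ := fin_supp F hr hr
  have hb : ∀ g, MapsTo (F.act g) (ball (0:ℂ) 1) (ball (0:ℂ) 1) := fun g x hx =>
    mem_ball_zero_iff.2 (act_lt F g (mem_ball_zero_iff.1 hx))
  have hac : ∀ g, ContinuousOn (F.act g) (ball (0:ℂ) 1) := fun g =>
    (act_cont F g).mono ball_subset_closedBall
  have e1 : ∫ x in ball (0:ℂ) 1, f x * F.S h x * T x =
      ∫ x in ball (0:ℂ) 1, ∑ g ∈ t, f x * h (F.act g x) * T x := by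
    refine setIntegral_congr_fun measurableSet_ball fun x _ => ?_
    show f x * F.S h x * T x = ∑ g ∈ t, f x * h (F.act g x) * T x
    by_cases hx : ‖x‖ ≤ r
    · rw [S_eq F hhs ht hx, Finset.mul_sum, Finset.sum_mul]
    · rw [hfs x (not_le.1 hx)]
      simp only [zero_mul, Finset.sum_const_zero]
  have e2 : ∫ x in ball (0:ℂ) 1, F.S f x * h x * T x =
      ∫ x in ball (0:ℂ) 1, ∑ g ∈ t, f (F.act g⁻¹ x) * h x * T x := by
    refine setIntegral_congr_fun measurableSet_ball fun x _ => ?_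
    show F.S f x * h x * T x = ∑ g ∈ t, f (F.act g⁻¹ x) * h x * T x
    by_cases hx : ‖x‖ ≤ r
    · rw [S_eq_inv F hfs ht hx, Finset.sum_mul, Finset.sum_mul]
    · rw [hhs x (not_le.1 hx)]
      simp only [zero_mul, mul_zero, Finset.sum_const_zero]
  rw [e1, e2, integral_finsetSum, integral_finsetSum]
  · refine Finset.sum_congr rfl fun g _ => ?_
    rw [cv F g (fun y => f (F.act g⁻¹ y) * h y * T y)]
    refine setIntegral_congr_fun measurableSet_ball fun x hx => ?_
    show f x * h (F.act g x) * T x =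
      (‖F.dact g x‖ ^ 2) • (f (F.act g⁻¹ (F.act g x)) * h (F.act g x) * T (F.act g x))
    rw [act_inv_act F g (mem_ball_zero_iff.1 hx).le, ← hTe g x hx, smul_eq_mul]
    ring
  · intro g _
    refine integrable_supp (r := r) (((hf.comp (hac _) (hb _)).mul hh).mul hT) hr fun x hx => ?_
    rw [hhs x hx, mul_zero, zero_mul]
  · intro g _
    refine integrable_supp (r := r) ((hf.mul (hh.comp (hac _) (hb _))).mul hT) hr fun x hx => ?_
    rw [hfs x hx, zero_mul, zero_mul]

end TN
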