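import Pool.Agent.H60.PH.CV
import Pool.Agent.H60.PH.UN
import Pool.Agent.H60.PH.EX
import Pool.Agent.H60.PH.PU

/-!
Q2 (lower bound for the area term).  Write `T x = 1 / (1 - ‖x‖²)²` (invariant density: `act_conf`), `ψI i` as in Q1.
Split the integral of the right side (all terms continuous on the disc with support in `closedBall 0 r`: `integrable_supp`):
`∫ χ₀ ψ₁ T + ∑ i, ∫ χ₀ ψI i T`.
(1) `χ₀ x * ψI i x * T x = ‖omD x‖² * (τ i (re om x) * k (im om x))`, `k y = c₀ y (1 - c₁ y) d y / (4 sin² y)`: both sides vanish if `im om x ≥ c`; otherwise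
`χ₀ x = c₀ (im om x)` (`Cut.near`) and `‖omD x‖² (1 - ‖x‖²)² = 4 sin² (im om x)` (`om_metric`).  `c₀ y * d y = c₀ y` (`d y = 1` for `y ≥ a`).
By `strip_prod` the integral is `l i * (1/4) ∫_0^π c₀ (1 - c₁) / sin² ≥ l i / 4 * ∫_0^b c₀ / sin²` (nonnegative integrand, `c₁ = 0` on `[0,b]`; the
integrand is continuous on `[0, π]` because it vanishes on `[0,a]` and on `[c,π]`).
(2) `∫ χ₀ ψ₁ T ≥ ∫ χ₀ ψ₁ (F.S f₀) T` (nonnegative, `F.S f₀ ≤ 1`) `= ∫ F.S (χ₀ ψ₁) f₀ T` (`unfold_int`) `= ∫ χ₀ χ₁ f₀ T` (`S_mul`, `hS₁`)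
`= ∫ f₀ T`: where `f₀ x ≠ 0` all heights are `≥ π/2`, so `χ₀ x = χ₁ x = 1` (`Cut.far`).
-/

namespace TN
open Metric Set Filter Topology DS MeasureTheory

variable {Γ : Type} [Group Γ]

theorem Q2_T_inv (F : Fuchs Γ) (g : Γ) {x : ℂ} (hx : x ∈ ball (0:ℂ) 1) :
    ‖F.dact g x‖ ^ 2 * (1 / (1 - ‖F.act g x‖ ^ 2) ^ 2) = 1 / (1 - ‖x‖ ^ 2) ^ 2 := by
  have hx1 : ‖x‖ < 1 := mem_ball_zero_iff.1 hx
  have h1 := act_conf F g hx1.le
  have h2 : ‖F.dact g x‖ ≠ 0 := norm_ne_zero_iff.2 (dact_ne F g hx1.le)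
  have h3 : 1 - ‖x‖ ^ 2 ≠ 0 := by nlinarith [norm_nonneg x]
  rw [h1]
  field_simp

theorem Q2_T_cont : ContinuousOn (fun x : ℂ => 1 / (1 - ‖x‖ ^ 2) ^ 2) (ball 0 1) := by
  refine ContinuousOn.div continuousOn_const (by fun_prop) fun x hx => ?_
  have hx1 : ‖x‖ < 1 := mem_ball_zero_iff.1 hx
  have h3 : 1 - ‖x‖ ^ 2 ≠ 0 := by nlinarith [norm_nonneg x]
  exact pow_ne_zero 2 h3

theorem Q2_k_cont {a a₁ b c : ℝ} (ha : 0 < a) (hab : a < b) (hbc : b < c)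
    (hc : c < Real.pi / 2) {c₀ c₁ d : ℝ → ℝ} (hc₀ : Step a a₁ c₀) (hc₁ : Step b c c₁)
    (hd : Step (a / 2) a d) : ContinuousOn
      (fun t => c₀ t * ((1 - c₁ t) * d t) / (4 * Real.sin t ^ 2)) (Icc 0 Real.pi) := by
  intro y hy
  apply ContinuousAt.continuousWithinAt
  have hπ := Real.pi_pos
  by_cases h1 : y < a
  · have h2 : (fun t => c₀ t * ((1 - c₁ t) * d t) / (4 * Real.sin t ^ 2)) =ᶠ[𝓝 y] fun _ => 0 := by
      filter_upwards [gt_mem_nhds h1] with t ht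
      rw [hc₀.zero t ht.le, zero_mul, zero_div]
    exact continuousAt_const.congr h2.symm
  by_cases h3 : c < y
  · have h2 : (fun t => c₀ t * ((1 - c₁ t) * d t) / (4 * Real.sin t ^ 2)) =ᶠ[𝓝 y] fun _ => 0 := by
      filter_upwards [lt_mem_nhds h3] with t ht
      rw [hc₁.one t ht.le, sub_self, zero_mul, mul_zero, zero_div]
    exact continuousAt_const.congr h2.symm
  push Not at h1 h3
  have hsin : 0 < Real.sin y := Real.sin_pos_of_pos_of_lt_pi (by linarith) (by linarith)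
  have e0 := hc₀.smooth.continuous
  have e1 := hc₁.smooth.continuous
  have e2 := hd.smooth.continuous
  refine ContinuousAt.div ?_ ?_ (by positivity)
  · exact (e0.mul ((continuous_const.sub e1).mul e2)).continuousAt
  · exact (continuous_const.mul (Real.continuous_sin.pow 2)).continuousAt

theorem Q2_k_int {a a₁ b c : ℝ} (ha : 0 < a) (hab : a < b) (hbc : b < c)
    (hc : c < Real.pi / 2) {c₀ c₁ d : ℝ → ℝ} (hc₀ : Step a a₁ c₀) (hc₁ : Step b c c₁)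
    (hd : Step (a / 2) a d) :
    1 / 4 * (∫ t in (0:ℝ)..b, c₀ t / Real.sin t ^ 2) ≤
      ∫ t in (0:ℝ)..Real.pi, c₀ t * ((1 - c₁ t) * d t) / (4 * Real.sin t ^ 2) := by
  have hπ := Real.pi_pos
  have hcont := Q2_k_cont ha hab hbc hc hc₀ hc₁ hd
  have hi1 : IntervalIntegrable (fun t => c₀ t * ((1 - c₁ t) * d t) / (4 * Real.sin t ^ 2)) volume 0 b := by
    apply ContinuousOn.intervalIntegrable
    rw [uIcc_of_le (by linarith)]
    exact hcont.mono (Icc_subset_Icc_right (by linarith))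
  have hi2 : IntervalIntegrable (fun t => c₀ t * ((1 - c₁ t) * d t) / (4 * Real.sin t ^ 2)) volume b
      Real.pi := by
    apply ContinuousOn.intervalIntegrable
    rw [uIcc_of_le (by linarith)]
    exact hcont.mono (Icc_subset_Icc_left (by linarith))
  rw [← intervalIntegral.integral_add_adjacent_intervals hi1 hi2]
  have h1 : ∫ t in (0:ℝ)..b, c₀ t * ((1 - c₁ t) * d t) / (4 * Real.sin t ^ 2) =
      1 / 4 * (∫ t in (0:ℝ)..b, c₀ t / Real.sin t ^ 2) := by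
    rw [← intervalIntegral.integral_const_mul]
    apply intervalIntegral.integral_congr
    intro t ht
    rw [uIcc_of_le (by linarith)] at ht
    simp only
    rw [hc₁.zero t ht.2]
    by_cases h2 : t ≤ a
    · rw [hc₀.zero t h2]
      ring
    · push Not at h2
      rw [hd.one t h2.le]
      rw [sub_zero, one_mul, mul_one, div_mul_eq_div_div_swap, mul_comm (1 / 4 : ℝ), ← div_eq_mul_one_div]
  have h2 : 0 ≤ ∫ t in b..Real.pi, c₀ t * ((1 - c₁ t) * d t) / (4 * Real.sin t ^ 2) := by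
    apply intervalIntegral.integral_nonneg (by linarith)
    intro t _
    have e0 := hc₀.nonneg t
    have e1 : 0 ≤ 1 - c₁ t := by linarith [hc₁.le_one t]
    have e2 := hd.nonneg t
    positivity
  rw [h1]
  linarith

theorem Q2_one (F : Fuchs Γ) {n : ℕ} {κ : Fin n → Γ} {p q : Fin n → ℂ} (G : Gaps F n κ p q)
    {l : ℝ} (hl0 : 0 < l) (i : Fin n)
    {a a₁ b c : ℝ} (ha : 0 < a) (hab : a < b) (hbc : b < c)
    (hc : c < Real.pi / 2) {c₀ c₁ d : ℝ → ℝ} (hc₀ : Step a a₁ c₀) (hc₁ : Step b c c₁)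
    (hd : Step (a / 2) a d) {τ : ℝ → ℝ} (hτ : Tau l τ) {χ₀ : ℂ → ℝ}
    (hχ₀ : Cut F p q c₀ χ₀) :
    l / 4 * (∫ t in (0:ℝ)..b, c₀ t / Real.sin t ^ 2) ≤
      ∫ x in ball (0:ℂ) 1, χ₀ x * psiI (p i) (q i) τ (fun t => (1 - c₁ t) * d t) x /
        (1 - ‖x‖ ^ 2) ^ 2 := by
  have hp := (G.ar i).np
  have hq := (G.ar i).nq
  have hpq := (G.ar i).ne
  have h1 : ∫ x in ball (0:ℂ) 1, χ₀ x * psiI (p i) (q i) τ (fun t => (1 - c₁ t) * d t) x /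
        (1 - ‖x‖ ^ 2) ^ 2 = ∫ x in ball (0:ℂ) 1, ‖omD (p i) (q i) x‖ ^ 2 *
        (τ (om (p i) (q i) x).re *
          (fun t => c₀ t * ((1 - c₁ t) * d t) / (4 * Real.sin t ^ 2)) (om (p i) (q i) x).im) := by
    apply setIntegral_congr_fun measurableSet_ball
    intro x hx
    have hx1 : ‖x‖ < 1 := mem_ball_zero_iff.1 hx
    simp only
    unfold psiI
    rw [if_pos hx1]
    beta_reduce
    set y := (om (p i) (q i) x).im with hy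
    by_cases h2 : c ≤ y
    · rw [hc₁.one y h2]
      ring
    · push Not at h2
      rw [hχ₀.near i x hx (by rw [← hy]; linarith), ← hy]
      have h3 := om_metric hp hq hpq hx1
      rw [← hy] at h3
      have h4 : ‖omD (p i) (q i) x‖ ^ 2 * (1 - ‖x‖ ^ 2) ^ 2 = 4 * Real.sin y ^ 2 := by
        have h5 : ‖omD (p i) (q i) x‖ * (1 - ‖x‖ ^ 2) = 2 * Real.sin y := h3
        rw [← mul_pow, h5]
        ring
      have h5 := om_im_pos hp hq hpq hx1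
      rw [← hy] at h5
      have h6 : 0 < Real.sin y := Real.sin_pos_of_pos_of_lt_pi h5.1 h5.2
      have h7 : 1 - ‖x‖ ^ 2 ≠ 0 := by nlinarith [norm_nonneg x]
      rw [← h4]
      have h8 : ‖omD (p i) (q i) x‖ ≠ 0 := by
        intro h9
        rw [h9] at h4
        have : 0 < 4 * Real.sin y ^ 2 := by positivity
        rw [← h4] at this
        simp at this
      field_simp
  have hsp := strip_prod hp hq hpq τ (fun t => c₀ t * ((1 - c₁ t) * d t) / (4 * Real.sin t ^ 2))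
  rw [hτ.int] at hsp
  refine le_trans ?_ (le_of_eq (h1.trans hsp).symm)
  have h2 := Q2_k_int ha hab hbc hc hc₀ hc₁ hd
  have h3 := mul_le_mul_of_nonneg_left h2 hl0.le
  refine le_trans (le_of_eq ?_) h3
  ring

theorem Q2_two (F : Fuchs Γ) {n : ℕ} {p q : Fin n → ℂ}
    {c₀ c₁ : ℝ → ℝ} {χ₀ χ₁ : ℂ → ℝ}
    (hχ₀ : Cut F p q c₀ χ₀) (hχ₁ : Cut F p q c₁ χ₁) {ψ₁ : ℂ → ℝ} {r : ℝ} (hr : r < 1)
    (hψc : ContDiff ℝ 2 ψ₁) (hψ0 : ∀ x, 0 ≤ ψ₁ x) (hψs : ∀ x, r < ‖x‖ → ψ₁ x = 0)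
    (hS₁ : ∀ x ∈ ball (0:ℂ) 1, F.S ψ₁ x = χ₁ x)
    {f₀ : ℂ → ℝ} (hf₀ : Continuous f₀) (hfs : ∀ x, r < ‖x‖ → f₀ x = 0)
    (hfS : ∀ x ∈ ball (0:ℂ) 1, F.S f₀ x ≤ 1)
    (hfc : ∀ x ∈ ball (0:ℂ) 1, f₀ x ≠ 0 → ∀ i g, Real.pi / 2 ≤ F.ht (p i) (q i) g x) :
    ∫ x in ball (0:ℂ) 1, f₀ x / (1 - ‖x‖ ^ 2) ^ 2 ≤
      ∫ x in ball (0:ℂ) 1, χ₀ x * ψ₁ x / (1 - ‖x‖ ^ 2) ^ 2 := by
  have hχc : ContinuousOn χ₀ (ball 0 1) := hχ₀.smooth.continuousOn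
  have hfc1 : ContinuousOn (fun x => χ₀ x * ψ₁ x) (ball 0 1) := hχc.mul hψc.continuous.continuousOn
  have hfs1 : ∀ x, r < ‖x‖ → χ₀ x * ψ₁ x = 0 := fun x hx => by rw [hψs x hx, mul_zero]
  have hSc : ContinuousOn (F.S f₀) (ball 0 1) := by
    have h1 := S_smooth F hr hfs (n := 0) (by
      rw [Nat.cast_zero, contDiffOn_zero]
      exact hf₀.continuousOn)
    rw [Nat.cast_zero, contDiffOn_zero] at h1
    exact h1
  have hun := unfold_int F (f := fun x => χ₀ x * ψ₁ x) (h := f₀)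
    (T := fun x => 1 / (1 - ‖x‖ ^ 2) ^ 2) hr hfc1 hfs1 hf₀.continuousOn hfs Q2_T_cont
    (fun g x hx => Q2_T_inv F g hx)
  have h1 : ∫ x in ball (0:ℂ) 1, F.S (fun x => χ₀ x * ψ₁ x) x * f₀ x * (1 / (1 - ‖x‖ ^ 2) ^ 2) =
      ∫ x in ball (0:ℂ) 1, f₀ x / (1 - ‖x‖ ^ 2) ^ 2 := by
    apply setIntegral_congr_fun measurableSet_ball
    intro x hx
    simp only
    rw [S_mul F hχ₀.invt ψ₁ hx, hS₁ x hx]
    by_cases h2 : f₀ x = 0
    · rw [h2]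
      ring
    · have h3 := hfc x hx h2
      rw [hχ₀.far x hx h3, hχ₁.far x hx h3]
      ring
  rw [← h1, ← hun]
  have hint1 : IntegrableOn (fun x => χ₀ x * ψ₁ x * F.S f₀ x * (1 / (1 - ‖x‖ ^ 2) ^ 2)) (ball 0 1) :=
    integrable_supp ((hfc1.mul hSc).mul Q2_T_cont) hr fun x hx => by
      rw [hψs x hx, mul_zero, zero_mul, zero_mul]
  have hint2 : IntegrableOn (fun x => χ₀ x * ψ₁ x / (1 - ‖x‖ ^ 2) ^ 2) (ball 0 1) := by
    have h2 := integrable_supp (hfc1.mul Q2_T_cont) hr fun x hx => by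
      simp only [Pi.mul_apply]
      rw [hψs x hx, mul_zero, zero_mul]
    refine h2.congr_fun (fun x _ => ?_) measurableSet_ball
    simp only [Pi.mul_apply]
    ring
  refine setIntegral_mono_on hint1 hint2 measurableSet_ball fun x hx => ?_
  have hx1 : ‖x‖ < 1 := mem_ball_zero_iff.1 hx
  have e1 : 0 ≤ χ₀ x * ψ₁ x := mul_nonneg (hχ₀.nonneg x hx) (hψ0 x)
  have e2 : 0 ≤ 1 / (1 - ‖x‖ ^ 2) ^ 2 := by positivity
  have e3 := hfS x hx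
  have e4 : χ₀ x * ψ₁ x * F.S f₀ x ≤ χ₀ x * ψ₁ x := mul_le_of_le_one_right e1 e3
  rw [div_eq_mul_one_div (χ₀ x * ψ₁ x)]
  exact mul_le_mul_of_nonneg_right e4 e2

theorem lower_bound (F : Fuchs Γ) {n : ℕ} {κ : Fin n → Γ} {p q : Fin n → ℂ} (G : Gaps F n κ p q)
    {l : Fin n → ℝ} (hl0 : ∀ i, 0 < l i)
    {a a₁ b c : ℝ} (ha : 0 < a) (haa : a < a₁) (hab : a₁ < b) (hbc : b < c)
    (hc : c < Real.pi / 2) {c₀ c₁ d : ℝ → ℝ} (hc₀ : Step a a₁ c₀) (hc₁ : Step b c c₁)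
    (hd : Step (a / 2) a d) {τ : Fin n → ℝ → ℝ} (hτ : ∀ i, Tau (l i) (τ i)) {χ₀ χ₁ : ℂ → ℝ}
    (hχ₀ : Cut F p q c₀ χ₀) (hχ₁ : Cut F p q c₁ χ₁) {ψ₁ : ℂ → ℝ} {r : ℝ} (hr : r < 1)
    (hψc : ContDiff ℝ 2 ψ₁) (hψ0 : ∀ x, 0 ≤ ψ₁ x) (hψs : ∀ x, r < ‖x‖ → ψ₁ x = 0)
    (hS₁ : ∀ x ∈ ball (0:ℂ) 1, F.S ψ₁ x = χ₁ x)
    (hIc : ∀ i, ContDiff ℝ 2 (psiI (p i) (q i) (τ i) (fun t => (1 - c₁ t) * d t)))
    (hIs : ∀ i, ∀ x, r < ‖x‖ → psiI (p i) (q i) (τ i) (fun t => (1 - c₁ t) * d t) x = 0)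
    {f₀ : ℂ → ℝ} (hf₀ : Continuous f₀) (hf0 : ∀ x, 0 ≤ f₀ x) (hfs : ∀ x, r < ‖x‖ → f₀ x = 0)
    (hfS : ∀ x ∈ ball (0:ℂ) 1, F.S f₀ x ≤ 1)
    (hfc : ∀ x ∈ ball (0:ℂ) 1, f₀ x ≠ 0 → ∀ i g, Real.pi / 2 ≤ F.ht (p i) (q i) g x) :
    ∑ i, l i / 4 * (∫ t in (0:ℝ)..b, c₀ t / Real.sin t ^ 2) +
        ∫ x in ball (0:ℂ) 1, f₀ x / (1 - ‖x‖ ^ 2) ^ 2 ≤
      ∫ x in ball (0:ℂ) 1, χ₀ x *
        (ψ₁ x + ∑ i, psiI (p i) (q i) (τ i) (fun t => (1 - c₁ t) * d t) x) / (1 - ‖x‖ ^ 2) ^ 2 := by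
  have hχc : ContinuousOn χ₀ (ball 0 1) := hχ₀.smooth.continuousOn
  have hgen : ∀ ψ : ℂ → ℝ, Continuous ψ → (∀ x, r < ‖x‖ → ψ x = 0) →
      IntegrableOn (fun x => χ₀ x * ψ x / (1 - ‖x‖ ^ 2) ^ 2) (ball 0 1) := by
    intro ψ hψ hψ'
    have h2 := integrable_supp ((hχc.mul hψ.continuousOn).mul Q2_T_cont) hr fun x hx => by
      simp only [Pi.mul_apply]
      rw [hψ' x hx, mul_zero, zero_mul]
    refine h2.congr_fun (fun x _ => ?_) measurableSet_ball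
    simp only [Pi.mul_apply]
    ring
  have h1 : ∫ x in ball (0:ℂ) 1, χ₀ x *
        (ψ₁ x + ∑ i, psiI (p i) (q i) (τ i) (fun t => (1 - c₁ t) * d t) x) / (1 - ‖x‖ ^ 2) ^ 2 =
      (∫ x in ball (0:ℂ) 1, χ₀ x * ψ₁ x / (1 - ‖x‖ ^ 2) ^ 2) +
        ∑ i, ∫ x in ball (0:ℂ) 1, χ₀ x * psiI (p i) (q i) (τ i) (fun t => (1 - c₁ t) * d t) x /
          (1 - ‖x‖ ^ 2) ^ 2 := by
    rw [← integral_finsetSum _ (fun i _ => hgen _ (hIc i).continuous (hIs i)),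
      ← integral_add (hgen _ hψc.continuous hψs)
        (integrable_finsetSum _ (fun i _ => hgen _ (hIc i).continuous (hIs i)))]
    apply setIntegral_congr_fun measurableSet_ball
    intro x _
    simp only
    rw [mul_add, add_div, Finset.mul_sum, Finset.sum_div]
  rw [h1, add_comm]
  refine add_le_add (Q2_two F hχ₀ hχ₁ hr hψc hψ0 hψs hS₁ hf₀ hfs hfS hfc)
    (Finset.sum_le_sum fun i _ => ?_)
  exact Q2_one F G (hl0 i) i ha (by linarith) hbc hc hc₀ hc₁ hd (hτ i) hχ₀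

end TN
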