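import Pool.Agent.H60.PH.Q1
import Pool.Agent.H60.PH.Q2
import Pool.Agent.H60.PH.LU
import Pool.Agent.H60.PH.CR

/-!
Q3 (there is no such form).  `f₀` from `exists_f0`, `a₀ = ∫ f₀/(1-‖x‖²)² > 0`.  `a₁ = min (y₀/2) 1 `, `a = a₁/2`, `c₀` a step between `a` and `a₁`, `d` between `a/2` and `a`,
`J = ∫_0^π c₀' cot`.  Choose `b ∈ (a₁, π/2)` with `(∑ l i / 4) * cot b < a₀` (`cot b → 0` for `b → π/2`), `c = (b + π/2)/2`, `c₁` between `b` and `c`.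
`χ₀`, `χ₁` from `exists_cut`, `τ i` from `exists_tau`, `ψ₁`, `r` from `exists_pu`; `ψ = ψ₁ + ∑ ψI i`; enlarge `r` to be a common radius with `f₀`.
`lemU` (`χ = χ₀`, `ψ`): `∫ χ₀ ψ dz E = - ∫ ψ dz χ₀ E = - ∑ (1/4)(2 π w i + l i J)` (`boundary_term`); real parts: `∫ χ₀ ψ/(1-‖x‖²)² ≤ - re ∫ χ₀ ψ dz E = ∑ (1/4)(2πw i + l i J)`.
`lower_bound` and `cot_ibp`: `∑ l i/4 (J - cot b) + a₀ ≤ ∑ (1/4)(2 π w i + l i J)`, so `a₀ ≤ ∑ l i/4 cot b + (π/2) ∑ w i < a₀`.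
-/

namespace TN
open Metric Set Filter Topology DS MeasureTheory

variable {Γ : Type} [Group Γ]

/-- choice of `b` -/
theorem Q3_choose {L a₀ a₁ : ℝ} (ha₀ : 0 < a₀) (ha₁ : a₁ < Real.pi / 2) :
    ∃ b : ℝ, a₁ < b ∧ b < Real.pi / 2 ∧ L * (Real.cos b / Real.sin b) < a₀ := by
  have hc : ContinuousAt (fun b : ℝ => L * (Real.cos b / Real.sin b)) (Real.pi / 2) := by
    apply ContinuousAt.mul continuousAt_const
    apply ContinuousAt.div Real.continuous_cos.continuousAt Real.continuous_sin.continuousAt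
    rw [Real.sin_pi_div_two]; exact one_ne_zero
  have h0 : (fun b : ℝ => L * (Real.cos b / Real.sin b)) (Real.pi / 2) < a₀ := by
    simp only [Real.cos_pi_div_two, Real.sin_pi_div_two]
    simpa using ha₀
  have hev : ∀ᶠ b in 𝓝 (Real.pi / 2), L * (Real.cos b / Real.sin b) < a₀ :=
    hc.eventually (gt_mem_nhds h0)
  have hev2 : ∀ᶠ b in 𝓝 (Real.pi / 2), a₁ < b := lt_mem_nhds ha₁
  have hev3 : ∃ᶠ b in 𝓝 (Real.pi / 2), b < Real.pi / 2 := by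
    rw [frequently_iff]
    intro U hU
    obtain ⟨ε, hε, hU'⟩ := Metric.mem_nhds_iff.1 hU
    refine ⟨Real.pi / 2 - ε / 2, hU' ?_, by linarith⟩
    rw [mem_ball, Real.dist_eq]
    rw [show Real.pi / 2 - ε / 2 - Real.pi / 2 = -(ε / 2) by ring, abs_neg, abs_of_pos (by linarith)]
    linarith
  obtain ⟨b, hb, h2, h3⟩ := (hev3.and_eventually (hev2.and hev)).exists
  exact ⟨b, h2, hb, h3⟩

theorem no_form (F : Fuchs Γ) (hN : F.Nonel) {n : ℕ} {κ : Fin n → Γ} {p q : Fin n → ℂ}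
    (G : Gaps F n κ p q) {l : Fin n → ℝ} (hl0 : ∀ i, 0 < l i)
    (hl : ∀ i, ∀ x ∈ ball (0:ℂ) 1, om (p i) (q i) (F.act (κ i) x) = om (p i) (q i) x + l i)
    {w : Fin n → ℤ} (hw : ∀ i, w i ≤ 0) {y₀ : ℝ} (hy₀ : 0 < y₀) {E : ℂ → ℂ}
    (hE1 : ContDiffOn ℝ 1 E (ball 0 1)) (hEe : F.CoEqui E)
    (hEd : ∀ x ∈ ball (0:ℂ) 1, (dz E x).re ≤ -1 / (1 - ‖x‖ ^ 2) ^ 2)
    (hEc : ∀ i, ∀ x ∈ ball (0:ℂ) 1, (om (p i) (q i) x).im < y₀ →
      E x = Complex.I / 2 * (starRingEnd ℂ) (omD (p i) (q i) x) *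
        ((2 * Real.pi * w i / l i + Real.cos (om (p i) (q i) x).im / Real.sin (om (p i) (q i) x).im : ℝ) : ℂ)) :
    False := by
  have hpi := Real.pi_gt_three
  obtain ⟨f₀, rf, hrf, hf₀, hf0, hfs, hfS, hfc, hfpos⟩ := exists_f0 F hN G
  set a₀ := ∫ x in ball (0:ℂ) 1, f₀ x / (1 - ‖x‖ ^ 2) ^ 2 with ha₀
  set a₁ := min (y₀ / 2) 1 with ha₁
  have ha₁0 : 0 < a₁ := lt_min (by linarith) one_pos
  have ha₁y : a₁ < y₀ := lt_of_le_of_lt (min_le_left _ _) (by linarith)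
  have ha₁1 : a₁ ≤ 1 := min_le_right _ _
  set a := a₁ / 2 with ha
  have ha0 : 0 < a := by positivity
  have haa : a < a₁ := by linarith
  obtain ⟨b, hab, hb2, hbL⟩ := Q3_choose (L := ∑ i, l i / 4) hfpos (a₁ := a₁) (by linarith)
  set c := (b + Real.pi / 2) / 2 with hc
  have hbc : b < c := by linarith
  have hc2 : c < Real.pi / 2 := by linarith
  obtain ⟨c₀, hc₀⟩ := exists_step haa
  obtain ⟨c₁, hc₁⟩ := exists_step hbc
  obtain ⟨d, hd⟩ := exists_step (show a / 2 < a by linarith)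
  obtain ⟨χ₀, hχ₀⟩ := exists_cut F G hc₀ (by linarith)
  obtain ⟨χ₁, hχ₁⟩ := exists_cut F G hc₁ hc2
  choose τ hτ using fun i => exists_tau (hl0 i)
  obtain ⟨ψ₁, r, hr, hψc, hψ0, hψs, hψχ, hψS, hIc, hIs, hI0, hPU⟩ :=
    exists_pu F G hl0 hl ha0 (show a < b by linarith) hbc hc2 hc₁ hd hτ hχ₁
  set R := max r rf with hR
  have hR1 : R < 1 := max_lt hr hrf
  set ψ : ℂ → ℝ := fun y => ψ₁ y + ∑ i, psiI (p i) (q i) (τ i) (fun t => (1 - c₁ t) * d t) y with hψ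
  have hψsm : ContDiff ℝ 1 ψ := by
    apply ContDiff.add (hψc.of_le (by norm_num))
    exact ContDiff.sum fun i _ => (hIc i).of_le (by norm_num)
  have hψsupp : ∀ x, R < ‖x‖ → ψ x = 0 := by
    intro x hx
    have hx' : r < ‖x‖ := lt_of_le_of_lt (le_max_left _ _) hx
    simp only [hψ]
    rw [hψs x hx', zero_add]
    exact Finset.sum_eq_zero fun i _ => hIs i x hx'
  have hχ₀1 : ContDiffOn ℝ 1 χ₀ (ball 0 1) := hχ₀.smooth.of_le (by norm_num)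
  have hS : ∀ x ∈ ball (0:ℂ) 1, χ₀ x ≠ 0 → F.S ψ x = 1 := by
    intro x hx h0
    apply hPU x hx
    intro i g
    exact (hχ₀.ne_zero hc₀ (by linarith) (by simpa using hx) h0 i g).le
  have hLU := lemU F hR1 hψsm.contDiffOn hψsupp hχ₀1 hχ₀.invt hS hE1 hEe
  have hBT := boundary_term F G hl0 (w := w) ha0 haa ha₁y hab hbc hc2 hc₀ hc₁ hd hτ hχ₀ hχ₁ hψχ hEc
  have hLB := lower_bound F G hl0 ha0 haa hab hbc hc2 hc₀ hc₁ hd hτ hχ₀ hχ₁ hR1 hψc hψ0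
    (fun x hx => hψs x (lt_of_le_of_lt (le_max_left _ _) hx)) hψS hIc
    (fun i x hx => hIs i x (lt_of_le_of_lt (le_max_left _ _) hx)) hf₀ hf0
    (fun x hx => hfs x (lt_of_le_of_lt (le_max_right _ _) hx)) hfS hfc
  set J := ∫ t in (0:ℝ)..Real.pi, deriv c₀ t * (Real.cos t / Real.sin t) with hJ
  -- real parts
  have hdzE : ContinuousOn (dz E) (ball 0 1) := by
    have h1 : ContDiffOn ℝ ((0:ℕ) + 1) E (ball 0 1) := by
      simpa using hE1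
    exact (dz_smooth isOpen_ball h1).1.continuousOn
  have hχc : ContinuousOn χ₀ (ball 0 1) := hχ₀1.continuousOn
  have hψcont : Continuous ψ := hψsm.continuous
  have hψnn : ∀ x, 0 ≤ ψ x := fun x => add_nonneg (hψ0 x) (Finset.sum_nonneg fun i _ => hI0 i x)
  have hcont1 : ContinuousOn (fun x => ((χ₀ x * ψ x : ℝ) : ℂ) * dz E x) (ball 0 1) :=
    (Complex.continuous_ofReal.comp_continuousOn (hχc.mul hψcont.continuousOn)).mul hdzE
  have hint1 : IntegrableOn (fun x => ((χ₀ x * ψ x : ℝ) : ℂ) * dz E x) (ball 0 1) := by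
    refine integrable_supp hcont1 hR1 ?_
    intro x hx
    rw [hψsupp x hx]; simp
  have hTc : ContinuousOn (fun x : ℂ => (1 - ‖x‖ ^ 2) ^ 2) (ball 0 1) := by fun_prop
  have hTne : ∀ x ∈ ball (0:ℂ) 1, (1 - ‖x‖ ^ 2) ^ 2 ≠ 0 := by
    intro x hx
    have hx1 : ‖x‖ < 1 := by simpa using hx
    have : 0 < 1 - ‖x‖ ^ 2 := by nlinarith [norm_nonneg x]
    positivity
  have hint2 : IntegrableOn (fun x : ℂ => χ₀ x * ψ x / (1 - ‖x‖ ^ 2) ^ 2) (ball 0 1) := by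
    refine integrable_supp ((hχc.mul hψcont.continuousOn).div hTc hTne) hR1 ?_
    intro x hx
    rw [hψsupp x hx]; simp
  have hre : (∫ x in ball (0:ℂ) 1, ((χ₀ x * ψ x : ℝ) : ℂ) * dz E x).re ≤
      - ∫ x in ball (0:ℂ) 1, χ₀ x * ψ x / (1 - ‖x‖ ^ 2) ^ 2 := by
    have h1 : (∫ x in ball (0:ℂ) 1, ((χ₀ x * ψ x : ℝ) : ℂ) * dz E x).re =
        ∫ x in ball (0:ℂ) 1, (((χ₀ x * ψ x : ℝ) : ℂ) * dz E x).re := by
      have := (Complex.reCLM.integral_comp_comm hint1).symm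
      exact this
    rw [h1, ← integral_neg]
    apply setIntegral_mono_on
    · exact Complex.reCLM.integrable_comp hint1
    · exact hint2.neg
    · exact measurableSet_ball
    · intro x hx
      rw [Complex.re_ofReal_mul]
      have h2 := hEd x hx
      have h3 : 0 ≤ χ₀ x * ψ x := mul_nonneg (hχ₀.nonneg x hx) (hψnn x)
      have h4 := mul_le_mul_of_nonneg_left h2 h3
      calc χ₀ x * ψ x * (dz E x).re ≤ χ₀ x * ψ x * (-1 / (1 - ‖x‖ ^ 2) ^ 2) := h4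
        _ = -(χ₀ x * ψ x / (1 - ‖x‖ ^ 2) ^ 2) := by ring
  rw [hLU] at hre
  have hBT' : ∫ x in ball (0:ℂ) 1, (ψ x : ℂ) * dz (fun y => ((χ₀ y : ℝ) : ℂ)) x * E x =
      ((∑ i, 1 / 4 * (2 * Real.pi * w i + l i * J) : ℝ) : ℂ) := hBT
  rw [hBT', ← Complex.ofReal_neg, Complex.ofReal_re] at hre
  have hcot := cot_ibp hc₀ ha0 haa (show a₁ ≤ b by linarith) (by linarith)
  rw [← hJ] at hcot
  have hLB' : ∑ i, l i / 4 * (∫ t in (0:ℝ)..b, c₀ t / Real.sin t ^ 2) + a₀ ≤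
      ∫ x in ball (0:ℂ) 1, χ₀ x * ψ x / (1 - ‖x‖ ^ 2) ^ 2 := hLB
  rw [hcot] at hLB'
  have hsum1 : ∑ i, l i / 4 * (J - Real.cos b / Real.sin b) =
      (∑ i, l i / 4) * (J - Real.cos b / Real.sin b) := by rw [Finset.sum_mul]
  have hsum2 : ∑ i, 1 / 4 * (2 * Real.pi * w i + l i * J) =
      Real.pi / 2 * ∑ i, (w i : ℝ) + (∑ i, l i / 4) * J := by
    rw [Finset.mul_sum, Finset.sum_mul, ← Finset.sum_add_distrib]
    apply Finset.sum_congr rfl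
    intro i _
    ring
  rw [hsum1] at hLB'
  rw [hsum2] at hre
  have hwsum : ∑ i, (w i : ℝ) ≤ 0 := Finset.sum_nonpos fun i _ => by exact_mod_cast hw i
  have hpw : Real.pi / 2 * ∑ i, (w i : ℝ) ≤ 0 := mul_nonpos_of_nonneg_of_nonpos (by positivity) hwsum
  have h5 : (∑ i, l i / 4) * (J - Real.cos b / Real.sin b) =
      (∑ i, l i / 4) * J - (∑ i, l i / 4) * (Real.cos b / Real.sin b) := by ring
  rw [h5] at hLB'
  linarith

end TN
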