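import Pool.Agent.H60.PH.Base

/-!
VF (the vector field `vf H x = (H x - x)(1 - ‖x‖²)/(1 - conj x * H x)` of a map commuting with the group).
For `x` in the disc `‖conj x * H x‖ < 1`, the denominator has positive real part.  `vf_equi`: `H (act g x) = act g (H x)`;
`mob_sub`: `act g (H x) - act g x = u (1 - ‖b‖²)(H x - x)/((1 - conj b H x)(1 - conj b x))`;
`1 - conj (act g x) * act g (H x) = (1 - ‖b‖²)(1 - conj x H x)/(conj (1 - conj b x)(1 - conj b H x))` (`‖u‖ = 1`, direct expansion), `act_norm`,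
`dact g x = u (1 - ‖b‖²)/(1 - conj b x)²`.
`vf_log`: `vf H x / (x - k i) = ((H x - x)/(x - k i)) * (1 - ‖x‖²) / (1 - conj x * H x)`; the first factor has a logarithm on the frontier
(`Holes.log`), the second is positive real, the third has positive real part (`Complex.log`, slit plane); the frontier is in the disc
(`Holes.sub`, `frontier ⊆ closure`).
-/

namespace TN
open Metric Set Filter Topology DS MeasureTheory

variable {Γ : Type} [Group Γ]

theorem vf_den {H : ℂ → ℂ} {x : ℂ} (hx : ‖x‖ < 1) (hH : ‖H x‖ < 1) :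
    0 < (1 - (starRingEnd ℂ) x * H x).re := den_re hx hH.le

theorem VF_map {F : Fuchs Γ} {e : Elt Γ} (he : Norm F e) {x : ℂ} (hx : x ∈ ball (0:ℂ) 1) :
    ‖e.H x‖ < 1 := mem_ball_zero_iff.1 (he.mapB hx)

theorem VF_den {F : Fuchs Γ} {e : Elt Γ} (he : Norm F e) {x : ℂ} (hx : x ∈ ball (0:ℂ) 1) :
    1 - (starRingEnd ℂ) x * e.H x ≠ 0 := den_ne (mem_ball_zero_iff.1 hx) (VF_map he hx).le

theorem vf_cont {F : Fuchs Γ} {e : Elt Γ} (he : Norm F e) : ContinuousOn (vf e.H) (ball 0 1) := by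
  have h1 : ContinuousOn e.H (ball 0 1) := he.cont.mono ball_subset_closedBall
  have h2 : ContinuousOn (fun x : ℂ => (starRingEnd ℂ) x) (ball 0 1) :=
    Complex.continuous_conj.continuousOn
  unfold vf
  refine ContinuousOn.div (ContinuousOn.mul (h1.sub continuousOn_id) ?_)
    (continuousOn_const.sub (h2.mul h1)) fun x hx => VF_den he hx
  exact (Complex.continuous_ofReal.comp (continuous_const.sub (continuous_norm.pow 2))).continuousOn

theorem VF_sq (z : ℂ) : ((1 - ‖z‖ ^ 2 : ℝ) : ℂ) = 1 - (starRingEnd ℂ) z * z := by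
  rw [Complex.conj_mul']
  push_cast
  rfl

theorem VF_alg {u U b B x X y : ℂ} (hU : U * u = 1) (hB : 1 - B * b ≠ 0) (h1 : 1 - B * x ≠ 0)
    (h1' : 1 - b * X ≠ 0) (h2 : 1 - B * y ≠ 0) (h3 : 1 - X * y ≠ 0) :
    (u * (y - b) / (1 - B * y) - u * (x - b) / (1 - B * x)) *
      (1 - U * (X - B) / (1 - b * X) * (u * (x - b) / (1 - B * x))) /
      (1 - U * (X - B) / (1 - b * X) * (u * (y - b) / (1 - B * y))) =
    u * (1 - B * b) / (1 - B * x) ^ 2 * ((y - x) * (1 - X * x) / (1 - X * y)) := by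
  have e1 : u * (y - b) / (1 - B * y) - u * (x - b) / (1 - B * x) =
      u * (1 - B * b) * (y - x) / ((1 - B * x) * (1 - B * y)) := by
    rw [div_sub_div _ _ h2 h1, div_eq_div_iff (mul_ne_zero h2 h1) (mul_ne_zero h1 h2)]
    ring
  have e2 : ∀ w : ℂ, 1 - B * w ≠ 0 → 1 - U * (X - B) / (1 - b * X) * (u * (w - b) / (1 - B * w)) =
      (1 - B * b) * (1 - X * w) / ((1 - b * X) * (1 - B * w)) := by
    intro w hw
    have e3 : U * (X - B) / (1 - b * X) * (u * (w - b) / (1 - B * w)) =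
        (U * u) * ((X - B) * (w - b)) / ((1 - b * X) * (1 - B * w)) := by
      rw [div_mul_div_comm]
      ring
    rw [e3, hU, eq_div_iff (mul_ne_zero h1' hw), sub_mul, div_mul_cancel₀ _ (mul_ne_zero h1' hw)]
    ring
  rw [e1, e2 x h1, e2 y h2]
  generalize 1 - B * b = D at *
  generalize 1 - B * x = D1 at *
  generalize 1 - b * X = D2 at *
  generalize 1 - B * y = D3 at *
  generalize 1 - X * y = D4 at *
  field_simp

theorem vf_equi (F : Fuchs Γ) {e : Elt Γ} (he : Norm F e) (hc : ∀ g, e.θ g = g) : F.Equi (vf e.H) := by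
  intro g x hx
  have hx1 : ‖x‖ < 1 := mem_ball_zero_iff.1 hx
  have hy1 := VF_map he hx
  have e0 : e.H (F.act g x) = F.act g (e.H x) := by
    rw [he.equi g x (ball_subset_closedBall hx), hc]
  have hU : (starRingEnd ℂ) (F.u g) * F.u g = 1 := MB_uu (F.hu g)
  have hb := F.hb g
  have c1 : (starRingEnd ℂ) (F.act g x) = (starRingEnd ℂ) (F.u g) *
      ((starRingEnd ℂ) x - (starRingEnd ℂ) (F.b g)) / (1 - F.b g * (starRingEnd ℂ) x) := by
    rw [Fuchs.act, mob]
    simp only [map_div₀, map_mul, map_sub, map_one, Complex.conj_conj]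
  have n1 : 1 - (starRingEnd ℂ) (F.b g) * F.b g ≠ 0 := den_ne hb hb.le
  have n2 : 1 - (starRingEnd ℂ) (F.b g) * x ≠ 0 := den_ne hb hx1.le
  have n3 : 1 - (starRingEnd ℂ) (F.b g) * e.H x ≠ 0 := den_ne hb hy1.le
  have n4 : 1 - F.b g * (starRingEnd ℂ) x ≠ 0 := by
    rw [mul_comm]
    exact den_ne hx1 hb.le
  have n5 : 1 - (starRingEnd ℂ) x * e.H x ≠ 0 := VF_den he hx
  have key := VF_alg hU n1 n2 n4 n3 n5
  unfold vf
  rw [e0, VF_sq, VF_sq, c1, Fuchs.dact, mobD, ← key]
  rfl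

theorem vf_zero {F : Fuchs Γ} {e : Elt Γ} (he : Norm F e) {x : ℂ} (hx : x ∈ ball (0:ℂ) 1) :
    vf e.H x = 0 ↔ e.H x = x := by
  have hx1 : ‖x‖ < 1 := mem_ball_zero_iff.1 hx
  have h1 : ((1 - ‖x‖ ^ 2 : ℝ) : ℂ) ≠ 0 := by
    rw [Complex.ofReal_ne_zero]
    have : ‖x‖ ^ 2 < 1 := by
      have := norm_nonneg x
      nlinarith
    linarith
  unfold vf
  rw [div_eq_zero_iff, mul_eq_zero, sub_eq_zero]
  constructor
  · rintro ((h | h) | h)
    · exact h
    · exact absurd h h1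
    · exact absurd h (VF_den he hx)
  · intro h
    exact Or.inl (Or.inl h)

theorem vf_log (F : Fuchs Γ) {e : Elt Γ} (he : Norm F e) {m : ℕ} {O : Fin m → Set ℂ} {k : Fin m → ℂ}
    (ho : Holes F e.H ⊤ m O k) (i : Fin m) : HasLog (fun x => vf e.H x / (x - k i)) (frontier (O i)) := by
  have hfr : frontier (O i) ⊆ ball 0 1 := frontier_subset_closure.trans (ho.sub i)
  have hH : ContinuousOn e.H (frontier (O i)) := he.cont.mono (hfr.trans ball_subset_closedBall)
  have h1 : HasLog (fun x : ℂ => ((1 - ‖x‖ ^ 2 : ℝ) : ℂ)) (frontier (O i)) := by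
    refine CP_log_slit ?_ fun x hx => Or.inl ?_
    · exact (Complex.continuous_ofReal.comp
        (continuous_const.sub (continuous_norm.pow 2))).continuousOn
    · have hx1 : ‖x‖ < 1 := mem_ball_zero_iff.1 (hfr hx)
      rw [Complex.ofReal_re]
      have := norm_nonneg x
      nlinarith
  have h2 : HasLog (fun x : ℂ => 1 - (starRingEnd ℂ) x * e.H x) (frontier (O i)) := by
    refine CP_log_slit ?_ fun x hx => Or.inl ?_
    · exact continuousOn_const.sub ((Complex.continuous_conj.continuousOn).mul hH)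
    · exact vf_den (mem_ball_zero_iff.1 (hfr hx)) (VF_map he (hfr hx))
  obtain ⟨L, h3, h4⟩ := CP_log_mul (ho.log i) (CP_log_div h1 h2)
  refine ⟨L, h3, fun x hx => ?_⟩
  rw [← h4 x hx]
  unfold vf
  ring

end TN
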